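import Mathlib

/-!
From a positive proportion of every box to almost all points.
-/

set_option autoImplicit false

namespace Pool.Agent.K7.H49.ME

open Finset MeasureTheory Filter Topology
open scoped Classical

theorem ae_freq {k : ℕ} (G : ℕ → Set (Fin k → ℝ)) (hG : ∀ N, MeasurableSet (G N)) (Ω : Set (Fin k → ℝ))
    (hΩ : IsOpen Ω) (c' : ℝ) (hc' : 0 < c') (P : ℕ → Prop) (hP : ∃ᶠ N in atTop, P N)
    (h : ∀ a b : Fin k → ℝ, (∀ i, a i < b i) → Set.Icc a b ⊆ Ω → ∀ᶠ N in atTop, P N →
      c' * ∏ i, (b i - a i) ≤ (volume : Measure (Fin k → ℝ)).real (G N ∩ Set.Icc a b)) :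
    ∀ᵐ α : Fin k → ℝ, α ∈ Ω → ∃ᶠ N in atTop, P N ∧ α ∈ G N := by
  set Bs : Set (Fin k → ℝ) := {α | α ∈ Ω ∧ ¬ ∃ᶠ N in atTop, P N ∧ α ∈ G N} with hBs
  have hd := Besicovitch.ae_tendsto_measure_inter_div (volume : Measure (Fin k → ℝ)) Bs
  have hd' := ae_imp_of_ae_restrict hd
  filter_upwards [hd'] with x hx hxΩ
  by_contra hcon
  have hxB : x ∈ Bs := ⟨hxΩ, hcon⟩
  have ht := hx hxB
  have hkey : ∀ᶠ r in 𝓝[>] (0 : ℝ), volume (Bs ∩ Metric.closedBall x r) / volume (Metric.closedBall x r) ≤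
      ENNReal.ofReal (1 - c') := by
    obtain ⟨r0, hr0, hr0'⟩ := Metric.nhds_basis_closedBall.mem_iff.1 (hΩ.mem_nhds hxΩ)
    have h1 : ∀ᶠ r in 𝓝[>] (0 : ℝ), r ∈ Set.Ioc 0 r0 := Ioc_mem_nhdsGT hr0
    filter_upwards [h1] with r hr
    set Bl := Metric.closedBall x r with hBl
    have hBlΩ : Bl ⊆ Ω := (Metric.closedBall_subset_closedBall hr.2).trans hr0'
    set a : Fin k → ℝ := fun i => x i - r with ha
    set b : Fin k → ℝ := fun i => x i + r with hb
    have hIcc : Bl = Set.Icc a b := by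
      rw [hBl, closedBall_pi x hr.1.le, ← Set.pi_univ_Icc]
      simp only [Real.closedBall_eq_Icc, ha, hb]
    set V : ℝ := (2 * r) ^ k with hV
    have hV0 : 0 < V := by have := hr.1; positivity
    have hvol : volume Bl = ENNReal.ofReal V := by
      rw [hBl, Real.volume_pi_closedBall x hr.1.le, Fintype.card_fin]
    have hvolr : volume.real Bl = V := by
      unfold Measure.real; rw [hvol, ENNReal.toReal_ofReal hV0.le]
    have hprod : ∏ i, (b i - a i) = V := by
      simp only [ha, hb]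
      rw [Finset.prod_congr rfl (fun i _ => show x i + r - (x i - r) = 2 * r by ring), prod_const, Finset.card_univ,
        Fintype.card_fin]
    have hBlm : MeasurableSet Bl := Metric.isClosed_closedBall.measurableSet
    have hfin : volume Bl ≠ ⊤ := by rw [hvol]; exact ENNReal.ofReal_ne_top
    have hev := h a b (fun i => by simp only [ha, hb]; linarith [hr.1]) (by rw [← hIcc]; exact hBlΩ)
    rw [hprod, ← hIcc] at hev
    set A : ℕ → Set (Fin k → ℝ) := fun M => {α | α ∈ Bl ∧ ∀ N, M ≤ N → P N → α ∉ G N} with hA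
    have hAmono : Monotone A := by
      intro M M' hM α hα
      exact ⟨hα.1, fun N hN => hα.2 N (hM.trans hN)⟩
    have hsub : Bs ∩ Bl ⊆ ⋃ M, A M := by
      rintro α ⟨⟨h2, h3⟩, h4⟩
      rw [Filter.not_frequently] at h3
      obtain ⟨M, hM⟩ := Filter.eventually_atTop.1 h3
      rw [Set.mem_iUnion]
      exact ⟨M, h4, fun N hN hPN hGN => hM N hN ⟨hPN, hGN⟩⟩
    have hAM : ∀ M, volume (A M) ≤ ENNReal.ofReal ((1 - c') * V) := by
      intro M
      obtain ⟨N, hPN, hN1, hN2⟩ := (hP.and_eventually (hev.and (eventually_ge_atTop M))).exists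
      have h2 : A M ⊆ Bl \ G N := fun α hα => ⟨hα.1, hα.2 N hN2 hPN⟩
      have h3 : volume.real (Bl \ G N) ≤ (1 - c') * V := by
        have h4 : volume.real (Bl ∩ G N) + volume.real (Bl \ G N) = volume.real Bl :=
          measureReal_inter_add_diff (hG N) hfin
        have h5 := hN1 hPN
        rw [Set.inter_comm] at h5
        rw [hvolr] at h4
        linarith
      have h6 : volume (Bl \ G N) ≠ ⊤ := ne_top_of_le_ne_top hfin (measure_mono Set.diff_subset)
      calc volume (A M) ≤ volume (Bl \ G N) := measure_mono h2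
        _ = ENNReal.ofReal (volume.real (Bl \ G N)) := by
            unfold Measure.real; rw [ENNReal.ofReal_toReal h6]
        _ ≤ _ := ENNReal.ofReal_le_ofReal h3
    have hle : volume (Bs ∩ Bl) ≤ ENNReal.ofReal ((1 - c') * V) := by
      calc volume (Bs ∩ Bl) ≤ volume (⋃ M, A M) := measure_mono hsub
        _ = ⨆ M, volume (A M) := hAmono.measure_iUnion
        _ ≤ _ := iSup_le hAM
    rw [hvol]
    calc volume (Bs ∩ Bl) / ENNReal.ofReal V ≤ ENNReal.ofReal ((1 - c') * V) / ENNReal.ofReal V :=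
          ENNReal.div_le_div_right hle _
      _ = ENNReal.ofReal (1 - c') := by
          rw [← ENNReal.ofReal_div_of_pos hV0, mul_div_assoc, div_self hV0.ne', mul_one]
  have h1 := le_of_tendsto ht hkey
  have h2 : ENNReal.ofReal (1 - c') < 1 := by
    rw [ENNReal.ofReal_lt_one]; linarith
  exact absurd h1 (not_le.2 h2)

end Pool.Agent.K7.H49.ME
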