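import Mathlib

/-!
The pairs whose ratio has a good rational approximation.
-/

set_option autoImplicit false

namespace Pool.Agent.K7.H49.ME

open Finset
open scoped Classical

/-- `R` has a good rational approximation with a small denominator -/
def Bad (D Q : ℕ) (R : ℝ) : Prop := ∃ v : ℕ, 1 ≤ v ∧ v ≤ D ^ 6 ∧ ∃ w : ℤ, |(v : ℝ) * R - w| ≤ (D : ℝ) ^ 2 / Q

theorem diam_card (T : Finset ℕ) (Λ : ℝ) (hΛ : 0 ≤ Λ) (h : ∀ m ∈ T, ∀ m' ∈ T, m ≤ m' → (m' : ℝ) - m ≤ Λ) :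
    (T.card : ℝ) ≤ Λ + 1 := by
  rcases T.eq_empty_or_nonempty with rfl | hne
  · simp; linarith
  · set m0 := T.min' hne with hm0
    have hsub : T ⊆ Icc m0 (m0 + ⌊Λ⌋₊) := by
      intro m hm
      have h1 : m0 ≤ m := T.min'_le m hm
      have h2 := h m0 (T.min'_mem hne) m hm h1
      rw [mem_Icc]
      refine ⟨h1, ?_⟩
      have h3 : ((m - m0 : ℕ) : ℝ) ≤ Λ := by rw [Nat.cast_sub h1]; exact h2
      have h4 := Nat.le_floor h3
      omega
    have h1 := card_le_card hsub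
    rw [Nat.card_Icc] at h1
    have h2 : T.card ≤ ⌊Λ⌋₊ + 1 := by omega
    have h3 : (T.card : ℝ) ≤ ⌊Λ⌋₊ + 1 := by exact_mod_cast h2
    have h4 := Nat.floor_le hΛ
    linarith

theorem bad_count (N : ℕ) (hN : 1 ≤ N) (F C0 c1 : ℝ) (f : ℕ → ℝ) (D Q : ℕ) (hD : 2 ≤ D) (hQ : D ^ 2 ≤ Q)
    (hF : 0 < F) (hc1 : 0 < c1) (hC0 : 0 < C0)
    (h1 : ∀ n, N < n → n ≤ 2 * N → F ≤ f n ∧ f n ≤ C0 * F)
    (h2 : ∀ n m, N < n → n ≤ m → m ≤ 2 * N → c1 * F * ((m : ℝ) - n) / N ≤ f m - f n)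
    (n : ℕ) (hn : N < n) (hn2 : n ≤ 2 * N) :
    (((Ioc N (2 * N)).filter (fun m => n ≤ m ∧ Bad D Q (f m / f n))).card : ℝ) ≤
      D ^ 6 * (C0 * D ^ 6 + 3) * (2 * C0 * D ^ 2 * N / (c1 * Q) + 1) := by
  have hD0 : (0 : ℝ) < D := by exact_mod_cast (by omega : 0 < D)
  have hQr : (D : ℝ) ^ 2 ≤ Q := by exact_mod_cast hQ
  have hQ0 : (0 : ℝ) < Q := lt_of_lt_of_le (by positivity) hQr
  have hN0 : (0 : ℝ) < N := by exact_mod_cast hN
  have hfn := (h1 n hn hn2).1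
  have hfn0 : 0 < f n := hF.trans_le hfn
  have hDQ : (D : ℝ) ^ 2 / Q ≤ 1 := by rw [div_le_one hQ0]; exact hQr
  set Λ : ℝ := 2 * C0 * D ^ 2 * N / (c1 * Q) with hΛ
  have hΛ0 : 0 ≤ Λ := by positivity
  set W : ℕ := ⌊C0 * D ^ 6 + 1⌋₊ with hW
  have hWr : (W : ℝ) ≤ C0 * D ^ 6 + 1 := Nat.floor_le (by positivity)
  set T : ℕ → ℕ → Finset ℕ := fun v w => (Ioc N (2 * N)).filter (fun m => |(v : ℝ) * (f m / f n) - w| ≤ (D : ℝ) ^ 2 / Q) with hT
  have hsub : (Ioc N (2 * N)).filter (fun m => n ≤ m ∧ Bad D Q (f m / f n)) ⊆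
      (Icc 1 (D ^ 6)).biUnion (fun v => (range (W + 1)).biUnion (fun w => T v w)) := by
    intro m hm
    rw [mem_filter, mem_Ioc] at hm
    obtain ⟨⟨hm1, hm2⟩, hm3, v, hv1, hv2, w, hw⟩ := hm
    have hv0 : (1 : ℝ) ≤ v := by exact_mod_cast hv1
    have hv6 : (v : ℝ) ≤ (D : ℝ) ^ 6 := by exact_mod_cast hv2
    have hR1 : 1 ≤ f m / f n := by
      rw [one_le_div hfn0]
      have := h2 n m hn hm3 hm2
      have h3 : 0 ≤ c1 * F * ((m : ℝ) - n) / N := by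
        have : (n : ℝ) ≤ m := by exact_mod_cast hm3
        have : 0 ≤ (m : ℝ) - n := by linarith
        positivity
      linarith
    have hR2 : f m / f n ≤ C0 := by
      rw [div_le_iff₀ hfn0]
      have := (h1 m hm1 hm2).2
      nlinarith
    obtain ⟨e1, e2⟩ := abs_le.1 hw
    have e3 : 1 ≤ (v : ℝ) * (f m / f n) := by nlinarith
    have e4 : (v : ℝ) * (f m / f n) ≤ D ^ 6 * C0 := mul_le_mul hv6 hR2 (by linarith) (by positivity)
    have e5 : (0 : ℝ) ≤ w := by linarith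
    have e6 : 0 ≤ w := by exact_mod_cast e5
    obtain ⟨w', rfl⟩ := Int.eq_ofNat_of_zero_le e6
    have e7 : (w' : ℝ) ≤ C0 * D ^ 6 + 1 := by
      push_cast at e1
      linarith
    rw [mem_biUnion]
    refine ⟨v, mem_Icc.2 ⟨hv1, hv2⟩, ?_⟩
    rw [mem_biUnion]
    refine ⟨w', mem_range.2 (Nat.lt_succ_of_le (Nat.le_floor e7)), ?_⟩
    rw [hT]
    simp only [mem_filter, mem_Ioc]
    refine ⟨⟨hm1, hm2⟩, ?_⟩
    simpa using hw
  have hTc : ∀ v w : ℕ, 1 ≤ v → ((T v w).card : ℝ) ≤ Λ + 1 := by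
    intro v w hv
    have hv0 : (1 : ℝ) ≤ v := by exact_mod_cast hv
    apply diam_card _ _ hΛ0
    intro m hm m' hm' hmm
    rw [hT] at hm hm'
    simp only [mem_filter, mem_Ioc] at hm hm'
    obtain ⟨⟨a1, a2⟩, a3⟩ := hm
    obtain ⟨⟨b1, b2⟩, b3⟩ := hm'
    have c := h2 m m' a1 hmm b2
    have a4 := (abs_le.1 a3).1
    have b4 := (abs_le.1 b3).2
    have e1 : (v : ℝ) * ((f m' - f m) / f n) ≤ 2 * (D ^ 2 / Q) := by
      have : (v : ℝ) * ((f m' - f m) / f n) = v * (f m' / f n) - v * (f m / f n) := by ring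
      rw [this]; linarith
    have e2 : 0 ≤ f m' - f m := by
      have h3 : 0 ≤ c1 * F * ((m' : ℝ) - m) / N := by
        have : (m : ℝ) ≤ m' := by exact_mod_cast hmm
        have : 0 ≤ (m' : ℝ) - m := by linarith
        positivity
      linarith
    have e3 : (f m' - f m) / f n ≤ 2 * (D ^ 2 / Q) := by
      have : 0 ≤ (f m' - f m) / f n := by positivity
      nlinarith
    rw [div_le_iff₀ hfn0] at e3
    have e4 : c1 * F * ((m' : ℝ) - m) / N ≤ 2 * (D ^ 2 / Q) * (C0 * F) := by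
      refine c.trans (e3.trans ?_)
      exact mul_le_mul_of_nonneg_left (h1 n hn hn2).2 (by positivity)
    rw [div_le_iff₀ hN0] at e4
    have e5 : (c1 * F) * ((m' : ℝ) - m) ≤ (c1 * F) * Λ := by
      have : (c1 * F) * Λ = 2 * (D ^ 2 / Q) * (C0 * F) * N := by rw [hΛ]; field_simp
      rw [this]; linarith
    exact le_of_mul_le_mul_left e5 (by positivity)
  have hc := (card_le_card hsub).trans (card_biUnion_le.trans (sum_le_sum fun v _ => card_biUnion_le))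
  have hc' : (((Ioc N (2 * N)).filter (fun m => n ≤ m ∧ Bad D Q (f m / f n))).card : ℝ) ≤
      ∑ v ∈ Icc 1 (D ^ 6), ∑ w ∈ range (W + 1), ((T v w).card : ℝ) := by exact_mod_cast hc
  refine hc'.trans ?_
  calc ∑ v ∈ Icc 1 (D ^ 6), ∑ w ∈ range (W + 1), ((T v w).card : ℝ) ≤
      ∑ v ∈ Icc 1 (D ^ 6), ∑ w ∈ range (W + 1), (Λ + 1) :=
        sum_le_sum fun v hv => sum_le_sum fun w _ => hTc v w (mem_Icc.1 hv).1
    _ = D ^ 6 * ((W + 1) * (Λ + 1)) := by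
        rw [sum_const, sum_const, card_range, Nat.card_Icc, nsmul_eq_mul, nsmul_eq_mul]
        push_cast
        ring
    _ ≤ D ^ 6 * ((C0 * D ^ 6 + 3) * (Λ + 1)) := by
        apply mul_le_mul_of_nonneg_left _ (by positivity)
        apply mul_le_mul_of_nonneg_right _ (by positivity)
        linarith
    _ = _ := by ring

/-- the bound for the pairs, simplified -/
theorem simp_bound (g : ℤ) (hg : g ≠ 0) (δ : ℝ) (hδ : 0 < δ) : ∃ D0 : ℕ, ∀ D : ℕ, D0 ≤ D → 2 ≤ D →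
    ∀ f1 : ℝ, (D : ℝ) ^ 5 ≤ f1 → ∀ Q : ℕ, (Q : ℝ) * D ^ 5 ≤ f1 →
    3 / f1 * ((δ * f1 + 2) * (2 * |(g : ℝ)| / Real.log D) ^ 2 +
        D ^ 4 * (3 * ((δ * f1 + 2) + D ^ 2) / D ^ 6 + Q + 4) + 2 * D) ≤ 18 * (g : ℝ) ^ 2 * δ / Real.log D ^ 2 := by
  have h0 : Filter.Tendsto (fun x : ℝ => Real.log x ^ 2 / x) Filter.atTop (nhds 0) := by
    have := (isLittleO_log_rpow_atTop (show (0 : ℝ) < 1 / 2 by norm_num)).tendsto_div_nhds_zero
    have h1 := this.pow 2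
    rw [zero_pow two_ne_zero] at h1
    refine h1.congr' ?_
    filter_upwards [Filter.eventually_gt_atTop 0] with x hx
    rw [div_pow, ← Real.rpow_natCast (x ^ (1 / 2 : ℝ)), ← Real.rpow_mul hx.le]
    norm_num
  have h1 : ∀ᶠ x : ℝ in Filter.atTop, (3 * δ + 16) * Real.log x ^ 2 ≤ δ * x ∧ 8 ≤ δ * x := by
    have h2 := h0.eventually_lt_const (show (0 : ℝ) < δ / (3 * δ + 16) by positivity)
    filter_upwards [h2, Filter.eventually_gt_atTop 0, Filter.eventually_ge_atTop (8 / δ)] with x hx hx0 hx8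
    constructor
    · rw [div_lt_div_iff₀ hx0 (by positivity)] at hx
      linarith
    · rw [div_le_iff₀ hδ] at hx8; linarith
  obtain ⟨x0, hx0⟩ := Filter.eventually_atTop.1 h1
  refine ⟨⌈x0⌉₊, ?_⟩
  intro D hD hD2 f1 hf1 Q hQ
  have hDr : (2 : ℝ) ≤ D := by exact_mod_cast hD2
  have hD0 : (0 : ℝ) < D := by linarith
  obtain ⟨e1, e2⟩ := hx0 D ((Nat.le_ceil x0).trans (by exact_mod_cast hD))
  have hL : 0 < Real.log D := Real.log_pos (by linarith)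
  have hL2 : 0 < Real.log D ^ 2 := by positivity
  have hf0 : 0 < f1 := lt_of_lt_of_le (by positivity) hf1
  have hg2 : (1 : ℝ) ≤ (g : ℝ) ^ 2 := by
    have : 1 ≤ g ^ 2 := by
      have := sq_nonneg g
      have h3 : g ^ 2 ≠ 0 := pow_ne_zero 2 hg
      omega
    exact_mod_cast this
  have hD5 : (D : ℝ) ≤ D ^ 5 := by
    calc (D : ℝ) = D ^ 1 := (pow_one _).symm
      _ ≤ D ^ 5 := pow_le_pow_right₀ (by linarith) (by norm_num)
  have hf1D : 1 / f1 ≤ 1 / D := one_div_le_one_div_of_le hD0 (hD5.trans hf1)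
  have t1 : 3 / f1 * ((δ * f1 + 2) * (2 * |(g : ℝ)| / Real.log D) ^ 2 +
        D ^ 4 * (3 * ((δ * f1 + 2) + D ^ 2) / D ^ 6 + Q + 4) + 2 * D) =
      3 * (4 * (g : ℝ) ^ 2 * δ / Real.log D ^ 2 + 8 * (g : ℝ) ^ 2 / Real.log D ^ 2 * (1 / f1) +
        (3 * δ / D ^ 2 + 6 / D ^ 2 * (1 / f1) + 3 * (1 / f1)) + D ^ 4 * Q / f1 + 4 * D ^ 4 / f1 + 2 * D * (1 / f1)) := by
    rw [div_pow, mul_pow, sq_abs]
    field_simp
    ring
  rw [t1]
  have t2 : 8 * (g : ℝ) ^ 2 / Real.log D ^ 2 * (1 / f1) ≤ (g : ℝ) ^ 2 * δ / Real.log D ^ 2 := by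
    calc 8 * (g : ℝ) ^ 2 / Real.log D ^ 2 * (1 / f1) ≤ 8 * (g : ℝ) ^ 2 / Real.log D ^ 2 * (1 / D) :=
          mul_le_mul_of_nonneg_left hf1D (by positivity)
      _ = (g : ℝ) ^ 2 * (8 / D) / Real.log D ^ 2 := by field_simp
      _ ≤ _ := by
          apply div_le_div_of_nonneg_right _ hL2.le
          apply mul_le_mul_of_nonneg_left _ (by positivity)
          rw [div_le_iff₀ hD0]; exact e2
  have hD1 : (1 : ℝ) ≤ D := by linarith
  have i1 : 1 / (D : ℝ) ^ 2 ≤ 1 / D := one_div_le_one_div_of_le hD0 (by nlinarith)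
  have t3 : 3 * δ / D ^ 2 + 6 / D ^ 2 * (1 / f1) + 3 * (1 / f1) ≤ (3 * δ + 9) * (1 / D) := by
    have j1 : 3 * δ / D ^ 2 ≤ 3 * δ * (1 / D) := by
      calc 3 * δ / (D : ℝ) ^ 2 = 3 * δ * (1 / D ^ 2) := by ring
        _ ≤ _ := mul_le_mul_of_nonneg_left i1 (by positivity)
    have j2 : 6 / (D : ℝ) ^ 2 * (1 / f1) ≤ 6 * (1 / D) := by
      have : 6 / (D : ℝ) ^ 2 ≤ 6 := by
        rw [div_le_iff₀ (by positivity)]; nlinarith
      exact mul_le_mul this hf1D (by positivity) (by norm_num)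
    linarith
  have t4 : D ^ 4 * Q / f1 ≤ 1 / D := by
    rw [div_le_div_iff₀ hf0 hD0]
    nlinarith [hQ]
  have t5 : 4 * D ^ 4 / f1 ≤ 4 * (1 / D) := by
    have : 4 * (1 / (D : ℝ)) = 4 / D := by ring
    rw [this, div_le_div_iff₀ hf0 hD0]
    nlinarith [hf1]
  have t6 : 2 * (D : ℝ) * (1 / f1) ≤ 2 * (1 / D) := by
    have j1 : (D : ℝ) * (1 / f1) ≤ 1 / D := by
      rw [mul_one_div, div_le_div_iff₀ hf0 hD0, one_mul]
      refine le_trans ?_ hf1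
      calc (D : ℝ) * D = D ^ 2 := by ring
        _ ≤ D ^ 5 := pow_le_pow_right₀ hD1 (by norm_num)
    linarith
  have t7 : (3 * δ + 16) * (1 / D) ≤ (g : ℝ) ^ 2 * δ / Real.log D ^ 2 := by
    calc (3 * δ + 16) * (1 / (D : ℝ)) ≤ δ / Real.log D ^ 2 := by
          rw [mul_one_div, div_le_div_iff₀ hD0 hL2]; exact e1
      _ ≤ _ := by
          apply div_le_div_of_nonneg_right _ hL2.le
          nlinarith
  have t8 : 18 * (g : ℝ) ^ 2 * δ / Real.log D ^ 2 = 3 * (4 * (g : ℝ) ^ 2 * δ / Real.log D ^ 2 +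
      (g : ℝ) ^ 2 * δ / Real.log D ^ 2 + (g : ℝ) ^ 2 * δ / Real.log D ^ 2) := by ring
  rw [t8]
  linarith

end Pool.Agent.K7.H49.ME
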