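import Mathlib

/-!
Counting in residue classes along `⌊R t + ρ⌋`.
-/

set_option autoImplicit false

namespace Pool.Agent.K7.H49.ME

open Finset
open scoped Classical

theorem icc_card (lo hi : ℝ) (h : lo ≤ hi) : ((Finset.Icc ⌈lo⌉ ⌊hi⌋).card : ℝ) ≤ hi - lo + 1 := by
  rw [Int.card_Icc]
  have h1 := Int.floor_le hi
  have h2 := Int.le_ceil lo
  rcases le_or_gt 0 (⌊hi⌋ + 1 - ⌈lo⌉) with h3 | h3
  · have h4 : (((⌊hi⌋ + 1 - ⌈lo⌉).toNat : ℤ) : ℝ) = ((⌊hi⌋ + 1 - ⌈lo⌉ : ℤ) : ℝ) := by rw [Int.toNat_of_nonneg h3]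
    have h5 : ((⌊hi⌋ + 1 - ⌈lo⌉).toNat : ℝ) = ((⌊hi⌋ + 1 - ⌈lo⌉ : ℤ) : ℝ) := by
      rw [← h4]; exact (Int.cast_natCast _).symm
    rw [h5]
    push_cast
    linarith
  · rw [Int.toNat_of_nonpos h3.le]
    push_cast
    linarith

/-- a block of the rotation by `θ` -/
theorem block (θ c y h : ℝ) (hh : 0 ≤ h) (v : ℕ) (hv : 1 ≤ v) (u : ℤ) (hc : IsCoprime u (v : ℤ))
    (hθ : |(v : ℝ) * θ - u| ≤ 1 / v) :
    (((range v).filter (fun i : ℕ => ∃ m : ℤ, y ≤ c + i * θ - m ∧ c + i * θ - m < y + h)).card : ℝ) ≤ v * h + 3 := by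
  have hv0 : (0 : ℝ) < v := by exact_mod_cast (by omega : 0 < v)
  set S := (range v).filter (fun i : ℕ => ∃ m : ℤ, y ≤ c + i * θ - m ∧ c + i * θ - m < y + h) with hS
  have hex : ∀ i ∈ S, ∃ m : ℤ, y ≤ c + i * θ - m ∧ c + i * θ - m < y + h := fun i hi => (mem_filter.1 hi).2
  choose! m hm using hex
  have hmaps : ∀ i ∈ S, (i : ℤ) * u - v * m i ∈ Finset.Icc ⌈(v : ℝ) * (y - c) - 1⌉ ⌊(v : ℝ) * (y + h - c) + 1⌋ := by
    intro i hi
    obtain ⟨h1, h2⟩ := hm i hi
    have hi1 : (i : ℝ) < v := by exact_mod_cast (mem_range.1 (mem_filter.1 hi).1)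
    have hi0 : (0 : ℝ) ≤ i := Nat.cast_nonneg i
    have h3 : |(i : ℝ) * (v * θ - u)| ≤ 1 := by
      rw [abs_mul, abs_of_nonneg hi0]
      calc (i : ℝ) * |(v : ℝ) * θ - u| ≤ v * (1 / v) := by
            apply mul_le_mul hi1.le hθ (abs_nonneg _) hv0.le
        _ = 1 := by field_simp
    obtain ⟨h4, h5⟩ := abs_le.1 h3
    have h6 := mul_le_mul_of_nonneg_left h1 hv0.le
    have h7 := mul_le_mul_of_nonneg_left h2.le hv0.le
    rw [Finset.mem_Icc]
    constructor
    · apply Int.ceil_le.2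
      push_cast
      nlinarith
    · apply Int.le_floor.2
      push_cast
      nlinarith
  have hinj : Set.InjOn (fun i : ℕ => (i : ℤ) * u - v * m i) (S : Set ℕ) := by
    intro i hi j hj hij
    have hi1 := mem_range.1 (mem_filter.1 (mem_coe.1 hi)).1
    have hj1 := mem_range.1 (mem_filter.1 (mem_coe.1 hj)).1
    have h1 : (v : ℤ) ∣ u * ((i : ℤ) - j) := by
      refine ⟨m i - m j, ?_⟩
      have : (i : ℤ) * u - v * m i = (j : ℤ) * u - v * m j := hij
      linarith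
    have h2 : (v : ℤ) ∣ (i : ℤ) - j := hc.symm.dvd_of_dvd_mul_left h1
    have h3 : |(i : ℤ) - j| < v := by
      rw [abs_lt]; constructor <;> omega
    have h4 := Int.eq_zero_of_abs_lt_dvd h2 h3
    omega
  have hcard := Finset.card_le_card_of_injOn _ hmaps hinj
  have hcard' : (S.card : ℝ) ≤ ((Finset.Icc ⌈(v : ℝ) * (y - c) - 1⌉ ⌊(v : ℝ) * (y + h - c) + 1⌋).card : ℝ) := by
    exact_mod_cast hcard
  have h8 := icc_card ((v : ℝ) * (y - c) - 1) ((v : ℝ) * (y + h - c) + 1) (by nlinarith [mul_nonneg hv0.le hh])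
  linarith

/-- the number of `t < T` with `c + t θ` in the arc `[y, y + h)` -/
noncomputable def arc (θ c y h : ℝ) (T : ℕ) : ℝ :=
  ∑ t ∈ range T, if (∃ m : ℤ, y ≤ c + t * θ - m ∧ c + t * θ - m < y + h) then (1 : ℝ) else 0

theorem arc_mono (θ c y h : ℝ) {T T' : ℕ} (hT : T ≤ T') : arc θ c y h T ≤ arc θ c y h T' := by
  unfold arc
  apply Finset.sum_le_sum_of_subset_of_nonneg (range_mono hT)
  intro i _ _
  split_ifs <;> norm_num

theorem arc_blocks (θ c y h : ℝ) (hh : 0 ≤ h) (v : ℕ) (hv : 1 ≤ v) (u : ℤ) (hc : IsCoprime u (v : ℤ))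
    (hθ : |(v : ℝ) * θ - u| ≤ 1 / v) (K : ℕ) : arc θ c y h (v * K) ≤ K * (v * h + 3) := by
  induction K with
  | zero => unfold arc; simp
  | succ K ih =>
    have h1 : arc θ c y h (v * (K + 1)) = arc θ c y h (v * K) + arc θ (c + (v * K : ℕ) * θ) y h v := by
      unfold arc
      rw [Nat.mul_succ, sum_range_add]
      congr 1
      apply sum_congr rfl
      intro i _
      have : ∀ m : ℤ, c + ((v * K + i : ℕ) : ℝ) * θ - m = c + ((v * K : ℕ) : ℝ) * θ + i * θ - m := by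
        intro m; push_cast; ring
      simp only [this]
    have h2 := block θ (c + (v * K : ℕ) * θ) y h hh v hv u hc hθ
    have h3 : arc θ (c + (v * K : ℕ) * θ) y h v = (((range v).filter (fun i : ℕ => ∃ m : ℤ, y ≤ c + (v * K : ℕ) * θ + i * θ - m ∧ c + (v * K : ℕ) * θ + i * θ - m < y + h)).card : ℝ) := by
      unfold arc
      rw [Finset.sum_ite, sum_const_zero, add_zero, sum_const, nsmul_eq_mul, mul_one]
    rw [h1, h3]
    push_cast at h2 ⊢
    linarith

theorem arc_upper (θ c y h : ℝ) (hh : 0 ≤ h) (hh1 : h ≤ 1) (v : ℕ) (hv : 1 ≤ v) (u : ℤ) (hc : IsCoprime u (v : ℤ))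
    (hθ : |(v : ℝ) * θ - u| ≤ 1 / v) (T : ℕ) : arc θ c y h T ≤ T * h + 3 * (T / v) + v + 3 := by
  have hv0 : (0 : ℝ) < v := by exact_mod_cast (by omega : 0 < v)
  have h1 : T ≤ v * (T / v + 1) := by
    have := Nat.div_add_mod T v
    have := Nat.mod_lt T (show 0 < v by omega)
    rw [Nat.mul_add]
    omega
  have h2 := arc_mono θ c y h h1
  have h3 := arc_blocks θ c y h hh v hv u hc hθ (T / v + 1)
  have h4 : ((T / v : ℕ) : ℝ) ≤ (T : ℝ) / v := Nat.cast_div_le
  have h5 : ((T / v + 1 : ℕ) : ℝ) * (v * h + 3) ≤ ((T : ℝ) / v + 1) * (v * h + 3) := by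
    apply mul_le_mul_of_nonneg_right
    · push_cast; linarith
    · positivity
  have h6 : ((T : ℝ) / v + 1) * (v * h + 3) = T * h + 3 * (T / v) + v * h + 3 := by
    have e : (T : ℝ) / v * v = T := div_mul_cancel₀ _ hv0.ne'
    linear_combination h * e
  have h7 : (v : ℝ) * h ≤ v := by nlinarith
  linarith

theorem arc_near (θ c y h : ℝ) (hh : 0 ≤ h) (hh1 : h ≤ 1) (v : ℕ) (hv : 1 ≤ v) (u : ℤ) (hc : IsCoprime u (v : ℤ))
    (hθ : |(v : ℝ) * θ - u| ≤ 1 / v) (T : ℕ) : |arc θ c y h T - T * h| ≤ 3 * (T / v) + v + 3 := by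
  have h1 := arc_upper θ c y h hh hh1 v hv u hc hθ T
  have h2 := arc_upper θ c (y + h) (1 - h) (by linarith) (by linarith) v hv u hc hθ T
  have h3 : (T : ℝ) ≤ arc θ c y h T + arc θ c (y + h) (1 - h) T := by
    unfold arc
    rw [← sum_add_distrib]
    calc (T : ℝ) = ∑ t ∈ range T, (1 : ℝ) := by simp
      _ ≤ _ := by
        apply sum_le_sum
        intro t _
        set x := c + (t : ℝ) * θ with hx
        have e1 := Int.floor_le (x - y)
        have e2 := Int.lt_floor_add_one (x - y)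
        by_cases e3 : x - ⌊x - y⌋ < y + h
        · rw [if_pos (⟨⌊x - y⌋, by linarith, e3⟩ : ∃ m : ℤ, y ≤ x - m ∧ x - m < y + h)]
          split_ifs <;> norm_num
        · rw [if_pos (⟨⌊x - y⌋, by linarith, by linarith⟩ : ∃ m : ℤ, y + h ≤ x - m ∧ x - m < y + h + (1 - h))]
          split_ifs <;> norm_num
  rw [abs_le]
  constructor <;> nlinarith

theorem class_nat (g x : ℤ) (D : ℕ) (hD : 0 < D) (hc : IsCoprime g (D : ℤ)) :
    ∃ r : ℕ, r < D ∧ ∀ z : ℤ, ((D : ℤ) ∣ x + g * z ↔ ∃ m : ℤ, z = r + m * D) := by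
  obtain ⟨a, b, hab⟩ := hc
  have hD' : (D : ℤ) ≠ 0 := by exact_mod_cast hD.ne'
  refine ⟨((-(a * x)) % D).toNat, ?_, ?_⟩
  · have h1 := Int.emod_nonneg (-(a * x)) hD'
    have h2 := Int.emod_lt_of_pos (-(a * x)) (by exact_mod_cast hD : (0 : ℤ) < D)
    omega
  · intro z
    have h1 := Int.emod_nonneg (-(a * x)) hD'
    rw [Int.toNat_of_nonneg h1]
    have h2 := Int.emod_add_mul_ediv (-(a * x)) D
    constructor
    · rintro ⟨w, hw⟩
      refine ⟨(-(a * x)) / D + (a * w + b * z), ?_⟩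
      have h3 : z = a * g * z + b * D * z := by
        calc z = (a * g + b * D) * z := by rw [hab, one_mul]
          _ = _ := by ring
      have h4 : a * (g * z) = a * (D * w) - a * x := by rw [← hw]; ring
      linear_combination h3 + h4 - h2
    · rintro ⟨m, hm⟩
      have h3 : z = -(a * x) + (m - (-(a * x)) / D) * D := by linear_combination hm + h2
      rw [h3]
      refine ⟨b * x + g * (m - (-(a * x)) / D), ?_⟩
      linear_combination (-x) * hab

theorem cls (X : ℕ) (R ρ : ℝ) (g x y : ℤ) (D1 D2 : ℕ) (h1 : 0 < D1) (h2 : 0 < D2)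
    (c1 : IsCoprime g (D1 : ℤ)) (c2 : IsCoprime g (D2 : ℤ)) (v : ℕ) (hv : 1 ≤ v) (u : ℤ)
    (hc : IsCoprime u (v : ℤ)) (hθ : |(v : ℝ) * (R * D1 / D2) - u| ≤ 1 / v) :
    |(((range X).filter (fun t : ℕ => (D1 : ℤ) ∣ x + g * t ∧ (D2 : ℤ) ∣ y + g * ⌊R * t + ρ⌋)).card : ℝ) -
      X / (D1 * D2)| ≤ 3 * ((X / D1 + 1) / v) + v + 4 := by
  obtain ⟨r, hr, hr'⟩ := class_nat g x D1 h1 c1
  obtain ⟨s, hs, hs'⟩ := class_nat g y D2 h2 c2
  have hD1 : (0 : ℝ) < D1 := by exact_mod_cast h1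
  have hD2 : (0 : ℝ) < D2 := by exact_mod_cast h2
  have hv0 : (0 : ℝ) < v := by exact_mod_cast (by omega : 0 < v)
  set T : ℕ := (X + D1 - 1 - r) / D1 with hT
  have hTiff : ∀ t' : ℕ, t' < T ↔ r + D1 * t' < X := by
    intro t'
    rw [hT, Nat.lt_iff_add_one_le, Nat.le_div_iff_mul_le h1]
    have : (t' + 1) * D1 = D1 * t' + D1 := by ring
    rw [this]
    omega
  set c : ℝ := (R * r + ρ) / D2 with hcdef
  set θ : ℝ := R * D1 / D2 with hθdef
  have hcard : (((range X).filter (fun t : ℕ => (D1 : ℤ) ∣ x + g * t ∧ (D2 : ℤ) ∣ y + g * ⌊R * t + ρ⌋)).card : ℝ) =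
      arc θ c (s / D2) (1 / D2) T := by
    have himg : (range X).filter (fun t : ℕ => (D1 : ℤ) ∣ x + g * t ∧ (D2 : ℤ) ∣ y + g * ⌊R * t + ρ⌋) =
        ((range T).filter (fun t' : ℕ => ∃ m : ℤ, (s : ℝ) / D2 ≤ c + t' * θ - m ∧ c + t' * θ - m < s / D2 + 1 / D2)).image
          (fun t' : ℕ => r + D1 * t') := by
      ext t
      rw [mem_filter, mem_image, mem_range]
      have hkey : ∀ t' : ℕ, (∃ m : ℤ, (s : ℝ) / D2 ≤ c + t' * θ - m ∧ c + t' * θ - m < s / D2 + 1 / D2) ↔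
          (D2 : ℤ) ∣ y + g * ⌊R * ((r + D1 * t' : ℕ) : ℝ) + ρ⌋ := by
        intro t'
        rw [hs' ⌊R * ((r + D1 * t' : ℕ) : ℝ) + ρ⌋]
        apply exists_congr
        intro m
        have e1 : c + t' * θ - m = (R * ((r + D1 * t' : ℕ) : ℝ) + ρ - m * D2) / D2 := by
          rw [hcdef, hθdef]; push_cast; field_simp; ring
        have e2 : (s : ℝ) / D2 + 1 / D2 = (s + 1) / D2 := by ring
        rw [e1, e2, div_le_div_iff_of_pos_right hD2, div_lt_div_iff_of_pos_right hD2, Int.floor_eq_iff]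
        push_cast
        constructor
        · rintro ⟨e3, e4⟩; constructor <;> linarith
        · rintro ⟨e3, e4⟩; constructor <;> linarith
      constructor
      · rintro ⟨e1, e2, e3⟩
        obtain ⟨m, hm⟩ := (hr' t).1 e2
        have hm0 : 0 ≤ m := by
          by_contra hneg
          have : m ≤ -1 := by omega
          have h5 : (m : ℤ) * D1 ≤ (-1) * D1 := mul_le_mul_of_nonneg_right this (by positivity)
          have h6 : (r : ℤ) < D1 := by exact_mod_cast hr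
          have h7 : (0 : ℤ) ≤ t := by positivity
          linarith
        obtain ⟨t', rfl⟩ := Int.eq_ofNat_of_zero_le hm0
        have ht : t = r + D1 * t' := by
          zify
          rw [hm]
          ring
        refine ⟨t', ?_, ht.symm⟩
        rw [mem_filter, mem_range, hTiff, hkey, ← ht]
        exact ⟨e1, e3⟩
      · rintro ⟨t', ht', rfl⟩
        rw [mem_filter, mem_range, hTiff, hkey] at ht'
        refine ⟨ht'.1, ?_, ht'.2⟩
        rw [hr']
        exact ⟨t', by push_cast; ring⟩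
    rw [himg, card_image_of_injective]
    · unfold arc
      rw [Finset.sum_ite, sum_const_zero, add_zero, sum_const, nsmul_eq_mul, mul_one]
    · intro a b hab
      have : D1 * a = D1 * b := by
        have : r + D1 * a = r + D1 * b := hab
        omega
      exact Nat.eq_of_mul_eq_mul_left h1 this
  have hD2' : (1 : ℝ) / D2 ≤ 1 := by
    rw [div_le_one hD2]; exact_mod_cast h2
  have hmain := arc_near θ c (s / D2) (1 / D2) (by positivity) hD2' v hv u hc hθ T
  have hT1 : (T : ℝ) ≤ X / D1 + 1 := by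
    have e1 : (T : ℝ) ≤ ((X + D1 - 1 - r : ℕ) : ℝ) / D1 := Nat.cast_div_le
    have e2 : ((X + D1 - 1 - r : ℕ) : ℝ) ≤ X + D1 := by
      have : X + D1 - 1 - r ≤ X + D1 := by omega
      exact_mod_cast this
    calc (T : ℝ) ≤ _ := e1
      _ ≤ (X + D1) / D1 := div_le_div_of_nonneg_right e2 hD1.le
      _ = X / D1 + 1 := by field_simp
  have hT2 : (X : ℝ) / D1 - 1 ≤ T := by
    have e1 : X ≤ D1 * T + r := by
      by_contra hcon
      push Not at hcon
      have := (hTiff T).2 (by omega)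
      omega
    have e2 : (X : ℝ) ≤ D1 * T + D1 := by
      have : X ≤ D1 * T + D1 := by omega
      exact_mod_cast this
    have e3 : (X : ℝ) / D1 ≤ T + 1 := by
      rw [div_le_iff₀ hD1]; linarith
    linarith
  rw [hcard]
  have e4 : |(T : ℝ) * (1 / D2) - X / (D1 * D2)| ≤ 1 := by
    have : (T : ℝ) * (1 / D2) - X / (D1 * D2) = (T - X / D1) * (1 / D2) := by field_simp
    rw [this, abs_mul, abs_of_nonneg (by positivity : (0 : ℝ) ≤ 1 / D2)]
    have e5 : |(T : ℝ) - X / D1| ≤ 1 := by rw [abs_le]; constructor <;> linarith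
    calc _ ≤ (1 : ℝ) * 1 := mul_le_mul e5 hD2' (by positivity) zero_le_one
      _ = 1 := one_mul 1
  have e6 : (T : ℝ) / v ≤ (X / D1 + 1) / v := div_le_div_of_nonneg_right hT1 hv0.le
  have e7 : arc θ c (s / D2) (1 / D2) T - X / (D1 * D2) =
      (arc θ c (s / D2) (1 / D2) T - T * (1 / D2)) + (T * (1 / D2) - X / (D1 * D2)) := by ring
  rw [e7]
  refine (abs_add_le _ _).trans ?_
  linarith

end Pool.Agent.K7.H49.ME
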