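import Mathlib
import Pool.Agent.H376R2.MR.Selw
import Pool.Agent.K7.H49.ME.Rot

/-!
An upper bound sieve for pairs `x + g t`, `y + g ⌊R t + ρ⌋`.
-/

set_option autoImplicit false

namespace Pool.Agent.K7.H49.ME

open Finset
open scoped Classical

/-- the pairs of moduli -/
def PQ (D : ℕ) : Finset (ℕ × ℕ) := Icc 1 D ×ˢ Icc 1 D

/-- the least common multiple -/
def mm (p : ℕ × ℕ) : ℕ := Nat.lcm p.1 p.2

/-- the sieve weight -/
noncomputable def WW (l : ℕ → ℝ) (D : ℕ) (z : ℤ) : ℝ := ∑ d ∈ Icc 1 D, if (d : ℤ) ∣ z then l d else 0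

theorem mm_dvd (p : ℕ × ℕ) (z : ℤ) : (mm p : ℤ) ∣ z ↔ (p.1 : ℤ) ∣ z ∧ (p.2 : ℤ) ∣ z := by
  unfold mm
  rw [Int.natCast_dvd, Int.natCast_dvd, Int.natCast_dvd, Nat.lcm_dvd_iff]

theorem mm_pos {D : ℕ} {p : ℕ × ℕ} (hp : p ∈ PQ D) : 0 < mm p := by
  unfold PQ at hp
  rw [mem_product, mem_Icc, mem_Icc] at hp
  exact Nat.lcm_pos (by omega) (by omega)

theorem mm_le {D : ℕ} {p : ℕ × ℕ} (hp : p ∈ PQ D) : mm p ≤ D ^ 2 := by
  unfold PQ at hp
  rw [mem_product, mem_Icc, mem_Icc] at hp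
  unfold mm
  calc Nat.lcm p.1 p.2 ≤ p.1 * p.2 := Nat.le_of_dvd (Nat.mul_pos (by omega) (by omega)) (Nat.lcm_dvd_mul _ _)
    _ ≤ D * D := Nat.mul_le_mul (by omega) (by omega)
    _ = D ^ 2 := by ring

theorem WW_sq (l : ℕ → ℝ) (D : ℕ) (z : ℤ) :
    WW l D z ^ 2 = ∑ p ∈ PQ D, l p.1 * l p.2 * (if (mm p : ℤ) ∣ z then 1 else 0) := by
  unfold WW PQ
  rw [sq, sum_mul_sum, sum_product]
  apply sum_congr rfl
  intro d _
  apply sum_congr rfl
  intro e _
  have h := mm_dvd (d, e) z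
  by_cases h1 : (d : ℤ) ∣ z
  · by_cases h2 : (e : ℤ) ∣ z
    · rw [if_pos h1, if_pos h2, if_pos (h.2 ⟨h1, h2⟩), mul_one]
    · rw [if_neg h2, if_neg (fun h3 => h2 (h.1 h3).2), mul_zero, mul_zero]
  · rw [if_neg h1, if_neg (fun h3 => h1 (h.1 h3).1), zero_mul, mul_zero]

/-- the arithmetic progressions -/
theorem ap_count (X : ℕ) (g x : ℤ) (D1 : ℕ) (h1 : 0 < D1) (c1 : IsCoprime g (D1 : ℤ)) :
    |(((range X).filter (fun t : ℕ => (D1 : ℤ) ∣ x + g * t)).card : ℝ) - X / D1| ≤ 1 := by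
  obtain ⟨r, hr, hr'⟩ := class_nat g x D1 h1 c1
  have hD1 : (0 : ℝ) < D1 := by exact_mod_cast h1
  set T : ℕ := (X + D1 - 1 - r) / D1 with hT
  have hTiff : ∀ t' : ℕ, t' < T ↔ r + D1 * t' < X := by
    intro t'
    rw [hT, Nat.lt_iff_add_one_le, Nat.le_div_iff_mul_le h1]
    have : (t' + 1) * D1 = D1 * t' + D1 := by ring
    rw [this]
    omega
  have hcard : ((range X).filter (fun t : ℕ => (D1 : ℤ) ∣ x + g * t)).card = T := by
    have himg : (range X).filter (fun t : ℕ => (D1 : ℤ) ∣ x + g * t) =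
        (range T).image (fun t' : ℕ => r + D1 * t') := by
      ext t
      rw [mem_filter, mem_image, mem_range]
      constructor
      · rintro ⟨e1, e2⟩
        obtain ⟨m, hm⟩ := (hr' t).1 e2
        have hm0 : 0 ≤ m := by
          by_contra hneg
          have : m ≤ -1 := by omega
          have h5 : (m : ℤ) * D1 ≤ (-1) * D1 := mul_le_mul_of_nonneg_right this (by positivity)
          have h6 : (r : ℤ) < D1 := by exact_mod_cast hr
          have h7 : (0 : ℤ) ≤ t := by positivity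
          linarith
        obtain ⟨t', rfl⟩ := Int.eq_ofNat_of_zero_le hm0
        have ht : t = r + D1 * t' := by
          zify
          rw [hm]
          ring
        refine ⟨t', ?_, ht.symm⟩
        rw [mem_range, hTiff, ← ht]
        exact e1
      · rintro ⟨t', ht', rfl⟩
        rw [mem_range, hTiff] at ht'
        refine ⟨ht', ?_⟩
        rw [hr']
        exact ⟨t', by push_cast; ring⟩
    rw [himg, card_image_of_injective, card_range]
    intro a b hab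
    have : D1 * a = D1 * b := by
      have : r + D1 * a = r + D1 * b := hab
      omega
    exact Nat.eq_of_mul_eq_mul_left h1 this
  rw [hcard]
  have hT1 : (T : ℝ) ≤ X / D1 + 1 := by
    have e1 : (T : ℝ) ≤ ((X + D1 - 1 - r : ℕ) : ℝ) / D1 := Nat.cast_div_le
    have e2 : ((X + D1 - 1 - r : ℕ) : ℝ) ≤ X + D1 := by
      have : X + D1 - 1 - r ≤ X + D1 := by omega
      exact_mod_cast this
    calc (T : ℝ) ≤ _ := e1
      _ ≤ (X + D1) / D1 := div_le_div_of_nonneg_right e2 hD1.le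
      _ = X / D1 + 1 := by field_simp
  have hT2 : (X : ℝ) / D1 - 1 ≤ T := by
    have e1 : X ≤ D1 * T + r := by
      by_contra hcon
      push Not at hcon
      have := (hTiff T).2 (by omega)
      omega
    have e2 : (X : ℝ) ≤ D1 * T + D1 := by
      have : X ≤ D1 * T + D1 := by omega
      exact_mod_cast this
    have e3 : (X : ℝ) / D1 ≤ T + 1 := by
      rw [div_le_iff₀ hD1]; linarith
    linarith
  rw [abs_le]; constructor <;> linarith

/-- no solutions if the modulus is not coprime to `g` -/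
theorem not_dvd (g x z : ℤ) (m : ℕ) (hx : IsCoprime x g) (hm : ¬ IsCoprime g (m : ℤ)) : ¬ (m : ℤ) ∣ x + g * z := by
  intro h
  apply hm
  have h1 : IsCoprime (x + g * z) g := hx.add_mul_left_left z
  exact (h1.of_isCoprime_of_dvd_left h).symm

/-- the form over the pairs with moduli coprime to `g` -/
noncomputable def QG (l : ℕ → ℝ) (D : ℕ) (g : ℤ) : ℝ :=
  ∑ p ∈ PQ D, l p.1 * l p.2 * (if IsCoprime g (mm p : ℤ) then 1 / (mm p : ℝ) else 0)

theorem card_PQ (D : ℕ) : ((PQ D).card : ℝ) = (D : ℝ) ^ 2 := by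
  unfold PQ; rw [card_product, Nat.card_Icc, Nat.add_sub_cancel]; push_cast; ring

theorem sum_ap (l : ℕ → ℝ) (hl : ∀ d, |l d| ≤ 1) (D : ℕ) (g x : ℤ) (hx : IsCoprime x g) (X : ℕ) :
    |∑ t ∈ range X, WW l D (x + g * t) ^ 2 - X * QG l D g| ≤ D ^ 2 := by
  have h1 : ∑ t ∈ range X, WW l D (x + g * t) ^ 2 =
      ∑ p ∈ PQ D, l p.1 * l p.2 * (((range X).filter (fun t : ℕ => (mm p : ℤ) ∣ x + g * t)).card : ℝ) := by
    simp_rw [WW_sq]
    rw [sum_comm]
    apply sum_congr rfl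
    intro p _
    rw [← mul_sum]
    congr 1
    rw [sum_ite, sum_const_zero, add_zero, sum_const, nsmul_eq_mul, mul_one]
  rw [h1]
  unfold QG
  rw [mul_sum, ← sum_sub_distrib]
  refine (abs_sum_le_sum_abs _ _).trans ?_
  have hcc : (D : ℝ) ^ 2 = ∑ _p ∈ PQ D, (1 : ℝ) := by rw [sum_const, nsmul_eq_mul, mul_one, card_PQ]
  rw [hcc]
  apply sum_le_sum
  intro p hp
  have e1 : l p.1 * l p.2 * (((range X).filter (fun t : ℕ => (mm p : ℤ) ∣ x + g * t)).card : ℝ) -
      X * (l p.1 * l p.2 * (if IsCoprime g (mm p : ℤ) then 1 / (mm p : ℝ) else 0)) =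
      l p.1 * l p.2 * ((((range X).filter (fun t : ℕ => (mm p : ℤ) ∣ x + g * t)).card : ℝ) -
        (if IsCoprime g (mm p : ℤ) then (X : ℝ) / (mm p : ℝ) else 0)) := by
    split_ifs <;> ring
  rw [e1, abs_mul, abs_mul]
  have e2 : |l p.1| * |l p.2| ≤ 1 := by
    calc |l p.1| * |l p.2| ≤ 1 * 1 := mul_le_mul (hl _) (hl _) (abs_nonneg _) zero_le_one
      _ = 1 := one_mul 1
  have e3 : |(((range X).filter (fun t : ℕ => (mm p : ℤ) ∣ x + g * t)).card : ℝ) -
        (if IsCoprime g (mm p : ℤ) then (X : ℝ) / (mm p : ℝ) else 0)| ≤ 1 := by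
    split_ifs with h
    · exact ap_count X g x (mm p) (mm_pos hp) h
    · rw [filter_false_of_mem]
      · simp
      · intro t _
        exact not_dvd g x t (mm p) hx h
  calc _ ≤ (1 : ℝ) * 1 := mul_le_mul e2 e3 (abs_nonneg _) zero_le_one
    _ = 1 := one_mul 1

theorem QG_nonneg (l : ℕ → ℝ) (hl : ∀ d, |l d| ≤ 1) (D : ℕ) (g : ℤ) : 0 ≤ QG l D g := by
  by_contra hneg
  push Not at hneg
  obtain ⟨K, hK⟩ := exists_nat_gt ((D : ℝ) ^ 2 / (-QG l D g))
  have h1 := sum_ap l hl D g 1 isCoprime_one_left K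
  have h2 : 0 ≤ ∑ t ∈ range K, WW l D (1 + g * t) ^ 2 := sum_nonneg fun _ _ => sq_nonneg _
  have h3 := (abs_le.1 h1).2
  rw [div_lt_iff₀ (by linarith)] at hK
  linarith

theorem QG_le (l : ℕ → ℝ) (hl : ∀ d, |l d| ≤ 1) (D : ℕ) (g : ℤ) (hg : g ≠ 0) :
    QG l D g ≤ 2 * |(g : ℝ)| * QG l D 1 := by
  by_contra hneg
  push Not at hneg
  set Q := QG l D 1 with hQ
  set G : ℕ := g.natAbs with hG
  have hGr : (G : ℝ) = |(g : ℝ)| := by
    rw [hG, Nat.cast_natAbs, Int.cast_abs]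
  have hG1 : 1 ≤ G := Nat.one_le_iff_ne_zero.2 (Int.natAbs_ne_zero.2 hg)
  obtain ⟨K, hK⟩ := exists_nat_gt ((3 * Q + 2 * (D : ℝ) ^ 2) / (QG l D g - 2 * |(g : ℝ)| * Q))
  rw [div_lt_iff₀ (by linarith)] at hK
  have h1 := sum_ap l hl D g 1 isCoprime_one_left K
  have h2 := sum_ap l hl D 1 (-(G * K + 1 : ℕ)) isCoprime_one_right (2 * G * K + 3)
  have h3 : ∑ t ∈ range K, WW l D (1 + g * t) ^ 2 ≤
      ∑ t ∈ range (2 * G * K + 3), WW l D (-((G * K + 1 : ℕ) : ℤ) + 1 * t) ^ 2 := by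
    have hinj : ∀ t ∈ range K, ((1 + g * t) + ((G * K + 1 : ℕ) : ℤ)).toNat ∈ range (2 * G * K + 3) ∧
        ((((1 + g * t) + ((G * K + 1 : ℕ) : ℤ)).toNat : ℕ) : ℤ) = (1 + g * t) + ((G * K + 1 : ℕ) : ℤ) := by
      intro t ht
      rw [mem_range] at ht
      have e1 : |g * (t : ℤ)| ≤ G * K := by
        rw [abs_mul, Int.abs_eq_natAbs, ← hG]
        have : |(t : ℤ)| ≤ K := by rw [abs_of_nonneg (by positivity)]; exact_mod_cast ht.le
        exact mul_le_mul_of_nonneg_left this (by positivity)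
      obtain ⟨e2, e3⟩ := abs_le.1 e1
      have e4 : (0 : ℤ) ≤ (1 + g * t) + ((G * K + 1 : ℕ) : ℤ) := by push_cast; linarith
      have e5 := Int.toNat_of_nonneg e4
      refine ⟨?_, e5⟩
      rw [mem_range]
      have e6 : ((((1 + g * t) + ((G * K + 1 : ℕ) : ℤ)).toNat : ℕ) : ℤ) < ((2 * G * K + 3 : ℕ) : ℤ) := by
        rw [e5]
        push_cast
        linarith
      exact_mod_cast e6
    have hval : ∑ t ∈ range K, WW l D (1 + g * t) ^ 2 = ∑ t ∈ range K,
        WW l D (-((G * K + 1 : ℕ) : ℤ) + 1 * ((((1 + g * t) + ((G * K + 1 : ℕ) : ℤ)).toNat : ℕ) : ℤ)) ^ 2 := by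
      apply sum_congr rfl
      intro t ht
      rw [(hinj t ht).2]
      congr 2
      ring
    rw [hval]
    rw [← sum_image (f := fun s : ℕ => WW l D (-((G * K + 1 : ℕ) : ℤ) + 1 * (s : ℤ)) ^ 2)
      (g := fun t : ℕ => ((1 + g * t) + ((G * K + 1 : ℕ) : ℤ)).toNat)]
    · apply sum_le_sum_of_subset_of_nonneg
      · intro s hs
        rw [mem_image] at hs
        obtain ⟨t, ht, rfl⟩ := hs
        exact (hinj t ht).1
      · intro _ _ _
        exact sq_nonneg _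
    · intro a ha b hb hab
      have ea := (hinj a ha).2
      have eb := (hinj b hb).2
      have hab' : ((((1 + g * a) + ((G * K + 1 : ℕ) : ℤ)).toNat : ℕ) : ℤ) = ((((1 + g * b) + ((G * K + 1 : ℕ) : ℤ)).toNat : ℕ) : ℤ) := by
        exact_mod_cast hab
      rw [ea, eb] at hab'
      have : g * a = g * b := by linarith
      have := mul_left_cancel₀ hg this
      exact_mod_cast this
  have h4 := (abs_le.1 h1).1
  have h5 := (abs_le.1 h2).2
  rw [← hQ] at h5
  rw [← hGr] at hK hneg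
  push_cast at h5 h3 h4
  push_cast at h3
  nlinarith

theorem QG_one (l : ℕ → ℝ) (D : ℕ) :
    QG l D 1 = ∑ d ∈ Icc 1 D, ∑ e ∈ Icc 1 D, l d * l e / (Nat.lcm d e : ℝ) := by
  unfold QG PQ
  rw [sum_product]
  apply sum_congr rfl
  intro d _
  apply sum_congr rfl
  intro e _
  rw [if_pos isCoprime_one_left]
  unfold mm
  ring

end Pool.Agent.K7.H49.ME
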