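import Mathlib
import Pool.Agent.K7.H49.ME.Form

/-!
The upper bound sieve for pairs.
-/

set_option autoImplicit false

namespace Pool.Agent.K7.H49.ME

open Finset
open scoped Classical

theorem sum_pair (l : ℕ → ℝ) (hl : ∀ d, |l d| ≤ 1) (D : ℕ) (g x y : ℤ) (hx : IsCoprime x g)
    (hy : IsCoprime y g) (X : ℕ) (B : ℕ → ℤ) (Err : ℝ) (hE : 0 ≤ Err)
    (H : ∀ D1 D2 : ℕ, 0 < D1 → D1 ≤ D ^ 2 → 0 < D2 → D2 ≤ D ^ 2 → IsCoprime g (D1 : ℤ) → IsCoprime g (D2 : ℤ) →
      |(((range X).filter (fun t : ℕ => (D1 : ℤ) ∣ x + g * t ∧ (D2 : ℤ) ∣ y + g * B t)).card : ℝ) -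
        X / (D1 * D2)| ≤ Err) :
    ∑ t ∈ range X, WW l D (x + g * t) ^ 2 * WW l D (y + g * B t) ^ 2 ≤ X * QG l D g ^ 2 + D ^ 4 * Err := by
  have h1 : ∑ t ∈ range X, WW l D (x + g * t) ^ 2 * WW l D (y + g * B t) ^ 2 =
      ∑ p ∈ PQ D, ∑ q ∈ PQ D, (l p.1 * l p.2) * (l q.1 * l q.2) *
        (((range X).filter (fun t : ℕ => (mm p : ℤ) ∣ x + g * t ∧ (mm q : ℤ) ∣ y + g * B t)).card : ℝ) := by
    simp_rw [WW_sq, sum_mul_sum]
    rw [sum_comm]
    apply sum_congr rfl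
    intro p _
    rw [sum_comm]
    apply sum_congr rfl
    intro q _
    have e1 : ∀ t : ℕ, l p.1 * l p.2 * (if (mm p : ℤ) ∣ x + g * t then (1 : ℝ) else 0) *
        (l q.1 * l q.2 * (if (mm q : ℤ) ∣ y + g * B t then (1 : ℝ) else 0)) =
        (l p.1 * l p.2) * (l q.1 * l q.2) * (if ((mm p : ℤ) ∣ x + g * t ∧ (mm q : ℤ) ∣ y + g * B t) then (1 : ℝ) else 0) := by
      intro t
      by_cases h2 : (mm p : ℤ) ∣ x + g * t
      · by_cases h3 : (mm q : ℤ) ∣ y + g * B t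
        · rw [if_pos h2, if_pos h3, if_pos ⟨h2, h3⟩]; ring
        · have h5 : ¬ ((mm p : ℤ) ∣ x + g * t ∧ (mm q : ℤ) ∣ y + g * B t) := fun h4 => h3 h4.2
          rw [if_neg h3, if_neg h5]; ring
      · have h5 : ¬ ((mm p : ℤ) ∣ x + g * t ∧ (mm q : ℤ) ∣ y + g * B t) := fun h4 => h2 h4.1
        rw [if_neg h2, if_neg h5]; ring
    rw [sum_congr rfl (fun t _ => e1 t), ← mul_sum]
    congr 1
    rw [sum_ite, sum_const_zero, add_zero, sum_const, nsmul_eq_mul, mul_one]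
  have h2 : (X : ℝ) * QG l D g ^ 2 = ∑ p ∈ PQ D, ∑ q ∈ PQ D, (l p.1 * l p.2) * (l q.1 * l q.2) *
      (if IsCoprime g (mm p : ℤ) ∧ IsCoprime g (mm q : ℤ) then (X : ℝ) / ((mm p : ℝ) * mm q) else 0) := by
    unfold QG
    rw [sq, sum_mul_sum, mul_sum]
    apply sum_congr rfl
    intro p _
    rw [mul_sum]
    apply sum_congr rfl
    intro q _
    by_cases h3 : IsCoprime g (mm p : ℤ)
    · by_cases h4 : IsCoprime g (mm q : ℤ)
      · rw [if_pos h3, if_pos h4, if_pos ⟨h3, h4⟩]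
        rw [div_eq_mul_inv (X : ℝ), mul_inv]
        ring
      · have h6 : ¬ (IsCoprime g (mm p : ℤ) ∧ IsCoprime g (mm q : ℤ)) := fun h5 => h4 h5.2
        rw [if_neg h4, if_neg h6]; ring
    · have h6 : ¬ (IsCoprime g (mm p : ℤ) ∧ IsCoprime g (mm q : ℤ)) := fun h5 => h3 h5.1
      rw [if_neg h3, if_neg h6]; ring
  have h3 : (D : ℝ) ^ 4 * Err = ∑ p ∈ PQ D, ∑ q ∈ PQ D, Err := by
    rw [sum_const, sum_const, nsmul_eq_mul, nsmul_eq_mul, card_PQ]
    ring
  rw [h1, h2, h3, ← sum_add_distrib]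
  apply sum_le_sum
  intro p hp
  rw [← sum_add_distrib]
  apply sum_le_sum
  intro q hq
  have hw : |(l p.1 * l p.2) * (l q.1 * l q.2)| ≤ 1 := by
    rw [abs_mul, abs_mul, abs_mul]
    have e1 : |l p.1| * |l p.2| ≤ 1 := by
      calc |l p.1| * |l p.2| ≤ 1 * 1 := mul_le_mul (hl _) (hl _) (abs_nonneg _) zero_le_one
        _ = 1 := one_mul 1
    have e2 : |l q.1| * |l q.2| ≤ 1 := by
      calc |l q.1| * |l q.2| ≤ 1 * 1 := mul_le_mul (hl _) (hl _) (abs_nonneg _) zero_le_one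
        _ = 1 := one_mul 1
    calc _ ≤ (1 : ℝ) * 1 := mul_le_mul e1 e2 (mul_nonneg (abs_nonneg _) (abs_nonneg _)) zero_le_one
      _ = 1 := one_mul 1
  set w := (l p.1 * l p.2) * (l q.1 * l q.2) with hwdef
  set n := (((range X).filter (fun t : ℕ => (mm p : ℤ) ∣ x + g * t ∧ (mm q : ℤ) ∣ y + g * B t)).card : ℝ) with hn
  set r := (if IsCoprime g (mm p : ℤ) ∧ IsCoprime g (mm q : ℤ) then (X : ℝ) / ((mm p : ℝ) * mm q) else 0) with hr
  have hnr : |n - r| ≤ Err := by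
    by_cases h5 : IsCoprime g (mm p : ℤ) ∧ IsCoprime g (mm q : ℤ)
    · rw [hr, if_pos h5]
      exact H (mm p) (mm q) (mm_pos hp) (mm_le hp) (mm_pos hq) (mm_le hq) h5.1 h5.2
    · rw [hr, if_neg h5, sub_zero, hn]
      rw [filter_false_of_mem]
      · simpa using hE
      · rintro t _ ⟨h6, h7⟩
        apply h5
        constructor
        · by_contra h8
          exact not_dvd g x t (mm p) hx h8 h6
        · by_contra h8
          exact not_dvd g y (B t) (mm q) hy h8 h7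
  have h6 : w * n - w * r ≤ Err := by
    calc w * n - w * r = w * (n - r) := by ring
      _ ≤ |w * (n - r)| := le_abs_self _
      _ = |w| * |n - r| := abs_mul _ _
      _ ≤ 1 * Err := mul_le_mul hw hnr (abs_nonneg _) zero_le_one
      _ = Err := one_mul _
  linarith

theorem WW_prime (l : ℕ → ℝ) (hl1 : l 1 = 1) (D : ℕ) (hD : 2 ≤ D) (z : ℤ) (hz : z.toNat.Prime) (hzD : D < z.toNat) :
    WW l D z = 1 := by
  have h0 : 0 ≤ z := by
    by_contra h
    push Not at h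
    rw [Int.toNat_of_nonpos h.le] at hz
    exact Nat.not_prime_zero hz
  obtain ⟨q, rfl⟩ := Int.eq_ofNat_of_zero_le h0
  rw [Int.toNat_natCast] at hz hzD
  unfold WW
  rw [sum_eq_single 1]
  · rw [if_pos (by simp), hl1]
  · intro d hd hd1
    rw [mem_Icc] at hd
    rw [if_neg]
    intro h
    rcases (Nat.dvd_prime hz).1 (Int.natCast_dvd_natCast.1 h) with h2 | h2
    · exact hd1 h2
    · omega
  · intro h
    exact absurd (mem_Icc.2 ⟨le_rfl, by omega⟩) h

theorem small_inj (X D : ℕ) (F : ℕ → ℤ) (hF : Function.Injective F) :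
    (((range X).filter (fun t : ℕ => (F t).toNat.Prime ∧ (F t).toNat ≤ D)).card : ℝ) ≤ D := by
  have h : ((range X).filter (fun t : ℕ => (F t).toNat.Prime ∧ (F t).toNat ≤ D)).card ≤ (Icc 1 D).card := by
    apply card_le_card_of_injOn (fun t => (F t).toNat)
    · intro t ht
      have := (mem_filter.1 (mem_coe.1 ht)).2
      rw [mem_coe, mem_Icc]
      exact ⟨this.1.one_lt.le, this.2⟩
    · intro a ha b hb hab
      have ha' := (mem_filter.1 (mem_coe.1 ha)).2.1.pos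
      have hb' := (mem_filter.1 (mem_coe.1 hb)).2.1.pos
      have hab' : (F a).toNat = (F b).toNat := hab
      apply hF
      omega
  rw [Nat.card_Icc] at h
  exact_mod_cast (by simpa using h)

theorem pair_sieve (D : ℕ) (hD : 2 ≤ D) (g x y : ℤ) (hg : g ≠ 0) (hx : IsCoprime x g)
    (hy : IsCoprime y g) (X : ℕ) (B : ℕ → ℤ) (hB : Function.Injective B) (Err : ℝ) (hE : 0 ≤ Err)
    (H : ∀ D1 D2 : ℕ, 0 < D1 → D1 ≤ D ^ 2 → 0 < D2 → D2 ≤ D ^ 2 → IsCoprime g (D1 : ℤ) → IsCoprime g (D2 : ℤ) →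
      |(((range X).filter (fun t : ℕ => (D1 : ℤ) ∣ x + g * t ∧ (D2 : ℤ) ∣ y + g * B t)).card : ℝ) -
        X / (D1 * D2)| ≤ Err) :
    (((range X).filter (fun t : ℕ => (x + g * t).toNat.Prime ∧ (y + g * B t).toNat.Prime)).card : ℝ) ≤
      X * (2 * |(g : ℝ)| / Real.log D) ^ 2 + D ^ 4 * Err + 2 * D := by
  obtain ⟨l, hl1, hl, _, _, _, hQ⟩ := Pool.Agent.H376R2.MR.sel_weights D hD
  rw [← QG_one] at hQ
  have hlog : 0 < Real.log D := Real.log_pos (by exact_mod_cast (by omega : 1 < D))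
  have h1 := sum_pair l hl D g x y hx hy X B Err hE H
  have h2 := QG_le l hl D g hg
  have h3 := QG_nonneg l hl D g
  have h4 : QG l D g ≤ 2 * |(g : ℝ)| / Real.log D := by
    calc QG l D g ≤ 2 * |(g : ℝ)| * QG l D 1 := h2
      _ ≤ 2 * |(g : ℝ)| * (1 / Real.log D) := mul_le_mul_of_nonneg_left hQ (by positivity)
      _ = _ := by ring
  have h5 : QG l D g ^ 2 ≤ (2 * |(g : ℝ)| / Real.log D) ^ 2 := pow_le_pow_left₀ h3 h4 2
  set S := (range X).filter (fun t : ℕ => (x + g * t).toNat.Prime ∧ (y + g * B t).toNat.Prime) with hS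
  set S1 := (range X).filter (fun t : ℕ => ((fun t : ℕ => x + g * (t : ℤ)) t).toNat.Prime ∧ ((fun t : ℕ => x + g * (t : ℤ)) t).toNat ≤ D) with hS1
  set S2 := (range X).filter (fun t : ℕ => ((fun t : ℕ => y + g * B t) t).toNat.Prime ∧ ((fun t : ℕ => y + g * B t) t).toNat ≤ D) with hS2
  set S3 := (range X).filter (fun t : ℕ => ((x + g * t).toNat.Prime ∧ D < (x + g * t).toNat) ∧
    ((y + g * B t).toNat.Prime ∧ D < (y + g * B t).toNat)) with hS3
  have hsub : S ⊆ S1 ∪ S2 ∪ S3 := by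
    intro t ht
    rw [hS, mem_filter] at ht
    rw [mem_union, mem_union, hS1, hS2, hS3, mem_filter, mem_filter, mem_filter]
    by_cases h6 : (x + g * t).toNat ≤ D
    · exact Or.inl (Or.inl ⟨ht.1, ht.2.1, h6⟩)
    · by_cases h7 : (y + g * B t).toNat ≤ D
      · exact Or.inl (Or.inr ⟨ht.1, ht.2.2, h7⟩)
      · exact Or.inr ⟨ht.1, ⟨ht.2.1, by omega⟩, ⟨ht.2.2, by omega⟩⟩
  have hc : (S.card : ℝ) ≤ S1.card + S2.card + S3.card := by
    have h6 := (card_le_card hsub).trans ((card_union_le _ _).trans (Nat.add_le_add_right (card_union_le _ _) _))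
    exact_mod_cast h6
  have hc1 : (S1.card : ℝ) ≤ D := small_inj X D _ (by
    intro a b hab
    have : g * (a : ℤ) = g * b := by have : x + g * (a : ℤ) = x + g * b := hab; linarith
    exact_mod_cast mul_left_cancel₀ hg this)
  have hc2 : (S2.card : ℝ) ≤ D := small_inj X D _ (by
    intro a b hab
    have : g * B a = g * B b := by have : y + g * B a = y + g * B b := hab; linarith
    exact hB (mul_left_cancel₀ hg this))
  have hc3 : (S3.card : ℝ) ≤ ∑ t ∈ range X, WW l D (x + g * t) ^ 2 * WW l D (y + g * B t) ^ 2 := by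
    calc (S3.card : ℝ) = ∑ t ∈ S3, (1 : ℝ) := by rw [sum_const, nsmul_eq_mul, mul_one]
      _ = ∑ t ∈ S3, WW l D (x + g * t) ^ 2 * WW l D (y + g * B t) ^ 2 := by
          apply sum_congr rfl
          intro t ht
          rw [hS3, mem_filter] at ht
          rw [WW_prime l hl1 D hD _ ht.2.1.1 ht.2.1.2, WW_prime l hl1 D hD _ ht.2.2.1 ht.2.2.2]
          norm_num
      _ ≤ _ := sum_le_sum_of_subset_of_nonneg (filter_subset _ _) (fun t _ _ => mul_nonneg (sq_nonneg _) (sq_nonneg _))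
  have h6 : (X : ℝ) * QG l D g ^ 2 ≤ X * (2 * |(g : ℝ)| / Real.log D) ^ 2 :=
    mul_le_mul_of_nonneg_left h5 (Nat.cast_nonneg _)
  linarith

/-- the sieve along `⌊R t + ρ⌋` for `R` without good rational approximations -/
theorem beatty_sieve (D : ℕ) (hD : 2 ≤ D) (g x y : ℤ) (hg : g ≠ 0) (hx : IsCoprime x g)
    (hy : IsCoprime y g) (X Q : ℕ) (hQ : 1 ≤ Q) (R ρ : ℝ) (hR : 1 ≤ R)
    (hgen : ∀ v : ℕ, 1 ≤ v → v ≤ D ^ 6 → ∀ w : ℤ, (D : ℝ) ^ 2 / Q < |v * R - w|) :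
    (((range X).filter (fun t : ℕ => (x + g * t).toNat.Prime ∧ (y + g * ⌊R * t + ρ⌋).toNat.Prime)).card : ℝ) ≤
      X * (2 * |(g : ℝ)| / Real.log D) ^ 2 + D ^ 4 * (3 * (X + D ^ 2) / D ^ 6 + Q + 4) + 2 * D := by
  have hD0 : (0 : ℝ) < D := by exact_mod_cast (by omega : 0 < D)
  have hQ0 : (0 : ℝ) < Q := by exact_mod_cast (by omega : 0 < Q)
  apply pair_sieve D hD g x y hg hx hy X (fun t => ⌊R * t + ρ⌋)
  · apply StrictMono.injective
    apply strictMono_nat_of_lt_succ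
    intro n
    have h1 : R * n + ρ + 1 ≤ R * ((n + 1 : ℕ) : ℝ) + ρ := by push_cast; linarith
    have h2 := Int.floor_le_floor h1
    rw [Int.floor_add_one] at h2
    show ⌊R * (n : ℝ) + ρ⌋ < ⌊R * ((n + 1 : ℕ) : ℝ) + ρ⌋
    omega
  · positivity
  · intro D1 D2 h1 h1' h2 h2' c1 c2
    have hD1 : (0 : ℝ) < D1 := by exact_mod_cast h1
    have hD2 : (0 : ℝ) < D2 := by exact_mod_cast h2
    obtain ⟨q, hq1, hq2⟩ := Real.exists_rat_abs_sub_le_and_den_le (R * D1 / D2) (n := Q) (by omega)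
    have hv1 : 1 ≤ q.den := q.den_pos
    have hv0 : (0 : ℝ) < q.den := by exact_mod_cast q.den_pos
    have hqv : (q : ℝ) = q.num / q.den := by
      exact_mod_cast (Rat.num_div_den q).symm
    have e1 : |(q.den : ℝ) * (R * D1 / D2) - q.num| ≤ 1 / (Q + 1) := by
      have : (q.den : ℝ) * (R * D1 / D2) - q.num = q.den * (R * D1 / D2 - q) := by
        rw [hqv]; field_simp
      rw [this, abs_mul, abs_of_pos hv0]
      calc (q.den : ℝ) * |R * D1 / D2 - q| ≤ q.den * (1 / ((Q + 1) * q.den)) :=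
            mul_le_mul_of_nonneg_left hq1 hv0.le
        _ = 1 / (Q + 1) := by field_simp
    have hvQ : (q.den : ℝ) ≤ Q := by exact_mod_cast hq2
    have e2 : |(q.den : ℝ) * (R * D1 / D2) - q.num| ≤ 1 / q.den := by
      refine e1.trans ?_
      apply one_div_le_one_div_of_le hv0
      linarith
    have hcop : IsCoprime q.num ((q.den : ℕ) : ℤ) := by
      rw [Int.isCoprime_iff_gcd_eq_one]
      have := q.reduced
      rw [Int.gcd]
      simpa using this
    have hcls := cls X R ρ g x y D1 D2 h1 h2 c1 c2 q.den hv1 q.num hcop e2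
    have hbig : D ^ 6 < q.den * D1 := by
      by_contra hcon
      push Not at hcon
      have e3 := hgen (q.den * D1) (Nat.mul_pos hv1 h1) hcon (q.num * D2)
      have e4 : |((q.den * D1 : ℕ) : ℝ) * R - ((q.num * (D2 : ℤ) : ℤ) : ℝ)| ≤ D2 / (Q + 1) := by
        have : ((q.den * D1 : ℕ) : ℝ) * R - ((q.num * (D2 : ℤ) : ℤ) : ℝ) = D2 * ((q.den : ℝ) * (R * D1 / D2) - q.num) := by
          push_cast; field_simp
        rw [this, abs_mul, abs_of_pos hD2]
        calc (D2 : ℝ) * |(q.den : ℝ) * (R * D1 / D2) - q.num| ≤ D2 * (1 / (Q + 1)) := mul_le_mul_of_nonneg_left e1 hD2.le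
          _ = _ := by ring
      have e5 : (D2 : ℝ) / (Q + 1) ≤ (D : ℝ) ^ 2 / Q := by
        apply div_le_div₀ (by positivity) _ hQ0 (by linarith)
        exact_mod_cast h2'
      linarith
    refine hcls.trans ?_
    have hbig' : (D : ℝ) ^ 6 ≤ q.den * D1 := by exact_mod_cast hbig.le
    have e6 : ((X : ℝ) / D1 + 1) / q.den ≤ (X + D ^ 2) / D ^ 6 := by
      have : ((X : ℝ) / D1 + 1) / q.den = (X + D1) / (q.den * D1) := by field_simp
      rw [this]
      apply div_le_div₀ (by positivity) _ (by positivity) hbig'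
      have : (D1 : ℝ) ≤ (D : ℝ) ^ 2 := by exact_mod_cast h1'
      linarith
    have e7 : 3 * (((X : ℝ) / D1 + 1) / q.den) ≤ 3 * (X + D ^ 2) / D ^ 6 := by
      have : 3 * ((X : ℝ) + D ^ 2) / D ^ 6 = 3 * ((X + D ^ 2) / D ^ 6) := by ring
      rw [this]
      linarith
    linarith

end Pool.Agent.K7.H49.ME
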