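import Mathlib
import Pool.Agent.K7.H49.ME.Sieve

/-!
The measure of the `α` with `u + g ⌊α f⌋` prime, and of the intersections.
-/

set_option autoImplicit false

namespace Pool.Agent.K7.H49.ME

open Finset MeasureTheory
open scoped Classical

/-- the `α` with `u + g ⌊α f⌋` prime -/
def EE (g u : ℤ) (f : ℝ) : Set ℝ := {α | (u + g * ⌊α * f⌋).toNat.Prime}

/-- the `α` with `⌊α f⌋ = z` -/
def FS (f : ℝ) (z : ℤ) : Set ℝ := {α | ⌊α * f⌋ = z}

theorem FS_eq (f : ℝ) (hf : 0 < f) (z : ℤ) : FS f z = Set.Ico ((z : ℝ) / f) ((z + 1) / f) := by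
  ext α
  unfold FS
  rw [Set.mem_setOf_eq, Int.floor_eq_iff, Set.mem_Ico, div_le_iff₀ hf, lt_div_iff₀ hf]

theorem FS_vol (f : ℝ) (hf : 0 < f) (z : ℤ) : volume (FS f z) = ENNReal.ofReal (1 / f) := by
  rw [FS_eq f hf, Real.volume_Ico]
  congr 1
  ring

theorem FS_meas (f : ℝ) (hf : 0 < f) (z : ℤ) : MeasurableSet (FS f z) := by
  rw [FS_eq f hf]; exact measurableSet_Ico

theorem FS_disj (f : ℝ) {z w : ℤ} (h : z ≠ w) : Disjoint (FS f z) (FS f w) := by
  rw [Set.disjoint_left]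
  intro α h1 h2
  exact h (h1.symm.trans h2)

theorem EE_meas (g u : ℤ) (f : ℝ) : MeasurableSet (EE g u f) := by
  have h1 : Measurable (fun α : ℝ => ⌊α * f⌋) := Int.measurable_floor.comp (measurable_id.mul_const f)
  have h2 : EE g u f = (fun α : ℝ => ⌊α * f⌋) ⁻¹' {z : ℤ | (u + g * z).toNat.Prime} := rfl
  rw [h2]
  exact h1 (MeasurableSet.of_discrete)

theorem lower (g u : ℤ) (f : ℝ) (hf : 0 < f) (a b : ℝ) (S : Finset ℤ)
    (hS : ∀ z ∈ S, a * f ≤ z ∧ (z : ℝ) + 1 ≤ b * f ∧ (u + g * z).toNat.Prime) :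
    (S.card : ℝ) / f ≤ volume.real (EE g u f ∩ Set.Icc a b) := by
  have hsub : (⋃ z ∈ S, FS f z) ⊆ EE g u f ∩ Set.Icc a b := by
    intro α hα
    rw [Set.mem_iUnion₂] at hα
    obtain ⟨z, hz, hα⟩ := hα
    obtain ⟨h1, h2, h3⟩ := hS z hz
    refine ⟨?_, ?_⟩
    · unfold EE
      rw [Set.mem_setOf_eq, (show ⌊α * f⌋ = z from hα)]
      exact h3
    · rw [FS_eq f hf, Set.mem_Ico, div_le_iff₀ hf, lt_div_iff₀ hf] at hα
      constructor
      · exact le_of_mul_le_mul_right (h1.trans hα.1) hf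
      · exact le_of_mul_le_mul_right (hα.2.le.trans h2) hf
  have hfin : volume (EE g u f ∩ Set.Icc a b) ≠ ⊤ := by
    apply ne_top_of_le_ne_top _ (measure_mono Set.inter_subset_right)
    rw [Real.volume_Icc]; exact ENNReal.ofReal_ne_top
  have h1 := measureReal_mono hsub hfin
  refine le_trans (le_of_eq ?_) h1
  unfold Measure.real
  rw [measure_biUnion_finset]
  · rw [Finset.sum_congr rfl (fun z _ => FS_vol f hf z), sum_const, nsmul_eq_mul, ENNReal.toReal_mul,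
      ENNReal.toReal_ofReal (by positivity)]
    simp
    ring
  · intro z _ w _ hzw
    exact FS_disj f hzw
  · intro z _
    exact FS_meas f hf z

theorem upper (g u v : ℤ) (hg : g ≠ 0) (hu : IsCoprime u g) (hv : IsCoprime v g) (f1 f2 : ℝ) (hf1 : 0 < f1)
    (hf12 : f1 ≤ f2) (a b : ℝ) (hab : a ≤ b) (D Q : ℕ) (hD : 2 ≤ D) (hQ : 1 ≤ Q)
    (hgen : ∀ v : ℕ, 1 ≤ v → v ≤ D ^ 6 → ∀ w : ℤ, (D : ℝ) ^ 2 / Q < |v * (f2 / f1) - w|) :
    volume.real (EE g u f1 ∩ EE g v f2 ∩ Set.Icc a b) ≤ 3 / f1 *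
      (((b - a) * f1 + 2) * (2 * |(g : ℝ)| / Real.log D) ^ 2 +
        D ^ 4 * (3 * (((b - a) * f1 + 2) + D ^ 2) / D ^ 6 + Q + 4) + 2 * D) := by
  have hf2 : 0 < f2 := hf1.trans_le hf12
  set R : ℝ := f2 / f1 with hR
  have hR1 : 1 ≤ R := by rw [hR, one_le_div hf1]; exact hf12
  set z0 : ℤ := ⌊a * f1⌋ with hz0
  set X : ℕ := (⌊b * f1⌋ - z0 + 1).toNat with hX
  set ρ : ℝ := R * z0 with hρ
  set K : ℕ := ⌈R⌉₊ with hK
  have hXr : (X : ℝ) ≤ (b - a) * f1 + 2 := by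
    have h1 : z0 ≤ ⌊b * f1⌋ := Int.floor_le_floor (mul_le_mul_of_nonneg_right hab hf1.le)
    have h2 : ((X : ℕ) : ℤ) = ⌊b * f1⌋ - z0 + 1 := by rw [hX]; exact Int.toNat_of_nonneg (by omega)
    have h3 : (X : ℝ) = ((⌊b * f1⌋ - z0 + 1 : ℤ) : ℝ) := by rw [← h2]; simp
    rw [h3]
    push_cast
    have h4 := Int.floor_le (b * f1)
    have h5 := Int.lt_floor_add_one (a * f1)
    rw [← hz0] at h5
    linarith
  set S : ℕ → Finset ℕ := fun j => (range X).filter (fun t : ℕ => ((u + g * z0) + g * t).toNat.Prime ∧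
    ((v + g * j) + g * ⌊R * t + ρ⌋).toNat.Prime) with hS
  set M : ℝ := ((b - a) * f1 + 2) * (2 * |(g : ℝ)| / Real.log D) ^ 2 +
        D ^ 4 * (3 * (((b - a) * f1 + 2) + D ^ 2) / D ^ 6 + Q + 4) + 2 * D with hM
  have hD0 : (0 : ℝ) < D := by exact_mod_cast (by omega : 0 < D)
  have hSM : ∀ j : ℕ, ((S j).card : ℝ) ≤ M := by
    intro j
    have h1 := beatty_sieve D hD g (u + g * z0) (v + g * j) hg (hu.add_mul_left_left z0)
      (hv.add_mul_left_left (j : ℤ)) X Q hQ R ρ hR1 hgen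
    refine h1.trans ?_
    rw [hM]
    gcongr
  have hcov : EE g u f1 ∩ EE g v f2 ∩ Set.Icc a b ⊆
      ⋃ j ∈ range (K + 1), ⋃ t ∈ S j, FS f2 (⌊R * (t : ℝ) + ρ⌋ + j) := by
    rintro α ⟨⟨h1, h2⟩, h3, h4⟩
    unfold EE at h1 h2
    rw [Set.mem_setOf_eq] at h1 h2
    set z : ℤ := ⌊α * f1⌋ with hz
    set z' : ℤ := ⌊α * f2⌋ with hz'
    have e1 : z0 ≤ z := Int.floor_le_floor (mul_le_mul_of_nonneg_right h3 hf1.le)
    have e2 : z ≤ ⌊b * f1⌋ := Int.floor_le_floor (mul_le_mul_of_nonneg_right h4 hf1.le)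
    obtain ⟨t, ht⟩ := Int.eq_ofNat_of_zero_le (show 0 ≤ z - z0 by omega)
    have htX : t < X := by
      rw [hX]
      omega
    have hαR : α * f2 = R * (α * f1) := by rw [hR]; field_simp
    have e3 : R * (t : ℝ) + ρ = R * z := by
      rw [hρ]
      have : (z : ℝ) = t + z0 := by
        have : z = t + z0 := by omega
        rw [this]; push_cast; ring
      rw [this]; ring
    have e4 : ⌊R * (t : ℝ) + ρ⌋ ≤ z' := by
      rw [e3, hz', hαR]
      apply Int.floor_le_floor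
      exact mul_le_mul_of_nonneg_left (Int.floor_le _) (by linarith)
    have e5 : z' ≤ ⌊R * (t : ℝ) + ρ⌋ + K := by
      have e6 : α * f2 ≤ R * (t : ℝ) + ρ + (K : ℝ) := by
        rw [e3, hαR]
        have e7 := (Int.lt_floor_add_one (α * f1)).le
        rw [← hz] at e7
        have e8 : R ≤ K := Nat.le_ceil R
        nlinarith
      have e9 := Int.floor_le_floor e6
      rw [Int.floor_add_natCast] at e9
      exact e9
    obtain ⟨j, hj⟩ := Int.eq_ofNat_of_zero_le (show 0 ≤ z' - ⌊R * (t : ℝ) + ρ⌋ by omega)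
    rw [Set.mem_iUnion₂]
    refine ⟨j, mem_range.2 (by omega), ?_⟩
    rw [Set.mem_iUnion₂]
    refine ⟨t, ?_, ?_⟩
    · rw [hS]
      simp only [mem_filter, mem_range]
      refine ⟨htX, ?_, ?_⟩
      · have : u + g * z0 + g * (t : ℤ) = u + g * z := by
          have : z = t + z0 := by omega
          rw [this]; ring
        rw [this]; exact h1
      · have : v + g * (j : ℤ) + g * ⌊R * (t : ℝ) + ρ⌋ = v + g * z' := by
          have : z' = j + ⌊R * (t : ℝ) + ρ⌋ := by omega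
          rw [this]; ring
        rw [this]; exact h2
    · show ⌊α * f2⌋ = _
      rw [← hz']
      omega
  have hle : volume (EE g u f1 ∩ EE g v f2 ∩ Set.Icc a b) ≤ ENNReal.ofReal ((K + 1) * M * (1 / f2)) := by
    calc volume (EE g u f1 ∩ EE g v f2 ∩ Set.Icc a b) ≤
        volume (⋃ j ∈ range (K + 1), ⋃ t ∈ S j, FS f2 (⌊R * (t : ℝ) + ρ⌋ + j)) := measure_mono hcov
      _ ≤ ∑ j ∈ range (K + 1), volume (⋃ t ∈ S j, FS f2 (⌊R * (t : ℝ) + ρ⌋ + j)) := measure_biUnion_finset_le _ _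
      _ ≤ ∑ j ∈ range (K + 1), ∑ t ∈ S j, volume (FS f2 (⌊R * (t : ℝ) + ρ⌋ + j)) :=
          sum_le_sum fun j _ => measure_biUnion_finset_le _ _
      _ = ∑ j ∈ range (K + 1), ∑ t ∈ S j, ENNReal.ofReal (1 / f2) := by
          apply sum_congr rfl
          intro j _
          exact sum_congr rfl (fun t _ => FS_vol f2 hf2 _)
      _ = ∑ j ∈ range (K + 1), ENNReal.ofReal ((S j).card * (1 / f2)) := by
          apply sum_congr rfl
          intro j _
          rw [sum_const, nsmul_eq_mul, ENNReal.ofReal_mul (Nat.cast_nonneg _), ENNReal.ofReal_natCast]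
      _ ≤ ∑ j ∈ range (K + 1), ENNReal.ofReal (M * (1 / f2)) := by
          apply sum_le_sum
          intro j _
          apply ENNReal.ofReal_le_ofReal
          exact mul_le_mul_of_nonneg_right (hSM j) (by positivity)
      _ = _ := by
          rw [sum_const, card_range, nsmul_eq_mul, mul_assoc,
            show ((K : ℝ) + 1) = ((K + 1 : ℕ) : ℝ) by push_cast; ring,
            ENNReal.ofReal_mul (Nat.cast_nonneg (K + 1)), ENNReal.ofReal_natCast]
  have hM0 : 0 ≤ M := le_trans (Nat.cast_nonneg _) (hSM 0)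
  have h1 : volume.real (EE g u f1 ∩ EE g v f2 ∩ Set.Icc a b) ≤ (K + 1) * M * (1 / f2) := by
    unfold Measure.real
    exact ENNReal.toReal_le_of_le_ofReal (by positivity) hle
  refine h1.trans ?_
  have hK1 : (K : ℝ) + 1 ≤ R + 2 := by
    have := Nat.ceil_lt_add_one (show 0 ≤ R by linarith)
    rw [← hK] at this
    linarith
  have h2 : ((K : ℝ) + 1) * (1 / f2) ≤ 3 / f1 := by
    have e1 : f2 = R * f1 := by rw [hR]; field_simp
    rw [e1]
    calc ((K : ℝ) + 1) * (1 / (R * f1)) ≤ (3 * R) * (1 / (R * f1)) := by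
          apply mul_le_mul_of_nonneg_right _ (by positivity)
          linarith
      _ = 3 / f1 := by field_simp
  calc (K + 1) * M * (1 / f2) = ((K + 1) * (1 / f2)) * M := by ring
    _ ≤ 3 / f1 * M := mul_le_mul_of_nonneg_right h2 hM0

end Pool.Agent.K7.H49.ME
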