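import Mathlib
import Pool.Agent.K7.H49.ME.Meas
import Pool.Agent.K7.H49.ME.Bad

/-!
One coordinate.
-/

set_option autoImplicit false

namespace Pool.Agent.K7.H49.ME

open Finset MeasureTheory Filter
open scoped Classical

theorem bad_num (D N Q : ℕ) (C0 c1 c2 F : ℝ) (hC0 : 0 < C0) (hc1 : 0 < c1) (hc2 : 0 < c2) (hD : 2 ≤ D)
    (hF : 0 < F) (hN : c2 * N ≤ F) (hQ : F ≤ 2 * (Q * D ^ 5)) (hK : (C0 + 3) * (4 * C0 / (c1 * c2) + 1) ≤ D) :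
    D ^ 6 * (C0 * D ^ 6 + 3) * (2 * C0 * D ^ 2 * N / (c1 * Q) + 1) ≤ (D : ℝ) ^ 20 := by
  have hD1 : (2 : ℝ) ≤ D := by exact_mod_cast hD
  have hD0 : (0 : ℝ) < D := by linarith
  have hQ0 : (0 : ℝ) < Q := by
    by_contra h
    push Not at h
    have h1 : (Q : ℝ) = 0 := le_antisymm h (Nat.cast_nonneg _)
    rw [h1] at hQ
    simp at hQ
    linarith
  have h1 : 2 * C0 * D ^ 2 * N / (c1 * Q) ≤ 4 * C0 / (c1 * c2) * D ^ 7 := by
    rw [div_le_iff₀ (by positivity)]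
    have e1 : (N : ℝ) ≤ 2 * (Q * D ^ 5) / c2 := by
      rw [le_div_iff₀ hc2]; linarith
    calc 2 * C0 * (D : ℝ) ^ 2 * N ≤ 2 * C0 * D ^ 2 * (2 * (Q * D ^ 5) / c2) :=
          mul_le_mul_of_nonneg_left e1 (by positivity)
      _ = 4 * C0 / (c1 * c2) * D ^ 7 * (c1 * Q) := by field_simp; ring
  have h6 : (1 : ℝ) ≤ D ^ 6 := one_le_pow₀ (by linarith)
  have h7 : (1 : ℝ) ≤ D ^ 7 := one_le_pow₀ (by linarith)
  have h2 : C0 * (D : ℝ) ^ 6 + 3 ≤ (C0 + 3) * D ^ 6 := by nlinarith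
  have h3 : 2 * C0 * D ^ 2 * N / (c1 * Q) + 1 ≤ (4 * C0 / (c1 * c2) + 1) * D ^ 7 := by linarith
  have h4 : 0 ≤ 2 * C0 * (D : ℝ) ^ 2 * N / (c1 * Q) + 1 := by positivity
  calc D ^ 6 * (C0 * D ^ 6 + 3) * (2 * C0 * D ^ 2 * N / (c1 * Q) + 1) ≤
      D ^ 6 * ((C0 + 3) * D ^ 6) * ((4 * C0 / (c1 * c2) + 1) * D ^ 7) := by
        apply mul_le_mul _ h3 h4 (by positivity)
        exact mul_le_mul_of_nonneg_left h2 (by positivity)
    _ = ((C0 + 3) * (4 * C0 / (c1 * c2) + 1)) * D ^ 19 := by ring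
    _ ≤ D * D ^ 19 := mul_le_mul_of_nonneg_right hK (by positivity)
    _ = (D : ℝ) ^ 20 := by ring

theorem coord (g : ℤ) (hg : g ≠ 0) (C0 c1 c2 δ : ℝ) (hC0 : 0 < C0) (hc1 : 0 < c1) (hc2 : 0 < c2) (hδ : 0 < δ) :
    ∃ D0 : ℕ, ∀ D : ℕ, D0 ≤ D → 2 ≤ D → ∀ N : ℕ, 1 ≤ N → ∀ F : ℝ, c2 * N ≤ F → (D : ℝ) ^ 8 ≤ F → ∀ f : ℕ → ℝ,
    (∀ n, N < n → n ≤ 2 * N → F ≤ f n ∧ f n ≤ C0 * F) →
    (∀ n m, N < n → n ≤ m → m ≤ 2 * N → c1 * F * ((m : ℝ) - n) / N ≤ f m - f n) →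
    ∃ Q : ℕ, (∀ n, N < n → n ≤ 2 * N →
      (((Ioc N (2 * N)).filter (fun m => n ≤ m ∧ Bad D Q (f m / f n))).card : ℝ) ≤ (D : ℝ) ^ 20) ∧
    ∀ n m, N < n → n ≤ m → m ≤ 2 * N → ¬ Bad D Q (f m / f n) → ∀ u v : ℤ, IsCoprime u g → IsCoprime v g →
      ∀ a b : ℝ, b - a = δ → volume.real (EE g u (f n) ∩ EE g v (f m) ∩ Set.Icc a b) ≤
        18 * (g : ℝ) ^ 2 * δ / Real.log D ^ 2 := by
  obtain ⟨D1, hD1⟩ := simp_bound g hg δ hδ
  refine ⟨max D1 ⌈(C0 + 3) * (4 * C0 / (c1 * c2) + 1)⌉₊, ?_⟩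
  intro D hD hD2 N hN F hF1 hF2 f h1 h2
  have hDa : D1 ≤ D := (le_max_left _ _).trans hD
  have hDb : (C0 + 3) * (4 * C0 / (c1 * c2) + 1) ≤ D :=
    (Nat.le_ceil _).trans (by exact_mod_cast (le_max_right _ _).trans hD)
  have hDr : (2 : ℝ) ≤ D := by exact_mod_cast hD2
  have hD0 : (0 : ℝ) < D := by linarith
  have hF0 : 0 < F := lt_of_lt_of_le (by positivity) hF2
  have hFD : (D : ℝ) ^ 3 ≤ F / D ^ 5 := by
    rw [le_div_iff₀ (by positivity)]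
    calc (D : ℝ) ^ 3 * D ^ 5 = D ^ 8 := by ring
      _ ≤ F := hF2
  set Q : ℕ := ⌊F / D ^ 5⌋₊ with hQ
  have hQ1 : (Q : ℝ) * D ^ 5 ≤ F := by
    have := Nat.floor_le (show 0 ≤ F / D ^ 5 by positivity)
    rw [← hQ, le_div_iff₀ (by positivity)] at this
    exact this
  have hQ2 : F ≤ 2 * (Q * D ^ 5) := by
    have e1 := Nat.lt_floor_add_one (F / (D : ℝ) ^ 5)
    rw [← hQ] at e1
    have e2 : (8 : ℝ) ≤ D ^ 3 := by
      calc (8 : ℝ) = 2 ^ 3 := by norm_num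
        _ ≤ D ^ 3 := pow_le_pow_left₀ (by norm_num) hDr 3
    have e3 : F / (D : ℝ) ^ 5 ≤ 2 * Q := by linarith
    rw [div_le_iff₀ (by positivity)] at e3
    linarith
  have hQ3 : D ^ 2 ≤ Q := by
    apply Nat.le_floor
    push_cast
    refine le_trans ?_ hFD
    exact pow_le_pow_right₀ (by linarith) (by norm_num)
  have hQpos : 1 ≤ Q := le_trans (Nat.one_le_iff_ne_zero.2 (by positivity)) hQ3
  refine ⟨Q, ?_, ?_⟩
  · intro n hn hn2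
    exact (bad_count N hN F C0 c1 f D Q hD2 hQ3 hF0 hc1 hC0 h1 h2 n hn hn2).trans
      (bad_num D N Q C0 c1 c2 F hC0 hc1 hc2 hD2 hF0 hF1 hQ2 hDb)
  · intro n m hn hnm hm hbad u v hu hv a b hab
    have hfn := (h1 n hn (hnm.trans hm)).1
    have hfm : f n ≤ f m := by
      have e1 := h2 n m hn hnm hm
      have e2 : 0 ≤ c1 * F * ((m : ℝ) - n) / N := by
        have : (n : ℝ) ≤ m := by exact_mod_cast hnm
        have : 0 ≤ (m : ℝ) - n := by linarith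
        positivity
      linarith
    have hgen : ∀ v : ℕ, 1 ≤ v → v ≤ D ^ 6 → ∀ w : ℤ, (D : ℝ) ^ 2 / Q < |v * (f m / f n) - w| := by
      intro v' hv1 hv2 w
      by_contra hcon
      push Not at hcon
      exact hbad ⟨v', hv1, hv2, w, hcon⟩
    have h3 := upper g u v hg hu hv (f n) (f m) (hF0.trans_le hfn) hfm a b (by linarith) D Q hD2 hQpos hgen
    rw [hab] at h3
    refine h3.trans (hD1 D hDa hD2 (f n) ?_ Q (hQ1.trans hfn))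
    refine le_trans ?_ hfn
    refine le_trans ?_ hF2
    exact pow_le_pow_right₀ (by linarith) (by norm_num)

/-- the choice of the level -/
theorem level (ε : ℝ) (hε : 0 < ε) (hε1 : ε ≤ 1 / 24) (k : ℕ) (K c2 : ℝ) (hc2 : 0 < c2) : ∀ᶠ N : ℕ in atTop, ∃ D : ℕ,
    K ≤ D ∧ 2 ≤ D ∧ (D : ℝ) ^ 24 ≤ (N : ℝ) ^ (24 * ε) ∧ (D : ℝ) ^ 8 ≤ c2 * N ∧ ε / 2 * Real.log N ≤ Real.log D ∧
    K * Real.log N ^ (2 * k) ≤ D := by
  have ht : Tendsto (fun N : ℕ => (N : ℝ)) atTop atTop := tendsto_natCast_atTop_atTop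
  have h1 : Tendsto (fun x : ℝ => x ^ (ε / 2)) atTop atTop := tendsto_rpow_atTop (by positivity)
  have h2 : ∀ᶠ x : ℝ in atTop, |K| + 3 ≤ x ^ (ε / 2) := h1.eventually_ge_atTop _
  have h3 : ∀ᶠ x : ℝ in atTop, |K| * Real.log x ^ (2 * k) ≤ x ^ (ε / 2) := by
    have h4 := (isLittleO_log_rpow_rpow_atTop ((2 * k : ℕ) : ℝ) (show 0 < ε / 2 by positivity)).def
      (show (0 : ℝ) < 1 / (|K| + 1) by positivity)
    filter_upwards [h4, eventually_ge_atTop 1] with x hx hx1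
    have hl : 0 ≤ Real.log x := Real.log_nonneg hx1
    rw [Real.rpow_natCast, Real.norm_of_nonneg (by positivity), Real.norm_of_nonneg (by positivity)] at hx
    have h5 : |K| * Real.log x ^ (2 * k) ≤ (|K| + 1) * (1 / (|K| + 1) * x ^ (ε / 2)) := by
      apply mul_le_mul (by linarith) hx (by positivity) (by positivity)
    refine h5.trans (le_of_eq ?_)
    field_simp
  have h4 : ∀ᶠ x : ℝ in atTop, 1 / c2 ≤ x ^ (2 / 3 : ℝ) := (tendsto_rpow_atTop (by norm_num)).eventually_ge_atTop _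
  filter_upwards [ht.eventually h2, ht.eventually h3, ht.eventually h4, eventually_ge_atTop 2] with N hN2 hN3 hN4 hN
  have hN1 : (1 : ℝ) ≤ N := by exact_mod_cast (by omega : 1 ≤ N)
  have hN0 : (0 : ℝ) < N := by linarith
  have hsq : (N : ℝ) ^ ε = N ^ (ε / 2) * N ^ (ε / 2) := by
    rw [← Real.rpow_add hN0]; ring_nf
  have hge : (N : ℝ) ^ (ε / 2) + 1 ≤ N ^ ε := by
    rw [hsq]
    nlinarith [abs_nonneg K]
  set D : ℕ := ⌊(N : ℝ) ^ ε⌋₊ with hD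
  have hD1 : (D : ℝ) ≤ N ^ ε := Nat.floor_le (by positivity)
  have hD2 : (N : ℝ) ^ (ε / 2) ≤ D := by
    have := Nat.lt_floor_add_one ((N : ℝ) ^ ε)
    rw [← hD] at this
    linarith
  refine ⟨D, ?_, ?_, ?_, ?_, ?_, ?_⟩
  · have := le_abs_self K; linarith
  · have : (2 : ℝ) ≤ D := by have := abs_nonneg K; linarith
    exact_mod_cast this
  · calc (D : ℝ) ^ 24 ≤ ((N : ℝ) ^ ε) ^ 24 := pow_le_pow_left₀ (Nat.cast_nonneg _) hD1 24
      _ = (N : ℝ) ^ (24 * ε) := by rw [← Real.rpow_natCast, ← Real.rpow_mul hN0.le]; ring_nf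
  · calc (D : ℝ) ^ 8 ≤ ((N : ℝ) ^ ε) ^ 8 := pow_le_pow_left₀ (Nat.cast_nonneg _) hD1 8
      _ = (N : ℝ) ^ (8 * ε) := by rw [← Real.rpow_natCast, ← Real.rpow_mul hN0.le]; ring_nf
      _ ≤ (N : ℝ) ^ (1 / 3 : ℝ) := Real.rpow_le_rpow_of_exponent_le hN1 (by linarith)
      _ = 1 * (N : ℝ) ^ (1 / 3 : ℝ) := (one_mul _).symm
      _ ≤ (c2 * N ^ (2 / 3 : ℝ)) * (N : ℝ) ^ (1 / 3 : ℝ) := by
          apply mul_le_mul_of_nonneg_right _ (by positivity)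
          rw [div_le_iff₀ hc2] at hN4
          linarith
      _ = c2 * N := by
          rw [mul_assoc, ← Real.rpow_add hN0]; norm_num
  · calc ε / 2 * Real.log N = Real.log ((N : ℝ) ^ (ε / 2)) := (Real.log_rpow hN0 _).symm
      _ ≤ _ := Real.log_le_log (by positivity) hD2
  · have e1 : 0 ≤ Real.log (N : ℝ) ^ (2 * k) := by have := Real.log_nonneg hN1; positivity
    calc K * Real.log N ^ (2 * k) ≤ |K| * Real.log N ^ (2 * k) := mul_le_mul_of_nonneg_right (le_abs_self K) e1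
      _ ≤ _ := hN3
      _ ≤ _ := hD2

end Pool.Agent.K7.H49.ME
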