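import Mathlib

/-!
Second moments on boxes.
-/

set_option autoImplicit false

namespace Pool.Agent.K7.H49.ME

open Finset MeasureTheory
open scoped Classical

theorem vol_pi {k : ℕ} (s : Fin k → Set ℝ) : (volume : Measure (Fin k → ℝ)).real (Set.pi Set.univ s) = ∏ i, volume.real (s i) := by
  unfold Measure.real
  rw [volume_pi_pi, ENNReal.toReal_prod]

theorem pz {k : ℕ} (J : Fin k → Set ℝ) (hJm : ∀ i, MeasurableSet (J i)) (hJf : ∀ i, volume (J i) ≠ ⊤)
    (hJ0 : ∀ i, 0 < volume.real (J i)) (I : Finset ℕ) (hI : I.Nonempty) (E : Fin k → ℕ → Set ℝ)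
    (hE : ∀ i n, MeasurableSet (E i n)) (L c C : ℝ) (hL : 0 < L) (hc : 0 < c) (hC : 0 < C)
    (h1 : ∀ i, ∀ n ∈ I, c * volume.real (J i) / L ≤ volume.real (E i n ∩ J i))
    (B : Finset (ℕ × ℕ)) (hBI : B ⊆ I ×ˢ I) (hB : (B.card : ℝ) ≤ (I.card : ℝ) ^ 2 / L ^ (2 * k))
    (h2 : ∀ n ∈ I, ∀ m ∈ I, (n, m) ∉ B → ∀ i, volume.real (E i n ∩ E i m ∩ J i) ≤ C * volume.real (J i) / L ^ 2) :
    c ^ (2 * k) / (4 * (C ^ k + 1)) * ∏ i, volume.real (J i) ≤
      (volume : Measure (Fin k → ℝ)).real ({α | c ^ k / 2 * I.card / L ^ k ≤ ((I.filter (fun n => ∀ i, α i ∈ E i n)).card : ℝ)} ∩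
        Set.pi Set.univ J) := by
  set P : Set (Fin k → ℝ) := Set.pi Set.univ J with hP
  set V : ℝ := ∏ i, volume.real (J i) with hV
  have hV0 : 0 < V := prod_pos fun i _ => hJ0 i
  have hPm : MeasurableSet P := MeasurableSet.univ_pi hJm
  have hPf : (volume : Measure (Fin k → ℝ)) P ≠ ⊤ := by
    rw [hP, volume_pi_pi]
    exact ENNReal.prod_ne_top fun i _ => hJf i
  set μ : Measure (Fin k → ℝ) := volume.restrict P with hμ
  haveI : IsFiniteMeasure μ := ⟨by rw [hμ, Measure.restrict_apply_univ]; exact lt_top_iff_ne_top.2 hPf⟩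
  set Fs : ℕ → Set (Fin k → ℝ) := fun n => {α | ∀ i, α i ∈ E i n} with hFs
  have hFpi : ∀ n, Fs n = Set.pi Set.univ (fun i => E i n) := by
    intro n; ext α; simp [hFs, Set.mem_pi]
  have hFm : ∀ n, MeasurableSet (Fs n) := fun n => by rw [hFpi]; exact MeasurableSet.univ_pi fun i => hE i n
  set S : (Fin k → ℝ) → ℝ := fun α => ∑ n ∈ I, (Fs n).indicator 1 α with hS
  have hScard : ∀ α, S α = ((I.filter (fun n => ∀ i, α i ∈ E i n)).card : ℝ) := by
    intro α
    rw [hS, card_filter]
    push_cast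
    apply sum_congr rfl
    intro n _
    by_cases h : ∀ i, α i ∈ E i n
    · rw [if_pos h, Set.indicator_of_mem (show α ∈ Fs n from h)]; rfl
    · rw [if_neg h, Set.indicator_of_notMem (show α ∉ Fs n from h)]
  have hS2 : ∀ α, S α ^ 2 = ∑ n ∈ I, ∑ m ∈ I, (Fs n ∩ Fs m).indicator 1 α := by
    intro α
    rw [hS, sq, sum_mul_sum]
    apply sum_congr rfl
    intro n _
    apply sum_congr rfl
    intro m _
    by_cases h3 : α ∈ Fs n <;> by_cases h4 : α ∈ Fs m <;> simp [Set.indicator, h3, h4]
  have hSint : Integrable S μ := by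
    apply integrable_finset_sum
    intro n _
    exact (integrable_const (1 : ℝ)).indicator (hFm n)
  have hS2int : Integrable (fun α => S α ^ 2) μ := by
    simp_rw [hS2]
    apply integrable_finset_sum
    intro n _
    apply integrable_finset_sum
    intro m _
    exact (integrable_const (1 : ℝ)).indicator ((hFm n).inter (hFm m))
  have hind : ∀ A : Set (Fin k → ℝ), MeasurableSet A → ∫ α, A.indicator (1 : (Fin k → ℝ) → ℝ) α ∂μ = (volume : Measure (Fin k → ℝ)).real (A ∩ P) := by
    intro A hA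
    rw [integral_indicator_one hA, hμ, measureReal_restrict_apply hA]
  have hM1 : ∫ α, S α ∂μ = ∑ n ∈ I, (volume : Measure (Fin k → ℝ)).real (Fs n ∩ P) := by
    rw [hS]
    rw [integral_finset_sum]
    · exact sum_congr rfl fun n _ => hind _ (hFm n)
    · intro n _
      exact (integrable_const (1 : ℝ)).indicator (hFm n)
  have hM2 : ∫ α, S α ^ 2 ∂μ = ∑ n ∈ I, ∑ m ∈ I, (volume : Measure (Fin k → ℝ)).real (Fs n ∩ Fs m ∩ P) := by
    simp_rw [hS2]
    rw [integral_finset_sum]
    · apply sum_congr rfl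
      intro n _
      rw [integral_finset_sum]
      · exact sum_congr rfl fun m _ => hind _ ((hFm n).inter (hFm m))
      · intro m _
        exact (integrable_const (1 : ℝ)).indicator ((hFm n).inter (hFm m))
    · intro n _
      apply integrable_finset_sum
      intro m _
      exact (integrable_const (1 : ℝ)).indicator ((hFm n).inter (hFm m))
  have hn0 : (0 : ℝ) < I.card := by exact_mod_cast card_pos.2 hI
  -- the first moment
  have hlow : c ^ k * V * I.card / L ^ k ≤ ∫ α, S α ∂μ := by
    rw [hM1]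
    calc c ^ k * V * I.card / L ^ k = ∑ n ∈ I, (c ^ k * V / L ^ k) := by
          rw [sum_const, nsmul_eq_mul]; ring
      _ ≤ _ := by
          apply sum_le_sum
          intro n hn
          have e1 : Fs n ∩ P = Set.pi Set.univ (fun i => E i n ∩ J i) := by
            rw [hFpi, hP, ← Set.pi_inter_distrib]
          rw [e1, vol_pi]
          calc c ^ k * V / L ^ k = ∏ i, (c * volume.real (J i) / L) := by
                rw [prod_div_distrib, prod_mul_distrib, prod_const, prod_const, Finset.card_univ, Fintype.card_fin]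
            _ ≤ _ := by
                apply prod_le_prod
                · intro i _
                  have := (hJ0 i).le
                  positivity
                · intro i _
                  exact h1 i n hn
  -- the second moment
  have hup : ∫ α, S α ^ 2 ∂μ ≤ (C ^ k + 1) * (I.card : ℝ) ^ 2 * V / L ^ (2 * k) := by
    rw [hM2, ← sum_product']
    have e0 : ∀ p ∈ I ×ˢ I, (volume : Measure (Fin k → ℝ)).real (Fs p.1 ∩ Fs p.2 ∩ P) ≤
        C ^ k * V / L ^ (2 * k) + (if p ∈ B then V else 0) := by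
      intro p hp
      rw [mem_product] at hp
      by_cases hpB : p ∈ B
      · rw [if_pos hpB]
        have e1 : (volume : Measure (Fin k → ℝ)).real (Fs p.1 ∩ Fs p.2 ∩ P) ≤ (volume : Measure (Fin k → ℝ)).real P :=
          measureReal_mono Set.inter_subset_right hPf
        have e2 : (volume : Measure (Fin k → ℝ)).real P = V := by rw [hP, vol_pi]
        have e3 : 0 ≤ C ^ k * V / L ^ (2 * k) := by positivity
        linarith
      · rw [if_neg hpB, add_zero]
        have e1 : Fs p.1 ∩ Fs p.2 ∩ P = Set.pi Set.univ (fun i => E i p.1 ∩ E i p.2 ∩ J i) := by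
          rw [hFpi, hFpi, hP, ← Set.pi_inter_distrib, ← Set.pi_inter_distrib]
        rw [e1, vol_pi]
        calc ∏ i, volume.real (E i p.1 ∩ E i p.2 ∩ J i) ≤ ∏ i, (C * volume.real (J i) / L ^ 2) := by
              apply prod_le_prod
              · intro i _; exact measureReal_nonneg
              · intro i _; exact h2 p.1 hp.1 p.2 hp.2 hpB i
          _ = C ^ k * V / L ^ (2 * k) := by
              rw [prod_div_distrib, prod_mul_distrib, prod_const, prod_const, Finset.card_univ, Fintype.card_fin, ← pow_mul]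
    calc ∑ p ∈ I ×ˢ I, (volume : Measure (Fin k → ℝ)).real (Fs p.1 ∩ Fs p.2 ∩ P) ≤
        ∑ p ∈ I ×ˢ I, (C ^ k * V / L ^ (2 * k) + (if p ∈ B then V else 0)) := sum_le_sum e0
      _ = (I.card : ℝ) ^ 2 * (C ^ k * V / L ^ (2 * k)) + B.card * V := by
          rw [sum_add_distrib, sum_const, card_product, nsmul_eq_mul, ← sum_filter, sum_const, nsmul_eq_mul,
            filter_mem_eq_inter, inter_eq_right.2 hBI]
          push_cast
          ring
      _ ≤ (I.card : ℝ) ^ 2 * (C ^ k * V / L ^ (2 * k)) + (I.card : ℝ) ^ 2 / L ^ (2 * k) * V := by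
          have := mul_le_mul_of_nonneg_right hB hV0.le
          linarith
      _ = _ := by ring
  set T : ℝ := c ^ k / 2 * I.card / L ^ k with hT
  have hT0 : 0 < T := by positivity
  set G : Set (Fin k → ℝ) := {α | T ≤ ((I.filter (fun n => ∀ i, α i ∈ E i n)).card : ℝ)} with hG
  have hGS : G = {α | T ≤ S α} := by
    ext α; rw [hG, Set.mem_setOf_eq, Set.mem_setOf_eq, hScard]
  have hSm : Measurable S := by
    apply Finset.measurable_sum
    intro n _
    exact measurable_const.indicator (hFm n)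
  have hGm : MeasurableSet G := by rw [hGS]; exact measurableSet_le measurable_const hSm
  set M : ℝ := (C ^ k + 1) * (I.card : ℝ) ^ 2 * V / L ^ (2 * k) with hM
  have hM0 : 0 < M := by positivity
  set la : ℝ := T * V / M with hla
  have hla0 : 0 < la := by positivity
  have hpt : ∀ α, S α ≤ T + (la / 2 * S α ^ 2 + 1 / (2 * la) * G.indicator (1 : (Fin k → ℝ) → ℝ) α) := by
    intro α
    by_cases h : α ∈ G
    · rw [Set.indicator_of_mem h, Pi.one_apply]
      have e1 : 0 ≤ (la * S α - 1) ^ 2 / (2 * la) := by positivity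
      have e2 : (la * S α - 1) ^ 2 / (2 * la) = la / 2 * S α ^ 2 + 1 / (2 * la) * 1 - S α := by
        field_simp; ring
      linarith
    · rw [Set.indicator_of_notMem h]
      have e1 : S α < T := by
        rw [hGS, Set.mem_setOf_eq, not_le] at h; exact h
      have e2 : 0 ≤ la / 2 * S α ^ 2 := by positivity
      linarith
  have hGi : Integrable (fun α => G.indicator (1 : (Fin k → ℝ) → ℝ) α) μ := (integrable_const (1 : ℝ)).indicator hGm
  have hmono : ∫ α, S α ∂μ ≤ ∫ α, (T + (la / 2 * S α ^ 2 + 1 / (2 * la) * G.indicator (1 : (Fin k → ℝ) → ℝ) α)) ∂μ := by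
    apply integral_mono hSint
    · exact (integrable_const T).add ((hS2int.const_mul _).add (hGi.const_mul _))
    · exact hpt
  have hcalc : ∫ α, (T + (la / 2 * S α ^ 2 + 1 / (2 * la) * G.indicator (1 : (Fin k → ℝ) → ℝ) α)) ∂μ =
      T * V + (la / 2 * ∫ α, S α ^ 2 ∂μ + 1 / (2 * la) * (volume : Measure (Fin k → ℝ)).real (G ∩ P)) := by
    have i1 : Integrable (fun α => la / 2 * S α ^ 2) μ := hS2int.const_mul _
    have i2 : Integrable (fun α => 1 / (2 * la) * G.indicator (1 : (Fin k → ℝ) → ℝ) α) μ := hGi.const_mul _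
    have i3 : Integrable (fun α => la / 2 * S α ^ 2 + 1 / (2 * la) * G.indicator (1 : (Fin k → ℝ) → ℝ) α) μ := i1.add i2
    rw [integral_add (integrable_const T) i3, integral_add i1 i2, integral_const_mul, integral_const_mul, hind G hGm,
      integral_const]
    have e2 : μ.real Set.univ = V := by
      rw [hμ, measureReal_restrict_apply MeasurableSet.univ, Set.univ_inter, hP, vol_pi]
    rw [e2, smul_eq_mul]
    ring
  rw [hcalc] at hmono
  have hlow' : 2 * (T * V) ≤ ∫ α, S α ∂μ := by
    refine le_trans (le_of_eq ?_) hlow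
    rw [hT]; ring
  have e1 : la / 2 * ∫ α, S α ^ 2 ∂μ ≤ la / 2 * M := mul_le_mul_of_nonneg_left hup (by positivity)
  have e2 : la / 2 * M = T * V / 2 := by rw [hla]; field_simp
  have e3 : T * V / 2 ≤ 1 / (2 * la) * (volume : Measure (Fin k → ℝ)).real (G ∩ P) := by linarith
  have e4 : (2 * la) * (T * V / 2) ≤ (volume : Measure (Fin k → ℝ)).real (G ∩ P) := by
    have := mul_le_mul_of_nonneg_left e3 (show 0 ≤ 2 * la by positivity)
    have e5 : 2 * la * (1 / (2 * la) * (volume : Measure (Fin k → ℝ)).real (G ∩ P)) = (volume : Measure (Fin k → ℝ)).real (G ∩ P) := by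
      field_simp
    linarith
  refine le_trans (le_of_eq ?_) e4
  rw [hla, hM, hT]
  have hL' : L ^ (2 * k) = L ^ k * L ^ k := by rw [two_mul, pow_add]
  have hc' : c ^ (2 * k) = c ^ k * c ^ k := by rw [two_mul, pow_add]
  rw [hL', hc']
  field_simp
  ring

end Pool.Agent.K7.H49.ME
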