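import Mathlib
import Pool.Agent.K7.H49.ME.Coord
import Pool.Agent.K7.H49.ME.PZ
import Pool.Agent.K7.H49.ME.Ae

/-!
The metric theorem.
-/

set_option autoImplicit false

namespace Pool.Agent.K7.H49.ME

open Finset MeasureTheory Filter
open scoped Classical

theorem meas_count {k : ℕ} (I : Finset ℕ) (E : Fin k → ℕ → Set ℝ) (hE : ∀ i n, MeasurableSet (E i n)) :
    Measurable (fun α : Fin k → ℝ => ((I.filter (fun n => ∀ i, α i ∈ E i n)).card : ℝ)) := by
  simp_rw [card_filter]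
  push_cast
  apply Finset.measurable_sum
  intro n _
  apply Measurable.ite _ measurable_const measurable_const
  have : {α : Fin k → ℝ | ∀ i, α i ∈ E i n} = Set.pi Set.univ (fun i => E i n) := by
    ext α; simp [Set.mem_pi]
  rw [this]
  exact MeasurableSet.univ_pi fun i => hE i n

theorem bad_pairs {k : ℕ} (I : Finset ℕ) (M : ℝ) (R : Fin k → ℕ → ℕ → Prop)
    (h : ∀ i, ∀ n ∈ I, ((I.filter (fun m => R i n m)).card : ℝ) ≤ M) :
    (((I ×ˢ I).filter (fun p : ℕ × ℕ => ∃ i, R i p.1 p.2 ∨ R i p.2 p.1)).card : ℝ) ≤ 2 * k * I.card * M := by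
  have h1 : ∀ i : Fin k, (((I ×ˢ I).filter (fun p : ℕ × ℕ => R i p.1 p.2)).card : ℝ) ≤ I.card * M := by
    intro i
    rw [card_filter, sum_product]
    push_cast
    calc ∑ n ∈ I, ∑ m ∈ I, (if R i n m then (1 : ℝ) else 0) = ∑ n ∈ I, ((I.filter (fun m => R i n m)).card : ℝ) := by
          apply sum_congr rfl
          intro n _
          rw [card_filter]; push_cast; rfl
      _ ≤ ∑ n ∈ I, M := sum_le_sum fun n hn => h i n hn
      _ = I.card * M := by rw [sum_const, nsmul_eq_mul]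
  have h2 : ∀ i : Fin k, (((I ×ˢ I).filter (fun p : ℕ × ℕ => R i p.2 p.1)).card : ℝ) ≤ I.card * M := by
    intro i
    refine le_trans ?_ (h1 i)
    apply Nat.cast_le.2
    apply card_le_card_of_injOn Prod.swap
    · intro p hp
      rw [mem_coe, mem_filter, mem_product] at hp ⊢
      exact ⟨⟨hp.1.2, hp.1.1⟩, hp.2⟩
    · exact Prod.swap_injective.injOn
  have hsub : (I ×ˢ I).filter (fun p : ℕ × ℕ => ∃ i, R i p.1 p.2 ∨ R i p.2 p.1) ⊆
      (univ : Finset (Fin k)).biUnion (fun i => (I ×ˢ I).filter (fun p : ℕ × ℕ => R i p.1 p.2) ∪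
        (I ×ˢ I).filter (fun p : ℕ × ℕ => R i p.2 p.1)) := by
    intro p hp
    rw [mem_filter] at hp
    obtain ⟨hp1, i, hi⟩ := hp
    rw [mem_biUnion]
    refine ⟨i, mem_univ i, ?_⟩
    rw [mem_union, mem_filter, mem_filter]
    rcases hi with hi | hi
    · exact Or.inl ⟨hp1, hi⟩
    · exact Or.inr ⟨hp1, hi⟩
  have h3 : (((I ×ˢ I).filter (fun p : ℕ × ℕ => ∃ i, R i p.1 p.2 ∨ R i p.2 p.1)).card : ℝ) ≤
      ∑ i : Fin k, ((((I ×ˢ I).filter (fun p : ℕ × ℕ => R i p.1 p.2)).card : ℝ) +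
        (((I ×ˢ I).filter (fun p : ℕ × ℕ => R i p.2 p.1)).card : ℝ)) := by
    have := (card_le_card hsub).trans (card_biUnion_le.trans (sum_le_sum fun i _ => card_union_le _ _))
    exact_mod_cast this
  refine h3.trans ?_
  calc _ ≤ ∑ i : Fin k, (I.card * M + I.card * M) := sum_le_sum fun i _ => add_le_add (h1 i) (h2 i)
    _ = 2 * k * I.card * M := by
        rw [sum_const, Finset.card_univ, Fintype.card_fin, nsmul_eq_mul]; ring

theorem metric_main (k : ℕ) (κ : ℝ) (hκ : 0 < κ) (g : Fin k → ℤ) (hg : ∀ i, g i ≠ 0) (u : Fin k → ℕ → ℤ)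
    (hu : ∀ i n, 2 ≤ n → IsCoprime (u i n) (g i)) (f : Fin k → ℕ → ℝ) (F : Fin k → ℕ → ℝ) (C0 c1 c2 c3 : ℝ)
    (hC0 : 0 < C0) (hc1 : 0 < c1) (hc2 : 0 < c2) (hc3 : 0 < c3) (U : Fin k → Set ℝ) (hU : ∀ i, IsOpen (U i))
    (I : ℕ → Finset ℕ) (hI : ∀ N, I N ⊆ Ioc N (2 * N))
    (h1 : ∀ i, ∀ᶠ N : ℕ in atTop, c2 * N ≤ F i N ∧ (∀ n, N < n → n ≤ 2 * N → F i N ≤ f i n ∧ f i n ≤ C0 * F i N) ∧
      (∀ n m, N < n → n ≤ m → m ≤ 2 * N → c1 * F i N * ((m : ℝ) - n) / N ≤ f i m - f i n))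
    (h3 : ∀ i, ∀ a b : ℝ, a < b → Set.Icc a b ⊆ U i → ∀ᶠ N : ℕ in atTop, ∀ n ∈ I N,
      c3 * (b - a) / Real.log N ≤ volume.real (EE (g i) (u i n) (f i n) ∩ Set.Icc a b))
    (hP : ∃ᶠ N : ℕ in atTop, (N : ℝ) ^ κ ≤ (I N).card) :
    ∀ᵐ α : Fin k → ℝ, (∀ i, α i ∈ U i) → ∃ᶠ N : ℕ in atTop, (N : ℝ) ^ κ ≤ (I N).card ∧
      c3 ^ k / 2 * (I N).card / Real.log N ^ k ≤
        (((I N).filter (fun n => ∀ i, (u i n + g i * ⌊α i * f i n⌋).toNat.Prime)).card : ℝ) := by
  set ε : ℝ := min κ 1 / 24 with hεdef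
  have hε : 0 < ε := by rw [hεdef]; positivity
  have hε1 : ε ≤ 1 / 24 := by rw [hεdef]; have := min_le_right κ 1; linarith
  have hεκ : 24 * ε ≤ κ := by rw [hεdef]; have := min_le_left κ 1; linarith
  set Gs : ℝ := 1 + ∑ i, (g i : ℝ) ^ 2 with hGs
  have hGs0 : 0 < Gs := by
    have : 0 ≤ ∑ i, (g i : ℝ) ^ 2 := sum_nonneg fun i _ => sq_nonneg _
    linarith
  have hGsi : ∀ i, (g i : ℝ) ^ 2 ≤ Gs := by
    intro i
    have : (g i : ℝ) ^ 2 ≤ ∑ i, (g i : ℝ) ^ 2 := single_le_sum (f := fun i => (g i : ℝ) ^ 2) (fun i _ => sq_nonneg _) (mem_univ i)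
    linarith
  set C : ℝ := 72 * Gs / ε ^ 2 with hC
  have hC1 : 0 < C := by positivity
  set c' : ℝ := c3 ^ (2 * k) / (4 * (C ^ k + 1)) with hc'
  have hc'0 : 0 < c' := by positivity
  have hEm : ∀ i n, MeasurableSet (EE (g i) (u i n) (f i n)) := fun i n => EE_meas _ _ _
  set G : ℕ → Set (Fin k → ℝ) := fun N => {α | c3 ^ k / 2 * (I N).card / Real.log N ^ k ≤
    (((I N).filter (fun n => ∀ i, α i ∈ EE (g i) (u i n) (f i n))).card : ℝ)} with hG
  have hGm : ∀ N, MeasurableSet (G N) := fun N =>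
    measurableSet_le measurable_const (meas_count (I N) (fun i n => EE (g i) (u i n) (f i n)) hEm)
  have hΩ : IsOpen {α : Fin k → ℝ | ∀ i, α i ∈ U i} := by
    have : {α : Fin k → ℝ | ∀ i, α i ∈ U i} = Set.pi Set.univ U := by ext α; simp [Set.mem_pi]
    rw [this]
    exact isOpen_set_pi Set.finite_univ fun i _ => hU i
  have hmain := ae_freq G hGm {α : Fin k → ℝ | ∀ i, α i ∈ U i} hΩ c' hc'0 (fun N => (N : ℝ) ^ κ ≤ (I N).card) hP ?_
  · filter_upwards [hmain] with α hα hαU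
    refine (hα hαU).mono fun N hN => ⟨hN.1, le_trans hN.2 (Nat.cast_le.2 (card_le_card ?_))⟩
    intro n hn
    have hn' := Finset.mem_filter.1 hn
    exact Finset.mem_filter.2 hn'
  intro a b hab habU
  -- the coordinate intervals
  have hIi : ∀ i, Set.Icc (a i) (b i) ⊆ U i := by
    intro i t ht
    have h4 : Function.update a i t ∈ Set.Icc a b := by
      constructor
      · intro j
        by_cases hj : j = i
        · subst hj; rw [Function.update_self]; exact ht.1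
        · rw [Function.update_of_ne hj]
      · intro j
        by_cases hj : j = i
        · subst hj; rw [Function.update_self]; exact ht.2
        · rw [Function.update_of_ne hj]; exact (hab j).le
    have h5 := habU h4 i
    rw [Function.update_self] at h5
    exact h5
  have hco := fun i => coord (g i) (hg i) C0 c1 c2 (b i - a i) hC0 hc1 hc2 (by linarith [hab i])
  choose D0 hD0 using hco
  set K : ℝ := (∑ i, (D0 i : ℝ)) + (2 * k + 1) with hK
  have hKi : ∀ i, (D0 i : ℝ) ≤ K := by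
    intro i
    have : (D0 i : ℝ) ≤ ∑ i, (D0 i : ℝ) := single_le_sum (f := fun i => (D0 i : ℝ)) (fun i _ => Nat.cast_nonneg _) (mem_univ i)
    have : (0 : ℝ) ≤ k := Nat.cast_nonneg k
    linarith
  have hKk : 2 * (k : ℝ) + 1 ≤ K := by
    have : 0 ≤ ∑ i, (D0 i : ℝ) := sum_nonneg fun i _ => Nat.cast_nonneg _
    linarith
  filter_upwards [level ε hε hε1 k K c2 hc2, eventually_all.2 h1,
    eventually_all.2 (fun i => h3 i (a i) (b i) (hab i) (hIi i)), eventually_ge_atTop 3] with N hlev hN1 hN3 hN hNκ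
  obtain ⟨D, hDK, hD2, hD24, hD8, hDlog, hDL⟩ := hlev
  have hNr : (3 : ℝ) ≤ N := by exact_mod_cast hN
  have hL : 0 < Real.log N := Real.log_pos (by linarith)
  have hDr : (2 : ℝ) ≤ D := by exact_mod_cast hD2
  have hlogD : 0 < Real.log D := Real.log_pos (by linarith)
  have hN01 : (1 : ℝ) ≤ N := by linarith
  have hcardI : (D : ℝ) ^ 24 ≤ (I N).card := by
    refine hD24.trans (le_trans ?_ hNκ)
    exact Real.rpow_le_rpow_of_exponent_le hN01 hεκ
  have hIne : (I N).Nonempty := by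
    rw [← card_pos]
    have : (0 : ℝ) < (I N).card := lt_of_lt_of_le (by positivity) hcardI
    exact_mod_cast this
  have hQex := fun i => hD0 i D (by exact_mod_cast (hKi i).trans hDK) hD2 N (by omega) (F i N) (hN1 i).1
    (hD8.trans (hN1 i).1) (f i) (hN1 i).2.1 (hN1 i).2.2
  choose Q hQb hQp using hQex
  obtain ⟨R, hR⟩ : ∃ R : Fin k → ℕ → ℕ → Prop, ∀ i n m, R i n m ↔ (n ≤ m ∧ Bad D (Q i) (f i m / f i n)) :=
    ⟨_, fun _ _ _ => Iff.rfl⟩
  set B : Finset (ℕ × ℕ) := (I N ×ˢ I N).filter (fun p : ℕ × ℕ => ∃ i, R i p.1 p.2 ∨ R i p.2 p.1) with hB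
  have hmem : ∀ n ∈ I N, N < n ∧ n ≤ 2 * N := fun n hn => mem_Ioc.1 (hI N hn)
  have hBc : (B.card : ℝ) ≤ ((I N).card : ℝ) ^ 2 / Real.log N ^ (2 * k) := by
    have e1 := bad_pairs (I N) ((D : ℝ) ^ 20) R (by
      intro i n hn
      refine le_trans ?_ (hQb i n (hmem n hn).1 (hmem n hn).2)
      apply Nat.cast_le.2
      apply card_le_card
      intro m hm
      have hm' := Finset.mem_filter.1 hm
      exact Finset.mem_filter.2 ⟨hI N hm'.1, (hR i n m).1 hm'.2⟩)
    have e0 : (B.card : ℝ) ≤ 2 * k * (I N).card * (D : ℝ) ^ 20 := by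
      refine le_trans (Nat.cast_le.2 (card_le_card ?_)) e1
      intro p hp
      have hp' := Finset.mem_filter.1 hp
      exact Finset.mem_filter.2 hp'
    refine e0.trans ?_
    rw [le_div_iff₀ (by positivity)]
    have e2 : (2 * (k : ℝ)) * Real.log N ^ (2 * k) ≤ D := by
      refine le_trans ?_ hDL
      apply mul_le_mul_of_nonneg_right _ (by positivity)
      linarith
    have e3 : (D : ℝ) * (D : ℝ) ^ 20 ≤ (D : ℝ) ^ 24 := by
      calc (D : ℝ) * (D : ℝ) ^ 20 = (D : ℝ) ^ 21 := by ring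
        _ ≤ (D : ℝ) ^ 24 := pow_le_pow_right₀ (by linarith) (by norm_num)
    calc 2 * (k : ℝ) * ((I N).card : ℝ) * (D : ℝ) ^ 20 * Real.log N ^ (2 * k) =
        ((I N).card : ℝ) * ((2 * (k : ℝ) * Real.log N ^ (2 * k)) * (D : ℝ) ^ 20) := by ring
      _ ≤ ((I N).card : ℝ) * ((D : ℝ) * (D : ℝ) ^ 20) := by
          apply mul_le_mul_of_nonneg_left _ (Nat.cast_nonneg _)
          exact mul_le_mul_of_nonneg_right e2 (by positivity)
      _ ≤ ((I N).card : ℝ) * ((I N).card : ℝ) := mul_le_mul_of_nonneg_left (e3.trans hcardI) (Nat.cast_nonneg _)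
      _ = ((I N).card : ℝ) ^ 2 := by ring
  have hvol : ∀ i, volume.real (Set.Icc (a i) (b i)) = b i - a i := by
    intro i
    exact Real.volume_real_Icc_of_le (hab i).le
  have hpz := pz (fun i => Set.Icc (a i) (b i)) (fun i => measurableSet_Icc)
    (fun i => by rw [Real.volume_Icc]; exact ENNReal.ofReal_ne_top) (fun i => by rw [hvol]; linarith [hab i])
    (I N) hIne (fun i n => EE (g i) (u i n) (f i n)) hEm (Real.log N) c3 C hL hc3 hC1
    (fun i n hn => by rw [hvol]; exact hN3 i n hn) B (filter_subset _ _) hBc (by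
      intro n hn m hm hnm i
      rw [hvol]
      have hn' := hmem n hn
      have hm' := hmem m hm
      have hnR : ¬ R i n m := by
        intro h; apply hnm
        rw [hB, mem_filter, mem_product]
        exact ⟨⟨hn, hm⟩, i, Or.inl h⟩
      have hmR : ¬ R i m n := by
        intro h; apply hnm
        rw [hB, mem_filter, mem_product]
        exact ⟨⟨hn, hm⟩, i, Or.inr h⟩
      have hbd : volume.real (EE (g i) (u i n) (f i n) ∩ EE (g i) (u i m) (f i m) ∩ Set.Icc (a i) (b i)) ≤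
          18 * (g i : ℝ) ^ 2 * (b i - a i) / Real.log D ^ 2 := by
        rcases le_total n m with hle | hle
        · exact hQp i n m hn'.1 hle hm'.2 (fun h => hnR ((hR i n m).2 ⟨hle, h⟩)) (u i n) (u i m) (hu i n (by omega))
            (hu i m (by omega)) (a i) (b i) rfl
        · rw [Set.inter_comm (EE (g i) (u i n) (f i n))]
          exact hQp i m n hm'.1 hle hn'.2 (fun h => hmR ((hR i m n).2 ⟨hle, h⟩)) (u i m) (u i n) (hu i m (by omega))
            (hu i n (by omega)) (a i) (b i) rfl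
      refine hbd.trans ?_
      have hab' : 0 < b i - a i := by linarith [hab i]
      rw [div_le_div_iff₀ (by positivity) (by positivity)]
      have e1 : (ε / 2 * Real.log N) ^ 2 ≤ Real.log D ^ 2 := pow_le_pow_left₀ (by positivity) hDlog 2
      have e2 : C * (ε / 2 * Real.log N) ^ 2 = 18 * Gs * Real.log N ^ 2 := by rw [hC]; field_simp; ring
      calc 18 * (g i : ℝ) ^ 2 * (b i - a i) * Real.log N ^ 2 ≤ 18 * Gs * (b i - a i) * Real.log N ^ 2 := by
            gcongr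
            exact hGsi i
        _ = C * (ε / 2 * Real.log N) ^ 2 * (b i - a i) := by rw [e2]; ring
        _ ≤ C * Real.log D ^ 2 * (b i - a i) := by gcongr
        _ = C * (b i - a i) * Real.log D ^ 2 := by ring)
  have hprod : ∏ i, volume.real (Set.Icc (a i) (b i)) = ∏ i, (b i - a i) := prod_congr rfl fun i _ => hvol i
  rw [hprod] at hpz
  rw [← Set.pi_univ_Icc]
  exact hpz

end Pool.Agent.K7.H49.ME
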