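import Mathlib
import Pool.Agent.K7.H49.ME.Main

/-!
The metric theorem for subsets of the sets `EE`.
-/

set_option autoImplicit false

namespace Pool.Agent.K7.H49.ME

open Finset MeasureTheory Filter
open scoped Classical

theorem metric_sub (k : ℕ) (κ : ℝ) (hκ : 0 < κ) (g : Fin k → ℤ) (hg : ∀ i, g i ≠ 0) (u : Fin k → ℕ → ℤ)
    (hu : ∀ i n, 2 ≤ n → IsCoprime (u i n) (g i)) (f : Fin k → ℕ → ℝ) (F : Fin k → ℕ → ℝ) (C0 c1 c2 c3 : ℝ)
    (hC0 : 0 < C0) (hc1 : 0 < c1) (hc2 : 0 < c2) (hc3 : 0 < c3) (U : Fin k → Set ℝ) (hU : ∀ i, IsOpen (U i))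
    (E : Fin k → ℕ → Set ℝ) (hEm : ∀ i n, MeasurableSet (E i n)) (hEs : ∀ i n, E i n ⊆ EE (g i) (u i n) (f i n))
    (I : ℕ → Finset ℕ) (hI : ∀ N, I N ⊆ Ioc N (2 * N))
    (h1 : ∀ i, ∀ᶠ N : ℕ in atTop, c2 * N ≤ F i N ∧ (∀ n, N < n → n ≤ 2 * N → F i N ≤ f i n ∧ f i n ≤ C0 * F i N) ∧
      (∀ n m, N < n → n ≤ m → m ≤ 2 * N → c1 * F i N * ((m : ℝ) - n) / N ≤ f i m - f i n))
    (h3 : ∀ i, ∀ a b : ℝ, a < b → Set.Icc a b ⊆ U i → ∀ᶠ N : ℕ in atTop, ∀ n ∈ I N,
      c3 * (b - a) / Real.log N ≤ volume.real (E i n ∩ Set.Icc a b))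
    (hP : ∃ᶠ N : ℕ in atTop, (N : ℝ) ^ κ ≤ (I N).card) :
    ∀ᵐ α : Fin k → ℝ, (∀ i, α i ∈ U i) → ∃ᶠ N : ℕ in atTop, (N : ℝ) ^ κ ≤ (I N).card ∧
      c3 ^ k / 2 * (I N).card / Real.log N ^ k ≤
        (((I N).filter (fun n => ∀ i, α i ∈ E i n)).card : ℝ) := by
  set ε : ℝ := min κ 1 / 24 with hεdef
  have hε : 0 < ε := by rw [hεdef]; positivity
  have hε1 : ε ≤ 1 / 24 := by rw [hεdef]; have := min_le_right κ 1; linarith
  have hεκ : 24 * ε ≤ κ := by rw [hεdef]; have := min_le_left κ 1; linarith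
  set Gs : ℝ := 1 + ∑ i, (g i : ℝ) ^ 2 with hGs
  have hGs0 : 0 < Gs := by
    have : 0 ≤ ∑ i, (g i : ℝ) ^ 2 := sum_nonneg fun i _ => sq_nonneg _
    linarith
  have hGsi : ∀ i, (g i : ℝ) ^ 2 ≤ Gs := by
    intro i
    have : (g i : ℝ) ^ 2 ≤ ∑ i, (g i : ℝ) ^ 2 := single_le_sum (f := fun i => (g i : ℝ) ^ 2) (fun i _ => sq_nonneg _) (mem_univ i)
    linarith
  set C : ℝ := 72 * Gs / ε ^ 2 with hC
  have hC1 : 0 < C := by positivity
  set c' : ℝ := c3 ^ (2 * k) / (4 * (C ^ k + 1)) with hc'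
  have hc'0 : 0 < c' := by positivity
  set G : ℕ → Set (Fin k → ℝ) := fun N => {α | c3 ^ k / 2 * (I N).card / Real.log N ^ k ≤
    (((I N).filter (fun n => ∀ i, α i ∈ E i n)).card : ℝ)} with hG
  have hGm : ∀ N, MeasurableSet (G N) := fun N =>
    measurableSet_le measurable_const (meas_count (I N) E hEm)
  have hΩ : IsOpen {α : Fin k → ℝ | ∀ i, α i ∈ U i} := by
    have : {α : Fin k → ℝ | ∀ i, α i ∈ U i} = Set.pi Set.univ U := by ext α; simp [Set.mem_pi]
    rw [this]
    exact isOpen_set_pi Set.finite_univ fun i _ => hU i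
  have hmain := ae_freq G hGm {α : Fin k → ℝ | ∀ i, α i ∈ U i} hΩ c' hc'0 (fun N => (N : ℝ) ^ κ ≤ (I N).card) hP ?_
  · filter_upwards [hmain] with α hα hαU
    refine (hα hαU).mono fun N hN => ⟨hN.1, le_trans hN.2 (Nat.cast_le.2 (card_le_card ?_))⟩
    intro n hn
    have hn' := Finset.mem_filter.1 hn
    exact Finset.mem_filter.2 hn'
  intro a b hab habU
  -- the coordinate intervals
  have hIi : ∀ i, Set.Icc (a i) (b i) ⊆ U i := by
    intro i t ht
    have h4 : Function.update a i t ∈ Set.Icc a b := by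
      constructor
      · intro j
        by_cases hj : j = i
        · subst hj; rw [Function.update_self]; exact ht.1
        · rw [Function.update_of_ne hj]
      · intro j
        by_cases hj : j = i
        · subst hj; rw [Function.update_self]; exact ht.2
        · rw [Function.update_of_ne hj]; exact (hab j).le
    have h5 := habU h4 i
    rw [Function.update_self] at h5
    exact h5
  have hco := fun i => coord (g i) (hg i) C0 c1 c2 (b i - a i) hC0 hc1 hc2 (by linarith [hab i])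
  choose D0 hD0 using hco
  set K : ℝ := (∑ i, (D0 i : ℝ)) + (2 * k + 1) with hK
  have hKi : ∀ i, (D0 i : ℝ) ≤ K := by
    intro i
    have : (D0 i : ℝ) ≤ ∑ i, (D0 i : ℝ) := single_le_sum (f := fun i => (D0 i : ℝ)) (fun i _ => Nat.cast_nonneg _) (mem_univ i)
    have : (0 : ℝ) ≤ k := Nat.cast_nonneg k
    linarith
  have hKk : 2 * (k : ℝ) + 1 ≤ K := by
    have : 0 ≤ ∑ i, (D0 i : ℝ) := sum_nonneg fun i _ => Nat.cast_nonneg _
    linarith
  filter_upwards [level ε hε hε1 k K c2 hc2, eventually_all.2 h1,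
    eventually_all.2 (fun i => h3 i (a i) (b i) (hab i) (hIi i)), eventually_ge_atTop 3] with N hlev hN1 hN3 hN hNκ
  obtain ⟨D, hDK, hD2, hD24, hD8, hDlog, hDL⟩ := hlev
  have hNr : (3 : ℝ) ≤ N := by exact_mod_cast hN
  have hL : 0 < Real.log N := Real.log_pos (by linarith)
  have hDr : (2 : ℝ) ≤ D := by exact_mod_cast hD2
  have hlogD : 0 < Real.log D := Real.log_pos (by linarith)
  have hN01 : (1 : ℝ) ≤ N := by linarith
  have hcardI : (D : ℝ) ^ 24 ≤ (I N).card := by
    refine hD24.trans (le_trans ?_ hNκ)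
    exact Real.rpow_le_rpow_of_exponent_le hN01 hεκ
  have hIne : (I N).Nonempty := by
    rw [← card_pos]
    have : (0 : ℝ) < (I N).card := lt_of_lt_of_le (by positivity) hcardI
    exact_mod_cast this
  have hQex := fun i => hD0 i D (by exact_mod_cast (hKi i).trans hDK) hD2 N (by omega) (F i N) (hN1 i).1
    (hD8.trans (hN1 i).1) (f i) (hN1 i).2.1 (hN1 i).2.2
  choose Q hQb hQp using hQex
  obtain ⟨R, hR⟩ : ∃ R : Fin k → ℕ → ℕ → Prop, ∀ i n m, R i n m ↔ (n ≤ m ∧ Bad D (Q i) (f i m / f i n)) :=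
    ⟨_, fun _ _ _ => Iff.rfl⟩
  set B : Finset (ℕ × ℕ) := (I N ×ˢ I N).filter (fun p : ℕ × ℕ => ∃ i, R i p.1 p.2 ∨ R i p.2 p.1) with hB
  have hmem : ∀ n ∈ I N, N < n ∧ n ≤ 2 * N := fun n hn => mem_Ioc.1 (hI N hn)
  have hBc : (B.card : ℝ) ≤ ((I N).card : ℝ) ^ 2 / Real.log N ^ (2 * k) := by
    have e1 := bad_pairs (I N) ((D : ℝ) ^ 20) R (by
      intro i n hn
      refine le_trans ?_ (hQb i n (hmem n hn).1 (hmem n hn).2)
      apply Nat.cast_le.2
      apply card_le_card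
      intro m hm
      have hm' := Finset.mem_filter.1 hm
      exact Finset.mem_filter.2 ⟨hI N hm'.1, (hR i n m).1 hm'.2⟩)
    have e0 : (B.card : ℝ) ≤ 2 * k * (I N).card * (D : ℝ) ^ 20 := by
      refine le_trans (Nat.cast_le.2 (card_le_card ?_)) e1
      intro p hp
      have hp' := Finset.mem_filter.1 hp
      exact Finset.mem_filter.2 hp'
    refine e0.trans ?_
    rw [le_div_iff₀ (by positivity)]
    have e2 : (2 * (k : ℝ)) * Real.log N ^ (2 * k) ≤ D := by
      refine le_trans ?_ hDL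
      apply mul_le_mul_of_nonneg_right _ (by positivity)
      linarith
    have e3 : (D : ℝ) * (D : ℝ) ^ 20 ≤ (D : ℝ) ^ 24 := by
      calc (D : ℝ) * (D : ℝ) ^ 20 = (D : ℝ) ^ 21 := by ring
        _ ≤ (D : ℝ) ^ 24 := pow_le_pow_right₀ (by linarith) (by norm_num)
    calc 2 * (k : ℝ) * ((I N).card : ℝ) * (D : ℝ) ^ 20 * Real.log N ^ (2 * k) =
        ((I N).card : ℝ) * ((2 * (k : ℝ) * Real.log N ^ (2 * k)) * (D : ℝ) ^ 20) := by ring
      _ ≤ ((I N).card : ℝ) * ((D : ℝ) * (D : ℝ) ^ 20) := by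
          apply mul_le_mul_of_nonneg_left _ (Nat.cast_nonneg _)
          exact mul_le_mul_of_nonneg_right e2 (by positivity)
      _ ≤ ((I N).card : ℝ) * ((I N).card : ℝ) := mul_le_mul_of_nonneg_left (e3.trans hcardI) (Nat.cast_nonneg _)
      _ = ((I N).card : ℝ) ^ 2 := by ring
  have hvol : ∀ i, volume.real (Set.Icc (a i) (b i)) = b i - a i := by
    intro i
    exact Real.volume_real_Icc_of_le (hab i).le
  have hpz := pz (fun i => Set.Icc (a i) (b i)) (fun i => measurableSet_Icc)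
    (fun i => by rw [Real.volume_Icc]; exact ENNReal.ofReal_ne_top) (fun i => by rw [hvol]; linarith [hab i])
    (I N) hIne E hEm (Real.log N) c3 C hL hc3 hC1
    (fun i n hn => by rw [hvol]; exact hN3 i n hn) B (filter_subset _ _) hBc (by
      intro n hn m hm hnm i
      rw [hvol]
      have hn' := hmem n hn
      have hm' := hmem m hm
      have hnR : ¬ R i n m := by
        intro h; apply hnm
        rw [hB, mem_filter, mem_product]
        exact ⟨⟨hn, hm⟩, i, Or.inl h⟩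
      have hmR : ¬ R i m n := by
        intro h; apply hnm
        rw [hB, mem_filter, mem_product]
        exact ⟨⟨hn, hm⟩, i, Or.inr h⟩
      have hbd : volume.real (EE (g i) (u i n) (f i n) ∩ EE (g i) (u i m) (f i m) ∩ Set.Icc (a i) (b i)) ≤
          18 * (g i : ℝ) ^ 2 * (b i - a i) / Real.log D ^ 2 := by
        rcases le_total n m with hle | hle
        · exact hQp i n m hn'.1 hle hm'.2 (fun h => hnR ((hR i n m).2 ⟨hle, h⟩)) (u i n) (u i m) (hu i n (by omega))
            (hu i m (by omega)) (a i) (b i) rfl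
        · rw [Set.inter_comm (EE (g i) (u i n) (f i n))]
          exact hQp i m n hm'.1 hle hn'.2 (fun h => hmR ((hR i m n).2 ⟨hle, h⟩)) (u i m) (u i n) (hu i m (by omega))
            (hu i n (by omega)) (a i) (b i) rfl
      have hmono : volume.real (E i n ∩ E i m ∩ Set.Icc (a i) (b i)) ≤
          volume.real (EE (g i) (u i n) (f i n) ∩ EE (g i) (u i m) (f i m) ∩ Set.Icc (a i) (b i)) := by
        apply measureReal_mono
        · exact Set.inter_subset_inter_left _ (Set.inter_subset_inter (hEs i n) (hEs i m))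
        · apply ne_top_of_le_ne_top _ (measure_mono Set.inter_subset_right)
          rw [Real.volume_Icc]; exact ENNReal.ofReal_ne_top
      refine hmono.trans (hbd.trans ?_)
      have hab' : 0 < b i - a i := by linarith [hab i]
      rw [div_le_div_iff₀ (by positivity) (by positivity)]
      have e1 : (ε / 2 * Real.log N) ^ 2 ≤ Real.log D ^ 2 := pow_le_pow_left₀ (by positivity) hDlog 2
      have e2 : C * (ε / 2 * Real.log N) ^ 2 = 18 * Gs * Real.log N ^ 2 := by rw [hC]; field_simp; ring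
      calc 18 * (g i : ℝ) ^ 2 * (b i - a i) * Real.log N ^ 2 ≤ 18 * Gs * (b i - a i) * Real.log N ^ 2 := by
            gcongr
            exact hGsi i
        _ = C * (ε / 2 * Real.log N) ^ 2 * (b i - a i) := by rw [e2]; ring
        _ ≤ C * Real.log D ^ 2 * (b i - a i) := by gcongr
        _ = C * (b i - a i) * Real.log D ^ 2 := by ring)
  have hprod : ∏ i, volume.real (Set.Icc (a i) (b i)) = ∏ i, (b i - a i) := prod_congr rfl fun i _ => hvol i
  rw [hprod] at hpz
  rw [← Set.pi_univ_Icc]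
  exact hpz

end Pool.Agent.K7.H49.ME
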