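import Mathlib
import Pool.Agent.K7.H49.ME.Sub

/-!
The metric theorem with the first moment on average over `n`, and for slowly growing functions.
-/

set_option autoImplicit false

namespace Pool.Agent.K7.H49.ME

open Finset MeasureTheory Filter
open scoped Classical

theorem pzA {k : ℕ} (J : Fin k → Set ℝ) (hJm : ∀ i, MeasurableSet (J i)) (hJf : ∀ i, volume (J i) ≠ ⊤)
    (hJ0 : ∀ i, 0 < volume.real (J i)) (I : Finset ℕ) (hI : I.Nonempty) (E : Fin k → ℕ → Set ℝ)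
    (hE : ∀ i n, MeasurableSet (E i n)) (L c C : ℝ) (hL : 0 < L) (hc : 0 < c) (hC : 0 < C)
    (h1 : c ^ k * (∏ i, volume.real (J i)) * I.card / L ^ k ≤ ∑ n ∈ I, ∏ i, volume.real (E i n ∩ J i))
    (B : Finset (ℕ × ℕ)) (hBI : B ⊆ I ×ˢ I) (hB : (B.card : ℝ) ≤ (I.card : ℝ) ^ 2 / L ^ (2 * k))
    (h2 : ∀ n ∈ I, ∀ m ∈ I, (n, m) ∉ B → ∀ i, volume.real (E i n ∩ E i m ∩ J i) ≤ C * volume.real (J i) / L ^ 2) :
    c ^ (2 * k) / (4 * (C ^ k + 1)) * ∏ i, volume.real (J i) ≤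
      (volume : Measure (Fin k → ℝ)).real ({α | c ^ k / 2 * I.card / L ^ k ≤ ((I.filter (fun n => ∀ i, α i ∈ E i n)).card : ℝ)} ∩
        Set.pi Set.univ J) := by
  set P : Set (Fin k → ℝ) := Set.pi Set.univ J with hP
  set V : ℝ := ∏ i, volume.real (J i) with hV
  have hV0 : 0 < V := prod_pos fun i _ => hJ0 i
  have hPm : MeasurableSet P := MeasurableSet.univ_pi hJm
  have hPf : (volume : Measure (Fin k → ℝ)) P ≠ ⊤ := by
    rw [hP, volume_pi_pi]
    exact ENNReal.prod_ne_top fun i _ => hJf i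
  set μ : Measure (Fin k → ℝ) := volume.restrict P with hμ
  haveI : IsFiniteMeasure μ := ⟨by rw [hμ, Measure.restrict_apply_univ]; exact lt_top_iff_ne_top.2 hPf⟩
  set Fs : ℕ → Set (Fin k → ℝ) := fun n => {α | ∀ i, α i ∈ E i n} with hFs
  have hFpi : ∀ n, Fs n = Set.pi Set.univ (fun i => E i n) := by
    intro n; ext α; simp [hFs, Set.mem_pi]
  have hFm : ∀ n, MeasurableSet (Fs n) := fun n => by rw [hFpi]; exact MeasurableSet.univ_pi fun i => hE i n
  set S : (Fin k → ℝ) → ℝ := fun α => ∑ n ∈ I, (Fs n).indicator 1 α with hS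
  have hScard : ∀ α, S α = ((I.filter (fun n => ∀ i, α i ∈ E i n)).card : ℝ) := by
    intro α
    rw [hS, card_filter]
    push_cast
    apply sum_congr rfl
    intro n _
    by_cases h : ∀ i, α i ∈ E i n
    · rw [if_pos h, Set.indicator_of_mem (show α ∈ Fs n from h)]; rfl
    · rw [if_neg h, Set.indicator_of_notMem (show α ∉ Fs n from h)]
  have hS2 : ∀ α, S α ^ 2 = ∑ n ∈ I, ∑ m ∈ I, (Fs n ∩ Fs m).indicator 1 α := by
    intro α
    rw [hS, sq, sum_mul_sum]
    apply sum_congr rfl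
    intro n _
    apply sum_congr rfl
    intro m _
    by_cases h3 : α ∈ Fs n <;> by_cases h4 : α ∈ Fs m <;> simp [Set.indicator, h3, h4]
  have hSint : Integrable S μ := by
    apply integrable_finset_sum
    intro n _
    exact (integrable_const (1 : ℝ)).indicator (hFm n)
  have hS2int : Integrable (fun α => S α ^ 2) μ := by
    simp_rw [hS2]
    apply integrable_finset_sum
    intro n _
    apply integrable_finset_sum
    intro m _
    exact (integrable_const (1 : ℝ)).indicator ((hFm n).inter (hFm m))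
  have hind : ∀ A : Set (Fin k → ℝ), MeasurableSet A → ∫ α, A.indicator (1 : (Fin k → ℝ) → ℝ) α ∂μ = (volume : Measure (Fin k → ℝ)).real (A ∩ P) := by
    intro A hA
    rw [integral_indicator_one hA, hμ, measureReal_restrict_apply hA]
  have hM1 : ∫ α, S α ∂μ = ∑ n ∈ I, (volume : Measure (Fin k → ℝ)).real (Fs n ∩ P) := by
    rw [hS]
    rw [integral_finset_sum]
    · exact sum_congr rfl fun n _ => hind _ (hFm n)
    · intro n _
      exact (integrable_const (1 : ℝ)).indicator (hFm n)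
  have hM2 : ∫ α, S α ^ 2 ∂μ = ∑ n ∈ I, ∑ m ∈ I, (volume : Measure (Fin k → ℝ)).real (Fs n ∩ Fs m ∩ P) := by
    simp_rw [hS2]
    rw [integral_finset_sum]
    · apply sum_congr rfl
      intro n _
      rw [integral_finset_sum]
      · exact sum_congr rfl fun m _ => hind _ ((hFm n).inter (hFm m))
      · intro m _
        exact (integrable_const (1 : ℝ)).indicator ((hFm n).inter (hFm m))
    · intro n _
      apply integrable_finset_sum
      intro m _
      exact (integrable_const (1 : ℝ)).indicator ((hFm n).inter (hFm m))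
  have hn0 : (0 : ℝ) < I.card := by exact_mod_cast card_pos.2 hI
  -- the first moment
  have hlow : c ^ k * V * I.card / L ^ k ≤ ∫ α, S α ∂μ := by
    rw [hM1]
    refine h1.trans (le_of_eq (sum_congr rfl fun n _ => ?_))
    have e1 : Fs n ∩ P = Set.pi Set.univ (fun i => E i n ∩ J i) := by
      rw [hFpi, hP, ← Set.pi_inter_distrib]
    rw [e1, vol_pi]
  -- the second moment
  have hup : ∫ α, S α ^ 2 ∂μ ≤ (C ^ k + 1) * (I.card : ℝ) ^ 2 * V / L ^ (2 * k) := by
    rw [hM2, ← sum_product']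
    have e0 : ∀ p ∈ I ×ˢ I, (volume : Measure (Fin k → ℝ)).real (Fs p.1 ∩ Fs p.2 ∩ P) ≤
        C ^ k * V / L ^ (2 * k) + (if p ∈ B then V else 0) := by
      intro p hp
      rw [mem_product] at hp
      by_cases hpB : p ∈ B
      · rw [if_pos hpB]
        have e1 : (volume : Measure (Fin k → ℝ)).real (Fs p.1 ∩ Fs p.2 ∩ P) ≤ (volume : Measure (Fin k → ℝ)).real P :=
          measureReal_mono Set.inter_subset_right hPf
        have e2 : (volume : Measure (Fin k → ℝ)).real P = V := by rw [hP, vol_pi]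
        have e3 : 0 ≤ C ^ k * V / L ^ (2 * k) := by positivity
        linarith
      · rw [if_neg hpB, add_zero]
        have e1 : Fs p.1 ∩ Fs p.2 ∩ P = Set.pi Set.univ (fun i => E i p.1 ∩ E i p.2 ∩ J i) := by
          rw [hFpi, hFpi, hP, ← Set.pi_inter_distrib, ← Set.pi_inter_distrib]
        rw [e1, vol_pi]
        calc ∏ i, volume.real (E i p.1 ∩ E i p.2 ∩ J i) ≤ ∏ i, (C * volume.real (J i) / L ^ 2) := by
              apply Finset.prod_le_prod
              · intro i _; exact measureReal_nonneg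
              · intro i _; exact h2 p.1 hp.1 p.2 hp.2 hpB i
          _ = C ^ k * V / L ^ (2 * k) := by
              rw [prod_div_distrib, prod_mul_distrib, prod_const, prod_const, Finset.card_univ, Fintype.card_fin, ← pow_mul]
    calc ∑ p ∈ I ×ˢ I, (volume : Measure (Fin k → ℝ)).real (Fs p.1 ∩ Fs p.2 ∩ P) ≤
        ∑ p ∈ I ×ˢ I, (C ^ k * V / L ^ (2 * k) + (if p ∈ B then V else 0)) := sum_le_sum e0
      _ = (I.card : ℝ) ^ 2 * (C ^ k * V / L ^ (2 * k)) + B.card * V := by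
          rw [sum_add_distrib, sum_const, card_product, nsmul_eq_mul, ← sum_filter, sum_const, nsmul_eq_mul,
            filter_mem_eq_inter, inter_eq_right.2 hBI]
          push_cast
          ring
      _ ≤ (I.card : ℝ) ^ 2 * (C ^ k * V / L ^ (2 * k)) + (I.card : ℝ) ^ 2 / L ^ (2 * k) * V := by
          have := mul_le_mul_of_nonneg_right hB hV0.le
          linarith
      _ = _ := by ring
  set T : ℝ := c ^ k / 2 * I.card / L ^ k with hT
  have hT0 : 0 < T := by positivity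
  set G : Set (Fin k → ℝ) := {α | T ≤ ((I.filter (fun n => ∀ i, α i ∈ E i n)).card : ℝ)} with hG
  have hGS : G = {α | T ≤ S α} := by
    ext α; rw [hG, Set.mem_setOf_eq, Set.mem_setOf_eq, hScard]
  have hSm : Measurable S := by
    apply Finset.measurable_sum
    intro n _
    exact measurable_const.indicator (hFm n)
  have hGm : MeasurableSet G := by rw [hGS]; exact measurableSet_le measurable_const hSm
  set M : ℝ := (C ^ k + 1) * (I.card : ℝ) ^ 2 * V / L ^ (2 * k) with hM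
  have hM0 : 0 < M := by positivity
  set la : ℝ := T * V / M with hla
  have hla0 : 0 < la := by positivity
  have hpt : ∀ α, S α ≤ T + (la / 2 * S α ^ 2 + 1 / (2 * la) * G.indicator (1 : (Fin k → ℝ) → ℝ) α) := by
    intro α
    by_cases h : α ∈ G
    · rw [Set.indicator_of_mem h, Pi.one_apply]
      have e1 : 0 ≤ (la * S α - 1) ^ 2 / (2 * la) := by positivity
      have e2 : (la * S α - 1) ^ 2 / (2 * la) = la / 2 * S α ^ 2 + 1 / (2 * la) * 1 - S α := by
        field_simp; ring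
      linarith
    · rw [Set.indicator_of_notMem h]
      have e1 : S α < T := by
        rw [hGS, Set.mem_setOf_eq, not_le] at h; exact h
      have e2 : 0 ≤ la / 2 * S α ^ 2 := by positivity
      linarith
  have hGi : Integrable (fun α => G.indicator (1 : (Fin k → ℝ) → ℝ) α) μ := (integrable_const (1 : ℝ)).indicator hGm
  have hmono : ∫ α, S α ∂μ ≤ ∫ α, (T + (la / 2 * S α ^ 2 + 1 / (2 * la) * G.indicator (1 : (Fin k → ℝ) → ℝ) α)) ∂μ := by
    apply integral_mono hSint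
    · exact (integrable_const T).add ((hS2int.const_mul _).add (hGi.const_mul _))
    · exact hpt
  have hcalc : ∫ α, (T + (la / 2 * S α ^ 2 + 1 / (2 * la) * G.indicator (1 : (Fin k → ℝ) → ℝ) α)) ∂μ =
      T * V + (la / 2 * ∫ α, S α ^ 2 ∂μ + 1 / (2 * la) * (volume : Measure (Fin k → ℝ)).real (G ∩ P)) := by
    have i1 : Integrable (fun α => la / 2 * S α ^ 2) μ := hS2int.const_mul _
    have i2 : Integrable (fun α => 1 / (2 * la) * G.indicator (1 : (Fin k → ℝ) → ℝ) α) μ := hGi.const_mul _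
    have i3 : Integrable (fun α => la / 2 * S α ^ 2 + 1 / (2 * la) * G.indicator (1 : (Fin k → ℝ) → ℝ) α) μ := i1.add i2
    rw [integral_add (integrable_const T) i3, integral_add i1 i2, integral_const_mul, integral_const_mul, hind G hGm,
      integral_const]
    have e2 : μ.real Set.univ = V := by
      rw [hμ, measureReal_restrict_apply MeasurableSet.univ, Set.univ_inter, hP, vol_pi]
    rw [e2, smul_eq_mul]
    ring
  rw [hcalc] at hmono
  have hlow' : 2 * (T * V) ≤ ∫ α, S α ∂μ := by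
    refine le_trans (le_of_eq ?_) hlow
    rw [hT]; ring
  have e1 : la / 2 * ∫ α, S α ^ 2 ∂μ ≤ la / 2 * M := mul_le_mul_of_nonneg_left hup (by positivity)
  have e2 : la / 2 * M = T * V / 2 := by rw [hla]; field_simp
  have e3 : T * V / 2 ≤ 1 / (2 * la) * (volume : Measure (Fin k → ℝ)).real (G ∩ P) := by linarith
  have e4 : (2 * la) * (T * V / 2) ≤ (volume : Measure (Fin k → ℝ)).real (G ∩ P) := by
    have := mul_le_mul_of_nonneg_left e3 (show 0 ≤ 2 * la by positivity)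
    have e5 : 2 * la * (1 / (2 * la) * (volume : Measure (Fin k → ℝ)).real (G ∩ P)) = (volume : Measure (Fin k → ℝ)).real (G ∩ P) := by
      field_simp
    linarith
  refine le_trans (le_of_eq ?_) e4
  rw [hla, hM, hT]
  have hL' : L ^ (2 * k) = L ^ k * L ^ k := by rw [two_mul, pow_add]
  have hc' : c ^ (2 * k) = c ^ k * c ^ k := by rw [two_mul, pow_add]
  rw [hL', hc']
  field_simp
  ring

theorem bad_numA (D N Q : ℕ) (C0 c1 F : ℝ) (hC0 : 0 < C0) (hc1 : 0 < c1) (hD : 2 ≤ D)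
    (hF : 0 < F) (hQ : F ≤ 2 * (Q * D ^ 5)) (hK : (C0 + 3) * (4 * C0 / c1 + 1) ≤ D) :
    D ^ 6 * (C0 * D ^ 6 + 3) * (2 * C0 * D ^ 2 * N / (c1 * Q) + 1) ≤ (D : ℝ) ^ 20 * (N / F + 1) := by
  have hD1 : (2 : ℝ) ≤ D := by exact_mod_cast hD
  have hD0 : (0 : ℝ) < D := by linarith
  have hN0 : (0 : ℝ) ≤ N := Nat.cast_nonneg N
  have hQ0 : (0 : ℝ) < Q := by
    by_contra h
    push Not at h
    have h1 : (Q : ℝ) = 0 := le_antisymm h (Nat.cast_nonneg _)
    rw [h1] at hQ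
    simp at hQ
    linarith
  have h1 : 2 * C0 * D ^ 2 * N / (c1 * Q) ≤ 4 * C0 / c1 * D ^ 7 * (N / F) := by
    rw [div_le_iff₀ (by positivity)]
    calc 2 * C0 * (D : ℝ) ^ 2 * N = 2 * C0 * D ^ 2 * (N / F) * F := by field_simp
      _ ≤ 2 * C0 * D ^ 2 * (N / F) * (2 * (Q * D ^ 5)) := mul_le_mul_of_nonneg_left hQ (by positivity)
      _ = 4 * C0 / c1 * D ^ 7 * (N / F) * (c1 * Q) := by field_simp; ring
  have h6 : (1 : ℝ) ≤ D ^ 6 := one_le_pow₀ (by linarith)
  have h7 : (1 : ℝ) ≤ D ^ 7 := one_le_pow₀ (by linarith)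
  have hNF : 0 ≤ (N : ℝ) / F := by positivity
  have h2 : C0 * (D : ℝ) ^ 6 + 3 ≤ (C0 + 3) * D ^ 6 := by nlinarith
  have h3 : 2 * C0 * D ^ 2 * N / (c1 * Q) + 1 ≤ (4 * C0 / c1 + 1) * D ^ 7 * (N / F + 1) := by
    have e1 : (4 * C0 / c1 + 1) * (D : ℝ) ^ 7 * (N / F + 1) =
        4 * C0 / c1 * D ^ 7 * (N / F) + 4 * C0 / c1 * D ^ 7 + D ^ 7 * (N / F) + D ^ 7 := by ring
    rw [e1]
    have e2 : 0 ≤ 4 * C0 / c1 * (D : ℝ) ^ 7 := by positivity
    have e3 : 0 ≤ (D : ℝ) ^ 7 * (N / F) := by positivity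
    linarith
  have h4 : 0 ≤ 2 * C0 * (D : ℝ) ^ 2 * N / (c1 * Q) + 1 := by positivity
  calc D ^ 6 * (C0 * D ^ 6 + 3) * (2 * C0 * D ^ 2 * N / (c1 * Q) + 1) ≤
      D ^ 6 * ((C0 + 3) * D ^ 6) * ((4 * C0 / c1 + 1) * D ^ 7 * (N / F + 1)) := by
        apply mul_le_mul _ h3 h4 (by positivity)
        exact mul_le_mul_of_nonneg_left h2 (by positivity)
    _ = ((C0 + 3) * (4 * C0 / c1 + 1)) * (D ^ 19 * (N / F + 1)) := by ring
    _ ≤ D * (D ^ 19 * (N / F + 1)) := mul_le_mul_of_nonneg_right hK (by positivity)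
    _ = (D : ℝ) ^ 20 * (N / F + 1) := by ring

theorem coordA (g : ℤ) (hg : g ≠ 0) (C0 c1 δ : ℝ) (hC0 : 0 < C0) (hc1 : 0 < c1) (hδ : 0 < δ) :
    ∃ D0 : ℕ, ∀ D : ℕ, D0 ≤ D → 2 ≤ D → ∀ N : ℕ, 1 ≤ N → ∀ F : ℝ, (D : ℝ) ^ 8 ≤ F → ∀ f : ℕ → ℝ,
    (∀ n, N < n → n ≤ 2 * N → F ≤ f n ∧ f n ≤ C0 * F) →
    (∀ n m, N < n → n ≤ m → m ≤ 2 * N → c1 * F * ((m : ℝ) - n) / N ≤ f m - f n) →
    ∃ Q : ℕ, (∀ n, N < n → n ≤ 2 * N →
      (((Ioc N (2 * N)).filter (fun m => n ≤ m ∧ Bad D Q (f m / f n))).card : ℝ) ≤ (D : ℝ) ^ 20 * (N / F + 1)) ∧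
    ∀ n m, N < n → n ≤ m → m ≤ 2 * N → ¬ Bad D Q (f m / f n) → ∀ u v : ℤ, IsCoprime u g → IsCoprime v g →
      ∀ a b : ℝ, b - a = δ → volume.real (EE g u (f n) ∩ EE g v (f m) ∩ Set.Icc a b) ≤
        18 * (g : ℝ) ^ 2 * δ / Real.log D ^ 2 := by
  obtain ⟨D1, hD1⟩ := simp_bound g hg δ hδ
  refine ⟨max D1 ⌈(C0 + 3) * (4 * C0 / c1 + 1)⌉₊, ?_⟩
  intro D hD hD2 N hN F hF2 f h1 h2
  have hDa : D1 ≤ D := (le_max_left _ _).trans hD
  have hDb : (C0 + 3) * (4 * C0 / c1 + 1) ≤ D :=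
    (Nat.le_ceil _).trans (by exact_mod_cast (le_max_right _ _).trans hD)
  have hDr : (2 : ℝ) ≤ D := by exact_mod_cast hD2
  have hD0 : (0 : ℝ) < D := by linarith
  have hF0 : 0 < F := lt_of_lt_of_le (by positivity) hF2
  have hFD : (D : ℝ) ^ 3 ≤ F / D ^ 5 := by
    rw [le_div_iff₀ (by positivity)]
    calc (D : ℝ) ^ 3 * D ^ 5 = D ^ 8 := by ring
      _ ≤ F := hF2
  set Q : ℕ := ⌊F / D ^ 5⌋₊ with hQ
  have hQ1 : (Q : ℝ) * D ^ 5 ≤ F := by
    have := Nat.floor_le (show 0 ≤ F / D ^ 5 by positivity)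
    rw [← hQ, le_div_iff₀ (by positivity)] at this
    exact this
  have hQ2 : F ≤ 2 * (Q * D ^ 5) := by
    have e1 := Nat.lt_floor_add_one (F / (D : ℝ) ^ 5)
    rw [← hQ] at e1
    have e2 : (8 : ℝ) ≤ D ^ 3 := by
      calc (8 : ℝ) = 2 ^ 3 := by norm_num
        _ ≤ D ^ 3 := pow_le_pow_left₀ (by norm_num) hDr 3
    have e3 : F / (D : ℝ) ^ 5 ≤ 2 * Q := by linarith
    rw [div_le_iff₀ (by positivity)] at e3
    linarith
  have hQ3 : D ^ 2 ≤ Q := by
    apply Nat.le_floor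
    push_cast
    refine le_trans ?_ hFD
    exact pow_le_pow_right₀ (by linarith) (by norm_num)
  have hQpos : 1 ≤ Q := le_trans (Nat.one_le_iff_ne_zero.2 (by positivity)) hQ3
  refine ⟨Q, ?_, ?_⟩
  · intro n hn hn2
    exact (bad_count N hN F C0 c1 f D Q hD2 hQ3 hF0 hc1 hC0 h1 h2 n hn hn2).trans
      (bad_numA D N Q C0 c1 F hC0 hc1 hD2 hF0 hQ2 hDb)
  · intro n m hn hnm hm hbad u v hu hv a b hab
    have hfn := (h1 n hn (hnm.trans hm)).1
    have hfm : f n ≤ f m := by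
      have e1 := h2 n m hn hnm hm
      have e2 : 0 ≤ c1 * F * ((m : ℝ) - n) / N := by
        have : (n : ℝ) ≤ m := by exact_mod_cast hnm
        have : 0 ≤ (m : ℝ) - n := by linarith
        positivity
      linarith
    have hgen : ∀ v : ℕ, 1 ≤ v → v ≤ D ^ 6 → ∀ w : ℤ, (D : ℝ) ^ 2 / Q < |v * (f m / f n) - w| := by
      intro v' hv1 hv2 w
      by_contra hcon
      push Not at hcon
      exact hbad ⟨v', hv1, hv2, w, hcon⟩
    have h3 := upper g u v hg hu hv (f n) (f m) (hF0.trans_le hfn) hfm a b (by linarith) D Q hD2 hQpos hgen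
    rw [hab] at h3
    refine h3.trans (hD1 D hDa hD2 (f n) ?_ Q (hQ1.trans hfn))
    refine le_trans ?_ hfn
    refine le_trans ?_ hF2
    exact pow_le_pow_right₀ (by linarith) (by norm_num)

theorem metric_avg (k : ℕ) (τ : ℝ) (hτ : 0 < τ) (hτ1 : τ ≤ 1) (g : Fin k → ℤ) (hg : ∀ i, g i ≠ 0) (u : Fin k → ℕ → ℤ)
    (hu : ∀ i n, 2 ≤ n → IsCoprime (u i n) (g i)) (f : Fin k → ℕ → ℝ) (F : Fin k → ℕ → ℝ) (C0 c1 c2 c3 : ℝ)
    (hC0 : 0 < C0) (hc1 : 0 < c1) (hc2 : 0 < c2) (hc3 : 0 < c3) (U : Fin k → Set ℝ) (hU : ∀ i, IsOpen (U i))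
    (E : Fin k → ℕ → Set ℝ) (hEm : ∀ i n, MeasurableSet (E i n)) (hEs : ∀ i n, E i n ⊆ EE (g i) (u i n) (f i n))
    (h1 : ∀ i, ∀ᶠ N : ℕ in atTop, c2 * (N : ℝ) ^ τ ≤ F i N ∧ (∀ n, N < n → n ≤ 2 * N → F i N ≤ f i n ∧ f i n ≤ C0 * F i N) ∧
      (∀ n m, N < n → n ≤ m → m ≤ 2 * N → c1 * F i N * ((m : ℝ) - n) / N ≤ f i m - f i n))
    (h3 : ∀ a b : Fin k → ℝ, (∀ i, a i < b i) → (∀ i, Set.Icc (a i) (b i) ⊆ U i) → ∀ᶠ N : ℕ in atTop,
      c3 ^ k * (∏ i, (b i - a i)) * N / Real.log N ^ k ≤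
        ∑ n ∈ Ioc N (2 * N), ∏ i, volume.real (E i n ∩ Set.Icc (a i) (b i))) :
    ∀ᵐ α : Fin k → ℝ, (∀ i, α i ∈ U i) → ∃ᶠ N : ℕ in atTop, c3 ^ k / 2 * N / Real.log N ^ k ≤
        (((Ioc N (2 * N)).filter (fun n => ∀ i, α i ∈ E i n)).card : ℝ) := by
  set ε : ℝ := τ / 48 with hεdef
  have hε : 0 < ε := by rw [hεdef]; positivity
  have hε1 : ε ≤ 1 / 24 := by rw [hεdef]; linarith
  have hεκ : 24 * ε ≤ τ / 2 := by rw [hεdef]; linarith
  set Gs : ℝ := 1 + ∑ i, (g i : ℝ) ^ 2 with hGs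
  have hGs0 : 0 < Gs := by
    have : 0 ≤ ∑ i, (g i : ℝ) ^ 2 := sum_nonneg fun i _ => sq_nonneg _
    linarith
  have hGsi : ∀ i, (g i : ℝ) ^ 2 ≤ Gs := by
    intro i
    have : (g i : ℝ) ^ 2 ≤ ∑ i, (g i : ℝ) ^ 2 := single_le_sum (f := fun i => (g i : ℝ) ^ 2) (fun i _ => sq_nonneg _) (mem_univ i)
    linarith
  set C : ℝ := 72 * Gs / ε ^ 2 with hC
  have hC1 : 0 < C := by positivity
  set c' : ℝ := c3 ^ (2 * k) / (4 * (C ^ k + 1)) with hc'
  have hc'0 : 0 < c' := by positivity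
  set I : ℕ → Finset ℕ := fun N => Ioc N (2 * N) with hIdef
  have hIc : ∀ N, ((I N).card : ℝ) = N := by
    intro N
    rw [hIdef]
    simp only [Nat.card_Ioc]
    have : 2 * N - N = N := by omega
    rw [this]
  set G : ℕ → Set (Fin k → ℝ) := fun N => {α | c3 ^ k / 2 * (I N).card / Real.log N ^ k ≤
    (((I N).filter (fun n => ∀ i, α i ∈ E i n)).card : ℝ)} with hG
  have hGm : ∀ N, MeasurableSet (G N) := fun N =>
    measurableSet_le measurable_const (meas_count (I N) E hEm)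
  have hΩ : IsOpen {α : Fin k → ℝ | ∀ i, α i ∈ U i} := by
    have : {α : Fin k → ℝ | ∀ i, α i ∈ U i} = Set.pi Set.univ U := by ext α; simp [Set.mem_pi]
    rw [this]
    exact isOpen_set_pi Set.finite_univ fun i _ => hU i
  have hmain := ae_freq G hGm {α : Fin k → ℝ | ∀ i, α i ∈ U i} hΩ c' hc'0 (fun N => True) (Filter.Eventually.frequently (Filter.Eventually.of_forall fun _ => trivial)) ?_
  · filter_upwards [hmain] with α hα hαU
    refine (hα hαU).mono fun N hN => ?_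
    have h5 : c3 ^ k / 2 * (I N).card / Real.log N ^ k ≤ (((I N).filter (fun n => ∀ i, α i ∈ E i n)).card : ℝ) := hN.2
    rw [hIc] at h5
    refine h5.trans (Nat.cast_le.2 (card_le_card ?_))
    intro n hn
    have hn' := Finset.mem_filter.1 hn
    exact Finset.mem_filter.2 hn'
  intro a b hab habU
  -- the coordinate intervals
  have hIi : ∀ i, Set.Icc (a i) (b i) ⊆ U i := by
    intro i t ht
    have h4 : Function.update a i t ∈ Set.Icc a b := by
      constructor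
      · intro j
        by_cases hj : j = i
        · subst hj; rw [Function.update_self]; exact ht.1
        · rw [Function.update_of_ne hj]
      · intro j
        by_cases hj : j = i
        · subst hj; rw [Function.update_self]; exact ht.2
        · rw [Function.update_of_ne hj]; exact (hab j).le
    have h5 := habU h4 i
    rw [Function.update_self] at h5
    exact h5
  have hco := fun i => coordA (g i) (hg i) C0 c1 (b i - a i) hC0 hc1 (by linarith [hab i])
  choose D0 hD0 using hco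
  set K : ℝ := (∑ i, (D0 i : ℝ)) + (2 * k + 1) with hK
  have hKi : ∀ i, (D0 i : ℝ) ≤ K := by
    intro i
    have : (D0 i : ℝ) ≤ ∑ i, (D0 i : ℝ) := single_le_sum (f := fun i => (D0 i : ℝ)) (fun i _ => Nat.cast_nonneg _) (mem_univ i)
    have : (0 : ℝ) ≤ k := Nat.cast_nonneg k
    linarith
  have hKk : 2 * (k : ℝ) + 1 ≤ K := by
    have : 0 ≤ ∑ i, (D0 i : ℝ) := sum_nonneg fun i _ => Nat.cast_nonneg _
    linarith
  have hN2ev : ∀ᶠ N : ℕ in atTop, 1 / c2 + 1 ≤ (N : ℝ) ^ (τ / 2) :=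
    ((tendsto_rpow_atTop (by positivity)).comp tendsto_natCast_atTop_atTop).eventually_ge_atTop _
  filter_upwards [level ε hε hε1 k K c2 hc2, eventually_all.2 h1,
    h3 a b hab hIi, eventually_ge_atTop 3, hN2ev] with N hlev hN1 hN3 hN hNτ _
  obtain ⟨D, hDK, hD2, hD24, hD8, hDlog, hDL⟩ := hlev
  have hNr : (3 : ℝ) ≤ N := by exact_mod_cast hN
  have hL : 0 < Real.log N := Real.log_pos (by linarith)
  have hDr : (2 : ℝ) ≤ D := by exact_mod_cast hD2
  have hlogD : 0 < Real.log D := Real.log_pos (by linarith)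
  have hN01 : (1 : ℝ) ≤ N := by linarith
  have hD24' : (D : ℝ) ^ 24 ≤ (N : ℝ) ^ (τ / 2) := hD24.trans (Real.rpow_le_rpow_of_exponent_le hN01 hεκ)
  have hsq : (N : ℝ) ^ τ = (N : ℝ) ^ (τ / 2) * (N : ℝ) ^ (τ / 2) := by
    rw [← Real.rpow_add (by linarith)]; ring_nf
  have hNτ2 : 1 ≤ c2 * (N : ℝ) ^ (τ / 2) := by
    have h1 : 1 / c2 ≤ (N : ℝ) ^ (τ / 2) := by linarith
    rw [div_le_iff₀ hc2] at h1
    linarith
  have hD8F : (D : ℝ) ^ 8 ≤ c2 * (N : ℝ) ^ τ := by
    calc (D : ℝ) ^ 8 ≤ (D : ℝ) ^ 24 := pow_le_pow_right₀ (by linarith) (by norm_num)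
      _ ≤ 1 * (N : ℝ) ^ (τ / 2) := by rw [one_mul]; exact hD24'
      _ ≤ (c2 * (N : ℝ) ^ (τ / 2)) * (N : ℝ) ^ (τ / 2) := mul_le_mul_of_nonneg_right hNτ2 (by positivity)
      _ = _ := by rw [hsq]; ring
  set Mx : ℝ := (1 / c2 + 1) * (N : ℝ) ^ (1 - τ) with hMx
  have hMxF : ∀ i, (N : ℝ) / F i N + 1 ≤ Mx := by
    intro i
    have h1 := (hN1 i).1
    have h2 : 0 < (N : ℝ) ^ τ := Real.rpow_pos_of_pos (by linarith) _
    have h3 : (N : ℝ) / F i N ≤ 1 / c2 * (N : ℝ) ^ (1 - τ) := by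
      calc (N : ℝ) / F i N ≤ N / (c2 * (N : ℝ) ^ τ) := div_le_div_of_nonneg_left (by linarith) (by positivity) h1
        _ = 1 / c2 * (N : ℝ) ^ (1 - τ) := by
            rw [Real.rpow_sub (by linarith), Real.rpow_one]; field_simp
    have h4 : 1 ≤ (N : ℝ) ^ (1 - τ) := Real.one_le_rpow hN01 (by linarith)
    rw [hMx]
    linarith
  have hMxN : (D : ℝ) ^ 24 * Mx ≤ N := by
    calc (D : ℝ) ^ 24 * Mx ≤ (N : ℝ) ^ (τ / 2) * ((N : ℝ) ^ (τ / 2) * (N : ℝ) ^ (1 - τ)) := by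
          rw [hMx]
          gcongr
      _ = N := by
          rw [← Real.rpow_add (by linarith), ← Real.rpow_add (by linarith)]
          have : τ / 2 + (τ / 2 + (1 - τ)) = 1 := by ring
          rw [this, Real.rpow_one]
  have hIne : (I N).Nonempty := by
    rw [← card_pos]
    have : (0 : ℝ) < (I N).card := by rw [hIc]; linarith
    exact_mod_cast this
  have hQex := fun i => hD0 i D (by exact_mod_cast (hKi i).trans hDK) hD2 N (by omega) (F i N)
    (hD8F.trans (hN1 i).1) (f i) (hN1 i).2.1 (hN1 i).2.2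
  choose Q hQb hQp using hQex
  obtain ⟨R, hR⟩ : ∃ R : Fin k → ℕ → ℕ → Prop, ∀ i n m, R i n m ↔ (n ≤ m ∧ Bad D (Q i) (f i m / f i n)) :=
    ⟨_, fun _ _ _ => Iff.rfl⟩
  set B : Finset (ℕ × ℕ) := (I N ×ˢ I N).filter (fun p : ℕ × ℕ => ∃ i, R i p.1 p.2 ∨ R i p.2 p.1) with hB
  have hmem : ∀ n ∈ I N, N < n ∧ n ≤ 2 * N := fun n hn => mem_Ioc.1 hn
  have hBc : (B.card : ℝ) ≤ ((I N).card : ℝ) ^ 2 / Real.log N ^ (2 * k) := by
    have e1 := bad_pairs (I N) ((D : ℝ) ^ 20 * Mx) R (by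
      intro i n hn
      refine le_trans ?_ ((hQb i n (hmem n hn).1 (hmem n hn).2).trans
        (mul_le_mul_of_nonneg_left (hMxF i) (by positivity)))
      apply Nat.cast_le.2
      apply card_le_card
      intro m hm
      have hm' := Finset.mem_filter.1 hm
      exact Finset.mem_filter.2 ⟨hm'.1, (hR i n m).1 hm'.2⟩)
    have e0 : (B.card : ℝ) ≤ 2 * k * (I N).card * ((D : ℝ) ^ 20 * Mx) := by
      refine le_trans (Nat.cast_le.2 (card_le_card ?_)) e1
      intro p hp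
      have hp' := Finset.mem_filter.1 hp
      exact Finset.mem_filter.2 hp'
    refine e0.trans ?_
    rw [le_div_iff₀ (by positivity)]
    have e2 : (2 * (k : ℝ)) * Real.log N ^ (2 * k) ≤ D := by
      refine le_trans ?_ hDL
      apply mul_le_mul_of_nonneg_right _ (by positivity)
      linarith
    have hMx0 : 0 ≤ Mx := by rw [hMx]; positivity
    have e3 : (D : ℝ) * ((D : ℝ) ^ 20 * Mx) ≤ (I N).card := by
      rw [hIc]
      calc (D : ℝ) * ((D : ℝ) ^ 20 * Mx) = (D : ℝ) ^ 21 * Mx := by ring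
        _ ≤ (D : ℝ) ^ 24 * Mx := mul_le_mul_of_nonneg_right (pow_le_pow_right₀ (by linarith) (by norm_num)) hMx0
        _ ≤ N := hMxN
    calc 2 * (k : ℝ) * ((I N).card : ℝ) * ((D : ℝ) ^ 20 * Mx) * Real.log N ^ (2 * k) =
        ((I N).card : ℝ) * ((2 * (k : ℝ) * Real.log N ^ (2 * k)) * ((D : ℝ) ^ 20 * Mx)) := by ring
      _ ≤ ((I N).card : ℝ) * ((D : ℝ) * ((D : ℝ) ^ 20 * Mx)) := by
          apply mul_le_mul_of_nonneg_left _ (Nat.cast_nonneg _)
          exact mul_le_mul_of_nonneg_right e2 (by positivity)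
      _ ≤ ((I N).card : ℝ) * ((I N).card : ℝ) := mul_le_mul_of_nonneg_left e3 (Nat.cast_nonneg _)
      _ = ((I N).card : ℝ) ^ 2 := by ring
  have hvol : ∀ i, volume.real (Set.Icc (a i) (b i)) = b i - a i := by
    intro i
    exact Real.volume_real_Icc_of_le (hab i).le
  have hpz := pzA (fun i => Set.Icc (a i) (b i)) (fun i => measurableSet_Icc)
    (fun i => by rw [Real.volume_Icc]; exact ENNReal.ofReal_ne_top) (fun i => by rw [hvol]; linarith [hab i])
    (I N) hIne E hEm (Real.log N) c3 C hL hc3 hC1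
    (by
      rw [prod_congr rfl (fun i _ => hvol i), hIc]
      exact hN3) B (filter_subset _ _) hBc (by
      intro n hn m hm hnm i
      rw [hvol]
      have hn' := hmem n hn
      have hm' := hmem m hm
      have hnR : ¬ R i n m := by
        intro h; apply hnm
        rw [hB, mem_filter, mem_product]
        exact ⟨⟨hn, hm⟩, i, Or.inl h⟩
      have hmR : ¬ R i m n := by
        intro h; apply hnm
        rw [hB, mem_filter, mem_product]
        exact ⟨⟨hn, hm⟩, i, Or.inr h⟩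
      have hbd : volume.real (EE (g i) (u i n) (f i n) ∩ EE (g i) (u i m) (f i m) ∩ Set.Icc (a i) (b i)) ≤
          18 * (g i : ℝ) ^ 2 * (b i - a i) / Real.log D ^ 2 := by
        rcases le_total n m with hle | hle
        · exact hQp i n m hn'.1 hle hm'.2 (fun h => hnR ((hR i n m).2 ⟨hle, h⟩)) (u i n) (u i m) (hu i n (by omega))
            (hu i m (by omega)) (a i) (b i) rfl
        · rw [Set.inter_comm (EE (g i) (u i n) (f i n))]
          exact hQp i m n hm'.1 hle hn'.2 (fun h => hmR ((hR i m n).2 ⟨hle, h⟩)) (u i m) (u i n) (hu i m (by omega))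
            (hu i n (by omega)) (a i) (b i) rfl
      have hmono : volume.real (E i n ∩ E i m ∩ Set.Icc (a i) (b i)) ≤
          volume.real (EE (g i) (u i n) (f i n) ∩ EE (g i) (u i m) (f i m) ∩ Set.Icc (a i) (b i)) := by
        apply measureReal_mono
        · exact Set.inter_subset_inter_left _ (Set.inter_subset_inter (hEs i n) (hEs i m))
        · apply ne_top_of_le_ne_top _ (measure_mono Set.inter_subset_right)
          rw [Real.volume_Icc]; exact ENNReal.ofReal_ne_top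
      refine hmono.trans (hbd.trans ?_)
      have hab' : 0 < b i - a i := by linarith [hab i]
      rw [div_le_div_iff₀ (by positivity) (by positivity)]
      have e1 : (ε / 2 * Real.log N) ^ 2 ≤ Real.log D ^ 2 := pow_le_pow_left₀ (by positivity) hDlog 2
      have e2 : C * (ε / 2 * Real.log N) ^ 2 = 18 * Gs * Real.log N ^ 2 := by rw [hC]; field_simp; ring
      calc 18 * (g i : ℝ) ^ 2 * (b i - a i) * Real.log N ^ 2 ≤ 18 * Gs * (b i - a i) * Real.log N ^ 2 := by
            gcongr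
            exact hGsi i
        _ = C * (ε / 2 * Real.log N) ^ 2 * (b i - a i) := by rw [e2]; ring
        _ ≤ C * Real.log D ^ 2 * (b i - a i) := by gcongr
        _ = C * (b i - a i) * Real.log D ^ 2 := by ring)
  have hprod : ∏ i, volume.real (Set.Icc (a i) (b i)) = ∏ i, (b i - a i) := prod_congr rfl fun i _ => hvol i
  rw [hprod] at hpz
  rw [← Set.pi_univ_Icc]
  exact hpz

end Pool.Agent.K7.H49.ME
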