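import Mathlib

/-!
The growth of a polynomial.
-/

set_option autoImplicit false

namespace Pool.Agent.K7.H49.ME

open Finset Filter Polynomial
open scoped Classical

theorem poly_near (P : ℝ[X]) (hP : 0 < P.leadingCoeff) : ∃ x0 : ℝ, 1 ≤ x0 ∧ ∀ x : ℝ, x0 ≤ x →
    1 / 2 * (P.leadingCoeff * x ^ P.natDegree) ≤ P.eval x ∧ P.eval x ≤ 3 / 2 * (P.leadingCoeff * x ^ P.natDegree) := by
  have h1 := (Polynomial.isEquivalent_atTop_lead P).isLittleO.def (show (0 : ℝ) < 1 / 2 by norm_num)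
  obtain ⟨x0, hx0⟩ := Filter.eventually_atTop.1 (h1.and (eventually_ge_atTop 1))
  refine ⟨max x0 1, le_max_right _ _, ?_⟩
  intro x hx
  obtain ⟨h2, h3⟩ := hx0 x ((le_max_left _ _).trans hx)
  simp only [Pi.sub_apply] at h2
  have h4 : 0 ≤ P.leadingCoeff * x ^ P.natDegree := by positivity
  rw [Real.norm_eq_abs, Real.norm_eq_abs, abs_of_nonneg h4] at h2
  obtain ⟨h5, h6⟩ := abs_le.1 h2
  constructor <;> linarith

theorem deriv_lead (P : ℝ[X]) (hd : 1 ≤ P.natDegree) :
    P.derivative.natDegree = P.natDegree - 1 ∧ P.derivative.leadingCoeff = P.leadingCoeff * P.natDegree := by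
  have h1 : P.derivative.natDegree = P.natDegree - 1 := Polynomial.natDegree_derivative P
  refine ⟨h1, ?_⟩
  unfold Polynomial.leadingCoeff
  rw [h1, Polynomial.coeff_derivative]
  have h2 : P.natDegree - 1 + 1 = P.natDegree := by omega
  rw [h2]
  congr 1
  have : ((P.natDegree - 1 + 1 : ℕ) : ℝ) = P.natDegree := by rw [h2]
  push_cast at this
  exact this

theorem poly_growth (P : ℝ[X]) (hP : 0 < P.leadingCoeff) (hd : 1 ≤ P.natDegree) : ∀ᶠ N : ℕ in atTop,
    (∀ n : ℕ, N < n → n ≤ 2 * N → P.leadingCoeff / 2 * (N : ℝ) ^ P.natDegree ≤ P.eval (n : ℝ) ∧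
      P.eval (n : ℝ) ≤ 2 ^ (P.natDegree + 2) * (P.leadingCoeff / 2 * (N : ℝ) ^ P.natDegree)) ∧
    (∀ n m : ℕ, N < n → n ≤ m → m ≤ 2 * N →
      P.leadingCoeff / 2 * (N : ℝ) ^ P.natDegree * ((m : ℝ) - n) / N ≤ P.eval (m : ℝ) - P.eval (n : ℝ)) := by
  obtain ⟨x0, hx01, hx0⟩ := poly_near P hP
  obtain ⟨h1, h2⟩ := deriv_lead P hd
  have hdr : (1 : ℝ) ≤ P.natDegree := by exact_mod_cast hd
  obtain ⟨x1, hx11, hx1⟩ := poly_near P.derivative (by rw [h2]; positivity)
  have ht : Tendsto (fun N : ℕ => (N : ℝ)) atTop atTop := tendsto_natCast_atTop_atTop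
  filter_upwards [ht.eventually_ge_atTop x0, ht.eventually_ge_atTop x1, eventually_ge_atTop 1] with N e0 e1 hN
  have hN0 : (0 : ℝ) < N := by exact_mod_cast hN
  constructor
  · intro n hn hn2
    have hn' : (N : ℝ) ≤ n := by exact_mod_cast hn.le
    have hn2' : (n : ℝ) ≤ 2 * N := by exact_mod_cast hn2
    obtain ⟨h3, h4⟩ := hx0 n (e0.trans hn')
    have h5 : (N : ℝ) ^ P.natDegree ≤ (n : ℝ) ^ P.natDegree := pow_le_pow_left₀ hN0.le hn' _
    have h6 : (n : ℝ) ^ P.natDegree ≤ (2 * N : ℝ) ^ P.natDegree := pow_le_pow_left₀ (hN0.le.trans hn') hn2' _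
    have h7 := mul_le_mul_of_nonneg_left h5 hP.le
    have h8 := mul_le_mul_of_nonneg_left h6 hP.le
    constructor
    · linarith
    · rw [mul_pow] at h8
      have h9 : 0 ≤ P.leadingCoeff * (2 ^ P.natDegree * (N : ℝ) ^ P.natDegree) := by positivity
      calc P.eval (n : ℝ) ≤ 3 / 2 * (P.leadingCoeff * (n : ℝ) ^ P.natDegree) := h4
        _ ≤ 3 / 2 * (P.leadingCoeff * (2 ^ P.natDegree * (N : ℝ) ^ P.natDegree)) := by linarith
        _ ≤ 2 * (P.leadingCoeff * (2 ^ P.natDegree * (N : ℝ) ^ P.natDegree)) := by linarith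
        _ = _ := by rw [pow_add]; ring
  · intro n m hn hnm hm
    have hn' : (N : ℝ) ≤ n := by exact_mod_cast hn.le
    have hnm' : (n : ℝ) ≤ m := by exact_mod_cast hnm
    have hconv := Convex.mul_sub_le_image_sub_of_le_deriv (D := Set.Ici (N : ℝ)) (f := fun x => P.eval x)
      (convex_Ici _) (P.continuous.continuousOn) (P.differentiable.differentiableOn)
      (C := P.leadingCoeff / 2 * (N : ℝ) ^ (P.natDegree - 1)) (by
        intro x hx
        rw [interior_Ici, Set.mem_Ioi] at hx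
        rw [Polynomial.deriv]
        obtain ⟨h3, _⟩ := hx1 x (e1.trans hx.le)
        rw [h1, h2] at h3
        refine le_trans ?_ h3
        have h5 : (N : ℝ) ^ (P.natDegree - 1) ≤ x ^ (P.natDegree - 1) := pow_le_pow_left₀ hN0.le hx.le _
        calc P.leadingCoeff / 2 * (N : ℝ) ^ (P.natDegree - 1) ≤ P.leadingCoeff / 2 * x ^ (P.natDegree - 1) :=
              mul_le_mul_of_nonneg_left h5 (by positivity)
          _ = P.leadingCoeff / 2 * x ^ (P.natDegree - 1) * 1 := (mul_one _).symm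
          _ ≤ P.leadingCoeff / 2 * x ^ (P.natDegree - 1) * P.natDegree := by
              apply mul_le_mul_of_nonneg_left hdr
              have : 0 < x := hN0.trans hx
              positivity
          _ = _ := by ring)
    have h3 := hconv n hn' m (hn'.trans hnm') hnm'
    refine le_trans (le_of_eq ?_) h3
    have h4 : (N : ℝ) ^ P.natDegree = (N : ℝ) ^ (P.natDegree - 1) * N := by
      rw [← pow_succ]; congr 1; omega
    rw [h4]
    field_simp

end Pool.Agent.K7.H49.ME
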