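import Mathlib
import Pool.Agent.K7.H49.ME.Meas
import Pool.Agent.H442R2.EHI.PntErr

/-!
The first moment, from the prime number theorem.
-/

set_option autoImplicit false

namespace Pool.Agent.K7.H49.ME

open Finset MeasureTheory Filter
open scoped Classical

theorem count_primes (U : ℕ) : ∃ C : ℝ, 0 < C ∧ ∀ x y : ℕ, 2 ≤ x → x ≤ y →
    ((y : ℝ) - x) / Real.log y - 2 * C * y / Real.log x ^ U ≤ (((Ioc x y).filter (fun p : ℕ => p.Prime)).card : ℝ) := by
  obtain ⟨C, hC⟩ := Pool.Agent.H442R2.EHI.pnt_err U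
  refine ⟨max C 1, by positivity, ?_⟩
  intro x y hx hxy
  have hCC : C ≤ max C 1 := le_max_left _ _
  have hC0 : 0 < max C 1 := by positivity
  set C' := max C 1 with hC'
  have hxr : (2 : ℝ) ≤ x := by exact_mod_cast hx
  have hyr : (x : ℝ) ≤ y := by exact_mod_cast hxy
  have hlx : 0 < Real.log x := Real.log_pos (by linarith)
  have hly : 0 < Real.log y := Real.log_pos (by linarith)
  have hlxy : Real.log x ≤ Real.log y := Real.log_le_log (by linarith) hyr
  have h1 := hC x hx
  have h2 := hC y (hx.trans hxy)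
  have e1 : C * x / Real.log x ^ U ≤ C' * y / Real.log x ^ U := by
    apply div_le_div_of_nonneg_right _ (by positivity)
    exact mul_le_mul hCC hyr (by linarith) hC0.le
  have e2 : C * y / Real.log y ^ U ≤ C' * y / Real.log x ^ U := by
    calc C * y / Real.log y ^ U ≤ C' * y / Real.log y ^ U := by
          apply div_le_div_of_nonneg_right _ (by positivity)
          exact mul_le_mul_of_nonneg_right hCC (by linarith)
      _ ≤ _ := by
          apply div_le_div_of_nonneg_left _ (by positivity) (pow_le_pow_left₀ hlx.le hlxy U)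
          have : (0 : ℝ) ≤ y := by linarith
          positivity
  have e3 : (((Icc 1 y).filter (fun p : ℕ => p.Prime)).card : ℝ) =
      ((Icc 1 x).filter (fun p : ℕ => p.Prime)).card + ((Ioc x y).filter (fun p : ℕ => p.Prime)).card := by
    have : (Icc 1 y).filter (fun p : ℕ => p.Prime) =
        (Icc 1 x).filter (fun p : ℕ => p.Prime) ∪ (Ioc x y).filter (fun p : ℕ => p.Prime) := by
      rw [← filter_union]
      congr 1
      ext n; rw [mem_union, mem_Icc, mem_Icc, mem_Ioc]; omega
    rw [this, card_union_of_disjoint]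
    · push_cast; ring
    · apply disjoint_filter_filter
      rw [disjoint_left]
      intro n h3 h4
      rw [mem_Icc] at h3
      rw [mem_Ioc] at h4
      omega
  have e4 : ((y : ℝ) - x) / Real.log y ≤ Pool.Agent.H442R2.EHI.lis y - Pool.Agent.H442R2.EHI.lis x := by
    unfold Pool.Agent.H442R2.EHI.lis
    have h5 : Icc 2 y = Icc 2 x ∪ Ioc x y := by
      ext n; rw [mem_union, mem_Icc, mem_Icc, mem_Ioc]; omega
    have h6 : Disjoint (Icc 2 x) (Ioc x y) := by
      rw [disjoint_left]
      intro n h3 h4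
      rw [mem_Icc] at h3
      rw [mem_Ioc] at h4
      omega
    rw [h5, sum_union h6, add_sub_cancel_left]
    calc ((y : ℝ) - x) / Real.log y = ∑ n ∈ Ioc x y, 1 / Real.log y := by
          rw [sum_const, Nat.card_Ioc, nsmul_eq_mul, Nat.cast_sub hxy]; ring
      _ ≤ _ := by
          apply sum_le_sum
          intro n hn
          rw [mem_Ioc] at hn
          have : (2 : ℝ) ≤ n := by exact_mod_cast (by omega : 2 ≤ n)
          apply one_div_le_one_div_of_le (Real.log_pos (by linarith))
          exact Real.log_le_log (by linarith) (by exact_mod_cast hn.2)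
  obtain ⟨a1, a2⟩ := abs_le.1 h1
  obtain ⟨b1, b2⟩ := abs_le.1 h2
  have e5 : 2 * C' * y / Real.log x ^ U = C' * y / Real.log x ^ U + C' * y / Real.log x ^ U := by ring
  rw [e3] at b1
  linarith

theorem first (g : ℤ) (hg : g = 1 ∨ g = 2) (B E : ℕ) (a b c2 : ℝ) (hab : a < b) (hc2 : 0 < c2) :
    ∀ᶠ N : ℕ in atTop, ∀ (f : ℝ) (u : ℤ), c2 * N ≤ f → f ≤ (N : ℝ) ^ E → IsCoprime u g →
      (N : ℝ) ≤ u + g * (a * f) → u + g * (b * f) ≤ f * Real.log N ^ B →
      1 / (4 * (E + 1)) * (b - a) / Real.log N ≤ volume.real (EE g u f ∩ Set.Icc a b) := by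
  obtain ⟨C, hC, hcount⟩ := count_primes (B + 2)
  have ht : Tendsto (fun N : ℕ => (N : ℝ)) atTop atTop := tendsto_natCast_atTop_atTop
  have htL : Tendsto (fun N : ℕ => Real.log (N : ℝ)) atTop atTop := Real.tendsto_log_atTop.comp ht
  have hba : 0 < b - a := by linarith
  have f1 : ∀ᶠ N : ℕ in atTop, 12 / (b - a) ≤ c2 * N := (ht.const_mul_atTop hc2).eventually_ge_atTop _
  have f2 : ∀ᶠ N : ℕ in atTop, (B : ℝ) * Real.log (Real.log N) ≤ Real.log N := by
    have := (Real.isLittleO_log_id_atTop.def (show (0 : ℝ) < 1 / (B + 1) by positivity))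
    filter_upwards [htL.eventually this, htL.eventually_ge_atTop 1] with N h1 h2
    simp only [id] at h1
    rw [Real.norm_of_nonneg (Real.log_nonneg h2), Real.norm_of_nonneg (by linarith)] at h1
    have h3 : 0 ≤ Real.log (Real.log N) := Real.log_nonneg h2
    calc (B : ℝ) * Real.log (Real.log N) ≤ (B + 1) * Real.log (Real.log N) := by nlinarith
      _ ≤ (B + 1) * (1 / (B + 1) * Real.log N) := mul_le_mul_of_nonneg_left h1 (by positivity)
      _ = Real.log N := by field_simp
  have f3 : ∀ᶠ N : ℕ in atTop, 4 * C * 2 ^ (B + 2) * (E + 1) / (b - a) ≤ Real.log N := htL.eventually_ge_atTop _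
  have f4 : ∀ᶠ N : ℕ in atTop, 2 * Real.log 2 + 1 ≤ Real.log N := htL.eventually_ge_atTop _
  filter_upwards [f1, f2, f3, f4, eventually_ge_atTop 8] with N g1 g2 g3 g4 hN f u hf1 hf2 hu hlo hhi
  have hNr : (8 : ℝ) ≤ N := by exact_mod_cast hN
  have hf0 : 0 < f := lt_of_lt_of_le (by positivity) hf1
  have hL2 : 0 < Real.log 2 := Real.log_pos (by norm_num)
  have hL : 1 ≤ Real.log N := by linarith
  have hL0 : 0 < Real.log N := by linarith
  have hgr : (1 : ℝ) ≤ g ∧ g ≠ 0 ∧ 0 < g := by
    rcases hg with rfl | rfl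
    · refine ⟨by norm_num, by norm_num, by norm_num⟩
    · refine ⟨by norm_num, by norm_num, by norm_num⟩
  have hgr0 : (0 : ℝ) < g := by linarith [hgr.1]
  set za : ℤ := ⌈a * f⌉ with hza
  set zb : ℤ := ⌊b * f⌋ - 1 with hzb
  have za1 : a * f ≤ za := Int.le_ceil _
  have za2 : (za : ℝ) < a * f + 1 := Int.ceil_lt_add_one _
  have zb1 : (zb : ℝ) + 1 ≤ b * f := by rw [hzb]; push_cast; have := Int.floor_le (b * f); linarith
  have zb2 : b * f - 2 < zb := by rw [hzb]; push_cast; have := Int.lt_floor_add_one (b * f); linarith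
  have hbf : 12 ≤ (b - a) * f := by
    rw [div_le_iff₀ hba] at g1
    nlinarith
  set S : Finset ℤ := (Finset.Icc za zb).filter (fun z => (u + g * z).toNat.Prime) with hS
  have hlow := lower g u f hf0 a b S (by
    intro z hz
    rw [hS, mem_filter, Finset.mem_Icc] at hz
    obtain ⟨⟨h1, h2⟩, h3⟩ := hz
    have h1' : (za : ℝ) ≤ z := by exact_mod_cast h1
    have h2' : (z : ℝ) ≤ zb := by exact_mod_cast h2
    exact ⟨by linarith, by linarith, h3⟩)
  -- the interval of the primes
  have hxa : (N : ℝ) ≤ ((u + g * za : ℤ) : ℝ) := by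
    push_cast
    have : (g : ℝ) * (a * f) ≤ g * za := mul_le_mul_of_nonneg_left za1 hgr0.le
    linarith
  have hxa' : (N : ℤ) ≤ u + g * za := by exact_mod_cast hxa
  set x : ℕ := (u + g * za - 1).toNat with hx
  have hxZ : (x : ℤ) = u + g * za - 1 := Int.toNat_of_nonneg (by omega)
  have hzab : za ≤ zb := by
    have : (za : ℝ) < zb := by nlinarith
    exact_mod_cast this.le
  have hgz : g * za ≤ g * zb := mul_le_mul_of_nonneg_left hzab hgr.2.2.le
  set y : ℕ := (u + g * zb).toNat with hy
  have hyZ : (y : ℤ) = u + g * zb := Int.toNat_of_nonneg (by omega)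
  have hx2 : 2 ≤ x := by omega
  have hxy : x ≤ y := by omega
  have hcard : (((Ioc x y).filter (fun p : ℕ => p.Prime)).card : ℝ) ≤ S.card := by
    apply Nat.cast_le.2
    have hdiv : ∀ p ∈ (Ioc x y).filter (fun p : ℕ => p.Prime), ∃ z : ℤ, (p : ℤ) = u + g * z := by
      intro p hp
      rw [mem_filter, mem_Ioc] at hp
      rcases hg with h | h
      · exact ⟨p - u, by rw [h]; ring⟩
      · have hodd : ¬ (2 : ℤ) ∣ u := by
          intro h5
          rw [h] at hu
          have := hu.isUnit_of_dvd' h5 (dvd_refl 2)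
          norm_num [Int.isUnit_iff] at this
        have hpodd : ¬ 2 ∣ p := by
          intro h5
          have := (Nat.prime_dvd_prime_iff_eq Nat.prime_two hp.2).1 h5
          omega
        exact ⟨((p : ℤ) - u) / 2, by rw [h]; omega⟩
    choose! z hz using hdiv
    apply card_le_card_of_injOn z
    · intro p hp
      have hp' := hz p hp
      rw [mem_coe, mem_filter, mem_Ioc] at hp
      rw [mem_coe, hS, mem_filter, Finset.mem_Icc]
      have hp1 : (x : ℤ) < p := by exact_mod_cast hp.1.1
      have hp2 : (p : ℤ) ≤ y := by exact_mod_cast hp.1.2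
      refine ⟨⟨?_, ?_⟩, ?_⟩
      · have : g * za ≤ g * z p := by omega
        exact le_of_mul_le_mul_left this hgr.2.2
      · have : g * z p ≤ g * zb := by omega
        exact le_of_mul_le_mul_left this hgr.2.2
      · rw [← hp', Int.toNat_natCast]; exact hp.2
    · intro p hp q hq hpq
      have h1 := hz p hp
      have h2 := hz q hq
      have h3 : z p = z q := hpq
      rw [h3] at h1
      have : (p : ℤ) = q := by rw [h1, h2]
      exact_mod_cast this
  have hcnt := hcount x y hx2 hxy
  have hxN : (N : ℝ) / 2 ≤ x := by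
    have : (x : ℝ) = ((u + g * za : ℤ) : ℝ) - 1 := by
      have : (x : ℝ) = ((u + g * za - 1 : ℤ) : ℝ) := by rw [← hxZ]; simp
      rw [this]; push_cast; ring
    rw [this]; linarith
  have hyr : (y : ℝ) = u + g * zb := by
    have : (y : ℝ) = ((u + g * zb : ℤ) : ℝ) := by rw [← hyZ]; simp
    rw [this]; push_cast; ring
  have hyx : (y : ℝ) - x = g * (zb - za) + 1 := by
    have : (x : ℝ) = ((u + g * za - 1 : ℤ) : ℝ) := by rw [← hxZ]; simp
    rw [hyr, this]; push_cast; ring
  have hyx2 : 3 / 4 * ((b - a) * f) ≤ (y : ℝ) - x := by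
    rw [hyx]
    have h1 : (b - a) * f - 3 ≤ (zb : ℝ) - za := by linarith
    have h2 : 0 ≤ (zb : ℝ) - za := by linarith
    have h3 : (zb : ℝ) - za ≤ g * (zb - za) := by nlinarith [hgr.1]
    linarith
  have hyU : (y : ℝ) ≤ f * Real.log N ^ B := by
    rw [hyr]
    refine le_trans ?_ hhi
    have : (g : ℝ) * zb ≤ g * (b * f) := mul_le_mul_of_nonneg_left (by linarith) hgr0.le
    linarith
  have hy0 : (0 : ℝ) < y := by
    have : (2 : ℝ) ≤ x := by exact_mod_cast hx2
    have : (x : ℝ) ≤ y := by exact_mod_cast hxy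
    linarith
  have hlogy : Real.log y ≤ (E + 1) * Real.log N := by
    calc Real.log y ≤ Real.log (f * Real.log N ^ B) := Real.log_le_log hy0 hyU
      _ = Real.log f + B * Real.log (Real.log N) := by
          rw [Real.log_mul hf0.ne' (by positivity), Real.log_pow]
      _ ≤ E * Real.log N + Real.log N := by
          have := Real.log_le_log hf0 hf2
          rw [Real.log_pow] at this
          linarith
      _ = _ := by ring
  have hlogy0 : 0 < Real.log y := by
    apply Real.log_pos
    have : (2 : ℝ) ≤ x := by exact_mod_cast hx2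
    have : (x : ℝ) ≤ y := by exact_mod_cast hxy
    linarith
  have hlogx : Real.log N / 2 ≤ Real.log x := by
    have h1 : Real.log ((N : ℝ) / 2) ≤ Real.log x := Real.log_le_log (by positivity) hxN
    rw [Real.log_div (by positivity) (by norm_num)] at h1
    linarith
  have hA : 3 / 4 * ((b - a) * f) / ((E + 1) * Real.log N) ≤ ((y : ℝ) - x) / Real.log y := by
    apply div_le_div₀ (by linarith [hyx2, hbf]) hyx2 hlogy0 hlogy
  have hBd : 2 * C * y / Real.log x ^ (B + 2) ≤ 1 / 2 * ((b - a) * f) / ((E + 1) * Real.log N) := by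
    have h1 : (Real.log N / 2) ^ (B + 2) ≤ Real.log x ^ (B + 2) := pow_le_pow_left₀ (by positivity) hlogx _
    calc 2 * C * y / Real.log x ^ (B + 2) ≤ 2 * C * (f * Real.log N ^ B) / (Real.log N / 2) ^ (B + 2) := by
          apply div_le_div₀ (by positivity) (mul_le_mul_of_nonneg_left hyU (by positivity)) (by positivity) h1
      _ = (4 * C * 2 ^ (B + 2)) * (f / (2 * Real.log N ^ 2)) := by
          have hp : (Real.log N / 2) ^ (B + 2) = Real.log N ^ B * Real.log N ^ 2 / 2 ^ (B + 2) := by
            rw [div_pow, pow_add (Real.log N)]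
          rw [hp]
          generalize (2 : ℝ) ^ (B + 2) = t at *
          by_cases ht0 : t = 0
          · rw [ht0]; simp
          · field_simp
            ring
      _ ≤ ((b - a) / (E + 1) * Real.log N) * (f / (2 * Real.log N ^ 2)) := by
          apply mul_le_mul_of_nonneg_right _ (by positivity)
          rw [div_le_iff₀ hba] at g3
          rw [div_mul_eq_mul_div, le_div_iff₀ (by positivity)]
          linarith
      _ = _ := by field_simp
  have hfin : 1 / (4 * (E + 1)) * (b - a) / Real.log N ≤ (S.card : ℝ) / f := by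
    rw [le_div_iff₀ hf0]
    have h1 : 1 / (4 * ((E : ℝ) + 1)) * (b - a) / Real.log N * f =
        3 / 4 * ((b - a) * f) / ((E + 1) * Real.log N) - 1 / 2 * ((b - a) * f) / ((E + 1) * Real.log N) := by
      field_simp; ring
    rw [h1]
    linarith
  exact hfin.trans hlow

end Pool.Agent.K7.H49.ME
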