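import Mathlib
import Pool.Agent.K7.H49.ME.First

/-!
Differences of two integer parts: the first moment.
-/

set_option autoImplicit false

namespace Pool.Agent.K7.H49.ME

open Finset MeasureTheory Filter
open scoped Classical

/-- the `α` with `u + g ⌊α f⌋` prime and `⌊α (F + f)⌋ - ⌊α F⌋ = ⌊α f⌋` -/
def EE2 (g u : ℤ) (f F : ℝ) : Set ℝ := {α | α ∈ EE g u f ∧ ⌊α * (F + f)⌋ - ⌊α * F⌋ = ⌊α * f⌋}

theorem EE2_sub (g u : ℤ) (f F : ℝ) : EE2 g u f F ⊆ EE g u f := fun _ h => h.1

theorem EE2_meas (g u : ℤ) (f F : ℝ) : MeasurableSet (EE2 g u f F) := by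
  have h0 : ∀ c : ℝ, Measurable (fun α : ℝ => ⌊α * c⌋) := fun c => Int.measurable_floor.comp (measurable_id.mul_const c)
  have h1 : Measurable (fun α : ℝ => ⌊α * (F + f)⌋ - ⌊α * F⌋) := (h0 _).sub (h0 _)
  exact (EE_meas g u f).inter (measurableSet_eq_fun h1 (h0 f))

theorem EE2_prime (g u : ℤ) (f F α : ℝ) (h : α ∈ EE2 g u f F) :
    (u + g * (⌊α * (F + f)⌋ - ⌊α * F⌋)).toNat.Prime := by
  obtain ⟨h1, h2⟩ := h
  rw [h2]; exact h1

theorem lower2 (g u : ℤ) (f F : ℝ) (hf : 0 < f) (hF : 8 * f ≤ F) (a b : ℝ) (S : Finset ℤ)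
    (hS : ∀ z ∈ S, a * f ≤ z ∧ (z : ℝ) + 1 ≤ b * f ∧ (u + g * z).toNat.Prime) :
    1 / 8 * ((S.card : ℝ) / f) ≤ volume.real (EE2 g u f F ∩ Set.Icc a b) := by
  have hF0 : 0 < F := by linarith
  set Mz : ℤ → Finset ℤ := fun z => Finset.Icc ⌈(z : ℝ) * F / f⌉ ⌊((z : ℝ) + 3 / 8) * F / f⌋ with hMz
  have hMmem : ∀ z m : ℤ, m ∈ Mz z → (z : ℝ) * F ≤ m * f ∧ (m : ℝ) * f ≤ (z + 3 / 8) * F := by
    intro z m hm
    rw [hMz] at hm
    simp only [Finset.mem_Icc] at hm
    obtain ⟨h1, h2⟩ := hm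
    have h3 : (z : ℝ) * F / f ≤ m := (Int.le_ceil _).trans (by exact_mod_cast h1)
    have h4 : (m : ℝ) ≤ ((z : ℝ) + 3 / 8) * F / f := le_trans (by exact_mod_cast h2) (Int.floor_le _)
    rw [div_le_iff₀ hf] at h3
    rw [le_div_iff₀ hf] at h4
    exact ⟨h3, h4⟩
  have hMcard : ∀ z : ℤ, F / (4 * f) ≤ ((Mz z).card : ℝ) := by
    intro z
    have e0 : (z : ℝ) * F / f + 3 / 8 * (F / f) = ((z : ℝ) + 3 / 8) * F / f := by ring
    have e1 : 8 ≤ F / f := by rw [le_div_iff₀ hf]; linarith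
    have h1 := Int.ceil_lt_add_one ((z : ℝ) * F / f)
    have h2 := Int.lt_floor_add_one (((z : ℝ) + 3 / 8) * F / f)
    have h3 : ((Mz z).card : ℤ) = ⌊((z : ℝ) + 3 / 8) * F / f⌋ + 1 - ⌈(z : ℝ) * F / f⌉ := by
      rw [hMz]
      simp only [Int.card_Icc]
      apply Int.toNat_of_nonneg
      have h4 : ((⌈(z : ℝ) * F / f⌉ : ℤ) : ℝ) < ((⌊((z : ℝ) + 3 / 8) * F / f⌋ + 1 : ℤ) : ℝ) := by
        push_cast
        linarith
      have h5 : ⌈(z : ℝ) * F / f⌉ < ⌊((z : ℝ) + 3 / 8) * F / f⌋ + 1 := by exact_mod_cast h4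
      omega
    have h4 : ((Mz z).card : ℝ) = (⌊((z : ℝ) + 3 / 8) * F / f⌋ : ℝ) + 1 - (⌈(z : ℝ) * F / f⌉ : ℝ) := by
      exact_mod_cast h3
    rw [h4]
    have e2 : F / (4 * f) = 1 / 4 * (F / f) := by field_simp
    rw [e2]
    linarith
  have hdisj : ∀ z ∈ S, ∀ w ∈ S, z ≠ w → Disjoint (Mz z) (Mz w) := by
    intro z _ w _ hzw
    rw [Finset.disjoint_left]
    intro m h1 h2
    obtain ⟨a1, a2⟩ := hMmem z m h1
    obtain ⟨b1, b2⟩ := hMmem w m h2
    apply hzw
    have e1 : (z : ℝ) < w + 1 := by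
      by_contra h; push Not at h
      nlinarith
    have e2 : (w : ℝ) < z + 1 := by
      by_contra h; push Not at h
      nlinarith
    have e3 : z < w + 1 := by exact_mod_cast e1
    have e4 : w < z + 1 := by exact_mod_cast e2
    omega
  set M : Finset ℤ := S.biUnion Mz with hM
  have hMc : (S.card : ℝ) * (F / (4 * f)) ≤ (M.card : ℝ) := by
    rw [hM, card_biUnion hdisj]
    push_cast
    calc (S.card : ℝ) * (F / (4 * f)) = ∑ z ∈ S, F / (4 * f) := by rw [sum_const, nsmul_eq_mul]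
      _ ≤ _ := sum_le_sum fun z _ => hMcard z
  have hsub : (⋃ m ∈ M, Set.Ico ((m : ℝ) / F) (((m : ℝ) + 1 / 2) / F)) ⊆ EE2 g u f F ∩ Set.Icc a b := by
    intro α hα
    rw [Set.mem_iUnion₂] at hα
    obtain ⟨m, hm, hα⟩ := hα
    rw [hM, mem_biUnion] at hm
    obtain ⟨z, hz, hmz⟩ := hm
    obtain ⟨m1, m2⟩ := hMmem z m hmz
    obtain ⟨h1, h2, h3⟩ := hS z hz
    rw [Set.mem_Ico, div_le_iff₀ hF0, lt_div_iff₀ hF0] at hα
    obtain ⟨k1, k2⟩ := hα
    have l1 : (z : ℝ) ≤ α * f := by
      have : (z : ℝ) * F ≤ (α * f) * F := by nlinarith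
      exact le_of_mul_le_mul_right this hF0
    have l2 : α * f < z + 1 / 2 := by
      have : (α * f) * F < (z + 1 / 2) * F := by nlinarith
      exact lt_of_mul_lt_mul_right this hF0.le
    have f1 : ⌊α * f⌋ = z := by rw [Int.floor_eq_iff]; constructor <;> linarith
    have f2 : ⌊α * F⌋ = m := by rw [Int.floor_eq_iff]; constructor <;> linarith
    have f3 : ⌊α * (F + f)⌋ = m + z := by
      rw [Int.floor_eq_iff]; push_cast
      constructor <;> nlinarith
    refine ⟨⟨?_, ?_⟩, ?_⟩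
    · unfold EE
      rw [Set.mem_setOf_eq, f1]
      exact h3
    · rw [f1, f2, f3]; ring
    · constructor
      · exact le_of_mul_le_mul_right (h1.trans l1) hf
      · exact le_of_mul_le_mul_right (show α * f ≤ b * f by linarith) hf
  have hfin : volume (EE2 g u f F ∩ Set.Icc a b) ≠ ⊤ := by
    apply ne_top_of_le_ne_top _ (measure_mono Set.inter_subset_right)
    rw [Real.volume_Icc]; exact ENNReal.ofReal_ne_top
  have h1 := measureReal_mono hsub hfin
  refine le_trans ?_ h1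
  unfold Measure.real
  rw [measure_biUnion_finset]
  · have hv : ∀ m ∈ M, volume (Set.Ico ((m : ℝ) / F) (((m : ℝ) + 1 / 2) / F)) = ENNReal.ofReal (1 / (2 * F)) := by
      intro m _
      rw [Real.volume_Ico]
      congr 1
      field_simp
      ring
    rw [Finset.sum_congr rfl hv, sum_const, nsmul_eq_mul, ENNReal.toReal_mul, ENNReal.toReal_ofReal (by positivity)]
    rw [ENNReal.toReal_natCast]
    calc 1 / 8 * ((S.card : ℝ) / f) = ((S.card : ℝ) * (F / (4 * f))) * (1 / (2 * F)) := by field_simp; ring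
      _ ≤ _ := mul_le_mul_of_nonneg_right hMc (by positivity)
  · intro m _ m' _ hmm
    show Disjoint (Set.Ico ((m : ℝ) / F) (((m : ℝ) + 1 / 2) / F)) (Set.Ico ((m' : ℝ) / F) (((m' : ℝ) + 1 / 2) / F))
    rw [Set.disjoint_left]
    intro α h1 h2
    rw [Set.mem_Ico, div_le_iff₀ hF0, lt_div_iff₀ hF0] at h1 h2
    apply hmm
    have e1 : (m : ℝ) < m' + 1 := by linarith
    have e2 : (m' : ℝ) < m + 1 := by linarith
    have e3 : m < m' + 1 := by exact_mod_cast e1
    have e4 : m' < m + 1 := by exact_mod_cast e2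
    omega
  · intro m _
    exact measurableSet_Ico

theorem firstS (g : ℤ) (hg : g = 1 ∨ g = 2) (B E : ℕ) (a b c2 : ℝ) (hab : a < b) (hc2 : 0 < c2) :
    ∀ᶠ N : ℕ in atTop, ∀ (f : ℝ) (u : ℤ), c2 * N ≤ f → f ≤ (N : ℝ) ^ E → IsCoprime u g →
      (N : ℝ) ≤ u + g * (a * f) → u + g * (b * f) ≤ f * Real.log N ^ B →
      ∃ S : Finset ℤ, (∀ z ∈ S, a * f ≤ z ∧ (z : ℝ) + 1 ≤ b * f ∧ (u + g * z).toNat.Prime) ∧
        1 / (4 * (E + 1)) * (b - a) / Real.log N ≤ (S.card : ℝ) / f := by
  obtain ⟨C, hC, hcount⟩ := count_primes (B + 2)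
  have ht : Tendsto (fun N : ℕ => (N : ℝ)) atTop atTop := tendsto_natCast_atTop_atTop
  have htL : Tendsto (fun N : ℕ => Real.log (N : ℝ)) atTop atTop := Real.tendsto_log_atTop.comp ht
  have hba : 0 < b - a := by linarith
  have f1 : ∀ᶠ N : ℕ in atTop, 12 / (b - a) ≤ c2 * N := (ht.const_mul_atTop hc2).eventually_ge_atTop _
  have f2 : ∀ᶠ N : ℕ in atTop, (B : ℝ) * Real.log (Real.log N) ≤ Real.log N := by
    have := (Real.isLittleO_log_id_atTop.def (show (0 : ℝ) < 1 / (B + 1) by positivity))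
    filter_upwards [htL.eventually this, htL.eventually_ge_atTop 1] with N h1 h2
    simp only [id] at h1
    rw [Real.norm_of_nonneg (Real.log_nonneg h2), Real.norm_of_nonneg (by linarith)] at h1
    have h3 : 0 ≤ Real.log (Real.log N) := Real.log_nonneg h2
    calc (B : ℝ) * Real.log (Real.log N) ≤ (B + 1) * Real.log (Real.log N) := by nlinarith
      _ ≤ (B + 1) * (1 / (B + 1) * Real.log N) := mul_le_mul_of_nonneg_left h1 (by positivity)
      _ = Real.log N := by field_simp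
  have f3 : ∀ᶠ N : ℕ in atTop, 4 * C * 2 ^ (B + 2) * (E + 1) / (b - a) ≤ Real.log N := htL.eventually_ge_atTop _
  have f4 : ∀ᶠ N : ℕ in atTop, 2 * Real.log 2 + 1 ≤ Real.log N := htL.eventually_ge_atTop _
  filter_upwards [f1, f2, f3, f4, eventually_ge_atTop 8] with N g1 g2 g3 g4 hN f u hf1 hf2 hu hlo hhi
  have hNr : (8 : ℝ) ≤ N := by exact_mod_cast hN
  have hf0 : 0 < f := lt_of_lt_of_le (by positivity) hf1
  have hL2 : 0 < Real.log 2 := Real.log_pos (by norm_num)
  have hL : 1 ≤ Real.log N := by linarith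
  have hL0 : 0 < Real.log N := by linarith
  have hgr : (1 : ℝ) ≤ g ∧ g ≠ 0 ∧ 0 < g := by
    rcases hg with rfl | rfl
    · refine ⟨by norm_num, by norm_num, by norm_num⟩
    · refine ⟨by norm_num, by norm_num, by norm_num⟩
  have hgr0 : (0 : ℝ) < g := by linarith [hgr.1]
  set za : ℤ := ⌈a * f⌉ with hza
  set zb : ℤ := ⌊b * f⌋ - 1 with hzb
  have za1 : a * f ≤ za := Int.le_ceil _
  have za2 : (za : ℝ) < a * f + 1 := Int.ceil_lt_add_one _
  have zb1 : (zb : ℝ) + 1 ≤ b * f := by rw [hzb]; push_cast; have := Int.floor_le (b * f); linarith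
  have zb2 : b * f - 2 < zb := by rw [hzb]; push_cast; have := Int.lt_floor_add_one (b * f); linarith
  have hbf : 12 ≤ (b - a) * f := by
    rw [div_le_iff₀ hba] at g1
    nlinarith
  set S : Finset ℤ := (Finset.Icc za zb).filter (fun z => (u + g * z).toNat.Prime) with hS
  refine ⟨S, (by
    intro z hz
    rw [hS, mem_filter, Finset.mem_Icc] at hz
    obtain ⟨⟨h1, h2⟩, h3⟩ := hz
    have h1' : (za : ℝ) ≤ z := by exact_mod_cast h1
    have h2' : (z : ℝ) ≤ zb := by exact_mod_cast h2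
    exact ⟨by linarith, by linarith, h3⟩), ?_⟩
  -- the interval of the primes
  have hxa : (N : ℝ) ≤ ((u + g * za : ℤ) : ℝ) := by
    push_cast
    have : (g : ℝ) * (a * f) ≤ g * za := mul_le_mul_of_nonneg_left za1 hgr0.le
    linarith
  have hxa' : (N : ℤ) ≤ u + g * za := by exact_mod_cast hxa
  set x : ℕ := (u + g * za - 1).toNat with hx
  have hxZ : (x : ℤ) = u + g * za - 1 := Int.toNat_of_nonneg (by omega)
  have hzab : za ≤ zb := by
    have : (za : ℝ) < zb := by nlinarith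
    exact_mod_cast this.le
  have hgz : g * za ≤ g * zb := mul_le_mul_of_nonneg_left hzab hgr.2.2.le
  set y : ℕ := (u + g * zb).toNat with hy
  have hyZ : (y : ℤ) = u + g * zb := Int.toNat_of_nonneg (by omega)
  have hx2 : 2 ≤ x := by omega
  have hxy : x ≤ y := by omega
  have hcard : (((Ioc x y).filter (fun p : ℕ => p.Prime)).card : ℝ) ≤ S.card := by
    apply Nat.cast_le.2
    have hdiv : ∀ p ∈ (Ioc x y).filter (fun p : ℕ => p.Prime), ∃ z : ℤ, (p : ℤ) = u + g * z := by
      intro p hp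
      rw [mem_filter, mem_Ioc] at hp
      rcases hg with h | h
      · exact ⟨p - u, by rw [h]; ring⟩
      · have hodd : ¬ (2 : ℤ) ∣ u := by
          intro h5
          rw [h] at hu
          have := hu.isUnit_of_dvd' h5 (dvd_refl 2)
          norm_num [Int.isUnit_iff] at this
        have hpodd : ¬ 2 ∣ p := by
          intro h5
          have := (Nat.prime_dvd_prime_iff_eq Nat.prime_two hp.2).1 h5
          omega
        exact ⟨((p : ℤ) - u) / 2, by rw [h]; omega⟩
    choose! z hz using hdiv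
    apply card_le_card_of_injOn z
    · intro p hp
      have hp' := hz p hp
      rw [mem_coe, mem_filter, mem_Ioc] at hp
      rw [mem_coe, hS, mem_filter, Finset.mem_Icc]
      have hp1 : (x : ℤ) < p := by exact_mod_cast hp.1.1
      have hp2 : (p : ℤ) ≤ y := by exact_mod_cast hp.1.2
      refine ⟨⟨?_, ?_⟩, ?_⟩
      · have : g * za ≤ g * z p := by omega
        exact le_of_mul_le_mul_left this hgr.2.2
      · have : g * z p ≤ g * zb := by omega
        exact le_of_mul_le_mul_left this hgr.2.2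
      · rw [← hp', Int.toNat_natCast]; exact hp.2
    · intro p hp q hq hpq
      have h1 := hz p hp
      have h2 := hz q hq
      have h3 : z p = z q := hpq
      rw [h3] at h1
      have : (p : ℤ) = q := by rw [h1, h2]
      exact_mod_cast this
  have hcnt := hcount x y hx2 hxy
  have hxN : (N : ℝ) / 2 ≤ x := by
    have : (x : ℝ) = ((u + g * za : ℤ) : ℝ) - 1 := by
      have : (x : ℝ) = ((u + g * za - 1 : ℤ) : ℝ) := by rw [← hxZ]; simp
      rw [this]; push_cast; ring
    rw [this]; linarith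
  have hyr : (y : ℝ) = u + g * zb := by
    have : (y : ℝ) = ((u + g * zb : ℤ) : ℝ) := by rw [← hyZ]; simp
    rw [this]; push_cast; ring
  have hyx : (y : ℝ) - x = g * (zb - za) + 1 := by
    have : (x : ℝ) = ((u + g * za - 1 : ℤ) : ℝ) := by rw [← hxZ]; simp
    rw [hyr, this]; push_cast; ring
  have hyx2 : 3 / 4 * ((b - a) * f) ≤ (y : ℝ) - x := by
    rw [hyx]
    have h1 : (b - a) * f - 3 ≤ (zb : ℝ) - za := by linarith
    have h2 : 0 ≤ (zb : ℝ) - za := by linarith
    have h3 : (zb : ℝ) - za ≤ g * (zb - za) := by nlinarith [hgr.1]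
    linarith
  have hyU : (y : ℝ) ≤ f * Real.log N ^ B := by
    rw [hyr]
    refine le_trans ?_ hhi
    have : (g : ℝ) * zb ≤ g * (b * f) := mul_le_mul_of_nonneg_left (by linarith) hgr0.le
    linarith
  have hy0 : (0 : ℝ) < y := by
    have : (2 : ℝ) ≤ x := by exact_mod_cast hx2
    have : (x : ℝ) ≤ y := by exact_mod_cast hxy
    linarith
  have hlogy : Real.log y ≤ (E + 1) * Real.log N := by
    calc Real.log y ≤ Real.log (f * Real.log N ^ B) := Real.log_le_log hy0 hyU
      _ = Real.log f + B * Real.log (Real.log N) := by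
          rw [Real.log_mul hf0.ne' (by positivity), Real.log_pow]
      _ ≤ E * Real.log N + Real.log N := by
          have := Real.log_le_log hf0 hf2
          rw [Real.log_pow] at this
          linarith
      _ = _ := by ring
  have hlogy0 : 0 < Real.log y := by
    apply Real.log_pos
    have : (2 : ℝ) ≤ x := by exact_mod_cast hx2
    have : (x : ℝ) ≤ y := by exact_mod_cast hxy
    linarith
  have hlogx : Real.log N / 2 ≤ Real.log x := by
    have h1 : Real.log ((N : ℝ) / 2) ≤ Real.log x := Real.log_le_log (by positivity) hxN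
    rw [Real.log_div (by positivity) (by norm_num)] at h1
    linarith
  have hA : 3 / 4 * ((b - a) * f) / ((E + 1) * Real.log N) ≤ ((y : ℝ) - x) / Real.log y := by
    apply div_le_div₀ (by linarith [hyx2, hbf]) hyx2 hlogy0 hlogy
  have hBd : 2 * C * y / Real.log x ^ (B + 2) ≤ 1 / 2 * ((b - a) * f) / ((E + 1) * Real.log N) := by
    have h1 : (Real.log N / 2) ^ (B + 2) ≤ Real.log x ^ (B + 2) := pow_le_pow_left₀ (by positivity) hlogx _
    calc 2 * C * y / Real.log x ^ (B + 2) ≤ 2 * C * (f * Real.log N ^ B) / (Real.log N / 2) ^ (B + 2) := by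
          apply div_le_div₀ (by positivity) (mul_le_mul_of_nonneg_left hyU (by positivity)) (by positivity) h1
      _ = (4 * C * 2 ^ (B + 2)) * (f / (2 * Real.log N ^ 2)) := by
          have hp : (Real.log N / 2) ^ (B + 2) = Real.log N ^ B * Real.log N ^ 2 / 2 ^ (B + 2) := by
            rw [div_pow, pow_add (Real.log N)]
          rw [hp]
          generalize (2 : ℝ) ^ (B + 2) = t at *
          by_cases ht0 : t = 0
          · rw [ht0]; simp
          · field_simp
            ring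
      _ ≤ ((b - a) / (E + 1) * Real.log N) * (f / (2 * Real.log N ^ 2)) := by
          apply mul_le_mul_of_nonneg_right _ (by positivity)
          rw [div_le_iff₀ hba] at g3
          rw [div_mul_eq_mul_div, le_div_iff₀ (by positivity)]
          linarith
      _ = _ := by field_simp
  have hfin : 1 / (4 * (E + 1)) * (b - a) / Real.log N ≤ (S.card : ℝ) / f := by
    rw [le_div_iff₀ hf0]
    have h1 : 1 / (4 * ((E : ℝ) + 1)) * (b - a) / Real.log N * f =
        3 / 4 * ((b - a) * f) / ((E + 1) * Real.log N) - 1 / 2 * ((b - a) * f) / ((E + 1) * Real.log N) := by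
      field_simp; ring
    rw [h1]
    linarith
  exact hfin

end Pool.Agent.K7.H49.ME
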