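import Mathlib
import Pool.Agent.K7.H49.ME.Sub
import Pool.Agent.K7.H49.ME.Diff

/-!
Thick sets of primes, and the primes followed by many primes.
-/

set_option autoImplicit false

namespace Pool.Agent.K7.H49.ME

open Finset MeasureTheory Filter
open scoped Classical

/-- `G` contains a proportion at least `δ` of the primes of all intervals `(a F, b F]`, `F` large -/
def Thick (G : Set ℕ) (δ : ℝ) : Prop := ∀ a b : ℝ, 0 < a → a < b → ∀ᶠ F : ℝ in atTop,
  δ * (b - a) * F / Real.log F ≤ (((Ioc ⌊a * F⌋₊ ⌊b * F⌋₊).filter (fun p : ℕ => p.Prime ∧ p ∈ G)).card : ℝ)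

/-- the integers followed by at least `m` primes within a distance `C log q` -/
def Clus (m : ℕ) (C : ℝ) : Set ℕ := {q | m ≤ ((Ioc q (q + ⌊C * Real.log q⌋₊)).filter (fun p : ℕ => p.Prime)).card}

theorem bad_clus (m H x y : ℕ) (hH : 1 ≤ H) :
    (((Ioc x y).filter (fun q : ℕ => q.Prime ∧ ((Ioc q (q + H)).filter (fun p : ℕ => p.Prime)).card < m)).card) ≤
      m * ((y - x) / H + 1) := by
  set S := (Ioc x y).filter (fun q : ℕ => q.Prime ∧ ((Ioc q (q + H)).filter (fun p : ℕ => p.Prime)).card < m) with hS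
  have h1 := Finset.card_le_mul_card_image_of_maps_to (s := S) (t := range ((y - x) / H + 1))
    (f := fun q : ℕ => (q - x - 1) / H) (by
      intro q hq
      rw [hS, mem_filter, mem_Ioc] at hq
      rw [mem_range]
      have : (q - x - 1) / H ≤ (y - x) / H := Nat.div_le_div_right (by omega)
      omega) m (by
      intro j _
      by_contra hcon
      push Not at hcon
      set B := S.filter (fun q : ℕ => (q - x - 1) / H = j) with hB
      have hne : B.Nonempty := by rw [← card_pos]; omega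
      set q0 := B.min' hne with hq0
      have hq0B : q0 ∈ B := B.min'_mem hne
      have hmem : ∀ q ∈ B, x < q ∧ q.Prime ∧ (q - x - 1) / H = j := by
        intro q hq
        rw [hB, mem_filter, hS, mem_filter, mem_Ioc] at hq
        exact ⟨hq.1.1.1, hq.1.2.1, hq.2⟩
      have hq0bad : ((Ioc q0 (q0 + H)).filter (fun p : ℕ => p.Prime)).card < m := by
        rw [hB, mem_filter, hS, mem_filter] at hq0B
        exact hq0B.1.2.2
      have hsub : B.erase q0 ⊆ (Ioc q0 (q0 + H)).filter (fun p : ℕ => p.Prime) := by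
        intro q hq
        rw [mem_erase] at hq
        obtain ⟨a1, a2, a3⟩ := hmem q hq.2
        obtain ⟨b1, b2, b3⟩ := hmem q0 hq0B
        have h2 : q0 ≤ q := B.min'_le q hq.2
        have h3 := Nat.div_add_mod (q - x - 1) H
        have h4 := Nat.div_add_mod (q0 - x - 1) H
        have h5 := Nat.mod_lt (q - x - 1) (show 0 < H by omega)
        rw [a3] at h3
        rw [b3] at h4
        rw [mem_filter, mem_Ioc]
        refine ⟨⟨by omega, by omega⟩, a2⟩
      have h2 := card_le_card hsub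
      rw [card_erase_of_mem hq0B] at h2
      omega)
  rw [card_range] at h1
  exact h1

theorem clus_num (m : ℕ) (W L yx Hr : ℝ) (hL : 1 ≤ L) (hW : 0 ≤ W) (hH0 : 0 < Hr) (hyx' : yx ≤ W + 1)
    (hyx0 : 0 ≤ yx) (hHlow : 7 * (m + 1) * L ≤ Hr) (h64 : 64 * ((m : ℝ) + 1) * L ≤ W) :
    (m : ℝ) * (yx / Hr + 1) ≤ 3 / 16 * (W / L) := by
  have hm0 : (0 : ℝ) ≤ m := Nat.cast_nonneg m
  have hm1 : (0 : ℝ) < m + 1 := by linarith
  have hmL1 : 1 ≤ 7 * ((m : ℝ) + 1) * L := by
    have h1 : (1 : ℝ) ≤ 7 * (m + 1) := by linarith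
    calc (1 : ℝ) = 1 * 1 := by norm_num
      _ ≤ 7 * (m + 1) * L := mul_le_mul h1 hL (by norm_num) (by linarith)
  have h2 : yx / Hr ≤ 1 / 7 * (1 / (m + 1) * (W / L)) + 1 := by
    have h3 : yx / Hr ≤ (W + 1) / (7 * (m + 1) * L) := div_le_div₀ (by linarith) hyx' (by positivity) hHlow
    have h4 : (W + 1) / (7 * (m + 1) * L) = 1 / 7 * (1 / (m + 1) * (W / L)) + 1 / (7 * (m + 1) * L) := by
      field_simp
    have h5 : 1 / (7 * ((m : ℝ) + 1) * L) ≤ 1 := by
      rw [div_le_one (by positivity)]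
      exact hmL1
    linarith
  have h3 : (m : ℝ) * (1 / 7 * (1 / (m + 1) * (W / L))) ≤ 1 / 7 * (W / L) := by
    have h4 : (m : ℝ) * (1 / (m + 1)) ≤ 1 := by
      rw [mul_one_div, div_le_one (by positivity)]; linarith
    have h5 : 0 ≤ W / L := by positivity
    calc (m : ℝ) * (1 / 7 * (1 / (m + 1) * (W / L))) = (m * (1 / (m + 1))) * (1 / 7 * (W / L)) := by ring
      _ ≤ 1 * (1 / 7 * (W / L)) := mul_le_mul_of_nonneg_right h4 (by positivity)
      _ = _ := one_mul _
  have h6 : 2 * (m : ℝ) ≤ 1 / 32 * (W / L) := by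
    rw [← mul_div_assoc, le_div_iff₀ (by positivity)]
    have h7 : 2 * (m : ℝ) * L = 1 / 32 * (64 * m * L) := by ring
    have h8 : 64 * (m : ℝ) * L ≤ 64 * (m + 1) * L := mul_le_mul_of_nonneg_right (by linarith) (by linarith)
    rw [h7]
    linarith
  have h9 : 0 ≤ W / L := by positivity
  calc (m : ℝ) * (yx / Hr + 1) ≤ m * (1 / 7 * (1 / (m + 1) * (W / L)) + 1 + 1) :=
        mul_le_mul_of_nonneg_left (by linarith) hm0
    _ = m * (1 / 7 * (1 / (m + 1) * (W / L))) + 2 * m := by ring
    _ ≤ 1 / 7 * (W / L) + 1 / 32 * (W / L) := add_le_add h3 h6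
    _ ≤ _ := by linarith

theorem thick_clus (m : ℕ) : Thick (Clus m (8 * (m + 1))) (1 / 4) := by
  intro a b ha hab
  obtain ⟨C1, hC1, hcnt⟩ := count_primes 2
  have hb : 0 < b := ha.trans hab
  have hba : 0 < b - a := by linarith
  have hlog := Real.tendsto_log_atTop
  have hm0 : (0 : ℝ) ≤ m := Nat.cast_nonneg m
  -- log x and log y are close to log F
  have e1 : ∀ᶠ F : ℝ in atTop, 8 / (a * 1) ≤ F := eventually_ge_atTop _
  have e2 : ∀ᶠ F : ℝ in atTop, 16 * (|Real.log (a / 2)| + |Real.log b| + 1) ≤ Real.log F := hlog.eventually_ge_atTop _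
  have e3 : ∀ᶠ F : ℝ in atTop, 64 * (C1 * b) / (b - a) ≤ Real.log F := hlog.eventually_ge_atTop _
  have e4 : ∀ᶠ F : ℝ in atTop, Real.log F ≤ 1 / (64 * (m + 1)) * (b - a) * F := by
    have := Real.isLittleO_log_id_atTop.def (show (0 : ℝ) < 1 / (64 * (m + 1)) * (b - a) by positivity)
    filter_upwards [this, eventually_ge_atTop 1] with F h1 h2
    rw [Real.norm_of_nonneg (Real.log_nonneg h2)] at h1
    simp only [id] at h1
    rw [Real.norm_of_nonneg (by linarith)] at h1
    exact h1
  filter_upwards [e1, e2, e3, e4, eventually_ge_atTop (3 : ℝ), eventually_ge_atTop (64 / (b - a))] with F g1 g2 g3 g4 g5 g6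
  have hF0 : 0 < F := by linarith
  rw [mul_one, div_le_iff₀ ha] at g1
  rw [div_le_iff₀ hba] at g6
  set L : ℝ := Real.log F with hL
  have hL16 : 16 ≤ L := by
    have h1 := abs_nonneg (Real.log (a / 2))
    have h2 := abs_nonneg (Real.log b)
    linarith
  set x : ℕ := ⌊a * F⌋₊ with hx
  set y : ℕ := ⌊b * F⌋₊ with hy
  have hx1 : (x : ℝ) ≤ a * F := Nat.floor_le (by positivity)
  have hx2 : a * F < x + 1 := Nat.lt_floor_add_one _
  have hy1 : (y : ℝ) ≤ b * F := Nat.floor_le (by positivity)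
  have hy2 : b * F < y + 1 := Nat.lt_floor_add_one _
  have hx8 : (7 : ℝ) < x := by linarith
  have hxN : 2 ≤ x := by
    have : (2 : ℝ) ≤ x := by linarith
    exact_mod_cast this
  have hxy : x ≤ y := Nat.floor_le_floor (by nlinarith)
  have hxyr : (x : ℝ) ≤ y := by exact_mod_cast hxy
  have hlogx : 15 / 16 * L ≤ Real.log x := by
    have h1 : a / 2 * F ≤ x := by nlinarith
    have h2 := Real.log_le_log (by positivity) h1
    rw [Real.log_mul (by positivity) hF0.ne'] at h2
    have h3 := neg_abs_le (Real.log (a / 2))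
    have h4 := abs_nonneg (Real.log b)
    linarith
  have hlogy : Real.log y ≤ 17 / 16 * L := by
    have h2 := Real.log_le_log (by linarith) hy1
    rw [Real.log_mul hb.ne' hF0.ne'] at h2
    have h3 := le_abs_self (Real.log b)
    have h4 := abs_nonneg (Real.log (a / 2))
    linarith
  have hlogx0 : 0 < Real.log x := by linarith
  have hlogy0 : 0 < Real.log y := Real.log_pos (by linarith)
  have hyx : 31 / 32 * ((b - a) * F) ≤ (y : ℝ) - x := by
    have : (b - a) * F ≥ 64 := by linarith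
    linarith
  have hyx' : (y : ℝ) - x ≤ (b - a) * F + 1 := by linarith
  have hprime := hcnt x y hxN hxy
  -- the number of primes
  have k1 : 7 / 8 * ((b - a) * F / L) ≤ ((y : ℝ) - x) / Real.log y := by
    calc 7 / 8 * ((b - a) * F / L) ≤ (31 / 32 * ((b - a) * F)) / (17 / 16 * L) := by
          rw [div_eq_mul_inv (31 / 32 * ((b - a) * F)), mul_inv]
          have : 0 < (b - a) * F / L := by positivity
          have e : 31 / 32 * ((b - a) * F) * ((17 / 16)⁻¹ * L⁻¹) = (31 / 32 * (16 / 17)) * ((b - a) * F / L) := by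
            rw [div_eq_mul_inv ((b - a) * F)]; norm_num; ring
          rw [e]
          apply mul_le_mul_of_nonneg_right _ this.le
          norm_num
      _ ≤ _ := div_le_div₀ (by linarith [hyx, show 0 < (b - a) * F by positivity]) hyx hlogy0 hlogy
  have k2 : 2 * C1 * y / Real.log x ^ 2 ≤ 1 / 8 * ((b - a) * F / L) := by
    rw [div_le_iff₀ hba] at g3
    calc 2 * C1 * y / Real.log x ^ 2 ≤ 2 * C1 * (b * F) / (1 / 2 * L) ^ 2 := by
          apply div_le_div₀ (by positivity) (by nlinarith) (by positivity)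
          exact pow_le_pow_left₀ (by positivity) (by linarith) 2
      _ = 8 * (C1 * b) * F / (L * L) := by field_simp; ring
      _ ≤ (1 / 8 * (L * (b - a))) * F / (L * L) := by
          apply div_le_div_of_nonneg_right _ (by positivity)
          apply mul_le_mul_of_nonneg_right _ hF0.le
          linarith
      _ = _ := by field_simp
  -- the bad primes
  set H : ℕ := ⌊(8 * ((m : ℝ) + 1)) * Real.log x⌋₊ with hH
  have hHlow : 7 * (m + 1) * L ≤ H := by
    have h1 := Nat.lt_floor_add_one ((8 * ((m : ℝ) + 1)) * Real.log x)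
    rw [← hH] at h1
    have h2 : (8 * ((m : ℝ) + 1)) * (15 / 16 * L) ≤ (8 * ((m : ℝ) + 1)) * Real.log x :=
      mul_le_mul_of_nonneg_left hlogx (by positivity)
    have h3 : 7.5 * (((m : ℝ) + 1) * L) = (8 * ((m : ℝ) + 1)) * (15 / 16 * L) := by ring
    have h4 : 7 * ((m : ℝ) + 1) * L = 7 * (((m : ℝ) + 1) * L) := by ring
    have h5 : 2 ≤ ((m : ℝ) + 1) * L := by
      calc (2 : ℝ) = 1 * 2 := by norm_num
        _ ≤ ((m : ℝ) + 1) * L := mul_le_mul (by linarith) (by linarith) (by norm_num) (by linarith)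
    rw [h4]
    linarith
  have hmL : 1 ≤ ((m : ℝ) + 1) * L := by
    calc (1 : ℝ) = 1 * 1 := by norm_num
      _ ≤ ((m : ℝ) + 1) * L := mul_le_mul (by linarith) (by linarith) (by norm_num) (by linarith)
  have hmL1 : 1 ≤ 7 * ((m : ℝ) + 1) * L := by
    have : 7 * ((m : ℝ) + 1) * L = 7 * (((m : ℝ) + 1) * L) := by ring
    rw [this]; linarith
  have hH1 : 1 ≤ H := by
    have : (1 : ℝ) ≤ H := hmL1.trans hHlow
    exact_mod_cast this
  have hH0 : (0 : ℝ) < H := by exact_mod_cast hH1
  have hbad := bad_clus m H x y hH1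
  set T := (Ioc x y).filter (fun p : ℕ => p.Prime) with hT
  set Gd := (Ioc x y).filter (fun p : ℕ => p.Prime ∧ p ∈ Clus m (8 * (m + 1))) with hGd
  set Bd := (Ioc x y).filter (fun q : ℕ => q.Prime ∧ ((Ioc q (q + H)).filter (fun p : ℕ => p.Prime)).card < m) with hBd
  have hTG : T ⊆ Gd ∪ Bd := by
    intro q hq
    rw [hT, mem_filter] at hq
    rw [mem_union, hGd, hBd, mem_filter, mem_filter]
    by_cases h : ((Ioc q (q + H)).filter (fun p : ℕ => p.Prime)).card < m
    · exact Or.inr ⟨hq.1, hq.2, h⟩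
    · left
      push Not at h
      refine ⟨hq.1, hq.2, ?_⟩
      show m ≤ _
      refine h.trans (card_le_card (filter_subset_filter _ ?_))
      apply Ioc_subset_Ioc_right
      apply Nat.add_le_add_left
      apply Nat.floor_le_floor
      apply mul_le_mul_of_nonneg_left _ (by positivity)
      have hxq : x < q := (mem_Ioc.1 hq.1).1
      apply Real.log_le_log (by linarith)
      exact_mod_cast hxq.le
  have hcard : (T.card : ℝ) ≤ Gd.card + Bd.card := by
    have := (card_le_card hTG).trans (card_union_le _ _)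
    exact_mod_cast this
  have hBc : (Bd.card : ℝ) ≤ 3 / 16 * ((b - a) * F / L) := by
    have h1 : (Bd.card : ℝ) ≤ m * (((y : ℝ) - x) / H + 1) := by
      calc (Bd.card : ℝ) ≤ ((m * ((y - x) / H + 1) : ℕ) : ℝ) := by exact_mod_cast hbad
        _ ≤ _ := by
            push_cast
            apply mul_le_mul_of_nonneg_left _ hm0
            have h2 : (((y - x) / H : ℕ) : ℝ) ≤ ((y - x : ℕ) : ℝ) / H := Nat.cast_div_le
            rw [Nat.cast_sub hxy] at h2
            linarith only [h2]
    refine h1.trans (clus_num m ((b - a) * F) L ((y : ℝ) - x) H (by linarith only [hL16]) (by positivity) hH0 hyx'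
      (by linarith only [hxyr]) hHlow ?_)
    calc 64 * ((m : ℝ) + 1) * L ≤ 64 * ((m : ℝ) + 1) * (1 / (64 * (m + 1)) * (b - a) * F) :=
          mul_le_mul_of_nonneg_left g4 (by positivity)
      _ = _ := by field_simp
  have hfin : 1 / 4 * (b - a) * F / L = 1 / 4 * ((b - a) * F / L) := by ring
  rw [hfin]
  have h9 : 0 ≤ (b - a) * F / L := by positivity
  linarith only [h9, hBc, hcard, hprime, k1, k2]

end Pool.Agent.K7.H49.ME
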