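import Mathlib
import Pool.Agent.K7.H49.ME.Thick
import Pool.Agent.K7.H49.ME.PolyG

/-!
The metric theorem for thick sets of primes.
-/

set_option autoImplicit false

namespace Pool.Agent.K7.H49.ME

open Finset MeasureTheory Filter Polynomial
open scoped Classical

theorem lowerP (p : ℤ → Prop) (f : ℝ) (hf : 0 < f) (a b : ℝ) (S : Finset ℤ)
    (hS : ∀ z ∈ S, a * f ≤ z ∧ (z : ℝ) + 1 ≤ b * f ∧ p z) :
    (S.card : ℝ) / f ≤ volume.real ({α : ℝ | p ⌊α * f⌋} ∩ Set.Icc a b) := by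
  have hsub : (⋃ z ∈ S, FS f z) ⊆ {α : ℝ | p ⌊α * f⌋} ∩ Set.Icc a b := by
    intro α hα
    rw [Set.mem_iUnion₂] at hα
    obtain ⟨z, hz, hα⟩ := hα
    obtain ⟨h1, h2, h3⟩ := hS z hz
    refine ⟨?_, ?_⟩
    · show p ⌊α * f⌋
      rw [(show ⌊α * f⌋ = z from hα)]
      exact h3
    · rw [FS_eq f hf, Set.mem_Ico, div_le_iff₀ hf, lt_div_iff₀ hf] at hα
      constructor
      · exact le_of_mul_le_mul_right (h1.trans hα.1) hf
      · exact le_of_mul_le_mul_right (hα.2.le.trans h2) hf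
  have hfin : volume ({α : ℝ | p ⌊α * f⌋} ∩ Set.Icc a b) ≠ ⊤ := by
    apply ne_top_of_le_ne_top _ (measure_mono Set.inter_subset_right)
    rw [Real.volume_Icc]; exact ENNReal.ofReal_ne_top
  have h1 := measureReal_mono hsub hfin
  refine le_trans (le_of_eq ?_) h1
  unfold Measure.real
  rw [measure_biUnion_finset]
  · rw [Finset.sum_congr rfl (fun z _ => FS_vol f hf z), sum_const, nsmul_eq_mul, ENNReal.toReal_mul,
      ENNReal.toReal_ofReal (by positivity)]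
    simp
    ring
  · intro z _ w _ hzw
    exact FS_disj f hzw
  · intro z _
    exact FS_meas f hf z

/-- the `α` with `u + ⌊α f⌋` a prime of `G` -/
def EG (G : Set ℕ) (u : ℤ) (f : ℝ) : Set ℝ := {α | (u + 1 * ⌊α * f⌋).toNat.Prime ∧ (u + 1 * ⌊α * f⌋).toNat ∈ G}

theorem EG_sub (G : Set ℕ) (u : ℤ) (f : ℝ) : EG G u f ⊆ EE 1 u f := fun _ h => h.1

theorem EG_meas (G : Set ℕ) (u : ℤ) (f : ℝ) : MeasurableSet (EG G u f) := by
  have h1 : Measurable (fun α : ℝ => ⌊α * f⌋) := Int.measurable_floor.comp (measurable_id.mul_const f)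
  have h2 : EG G u f = (fun α : ℝ => ⌊α * f⌋) ⁻¹' {z : ℤ | (u + 1 * z).toNat.Prime ∧ (u + 1 * z).toNat ∈ G} := rfl
  rw [h2]
  exact h1 (MeasurableSet.of_discrete)

theorem first_thick (G : Set ℕ) (δ : ℝ) (hδ : 0 < δ) (hG : Thick G δ) (E : ℕ) (a b c2 U0 : ℝ) (ha : 0 < a) (hab : a < b)
    (hc2 : 0 < c2) : ∀ᶠ N : ℕ in atTop, ∀ (f : ℝ) (u : ℤ), c2 * N ≤ f → f ≤ (N : ℝ) ^ E → |(u : ℝ)| ≤ U0 →
      δ / (2 * (E + 1)) * (b - a) / Real.log N ≤ volume.real (EG G u f ∩ Set.Icc a b) := by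
  have hba : 0 < b - a := by linarith
  set a' : ℝ := a + (b - a) / 4 with ha'
  set b' : ℝ := b - (b - a) / 4 with hb'
  have hthick := hG a' b' (by rw [ha']; linarith) (by rw [ha', hb']; linarith)
  obtain ⟨F0, hF0⟩ := Filter.eventually_atTop.1 hthick
  have ht : Tendsto (fun N : ℕ => (N : ℝ)) atTop atTop := tendsto_natCast_atTop_atTop
  have f1 : ∀ᶠ N : ℕ in atTop, max F0 (max 3 (4 * (|U0| + 2) / (b - a))) ≤ c2 * N :=
    (ht.const_mul_atTop hc2).eventually_ge_atTop _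
  filter_upwards [f1, eventually_ge_atTop 3] with N g1 hN f u hf1 hf2 hu
  have hNr : (3 : ℝ) ≤ N := by exact_mod_cast hN
  have hL : 0 < Real.log N := Real.log_pos (by linarith)
  have g2 : F0 ≤ f := (le_max_left _ _).trans (g1.trans hf1)
  have g3 : 3 ≤ f := ((le_max_left _ _).trans (le_max_right _ _)).trans (g1.trans hf1)
  have g4 : 4 * (|U0| + 2) / (b - a) ≤ f := ((le_max_right _ _).trans (le_max_right _ _)).trans (g1.trans hf1)
  rw [div_le_iff₀ hba] at g4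
  have hf0 : 0 < f := by linarith
  have hmain := hF0 f g2
  have hU : |(u : ℝ)| ≤ |U0| := hu.trans (le_abs_self _)
  obtain ⟨hu1, hu2⟩ := abs_le.1 hU
  set T := (Ioc ⌊a' * f⌋₊ ⌊b' * f⌋₊).filter (fun p : ℕ => p.Prime ∧ p ∈ G) with hT
  set S : Finset ℤ := T.image (fun p : ℕ => (p : ℤ) - u) with hS
  have hScard : S.card = T.card := by
    rw [hS]
    apply card_image_of_injective
    intro p q hpq
    have : (p : ℤ) - u = q - u := hpq
    omega
  have hlow := lowerP (fun z => (u + 1 * z).toNat.Prime ∧ (u + 1 * z).toNat ∈ G) f hf0 a b S (by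
    intro z hz
    rw [hS, mem_image] at hz
    obtain ⟨p, hp, rfl⟩ := hz
    rw [hT, mem_filter, mem_Ioc] at hp
    obtain ⟨⟨h1, h2⟩, h3, h4⟩ := hp
    have h5 : a' * f ≤ p := by
      have e1 := Nat.lt_floor_add_one (a' * f)
      have e2 : ((⌊a' * f⌋₊ + 1 : ℕ) : ℝ) ≤ p := by exact_mod_cast h1
      push_cast at e2
      linarith
    have h6 : (p : ℝ) ≤ b' * f := by
      have e1 : (p : ℝ) ≤ ((⌊b' * f⌋₊ : ℕ) : ℝ) := by exact_mod_cast h2
      refine e1.trans (Nat.floor_le ?_)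
      have : 0 < b' := by rw [hb']; linarith
      positivity
    have h7 : u + 1 * ((p : ℤ) - u) = p := by ring
    rw [h7, Int.toNat_natCast]
    have e3 : a' * f = a * f + (b - a) * f / 4 := by rw [ha']; ring
    have e4 : b' * f = b * f - (b - a) * f / 4 := by rw [hb']; ring
    push_cast
    exact ⟨by nlinarith, by nlinarith, h3, h4⟩)
  refine le_trans ?_ hlow
  rw [hScard, le_div_iff₀ hf0]
  refine le_trans ?_ hmain
  have hlf0 : 0 < Real.log f := Real.log_pos (by linarith)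
  have hlf : Real.log f ≤ (E + 1) * Real.log N := by
    have h1 := Real.log_le_log hf0 hf2
    rw [Real.log_pow] at h1
    linarith
  have hbb : b' - a' = (b - a) / 2 := by rw [ha', hb']; ring
  rw [hbb]
  calc δ / (2 * (E + 1)) * (b - a) / Real.log N * f = (δ * ((b - a) / 2) * f) / ((E + 1) * Real.log N) := by
        field_simp
    _ ≤ _ := by
        apply div_le_div_of_nonneg_left (by positivity) hlf0 hlf

theorem thick_metric (k d : ℕ) (G : Fin k → Set ℕ) (δ : ℝ) (hδ : 0 < δ) (hG : ∀ i, Thick (G i) δ) (P : Fin k → ℝ[X])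
    (u : Fin k → ℕ → ℤ) (U0 : ℝ) (hu : ∀ i n, |(u i n : ℝ)| ≤ U0)
    (hd1 : ∀ i, 1 ≤ (P i).natDegree) (hd2 : ∀ i, (P i).natDegree ≤ d)
    (hlc : ∀ i, 0 < (P i).leadingCoeff) (I : ℕ → Finset ℕ) (hI : ∀ N, I N ⊆ Ioc N (2 * N)) (κ : ℝ) (hκ : 0 < κ)
    (hP : ∃ᶠ N : ℕ in atTop, (N : ℝ) ^ κ ≤ (I N).card) :
    ∀ᵐ α : Fin k → ℝ, (∀ i, 0 < α i) → ∃ᶠ N : ℕ in atTop, (N : ℝ) ^ κ ≤ (I N).card ∧
      (δ / (2 * (((d + 1 : ℕ) : ℝ) + 1))) ^ k / 2 * (I N).card / Real.log N ^ k ≤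
        (((I N).filter (fun n => ∀ i, (u i n + 1 * ⌊α i * (P i).eval (n : ℝ)⌋).toNat.Prime ∧
          (u i n + 1 * ⌊α i * (P i).eval (n : ℝ)⌋).toNat ∈ G i)).card : ℝ) := by
  set c2 : ℝ := 1 / (1 + ∑ i, 2 / (P i).leadingCoeff) with hc2
  have hsum : 0 ≤ ∑ i, 2 / (P i).leadingCoeff := sum_nonneg fun i _ => by have := hlc i; positivity
  have hc20 : 0 < c2 := by positivity
  have hc2i : ∀ i, c2 ≤ (P i).leadingCoeff / 2 := by
    intro i
    have h1 : 2 / (P i).leadingCoeff ≤ ∑ i, 2 / (P i).leadingCoeff :=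
      single_le_sum (f := fun i => 2 / (P i).leadingCoeff) (fun j _ => by have := hlc j; positivity) (mem_univ i)
    have h2 := hlc i
    calc c2 ≤ 1 / (2 / (P i).leadingCoeff) := one_div_le_one_div_of_le (by positivity) (by linarith)
      _ = _ := by field_simp
  have ht : Tendsto (fun N : ℕ => (N : ℝ)) atTop atTop := tendsto_natCast_atTop_atTop
  -- growth
  have hgrow : ∀ i, ∀ᶠ N : ℕ in atTop, c2 * N ≤ (P i).leadingCoeff / 2 * (N : ℝ) ^ (P i).natDegree ∧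
      (∀ n, N < n → n ≤ 2 * N → (P i).leadingCoeff / 2 * (N : ℝ) ^ (P i).natDegree ≤ (P i).eval (n : ℝ) ∧
        (P i).eval (n : ℝ) ≤ 2 ^ (d + 2) * ((P i).leadingCoeff / 2 * (N : ℝ) ^ (P i).natDegree)) ∧
      (∀ n m, N < n → n ≤ m → m ≤ 2 * N → 1 * ((P i).leadingCoeff / 2 * (N : ℝ) ^ (P i).natDegree) * ((m : ℝ) - n) / N ≤
        (P i).eval (m : ℝ) - (P i).eval (n : ℝ)) := by
    intro i
    filter_upwards [poly_growth (P i) (hlc i) (hd1 i), eventually_ge_atTop 1] with N h1 hN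
    have hNr : (1 : ℝ) ≤ N := by exact_mod_cast hN
    have hli := hlc i
    refine ⟨?_, ?_, ?_⟩
    · have h2 : (N : ℝ) ≤ (N : ℝ) ^ (P i).natDegree := le_self_pow₀ hNr (by have := hd1 i; omega)
      calc c2 * N ≤ (P i).leadingCoeff / 2 * N := mul_le_mul_of_nonneg_right (hc2i i) (by linarith)
        _ ≤ _ := mul_le_mul_of_nonneg_left h2 (by positivity)
    · intro n hn hn2
      obtain ⟨h2, h3⟩ := h1.1 n hn hn2
      refine ⟨h2, h3.trans ?_⟩
      apply mul_le_mul_of_nonneg_right _ (by positivity)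
      exact pow_le_pow_right₀ (by norm_num) (by have := hd2 i; omega)
    · intro n m hn hnm hm
      rw [one_mul]
      exact h1.2 n m hn hnm hm
  have hmain := metric_sub k κ hκ (fun _ => 1) (fun _ => by norm_num) u
    (fun i n _ => isCoprime_one_right) (fun i n => (P i).eval (n : ℝ))
    (fun i N => (P i).leadingCoeff / 2 * (N : ℝ) ^ (P i).natDegree)
    (2 ^ (d + 2)) 1 c2 (δ / (2 * (((d + 1 : ℕ) : ℝ) + 1))) (by positivity) one_pos hc20 (by positivity)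
    (fun _ => Set.Ioi 0) (fun _ => isOpen_Ioi)
    (fun i n => EG (G i) (u i n) ((P i).eval (n : ℝ))) (fun i n => EG_meas _ _ _)
    (fun i n => EG_sub _ _ _) I hI hgrow ?_ hP
  · filter_upwards [hmain] with α hα hα0
    refine (hα hα0).mono fun N hN => ⟨hN.1, hN.2.trans (Nat.cast_le.2 (card_le_card ?_))⟩
    intro n hn
    obtain ⟨h1, h2⟩ := Finset.mem_filter.1 hn
    exact Finset.mem_filter.2 ⟨h1, fun i => h2 i⟩
  · intro i a b hab hsub
    have ha : 0 < a := hsub (Set.left_mem_Icc.2 hab.le)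
    have hlci := hlc i
    filter_upwards [first_thick (G i) δ hδ (hG i) (d + 1) a b c2 U0 ha hab hc20, hgrow i, eventually_ge_atTop 3,
      ht.eventually_ge_atTop (2 ^ (d + 2) * (P i).leadingCoeff)]
      with N hfirst hgr hN hNlc n hn
    have hNr : (3 : ℝ) ≤ N := by exact_mod_cast hN
    obtain ⟨hnN, hn2N⟩ := mem_Ioc.1 (hI N hn)
    obtain ⟨hF1, hF2⟩ := hgr.2.1 n hnN hn2N
    have hf1 : c2 * N ≤ (P i).eval (n : ℝ) := hgr.1.trans hF1
    apply hfirst ((P i).eval (n : ℝ)) (u i n) hf1 _ (hu i n)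
    refine hF2.trans ?_
    have h1 : (N : ℝ) ^ (P i).natDegree ≤ (N : ℝ) ^ d := pow_le_pow_right₀ (by linarith) (hd2 i)
    calc 2 ^ (d + 2) * ((P i).leadingCoeff / 2 * (N : ℝ) ^ (P i).natDegree) ≤
        2 ^ (d + 2) * ((P i).leadingCoeff / 2 * (N : ℝ) ^ d) := by gcongr
      _ = (2 ^ (d + 2) * (P i).leadingCoeff) / 2 * (N : ℝ) ^ d := by ring
      _ ≤ N * (N : ℝ) ^ d := by
          apply mul_le_mul_of_nonneg_right _ (by positivity)
          linarith
      _ = (N : ℝ) ^ (d + 1) := by rw [pow_succ]; ring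

end Pool.Agent.K7.H49.ME
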