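import Mathlib
import Pool.Agent.K7.H49.ME.ThickM

/-!
Primes `(2 n - 1) ^ 2 + 2 z` with `z` in short intervals, on average over `n`.
-/

set_option autoImplicit false

namespace Pool.Agent.K7.H49.ME

open Finset MeasureTheory Filter
open scoped Classical

/-- the integers `z` with `a f ≤ z`, `z + 1 ≤ b f` -/
noncomputable def Zs (a b f : ℝ) : Finset ℤ := Finset.Icc ⌈a * f⌉ (⌊b * f⌋ - 1)

theorem mem_Zs (a b f : ℝ) (z : ℤ) : z ∈ Zs a b f ↔ a * f ≤ z ∧ (z : ℝ) + 1 ≤ b * f := by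
  unfold Zs
  rw [Finset.mem_Icc, Int.ceil_le]
  constructor
  · rintro ⟨h1, h2⟩
    refine ⟨h1, ?_⟩
    have h3 : z + 1 ≤ ⌊b * f⌋ := by omega
    have h4 := Int.le_floor.1 h3
    push_cast at h4
    exact h4
  · rintro ⟨h1, h2⟩
    refine ⟨h1, ?_⟩
    have h3 : z + 1 ≤ ⌊b * f⌋ := by
      rw [Int.le_floor]; push_cast; exact h2
    omega

theorem window_num (a b R J M M' h : ℝ) (ha : 0 < a) (hab : a < b) (hR : 0 < R) (hM : 1 ≤ M) (hJ : 1 ≤ J) (hh : 0 ≤ h)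
    (hM' : M' = M + h) (hJh : J * h ≤ M) (hJab : 4 * (a + b) ≤ J * (b - a)) (hRb : 4 ≤ (b - a) * R)
    (A : ℝ) (hA : A ≤ a * (R * (1 + 1 / J))) :
    (b - a) * R / (8 * M) ≤ (b * R - 1) / (4 * M') - A / (2 * (2 * M + 1)) := by
  have hM0 : 0 < M := by linarith
  have hJ0 : 0 < J := by linarith
  have hM'0 : 0 < M' := by rw [hM']; linarith
  have hb : 0 < b := ha.trans hab
  have hhJ : h ≤ M / J := by rw [le_div_iff₀ hJ0]; linarith
  have h1 : A / (2 * (2 * M + 1)) ≤ a * (R * (1 + 1 / J)) / (4 * M) := by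
    have hp : 0 ≤ a * (R * (1 + 1 / J)) := by positivity
    calc A / (2 * (2 * M + 1)) ≤ a * (R * (1 + 1 / J)) / (2 * (2 * M + 1)) := div_le_div_of_nonneg_right hA (by positivity)
      _ ≤ _ := div_le_div_of_nonneg_left hp (by positivity) (by linarith)
  have hbR : 0 ≤ b * R - 1 := by nlinarith
  have h2 : (b * R - 1) * (1 - 1 / J) / (4 * M) ≤ (b * R - 1) / (4 * M') := by
    rw [div_le_div_iff₀ (by positivity) (by positivity)]
    have h3 : (1 - 1 / J) * M' ≤ M := by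
      have h4 : M' ≤ M * (1 + 1 / J) := by rw [hM']; have : M * (1 + 1 / J) = M + M / J := by ring
                                           linarith
      have h5 : 0 ≤ 1 - 1 / J := by
        have : 1 / J ≤ 1 := by rw [div_le_one hJ0]; exact hJ
        linarith
      calc (1 - 1 / J) * M' ≤ (1 - 1 / J) * (M * (1 + 1 / J)) := mul_le_mul_of_nonneg_left h4 h5
        _ = M - M * (1 / J) ^ 2 := by ring
        _ ≤ M := by have : 0 ≤ M * (1 / J) ^ 2 := by positivity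
                    linarith
    calc (b * R - 1) * (1 - 1 / J) * (4 * M') = 4 * (b * R - 1) * ((1 - 1 / J) * M') := by ring
      _ ≤ 4 * (b * R - 1) * M := mul_le_mul_of_nonneg_left h3 (by linarith)
      _ = _ := by ring
  have h3 : (b - a) * R / 2 ≤ (b * R - 1) * (1 - 1 / J) - a * (R * (1 + 1 / J)) := by
    have h4 : (a + b) * R * (1 / J) ≤ (b - a) * R / 4 := by
      rw [mul_one_div, div_le_iff₀ hJ0]
      nlinarith
    have h5 : (b * R - 1) * (1 - 1 / J) - a * (R * (1 + 1 / J)) = (b - a) * R - (a + b) * R * (1 / J) - 1 + 1 / J := by ring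
    have h6 : 0 < 1 / J := by positivity
    rw [h5]
    linarith
  have h4 : (b - a) * R / (8 * M) = ((b - a) * R / 2) / (4 * M) := by field_simp; ring
  rw [h4]
  calc (b - a) * R / 2 / (4 * M) ≤ ((b * R - 1) * (1 - 1 / J) - a * (R * (1 + 1 / J))) / (4 * M) :=
        div_le_div_of_nonneg_right h3 (by positivity)
    _ = (b * R - 1) * (1 - 1 / J) / (4 * M) - a * (R * (1 + 1 / J)) / (4 * M) := by ring
    _ ≤ _ := by linarith

theorem block_inj (θ : ℝ) (hθ0 : 0 < θ) (a b : ℝ) (ha : 0 < a) (M M' : ℕ) (hM : 1 ≤ M) (w1 w2 : ℝ)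
    (hw1 : a * (M' : ℝ) ^ θ ≤ w1 * (2 * (2 * M + 1))) (hw2 : w2 * (4 * M') ≤ b * (M : ℝ) ^ θ - 1) (hw10 : 0 < w1)
    (hw21 : w2 ≤ 1 / 2) (hb : 0 < b) :
    (((Ioc ((2 * M + 1) ^ 2) ((2 * M' + 1) ^ 2)).filter (fun p : ℕ => p.Prime ∧
      Int.fract (1 / 2 * (p : ℝ) ^ (1 / 2 : ℝ) + (1 / 2 - w1)) ≤ w2 - w1)).card : ℝ) ≤
      ∑ n ∈ Ioc M M', (((Zs a b ((n : ℝ) ^ θ)).filter
        (fun z : ℤ => ((2 * (n : ℤ) - 1) ^ 2 + 2 * z).toNat.Prime)).card : ℝ) := by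
  have hsum : ∑ n ∈ Ioc M M', (((Zs a b ((n : ℝ) ^ θ)).filter
        (fun z : ℤ => ((2 * (n : ℤ) - 1) ^ 2 + 2 * z).toNat.Prime)).card : ℝ) =
      (((Ioc M M').sigma (fun n => (Zs a b ((n : ℝ) ^ θ)).filter
        (fun z : ℤ => ((2 * (n : ℤ) - 1) ^ 2 + 2 * z).toNat.Prime))).card : ℝ) := by
    rw [card_sigma]; push_cast; rfl
  rw [hsum, Nat.cast_le]
  -- the data of a prime
  have hdata : ∀ p ∈ (Ioc ((2 * M + 1) ^ 2) ((2 * M' + 1) ^ 2)).filter (fun p : ℕ => p.Prime ∧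
      Int.fract (1 / 2 * (p : ℝ) ^ (1 / 2 : ℝ) + (1 / 2 - w1)) ≤ w2 - w1), ∃ x : (Σ _ : ℕ, ℤ),
      x ∈ (Ioc M M').sigma (fun n => (Zs a b ((n : ℝ) ^ θ)).filter
        (fun z : ℤ => ((2 * (n : ℤ) - 1) ^ 2 + 2 * z).toNat.Prime)) ∧ (p : ℤ) = (2 * (x.1 : ℤ) - 1) ^ 2 + 2 * x.2 := by
    intro p hp
    rw [mem_filter, mem_Ioc] at hp
    obtain ⟨⟨hp1, hp2⟩, hp3, hp4⟩ := hp
    set s : ℝ := (p : ℝ) ^ (1 / 2 : ℝ) with hs
    have hs0 : 0 ≤ s := by positivity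
    have hs2 : s ^ 2 = p := by
      rw [hs, ← Real.rpow_natCast, ← Real.rpow_mul (Nat.cast_nonneg p)]; norm_num
    have hsM : 2 * (M : ℝ) + 1 < s := by
      have h1 : (2 * (M : ℝ) + 1) ^ 2 < s ^ 2 := by
        rw [hs2]; exact_mod_cast hp1
      exact lt_of_pow_lt_pow_left₀ 2 hs0 h1
    have hsM' : s ≤ 2 * (M' : ℝ) + 1 := by
      have h1 : s ^ 2 ≤ (2 * (M' : ℝ) + 1) ^ 2 := by
        rw [hs2]; exact_mod_cast hp2
      exact le_of_sq_le_sq h1 (by positivity)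
    set y : ℝ := Int.fract (1 / 2 * s + (1 / 2 - w1)) with hy
    have hy0 : 0 ≤ y := Int.fract_nonneg _
    set t : ℝ := w1 + y with ht
    have ht0 : 0 < t := by linarith
    have ht1 : t ≤ w2 := by linarith
    set k : ℤ := ⌊1 / 2 * s + (1 / 2 - w1)⌋ with hk
    have hky : (k : ℝ) + y = 1 / 2 * s + (1 / 2 - w1) := Int.floor_add_fract _
    have hskt : s = 2 * k - 1 + 2 * t := by rw [ht]; linarith
    have hkM : (M : ℤ) < k := by
      have : (M : ℝ) < k := by linarith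
      exact_mod_cast this
    have hkM' : k ≤ M' := by
      have : (k : ℝ) < M' + 1 := by linarith
      have h2 : k < (M' : ℤ) + 1 := by exact_mod_cast this
      omega
    obtain ⟨n, hn⟩ := Int.eq_ofNat_of_zero_le (show 0 ≤ k by omega)
    rw [hn] at hskt hkM hkM'
    have hkM2 : M < n := by exact_mod_cast hkM
    have hkM2' : n ≤ M' := by exact_mod_cast hkM'
    have hnr : (M : ℝ) + 1 ≤ n := by exact_mod_cast hkM2
    have hnr' : (n : ℝ) ≤ M' := by exact_mod_cast hkM2'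
    have hMr : (1 : ℝ) ≤ M := by exact_mod_cast hM
    push_cast at hskt
    have hodd : ∃ z : ℤ, (p : ℤ) = (2 * (n : ℤ) - 1) ^ 2 + 2 * z := by
      have h1 : p % 2 = 1 := by
        rcases hp3.eq_two_or_odd with h | h
        · rw [h] at hp1
          have : 9 ≤ (2 * M + 1) ^ 2 := by nlinarith
          omega
        · exact h
      have h2 : ∃ q : ℕ, p = 2 * q + 1 := ⟨p / 2, by omega⟩
      obtain ⟨q, hq⟩ := h2
      refine ⟨q - 2 * n ^ 2 + 2 * n, ?_⟩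
      rw [hq]; push_cast; ring
    obtain ⟨z, hz⟩ := hodd
    have hzr : (z : ℝ) = 2 * t * (2 * n - 1) + 2 * t ^ 2 := by
      have h1 : ((p : ℤ) : ℝ) = (2 * (n : ℝ) - 1) ^ 2 + 2 * z := by rw [hz]; push_cast; ring
      have h2 : (p : ℝ) = (2 * (n : ℝ) - 1) ^ 2 + 2 * z := by exact_mod_cast h1
      rw [← hs2, hskt] at h2
      nlinarith
    refine ⟨⟨n, z⟩, ?_, hz⟩
    rw [mem_sigma, mem_Ioc, mem_filter, mem_Zs]
    refine ⟨⟨hkM2, hkM2'⟩, ⟨?_, ?_⟩, ?_⟩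
    · show a * (n : ℝ) ^ θ ≤ z
      have h1 : (n : ℝ) ^ θ ≤ (M' : ℝ) ^ θ := Real.rpow_le_rpow (by linarith) hnr' hθ0.le
      have h2 : a * (n : ℝ) ^ θ ≤ a * (M' : ℝ) ^ θ := mul_le_mul_of_nonneg_left h1 ha.le
      have h3 : w1 * (2 * (2 * M + 1)) ≤ t * (2 * (2 * n - 1)) := by
        apply mul_le_mul (by linarith) (by linarith) (by positivity) ht0.le
      have h4 : 0 ≤ 2 * t ^ 2 := by positivity
      rw [hzr]
      linarith
    · show (z : ℝ) + 1 ≤ b * (n : ℝ) ^ θ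
      have h1 : (M : ℝ) ^ θ ≤ (n : ℝ) ^ θ := Real.rpow_le_rpow (by linarith) (by linarith) hθ0.le
      have h2 : b * (M : ℝ) ^ θ ≤ b * (n : ℝ) ^ θ := mul_le_mul_of_nonneg_left h1 hb.le
      have h3 : t ^ 2 ≤ t := by nlinarith
      have h4 : t * (4 * n) ≤ w2 * (4 * M') := by
        apply mul_le_mul ht1 (by linarith) (by positivity) (by linarith)
      rw [hzr]
      nlinarith
    · show ((2 * (n : ℤ) - 1) ^ 2 + 2 * z).toNat.Prime
      rw [← hz, Int.toNat_natCast]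
      exact hp3
  choose! F hF1 hF2 using hdata
  apply card_le_card_of_injOn F
  · intro p hp
    exact hF1 p hp
  · intro p hp q hq hpq
    have h1 := hF2 p hp
    have h2 := hF2 q hq
    rw [hpq] at h1
    have : (p : ℤ) = q := by rw [h1, h2]
    exact_mod_cast this

end Pool.Agent.K7.H49.ME
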