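import Mathlib
import Pool.Agent.K7.H49.ME.SqF

/-!
First moment for the primes `(2 n - 1) ^ 2 + 2 z`, one short block of `n`.
-/

set_option autoImplicit false

namespace Pool.Agent.K7.H49.ME

open Finset MeasureTheory Filter
open scoped Classical

/-- primes with a small fractional part of half the square root -/
def FracHyp : Prop := ∀ ν : ℝ, 0 < ν → 6 * ν < 1 → ∀ B : ℕ, 1 ≤ B → ∀ ε : ℝ, 0 < ε → ∃ N₀ : ℕ, ∀ N : ℕ, N₀ ≤ N →
  ∀ N' : ℕ, N ≤ N' → N' ≤ 2 * N → N ≤ B * (N' - N) → ∀ η β : ℝ, (N : ℝ) ^ (-ν) ≤ η → η ≤ 1 / 2 →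
      (1 - ε) * (η * ((N' : ℝ) - N) / Real.log N') ≤
        #((Ioc N N').filter (fun p : ℕ => p.Prime ∧ Int.fract (1 / 2 * (p : ℝ) ^ (1 / 2 : ℝ) + β) ≤ η))

theorem log_sq_bound : ∀ᶠ N : ℕ in atTop, ∀ X : ℕ, 1 ≤ X → (X : ℝ) ≤ (4 * N + 1) ^ 2 → Real.log X ≤ 3 * Real.log N := by
  filter_upwards [eventually_ge_atTop 32] with N hN X hX1 hX
  have hNr : (32 : ℝ) ≤ N := by exact_mod_cast hN
  have hX0 : (0 : ℝ) < X := by exact_mod_cast hX1
  have h2 : (X : ℝ) ≤ (N : ℝ) ^ 3 := by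
    calc (X : ℝ) ≤ (4 * N + 1) ^ 2 := hX
      _ ≤ (5 * N) ^ 2 := by
        apply pow_le_pow_left₀ (by linarith)
        linarith
      _ = 25 * (N : ℝ) ^ 2 := by ring
      _ ≤ N * (N : ℝ) ^ 2 := by
        apply mul_le_mul_of_nonneg_right _ (by positivity)
        linarith
      _ = _ := by ring
  calc Real.log X ≤ Real.log ((N : ℝ) ^ 3) := Real.log_le_log hX0 h2
    _ = _ := by rw [Real.log_pow]; push_cast; ring

theorem block_first (hfc : FracHyp) (θ : ℝ) (hθ : 2 / 3 < θ) (hθ1 : θ < 1) (a b : ℝ) (ha : 0 < a) (hab : a < b) (J : ℕ)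
    (hJ : 4 * (a + b) ≤ J * (b - a)) :
    ∀ᶠ N : ℕ in atTop, ∀ M h : ℕ, N ≤ M → M + h ≤ 2 * N → N ≤ 2 * (J * h) → J * h ≤ N →
      (b - a) * h * (N : ℝ) ^ θ / (6 * Real.log N) ≤
        ∑ n ∈ Ioc M (M + h), (((Zs a b ((n : ℝ) ^ θ)).filter
          (fun z : ℤ => ((2 * (n : ℤ) - 1) ^ 2 + 2 * z).toNat.Prime)).card : ℝ) := by
  have hba : 0 < b - a := by linarith
  have hb : 0 < b := ha.trans hab
  have hJ5 : (4 : ℝ) < J := by
    by_contra hcon
    push Not at hcon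
    have : (J : ℝ) * (b - a) ≤ 4 * (b - a) := mul_le_mul_of_nonneg_right hcon hba.le
    linarith
  have hJ1 : 1 ≤ J := by
    by_contra hcon
    have : J = 0 := by omega
    rw [this] at hJ5
    norm_num at hJ5
  set ν : ℝ := ((1 - θ) / 2 + 1 / 6) / 2 with hν
  obtain ⟨N₁, hN₁⟩ := hfc ν (by rw [hν]; linarith) (by rw [hν]; linarith) (9 * J) (by omega) (1 / 2) (by norm_num)
  have ht : Tendsto (fun N : ℕ => (N : ℝ)) atTop atTop := tendsto_natCast_atTop_atTop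
  have e1 : ∀ᶠ N : ℕ in atTop, 8 / (b - a) ≤ (N : ℝ) ^ ((θ - 2 / 3) / 2) :=
    ((tendsto_rpow_atTop (show 0 < (θ - 2 / 3) / 2 by linarith)).comp ht).eventually_ge_atTop _
  have e2 : ∀ᶠ N : ℕ in atTop, b ≤ (N : ℝ) ^ (1 - θ) :=
    ((tendsto_rpow_atTop (show 0 < 1 - θ by linarith)).comp ht).eventually_ge_atTop _
  have e3 : ∀ᶠ N : ℕ in atTop, 4 / (b - a) ≤ (N : ℝ) ^ θ :=
    ((tendsto_rpow_atTop (show 0 < θ by linarith)).comp ht).eventually_ge_atTop _
  filter_upwards [e1, e2, e3, log_sq_bound, eventually_ge_atTop (N₁ + 2)] with N g1 g2 g3 g4 g5 M h hM1 hM2 hM3 hM4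
  have hNr : (2 : ℝ) ≤ N := by exact_mod_cast (by omega : 2 ≤ N)
  have hMr : (N : ℝ) ≤ M := by exact_mod_cast hM1
  have hM0 : (0 : ℝ) < M := by linarith
  have hMM : (M : ℝ) + h ≤ 2 * N := by exact_mod_cast hM2
  have hJh : (J : ℝ) * h ≤ N := by exact_mod_cast hM4
  have hNJh : (N : ℝ) ≤ 2 * (J * h) := by exact_mod_cast hM3
  have hh1 : 1 ≤ h := by
    by_contra hcon
    have : h = 0 := by omega
    rw [this] at hM3
    omega
  have hh0 : (0 : ℝ) < h := by exact_mod_cast hh1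
  have hJ0 : (0 : ℝ) < J := by linarith
  set M' : ℕ := M + h with hM'
  have hM'r : (M' : ℝ) = M + h := by rw [hM']; push_cast; ring
  have hM'0 : (0 : ℝ) < M' := by rw [hM'r]; linarith
  set R : ℝ := (M : ℝ) ^ θ with hR
  have hR0 : 0 < R := Real.rpow_pos_of_pos hM0 _
  have hNR : (N : ℝ) ^ θ ≤ R := Real.rpow_le_rpow (by linarith) hMr (by linarith)
  set A : ℝ := a * (M' : ℝ) ^ θ with hA
  have hA0 : 0 < A := by positivity
  have hhJ : (h : ℝ) ≤ M / J := by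
    rw [le_div_iff₀ hJ0]; linarith
  have hAle : A ≤ a * (R * (1 + 1 / J)) := by
    rw [hA]
    apply mul_le_mul_of_nonneg_left _ ha.le
    have h1 : (M' : ℝ) ≤ M * (1 + 1 / J) := by
      rw [hM'r, mul_add, mul_one, mul_one_div]; linarith
    have h2 : (1 : ℝ) ≤ 1 + 1 / J := by
      have : (0 : ℝ) < 1 / J := by positivity
      linarith
    calc (M' : ℝ) ^ θ ≤ (M * (1 + 1 / J)) ^ θ := Real.rpow_le_rpow hM'0.le h1 (by linarith)
      _ = R * (1 + 1 / J : ℝ) ^ θ := by rw [Real.mul_rpow hM0.le (by linarith)]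
      _ ≤ R * (1 + 1 / J : ℝ) ^ (1 : ℝ) := by
        apply mul_le_mul_of_nonneg_left _ hR0.le
        exact Real.rpow_le_rpow_of_exponent_le h2 hθ1.le
      _ = _ := by rw [Real.rpow_one]
  have hbR : 4 ≤ (b - a) * R := by
    rw [div_le_iff₀ hba] at g3
    nlinarith
  set w1 : ℝ := A / (2 * (2 * M + 1)) with hw1
  set w2 : ℝ := (b * R - 1) / (4 * M') with hw2
  have hw10 : 0 < w1 := by positivity
  have hkey := window_num a b R J M M' h ha hab hR0 (by linarith) (by linarith) hh0.le hM'r (by linarith) hJ hbR A hAle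
  rw [← hw1, ← hw2] at hkey
  have hw2le : w2 ≤ 1 / 2 := by
    rw [hw2, div_le_iff₀ (by positivity)]
    have h1 : b * R ≤ M := by
      have h2 : b ≤ (M : ℝ) ^ (1 - θ) := g2.trans (Real.rpow_le_rpow (by linarith) hMr (by linarith))
      calc b * R ≤ (M : ℝ) ^ (1 - θ) * R := mul_le_mul_of_nonneg_right h2 hR0.le
        _ = M := by rw [hR, ← Real.rpow_add hM0]; norm_num
    rw [hM'r]
    linarith
  have hinj := block_inj θ (by linarith) a b ha M M' (by omega) w1 w2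
    (by rw [hw1, div_mul_cancel₀ _ (by positivity)]) (by rw [hw2, div_mul_cancel₀ _ (by positivity)]) hw10 hw2le hb
  set X : ℕ := (2 * M + 1) ^ 2 with hX
  set X' : ℕ := (2 * M' + 1) ^ 2 with hX'
  have hXX' : X ≤ X' := by
    rw [hX, hX']
    apply Nat.pow_le_pow_left
    omega
  have hXr : (X : ℝ) = (2 * M + 1) ^ 2 := by rw [hX]; push_cast; ring
  have hX'r : (X' : ℝ) = (2 * M' + 1) ^ 2 := by rw [hX']; push_cast; ring
  have hX'2 : X' ≤ 2 * X := by
    have h1 : (X' : ℝ) ≤ 2 * X := by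
      rw [hXr, hX'r, hM'r]
      have h2 : (h : ℝ) ≤ M / 4 := by
        calc (h : ℝ) ≤ M / J := hhJ
          _ ≤ M / 4 := div_le_div_of_nonneg_left hM0.le (by norm_num) hJ5.le
      have h3 : 2 * ((M : ℝ) + h) + 1 ≤ 5 / 4 * (2 * M + 1) := by linarith
      have h4 : (2 * ((M : ℝ) + h) + 1) ^ 2 ≤ (5 / 4 * (2 * M + 1)) ^ 2 := pow_le_pow_left₀ (by positivity) h3 2
      nlinarith [sq_nonneg (2 * (M : ℝ) + 1)]
    exact_mod_cast h1
  have hdiff : ((X' : ℝ) - X) = 4 * h * (M + M' + 1) := by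
    rw [hXr, hX'r, hM'r]; ring
  have hdiffn : X' - X = 4 * h * (M + M' + 1) := by
    have : X' = X + 4 * h * (M + M' + 1) := by
      rw [hX, hX', hM']; ring
    omega
  have hXB : X ≤ 9 * J * (X' - X) := by
    rw [hdiffn]
    have h1 : 2 * M + 1 ≤ 9 * J * h := by nlinarith
    calc X = (2 * M + 1) * (2 * M + 1) := by rw [hX]; ring
      _ ≤ (9 * J * h) * (4 * (M + M' + 1)) := Nat.mul_le_mul h1 (by omega)
      _ = _ := by ring
  have hη0 : (b - a) * R / (8 * M) ≤ w2 - w1 := hkey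
  have hXν : (X : ℝ) ^ (-ν) ≤ w2 - w1 := by
    refine le_trans ?_ hη0
    have h1 : (X : ℝ) ^ (-ν) ≤ ((M : ℝ) ^ 2) ^ (-ν) := by
      apply Real.rpow_le_rpow_of_nonpos (by positivity)
      · rw [hXr]
        apply pow_le_pow_left₀ hM0.le
        linarith
      · rw [neg_nonpos, hν]
        linarith
    refine h1.trans ?_
    rw [← Real.rpow_natCast, ← Real.rpow_mul hM0.le, le_div_iff₀ (by positivity)]
    have h2 : 8 ≤ (b - a) * (M : ℝ) ^ ((θ - 2 / 3) / 2) := by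
      have h3 : 8 / (b - a) ≤ (M : ℝ) ^ ((θ - 2 / 3) / 2) := g1.trans (Real.rpow_le_rpow (by linarith) hMr (by linarith))
      rw [div_le_iff₀ hba] at h3
      linarith
    have h4 : (M : ℝ) ^ (((2 : ℕ) : ℝ) * -ν) * (8 * M) = 8 * (M : ℝ) ^ (((2 : ℕ) : ℝ) * -ν + 1) := by
      rw [Real.rpow_add hM0, Real.rpow_one]; ring
    rw [h4]
    calc 8 * (M : ℝ) ^ (((2 : ℕ) : ℝ) * -ν + 1) ≤ ((b - a) * (M : ℝ) ^ ((θ - 2 / 3) / 2)) * (M : ℝ) ^ (((2 : ℕ) : ℝ) * -ν + 1) :=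
          mul_le_mul_of_nonneg_right h2 (by positivity)
      _ = (b - a) * ((M : ℝ) ^ ((θ - 2 / 3) / 2) * (M : ℝ) ^ (((2 : ℕ) : ℝ) * -ν + 1)) := by ring
      _ = (b - a) * R := by
        rw [← Real.rpow_add hM0, hR]
        congr 2
        rw [hν]; push_cast; ring
  have hη2 : w2 - w1 ≤ 1 / 2 := by linarith
  have hX1 : N₁ ≤ X := by
    rw [hX]
    nlinarith
  have hcount := hN₁ X hX1 X' hXX' hX'2 hXB (w2 - w1) (1 / 2 - w1) hXν hη2
  refine le_trans ?_ (hcount.trans hinj)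
  have hlogX' : Real.log X' ≤ 3 * Real.log N := by
    apply g4 X'
    · rw [hX']
      exact Nat.one_le_pow _ _ (by omega)
    · rw [hX'r]
      apply pow_le_pow_left₀ (by positivity)
      rw [hM'r]
      linarith
  have hlogN : 0 < Real.log N := Real.log_pos (by linarith)
  have hlogX0 : 0 < Real.log X' := by
    apply Real.log_pos
    rw [hX'r]
    nlinarith
  have h1 : (b - a) * h * (N : ℝ) ^ θ ≤ (w2 - w1) * ((X' : ℝ) - X) := by
    rw [hdiff]
    calc (b - a) * h * (N : ℝ) ^ θ ≤ (b - a) * h * R := mul_le_mul_of_nonneg_left hNR (by positivity)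
      _ = ((b - a) * R / (8 * M)) * (8 * h * M) := by field_simp
      _ ≤ ((b - a) * R / (8 * M)) * (4 * h * (M + M' + 1)) := by
        apply mul_le_mul_of_nonneg_left _ (by positivity)
        rw [hM'r]
        nlinarith
      _ ≤ _ := mul_le_mul_of_nonneg_right hη0 (by positivity)
  calc (b - a) * h * (N : ℝ) ^ θ / (6 * Real.log N) ≤ (w2 - w1) * ((X' : ℝ) - X) / (6 * Real.log N) :=
        div_le_div_of_nonneg_right h1 (by positivity)
    _ ≤ (w2 - w1) * ((X' : ℝ) - X) / (2 * Real.log X') := by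
        apply div_le_div_of_nonneg_left _ (by positivity) (by linarith)
        have : 0 ≤ (b - a) * h * (N : ℝ) ^ θ := by positivity
        linarith
    _ = _ := by ring

end Pool.Agent.K7.H49.ME
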