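import Mathlib
import Pool.Agent.K7.H49.ME.BlkF

/-!
First moment for the primes `(2 n - 1) ^ 2 + 2 z` that are followed by prime clusters.
-/

set_option autoImplicit false

namespace Pool.Agent.K7.H49.ME

open Finset MeasureTheory Filter
open scoped Classical

theorem card_split (A : Finset ℤ) (p q : ℤ → Prop) [DecidablePred p] [DecidablePred fun z => p z ∧ q z]
    [DecidablePred fun z => p z ∧ ¬ q z] : (A.filter p).card = (A.filter fun z => p z ∧ q z).card +
      (A.filter fun z => p z ∧ ¬ q z).card := by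
  rw [← card_union_of_disjoint]
  · congr 1
    ext z
    rw [mem_union, mem_filter, mem_filter, mem_filter]
    tauto
  · rw [disjoint_left]
    intro z hz hz'
    rw [mem_filter] at hz hz'
    exact hz'.2.2 hz.2.2

theorem total_first (hfc : FracHyp) (θ : ℝ) (hθ : 2 / 3 < θ) (hθ1 : θ < 1) (a b : ℝ) (ha : 0 < a) (hab : a < b) :
    ∀ᶠ N : ℕ in atTop, (b - a) * N * (N : ℝ) ^ θ / (12 * Real.log N) ≤
        ∑ n ∈ Ioc N (2 * N), (((Zs a b ((n : ℝ) ^ θ)).filter
          (fun z : ℤ => ((2 * (n : ℤ) - 1) ^ 2 + 2 * z).toNat.Prime)).card : ℝ) := by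
  have hba : 0 < b - a := by linarith
  set J : ℕ := ⌈4 * (a + b) / (b - a)⌉₊ with hJdef
  have hJ : 4 * (a + b) ≤ J * (b - a) := by
    have h1 := Nat.le_ceil (4 * (a + b) / (b - a))
    rw [← hJdef, div_le_iff₀ hba] at h1
    exact h1
  have hJ0 : 0 < J := by
    rw [hJdef]
    apply Nat.ceil_pos.2
    apply div_pos _ hba
    linarith
  filter_upwards [block_first hfc θ hθ hθ1 a b ha hab J hJ, eventually_ge_atTop (J + 2)] with N hN hNJ
  set h : ℕ := N / J with hh
  have hh1 : 1 ≤ h := by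
    rw [hh, Nat.one_le_div_iff hJ0]; omega
  have hJh : J * h ≤ N := Nat.mul_div_le N J
  have hNJh : N ≤ 2 * (J * h) := by
    have h1 : N < J * h + J := by
      have h2 := Nat.div_add_mod N J
      have h3 := Nat.mod_lt N hJ0
      rw [← hh] at h2
      omega
    have h4 : J * 1 ≤ J * h := Nat.mul_le_mul_left _ hh1
    omega
  set g : ℕ → ℝ := fun n => (((Zs a b ((n : ℝ) ^ θ)).filter
          (fun z : ℤ => ((2 * (n : ℤ) - 1) ^ 2 + 2 * z).toNat.Prime)).card : ℝ) with hg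
  set X : ℝ := (b - a) * h * (N : ℝ) ^ θ / (6 * Real.log N) with hX
  have hind : ∀ j : ℕ, j ≤ J → j * X ≤ ∑ n ∈ Ioc N (N + j * h), g n := by
    intro j
    induction j with
    | zero => intro _; simp
    | succ j ih =>
      intro hj
      have h1 := ih (by omega)
      have h2 : (j + 1) * h ≤ J * h := Nat.mul_le_mul_right _ hj
      have h3 := hN (N + j * h) h (by omega) (by
        have : (j + 1) * h = j * h + h := by ring
        omega) hNJh hJh
      have h4 : N + (j + 1) * h = N + j * h + h := by ring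
      rw [h4, ← Finset.sum_Ioc_consecutive g (show N ≤ N + j * h by omega) (show N + j * h ≤ N + j * h + h by omega)]
      push_cast
      have h5 : X ≤ ∑ n ∈ Ioc (N + j * h) (N + j * h + h), g n := h3
      linarith
  have h1 := hind J le_rfl
  have hNr : (2 : ℝ) ≤ N := by exact_mod_cast (by omega : 2 ≤ N)
  have hL : 0 < Real.log N := Real.log_pos (by linarith)
  calc (b - a) * N * (N : ℝ) ^ θ / (12 * Real.log N) ≤ J * X := by
        have h2 : (N : ℝ) ≤ 2 * (J * h) := by exact_mod_cast hNJh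
        have h3 : J * X = ((b - a) * (2 * (J * h)) * (N : ℝ) ^ θ) / (12 * Real.log N) := by
          rw [hX]; field_simp; ring
        rw [h3]
        apply div_le_div_of_nonneg_right _ (by positivity)
        gcongr
    _ ≤ ∑ n ∈ Ioc N (N + J * h), g n := h1
    _ ≤ _ := by
      apply sum_le_sum_of_subset_of_nonneg
      · apply Ioc_subset_Ioc_right
        omega
      · intro n _ _
        exact Nat.cast_nonneg _

theorem bad_places (m : ℕ) (C : ℝ) (H : ℕ) (hH : 1 ≤ H) (n : ℕ) (hn : 1 ≤ n) (f a b : ℝ) (ha : 0 < a) (hf : 0 < f)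
    (hC0 : 0 ≤ C) (hC : (H : ℝ) ≤ C * Real.log n) (hab : a < b) :
    (((Zs a b f).filter (fun z : ℤ => ((2 * (n : ℤ) - 1) ^ 2 + 2 * z).toNat.Prime ∧
      ((2 * (n : ℤ) - 1) ^ 2 + 2 * z).toNat ∉ Clus m C)).card : ℝ) ≤ m * (2 * (b - a) * f / H + 1) := by
  have hba : 0 < b - a := by linarith
  have hH0 : (0 : ℝ) < H := by exact_mod_cast hH
  rcases (Zs a b f).eq_empty_or_nonempty with he | ⟨z₀, hz₀⟩
  · rw [he]
    simp only [filter_empty, card_empty, Nat.cast_zero]
    positivity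
  · unfold Zs at hz₀
    rw [mem_Icc] at hz₀
    have hle : ⌈a * f⌉ ≤ ⌊b * f⌋ - 1 := hz₀.1.trans hz₀.2
    have hc0 : 0 < ⌈a * f⌉ := Int.ceil_pos.2 (by positivity)
    have hn1 : (1 : ℤ) ≤ (2 * (n : ℤ) - 1) ^ 2 := by
      have : (1 : ℤ) ≤ 2 * (n : ℤ) - 1 := by omega
      nlinarith
    obtain ⟨x, hx⟩ := Int.eq_ofNat_of_zero_le (show 0 ≤ (2 * (n : ℤ) - 1) ^ 2 + 2 * ⌈a * f⌉ - 1 by omega)
    obtain ⟨y, hy⟩ := Int.eq_ofNat_of_zero_le (show 0 ≤ (2 * (n : ℤ) - 1) ^ 2 + 2 * (⌊b * f⌋ - 1) by omega)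
    have hxy : ((y - x : ℕ) : ℝ) ≤ 2 * (b - a) * f := by
      have h1 : x ≤ y := by omega
      have h2 : ((y - x : ℕ) : ℤ) = 2 * (⌊b * f⌋ - 1) - 2 * ⌈a * f⌉ + 1 := by omega
      have h3 : ((y - x : ℕ) : ℝ) = 2 * ((⌊b * f⌋ : ℝ) - 1) - 2 * (⌈a * f⌉ : ℝ) + 1 := by exact_mod_cast h2
      rw [h3]
      have h4 := Int.floor_le (b * f)
      have h5 := Int.le_ceil (a * f)
      linarith
    have hbad := bad_clus m H x y hH
    have hcard : ((Zs a b f).filter (fun z : ℤ => ((2 * (n : ℤ) - 1) ^ 2 + 2 * z).toNat.Prime ∧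
      ((2 * (n : ℤ) - 1) ^ 2 + 2 * z).toNat ∉ Clus m C)).card ≤
      ((Ioc x y).filter (fun q : ℕ => q.Prime ∧ ((Ioc q (q + H)).filter (fun p : ℕ => p.Prime)).card < m)).card := by
      apply card_le_card_of_injOn (fun z : ℤ => ((2 * (n : ℤ) - 1) ^ 2 + 2 * z).toNat)
      · intro z hz
        rw [Finset.mem_coe, mem_filter] at hz
        obtain ⟨hz1, hz2, hz3⟩ := hz
        unfold Zs at hz1
        rw [mem_Icc] at hz1
        obtain ⟨q, hq⟩ := Int.eq_ofNat_of_zero_le (show 0 ≤ (2 * (n : ℤ) - 1) ^ 2 + 2 * z by omega)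
        have hqn : ((2 * (n : ℤ) - 1) ^ 2 + 2 * z).toNat = q := by omega
        rw [hqn] at hz2 hz3
        show ((2 * (n : ℤ) - 1) ^ 2 + 2 * z).toNat ∈ (((Ioc x y).filter (fun q : ℕ => q.Prime ∧ ((Ioc q (q + H)).filter (fun p : ℕ => p.Prime)).card < m) : Finset ℕ) : Set ℕ)
        rw [hqn, Finset.mem_coe, mem_filter, mem_Ioc]
        refine ⟨⟨by omega, by omega⟩, hz2, ?_⟩
        have hqn2 : n ≤ q := by
          have h1 : (n : ℤ) ≤ (2 * (n : ℤ) - 1) ^ 2 := by nlinarith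
          omega
        have hnr : (1 : ℝ) ≤ n := by exact_mod_cast hn
        have hHq : H ≤ ⌊C * Real.log q⌋₊ := by
          apply Nat.le_floor
          refine hC.trans (mul_le_mul_of_nonneg_left ?_ hC0)
          exact Real.log_le_log (by linarith) (by exact_mod_cast hqn2)
        have h2 : ((Ioc q (q + ⌊C * Real.log q⌋₊)).filter (fun p : ℕ => p.Prime)).card < m := by
          by_contra hcon
          push Not at hcon
          exact hz3 hcon
        refine lt_of_le_of_lt (card_le_card ?_) h2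
        apply filter_subset_filter
        apply Ioc_subset_Ioc_right
        omega
      · intro z hz z' hz' hzz'
        rw [Finset.mem_coe, mem_filter] at hz hz'
        have hz1 := hz.1
        have hz1' := hz'.1
        unfold Zs at hz1 hz1'
        rw [mem_Icc] at hz1 hz1'
        have h1 : ((2 * (n : ℤ) - 1) ^ 2 + 2 * z).toNat = ((2 * (n : ℤ) - 1) ^ 2 + 2 * z').toNat := hzz'
        omega
    have h2 : (((Zs a b f).filter (fun z : ℤ => ((2 * (n : ℤ) - 1) ^ 2 + 2 * z).toNat.Prime ∧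
      ((2 * (n : ℤ) - 1) ^ 2 + 2 * z).toNat ∉ Clus m C)).card : ℝ) ≤ ((m * ((y - x) / H + 1) : ℕ) : ℝ) := by
      exact_mod_cast hcard.trans hbad
    refine h2.trans ?_
    push_cast
    apply mul_le_mul_of_nonneg_left _ (Nat.cast_nonneg m)
    have h3 : (((y - x) / H : ℕ) : ℝ) ≤ ((y - x : ℕ) : ℝ) / H := Nat.cast_div_le
    have h4 : ((y - x : ℕ) : ℝ) / H ≤ 2 * (b - a) * f / H := div_le_div_of_nonneg_right hxy hH0.le
    linarith

/-- the parameters for which `(2 n - 1) ^ 2 + 2 ⌊α f⌋` is a prime of `G` -/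
def EP (G : Set ℕ) (n : ℕ) (f : ℝ) : Set ℝ := {α | ((2 * (n : ℤ) - 1) ^ 2 + 2 * ⌊α * f⌋).toNat.Prime ∧
  ((2 * (n : ℤ) - 1) ^ 2 + 2 * ⌊α * f⌋).toNat ∈ G}

theorem EP_meas (G : Set ℕ) (n : ℕ) (f : ℝ) : MeasurableSet (EP G n f) := by
  have h1 : Measurable (fun α : ℝ => ⌊α * f⌋) := Int.measurable_floor.comp (measurable_id.mul_const f)
  have h2 : EP G n f = (fun α : ℝ => ⌊α * f⌋) ⁻¹' {z : ℤ | ((2 * (n : ℤ) - 1) ^ 2 + 2 * z).toNat.Prime ∧
    ((2 * (n : ℤ) - 1) ^ 2 + 2 * z).toNat ∈ G} := rfl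
  rw [h2]
  exact h1 (MeasurableSet.of_discrete)

theorem first_places (hfc : FracHyp) (m : ℕ) (θ : ℝ) (hθ : 2 / 3 < θ) (hθ1 : θ < 1) (a b : ℝ) (ha : 0 < a) (hab : a < b) :
    ∀ᶠ N : ℕ in atTop, 1 / 48 * (b - a) * N / Real.log N ≤
      ∑ n ∈ Ioc N (2 * N), volume.real (EP (Clus m (384 * (m + 1))) n ((n : ℝ) ^ θ) ∩ Set.Icc a b) := by
  have hba : 0 < b - a := by linarith
  set C : ℝ := 384 * (m + 1) with hC
  have hm0 : (0 : ℝ) ≤ m := Nat.cast_nonneg m
  have hC0 : 384 ≤ C := by rw [hC]; linarith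
  have ht : Tendsto (fun N : ℕ => (N : ℝ)) atTop atTop := tendsto_natCast_atTop_atTop
  have e1 : ∀ᶠ N : ℕ in atTop, m * Real.log N ≤ (b - a) / 48 * (N : ℝ) ^ θ := by
    have h1 := (isLittleO_log_rpow_atTop (show 0 < θ by linarith)).def (show (0 : ℝ) < (b - a) / (48 * (m + 1)) by positivity)
    filter_upwards [ht.eventually h1, eventually_ge_atTop 1] with N g1 g2
    have hNr : (1 : ℝ) ≤ N := by exact_mod_cast g2
    rw [Real.norm_of_nonneg (Real.log_nonneg hNr), Real.norm_of_nonneg (by positivity)] at g1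
    calc m * Real.log N ≤ (m + 1) * Real.log N := mul_le_mul_of_nonneg_right (by linarith) (Real.log_nonneg hNr)
      _ ≤ (m + 1) * ((b - a) / (48 * (m + 1)) * (N : ℝ) ^ θ) := mul_le_mul_of_nonneg_left g1 (by linarith)
      _ = _ := by field_simp
  filter_upwards [total_first hfc θ hθ hθ1 a b ha hab, e1, eventually_ge_atTop 3] with N g1 g2 g3
  have hNr : (3 : ℝ) ≤ N := by exact_mod_cast g3
  have hN0 : (0 : ℝ) < N := by linarith
  have hL1 : 1 ≤ Real.log N := by
    rw [Real.le_log_iff_exp_le (by linarith)]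
    have := Real.exp_one_lt_d9
    linarith
  set L : ℝ := Real.log N with hL
  set T : ℝ := (N : ℝ) ^ θ with hT
  have hT0 : 0 < T := Real.rpow_pos_of_pos hN0 _
  set H : ℕ := ⌊C * L⌋₊ with hH
  have hCL : 384 ≤ C * L := by
    calc (384 : ℝ) = 384 * 1 := by norm_num
      _ ≤ C * L := mul_le_mul hC0 hL1 (by norm_num) (by linarith)
  have hHr : C * L / 2 ≤ H := by
    have := Nat.lt_floor_add_one (C * L)
    rw [← hH] at this
    linarith
  have hH1 : 1 ≤ H := by
    rw [hH]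
    apply Nat.le_floor
    push_cast
    linarith
  have hHle : (H : ℝ) ≤ C * L := Nat.floor_le (by linarith)
  -- the estimate for one n
  have hone : ∀ n ∈ Ioc N (2 * N), ((((Zs a b ((n : ℝ) ^ θ)).filter
          (fun z : ℤ => ((2 * (n : ℤ) - 1) ^ 2 + 2 * z).toNat.Prime)).card : ℝ) - m * (4 * (b - a) * T / H + 1)) / (2 * T) ≤
      volume.real (EP (Clus m C) n ((n : ℝ) ^ θ) ∩ Set.Icc a b) := by
    intro n hn
    rw [mem_Ioc] at hn
    have hnr : (N : ℝ) ≤ n := by exact_mod_cast hn.1.le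
    have hnr2 : (n : ℝ) ≤ 2 * N := by exact_mod_cast hn.2
    have hn0 : (0 : ℝ) < n := by linarith
    set f : ℝ := (n : ℝ) ^ θ with hf
    have hf0 : 0 < f := Real.rpow_pos_of_pos hn0 _
    have hf2 : f ≤ 2 * T := by
      calc f ≤ (2 * N) ^ θ := Real.rpow_le_rpow hn0.le hnr2 (by linarith)
        _ = 2 ^ θ * T := by rw [Real.mul_rpow (by norm_num) hN0.le]
        _ ≤ 2 ^ (1 : ℝ) * T := by
          apply mul_le_mul_of_nonneg_right _ hT0.le
          exact Real.rpow_le_rpow_of_exponent_le (by norm_num) hθ1.le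
        _ = _ := by rw [Real.rpow_one]
    have hbad := bad_places m C H hH1 n (by omega) f a b ha hf0 (by linarith)
      (hHle.trans (mul_le_mul_of_nonneg_left (Real.log_le_log hN0 hnr) (by linarith))) hab
    set S := (Zs a b f).filter (fun z : ℤ => ((2 * (n : ℤ) - 1) ^ 2 + 2 * z).toNat.Prime ∧
      ((2 * (n : ℤ) - 1) ^ 2 + 2 * z).toNat ∈ Clus m C) with hS
    have hsplit : (((Zs a b f).filter (fun z : ℤ => ((2 * (n : ℤ) - 1) ^ 2 + 2 * z).toNat.Prime)).card : ℝ) =
        (S.card : ℝ) + (((Zs a b f).filter (fun z : ℤ => ((2 * (n : ℤ) - 1) ^ 2 + 2 * z).toNat.Prime ∧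
      ((2 * (n : ℤ) - 1) ^ 2 + 2 * z).toNat ∉ Clus m C)).card : ℝ) := by
      rw [← Nat.cast_add, Nat.cast_inj]
      exact @card_split (Zs a b f) (fun z : ℤ => ((2 * (n : ℤ) - 1) ^ 2 + 2 * z).toNat.Prime)
        (fun z : ℤ => ((2 * (n : ℤ) - 1) ^ 2 + 2 * z).toNat ∈ Clus m C) _ _ _
    have hlow := lowerP (fun z : ℤ => ((2 * (n : ℤ) - 1) ^ 2 + 2 * z).toNat.Prime ∧
      ((2 * (n : ℤ) - 1) ^ 2 + 2 * z).toNat ∈ Clus m C) f hf0 a b S (by
      intro z hz
      rw [hS, mem_filter, mem_Zs] at hz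
      exact ⟨hz.1.1, hz.1.2, hz.2⟩)
    refine le_trans ?_ hlow
    have h1 : (((Zs a b f).filter (fun z : ℤ => ((2 * (n : ℤ) - 1) ^ 2 + 2 * z).toNat.Prime)).card : ℝ) -
        m * (4 * (b - a) * T / H + 1) ≤ S.card := by
      rw [hsplit]
      have h2 : 2 * (b - a) * f / H ≤ 4 * (b - a) * T / H := by
        apply div_le_div_of_nonneg_right _ (Nat.cast_nonneg _)
        nlinarith
      have h3 : m * (2 * (b - a) * f / H + 1) ≤ m * (4 * (b - a) * T / H + 1) :=
        mul_le_mul_of_nonneg_left (by linarith) hm0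
      linarith
    calc _ ≤ (S.card : ℝ) / (2 * T) := div_le_div_of_nonneg_right h1 (by positivity)
      _ ≤ _ := div_le_div_of_nonneg_left (Nat.cast_nonneg _) hf0 hf2
  refine le_trans ?_ (sum_le_sum hone)
  rw [← sum_div, sum_sub_distrib, sum_const, Nat.card_Ioc, nsmul_eq_mul]
  have h2N : ((2 * N - N : ℕ) : ℝ) = N := by
    have : 2 * N - N = N := by omega
    rw [this]
  rw [h2N]
  have hH0 : (0 : ℝ) < H := by linarith
  have hbadsum : (m : ℝ) * (4 * (b - a) * T / H + 1) ≤ (b - a) * T / (24 * L) := by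
    have h1 : (m : ℝ) * (4 * (b - a) * T / H) ≤ (b - a) * T / (48 * L) := by
      have h2 : (m : ℝ) * (4 * (b - a) * T / H) = (b - a) * T * (4 * m / H) := by ring
      rw [h2, div_eq_mul_one_div ((b - a) * T)]
      apply mul_le_mul_of_nonneg_left _ (by positivity)
      rw [div_le_div_iff₀ hH0 (by positivity)]
      calc 4 * (m : ℝ) * (48 * L) = 192 * m * L := by ring
        _ ≤ C * L / 2 := by rw [hC]; nlinarith
        _ ≤ 1 * H := by linarith
    have h2 : (m : ℝ) ≤ (b - a) * T / (48 * L) := by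
      rw [le_div_iff₀ (by positivity)]
      calc (m : ℝ) * (48 * L) = 48 * (m * L) := by ring
        _ ≤ 48 * ((b - a) / 48 * T) := mul_le_mul_of_nonneg_left g2 (by norm_num)
        _ = _ := by ring
    have h3 : (b - a) * T / (24 * L) = (b - a) * T / (48 * L) + (b - a) * T / (48 * L) := by
      field_simp; ring
    rw [h3, mul_add, mul_one]
    linarith
  rw [le_div_iff₀ (by positivity)]
  have h1 : 1 / 48 * (b - a) * N / L * (2 * T) = (b - a) * N * T / (12 * L) - N * ((b - a) * T / (24 * L)) := by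
    field_simp; ring
  rw [h1]
  have h2 : (N : ℝ) * ((m : ℝ) * (4 * (b - a) * T / H + 1)) ≤ N * ((b - a) * T / (24 * L)) :=
    mul_le_mul_of_nonneg_left hbadsum hN0.le
  linarith

end Pool.Agent.K7.H49.ME
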