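import Mathlib
import Pool.Agent.K7.H49.ME.Main

/-!
The bound for a box, uniformly in the set; averages over many sets.
-/

set_option autoImplicit false

namespace Pool.Agent.K7.H49.ME

open Finset MeasureTheory Filter
open scoped Classical

/-- the constant -/
noncomputable def cst (k : ℕ) (κ : ℝ) (g : Fin k → ℤ) (c3 : ℝ) : ℝ :=
  c3 ^ (2 * k) / (4 * ((72 * (1 + ∑ i, (g i : ℝ) ^ 2) / (min κ 1 / 24) ^ 2) ^ k + 1))

theorem cst_pos (k : ℕ) (κ : ℝ) (hκ : 0 < κ) (g : Fin k → ℤ) (c3 : ℝ) (hc3 : 0 < c3) : 0 < cst k κ g c3 := by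
  have h1 : 0 < min κ 1 := lt_min hκ one_pos
  have h2 : 0 ≤ ∑ i, (g i : ℝ) ^ 2 := sum_nonneg fun i _ => sq_nonneg _
  unfold cst
  positivity

theorem box_main (k : ℕ) (κ : ℝ) (hκ : 0 < κ) (g : Fin k → ℤ) (hg : ∀ i, g i ≠ 0) (u : Fin k → ℕ → ℤ)
    (hu : ∀ i n, 2 ≤ n → IsCoprime (u i n) (g i)) (f : Fin k → ℕ → ℝ) (F : Fin k → ℕ → ℝ) (C0 c1 c2 c3 : ℝ)
    (hC0 : 0 < C0) (hc1 : 0 < c1) (hc2 : 0 < c2) (hc3 : 0 < c3)
    (h1 : ∀ i, ∀ᶠ N : ℕ in atTop, c2 * N ≤ F i N ∧ (∀ n, N < n → n ≤ 2 * N → F i N ≤ f i n ∧ f i n ≤ C0 * F i N) ∧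
      (∀ n m, N < n → n ≤ m → m ≤ 2 * N → c1 * F i N * ((m : ℝ) - n) / N ≤ f i m - f i n))
    (a b : Fin k → ℝ) (hab : ∀ i, a i < b i)
    (h3 : ∀ i, ∀ᶠ N : ℕ in atTop, ∀ n, N < n → n ≤ 2 * N →
      c3 * (b i - a i) / Real.log N ≤ volume.real (EE (g i) (u i n) (f i n) ∩ Set.Icc (a i) (b i))) :
    ∀ᶠ N : ℕ in atTop, ∀ I : Finset ℕ, I ⊆ Ioc N (2 * N) → (N : ℝ) ^ κ ≤ I.card →
      cst k κ g c3 * ∏ i, (b i - a i) ≤ (volume : Measure (Fin k → ℝ)).real
        ({α | c3 ^ k / 2 * I.card / Real.log N ^ k ≤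
          ((I.filter (fun n => ∀ i, α i ∈ EE (g i) (u i n) (f i n))).card : ℝ)} ∩ Set.Icc a b) := by
  set ε : ℝ := min κ 1 / 24 with hεdef
  have hκ1 : 0 < min κ 1 := lt_min hκ one_pos
  have hε : 0 < ε := by rw [hεdef]; positivity
  have hε1 : ε ≤ 1 / 24 := by rw [hεdef]; have := min_le_right κ 1; linarith
  have hεκ : 24 * ε ≤ κ := by rw [hεdef]; have := min_le_left κ 1; linarith
  set Gs : ℝ := 1 + ∑ i, (g i : ℝ) ^ 2 with hGs
  have hGs0 : 0 < Gs := by
    have : 0 ≤ ∑ i, (g i : ℝ) ^ 2 := sum_nonneg fun i _ => sq_nonneg _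
    linarith
  have hGsi : ∀ i, (g i : ℝ) ^ 2 ≤ Gs := by
    intro i
    have : (g i : ℝ) ^ 2 ≤ ∑ i, (g i : ℝ) ^ 2 := single_le_sum (f := fun i => (g i : ℝ) ^ 2) (fun i _ => sq_nonneg _) (mem_univ i)
    linarith
  set C : ℝ := 72 * Gs / ε ^ 2 with hC
  have hC1 : 0 < C := by positivity
  have hEm : ∀ i n, MeasurableSet (EE (g i) (u i n) (f i n)) := fun i n => EE_meas _ _ _
  have hco := fun i => coord (g i) (hg i) C0 c1 c2 (b i - a i) hC0 hc1 hc2 (by linarith [hab i])
  choose D0 hD0 using hco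
  set K : ℝ := (∑ i, (D0 i : ℝ)) + (2 * k + 1) with hK
  have hKi : ∀ i, (D0 i : ℝ) ≤ K := by
    intro i
    have : (D0 i : ℝ) ≤ ∑ i, (D0 i : ℝ) := single_le_sum (f := fun i => (D0 i : ℝ)) (fun i _ => Nat.cast_nonneg _) (mem_univ i)
    have : (0 : ℝ) ≤ k := Nat.cast_nonneg k
    linarith
  have hKk : 2 * (k : ℝ) + 1 ≤ K := by
    have : 0 ≤ ∑ i, (D0 i : ℝ) := sum_nonneg fun i _ => Nat.cast_nonneg _
    linarith
  filter_upwards [level ε hε hε1 k K c2 hc2, eventually_all.2 h1, eventually_all.2 h3, eventually_ge_atTop 3]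
    with N hlev hN1 hN3 hN I hI hNκ
  obtain ⟨D, hDK, hD2, hD24, hD8, hDlog, hDL⟩ := hlev
  have hNr : (3 : ℝ) ≤ N := by exact_mod_cast hN
  have hL : 0 < Real.log N := Real.log_pos (by linarith)
  have hDr : (2 : ℝ) ≤ D := by exact_mod_cast hD2
  have hlogD : 0 < Real.log D := Real.log_pos (by linarith)
  have hN01 : (1 : ℝ) ≤ N := by linarith
  have hcardI : (D : ℝ) ^ 24 ≤ I.card := by
    refine hD24.trans (le_trans ?_ hNκ)
    exact Real.rpow_le_rpow_of_exponent_le hN01 hεκ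
  have hIne : I.Nonempty := by
    rw [← card_pos]
    have : (0 : ℝ) < I.card := lt_of_lt_of_le (by positivity) hcardI
    exact_mod_cast this
  have hQex := fun i => hD0 i D (by exact_mod_cast (hKi i).trans hDK) hD2 N (by omega) (F i N) (hN1 i).1
    (hD8.trans (hN1 i).1) (f i) (hN1 i).2.1 (hN1 i).2.2
  choose Q hQb hQp using hQex
  obtain ⟨R, hR⟩ : ∃ R : Fin k → ℕ → ℕ → Prop, ∀ i n m, R i n m ↔ (n ≤ m ∧ Bad D (Q i) (f i m / f i n)) :=
    ⟨_, fun _ _ _ => Iff.rfl⟩
  set B : Finset (ℕ × ℕ) := (I ×ˢ I).filter (fun p : ℕ × ℕ => ∃ i, R i p.1 p.2 ∨ R i p.2 p.1) with hB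
  have hmem : ∀ n ∈ I, N < n ∧ n ≤ 2 * N := fun n hn => mem_Ioc.1 (hI hn)
  have hBc : (B.card : ℝ) ≤ (I.card : ℝ) ^ 2 / Real.log N ^ (2 * k) := by
    have e1 := bad_pairs I ((D : ℝ) ^ 20) R (by
      intro i n hn
      refine le_trans ?_ (hQb i n (hmem n hn).1 (hmem n hn).2)
      apply Nat.cast_le.2
      apply card_le_card
      intro m hm
      have hm' := Finset.mem_filter.1 hm
      exact Finset.mem_filter.2 ⟨hI hm'.1, (hR i n m).1 hm'.2⟩)
    have e0 : (B.card : ℝ) ≤ 2 * k * I.card * (D : ℝ) ^ 20 := by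
      refine le_trans (Nat.cast_le.2 (card_le_card ?_)) e1
      intro p hp
      have hp' := Finset.mem_filter.1 hp
      exact Finset.mem_filter.2 hp'
    refine e0.trans ?_
    rw [le_div_iff₀ (by positivity)]
    have e2 : (2 * (k : ℝ)) * Real.log N ^ (2 * k) ≤ D := by
      refine le_trans ?_ hDL
      apply mul_le_mul_of_nonneg_right _ (by positivity)
      linarith
    have e3 : (D : ℝ) * (D : ℝ) ^ 20 ≤ (D : ℝ) ^ 24 := by
      calc (D : ℝ) * (D : ℝ) ^ 20 = (D : ℝ) ^ 21 := by ring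
        _ ≤ (D : ℝ) ^ 24 := pow_le_pow_right₀ (by linarith) (by norm_num)
    calc 2 * (k : ℝ) * (I.card : ℝ) * (D : ℝ) ^ 20 * Real.log N ^ (2 * k) =
        (I.card : ℝ) * ((2 * (k : ℝ) * Real.log N ^ (2 * k)) * (D : ℝ) ^ 20) := by ring
      _ ≤ (I.card : ℝ) * ((D : ℝ) * (D : ℝ) ^ 20) := by
          apply mul_le_mul_of_nonneg_left _ (Nat.cast_nonneg _)
          exact mul_le_mul_of_nonneg_right e2 (by positivity)
      _ ≤ (I.card : ℝ) * (I.card : ℝ) := mul_le_mul_of_nonneg_left (e3.trans hcardI) (Nat.cast_nonneg _)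
      _ = (I.card : ℝ) ^ 2 := by ring
  have hvol : ∀ i, volume.real (Set.Icc (a i) (b i)) = b i - a i := by
    intro i
    exact Real.volume_real_Icc_of_le (hab i).le
  have hpz := pz (fun i => Set.Icc (a i) (b i)) (fun i => measurableSet_Icc)
    (fun i => by rw [Real.volume_Icc]; exact ENNReal.ofReal_ne_top) (fun i => by rw [hvol]; linarith [hab i])
    I hIne (fun i n => EE (g i) (u i n) (f i n)) hEm (Real.log N) c3 C hL hc3 hC1
    (fun i n hn => by rw [hvol]; exact hN3 i n (hmem n hn).1 (hmem n hn).2) B (filter_subset _ _) hBc (by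
      intro n hn m hm hnm i
      rw [hvol]
      have hn' := hmem n hn
      have hm' := hmem m hm
      have hnR : ¬ R i n m := by
        intro h; apply hnm
        rw [hB, mem_filter, mem_product]
        exact ⟨⟨hn, hm⟩, i, Or.inl h⟩
      have hmR : ¬ R i m n := by
        intro h; apply hnm
        rw [hB, mem_filter, mem_product]
        exact ⟨⟨hn, hm⟩, i, Or.inr h⟩
      have hbd : volume.real (EE (g i) (u i n) (f i n) ∩ EE (g i) (u i m) (f i m) ∩ Set.Icc (a i) (b i)) ≤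
          18 * (g i : ℝ) ^ 2 * (b i - a i) / Real.log D ^ 2 := by
        rcases le_total n m with hle | hle
        · exact hQp i n m hn'.1 hle hm'.2 (fun h => hnR ((hR i n m).2 ⟨hle, h⟩)) (u i n) (u i m) (hu i n (by omega))
            (hu i m (by omega)) (a i) (b i) rfl
        · rw [Set.inter_comm (EE (g i) (u i n) (f i n))]
          exact hQp i m n hm'.1 hle hn'.2 (fun h => hmR ((hR i m n).2 ⟨hle, h⟩)) (u i m) (u i n) (hu i m (by omega))
            (hu i n (by omega)) (a i) (b i) rfl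
      refine hbd.trans ?_
      have hab' : 0 < b i - a i := by linarith [hab i]
      rw [div_le_div_iff₀ (by positivity) (by positivity)]
      have e1 : (ε / 2 * Real.log N) ^ 2 ≤ Real.log D ^ 2 := pow_le_pow_left₀ (by positivity) hDlog 2
      have e2 : C * (ε / 2 * Real.log N) ^ 2 = 18 * Gs * Real.log N ^ 2 := by rw [hC]; field_simp; ring
      calc 18 * (g i : ℝ) ^ 2 * (b i - a i) * Real.log N ^ 2 ≤ 18 * Gs * (b i - a i) * Real.log N ^ 2 := by
            gcongr
            exact hGsi i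
        _ = C * (ε / 2 * Real.log N) ^ 2 * (b i - a i) := by rw [e2]; ring
        _ ≤ C * Real.log D ^ 2 * (b i - a i) := by gcongr
        _ = C * (b i - a i) * Real.log D ^ 2 := by ring)
  have hprod : ∏ i, volume.real (Set.Icc (a i) (b i)) = ∏ i, (b i - a i) := prod_congr rfl fun i _ => hvol i
  rw [hprod] at hpz
  rw [← Set.pi_univ_Icc]
  exact hpz

/-- averages over many sets -/
theorem avg_box {k : ℕ} (J : Set (Fin k → ℝ)) (hJm : MeasurableSet J) (hJf : volume J ≠ ⊤)
    (S : Finset ℕ) (hS : S.Nonempty) (A : ℕ → Set (Fin k → ℝ)) (hA : ∀ n, MeasurableSet (A n)) (c' : ℝ) (hc' : 0 < c')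
    (h : ∀ n ∈ S, c' * volume.real J ≤ volume.real (A n ∩ J)) :
    c' / 2 * volume.real J ≤ volume.real ({α | c' / 2 * S.card ≤ ((S.filter (fun n => α ∈ A n)).card : ℝ)} ∩ J) := by
  set μ : Measure (Fin k → ℝ) := volume.restrict J with hμ
  haveI : IsFiniteMeasure μ := ⟨by rw [hμ, Measure.restrict_apply_univ]; exact lt_top_iff_ne_top.2 hJf⟩
  set V : ℝ := volume.real J with hV
  set T : (Fin k → ℝ) → ℝ := fun α => ∑ n ∈ S, (A n).indicator 1 α with hT
  have hTc : ∀ α, T α = ((S.filter (fun n => α ∈ A n)).card : ℝ) := by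
    intro α
    rw [hT, card_filter]
    push_cast
    apply sum_congr rfl
    intro n _
    by_cases h1 : α ∈ A n
    · rw [if_pos h1, Set.indicator_of_mem h1]; rfl
    · rw [if_neg h1, Set.indicator_of_notMem h1]
  have hTm : Measurable T := by
    apply Finset.measurable_sum
    intro n _
    exact measurable_const.indicator (hA n)
  have hTint : Integrable T μ := by
    apply integrable_finset_sum
    intro n _
    exact (integrable_const (1 : ℝ)).indicator (hA n)
  set G : Set (Fin k → ℝ) := {α | c' / 2 * S.card ≤ ((S.filter (fun n => α ∈ A n)).card : ℝ)} with hG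
  have hGT : G = {α | c' / 2 * S.card ≤ T α} := by
    ext α
    rw [hG]
    simp only [Set.mem_setOf_eq, hTc]
  have hGm : MeasurableSet G := by rw [hGT]; exact measurableSet_le measurable_const hTm
  have hind : ∀ B : Set (Fin k → ℝ), MeasurableSet B → ∫ α, B.indicator (1 : (Fin k → ℝ) → ℝ) α ∂μ = volume.real (B ∩ J) := by
    intro B hB
    rw [integral_indicator_one hB, hμ, measureReal_restrict_apply hB]
  have h1 : c' * V * S.card ≤ ∫ α, T α ∂μ := by
    rw [hT, integral_finset_sum]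
    · calc c' * V * S.card = ∑ n ∈ S, c' * V := by rw [sum_const, nsmul_eq_mul]; ring
        _ ≤ _ := by
          apply sum_le_sum
          intro n hn
          rw [hind _ (hA n)]
          exact h n hn
    · intro n _
      exact (integrable_const (1 : ℝ)).indicator (hA n)
  have hpt : ∀ α, T α ≤ c' / 2 * S.card + S.card * G.indicator (1 : (Fin k → ℝ) → ℝ) α := by
    intro α
    have hle : T α ≤ S.card := by
      rw [hTc]
      exact_mod_cast card_filter_le _ _
    by_cases h2 : α ∈ G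
    · rw [Set.indicator_of_mem h2, Pi.one_apply]
      have : 0 ≤ c' / 2 * (S.card : ℝ) := by positivity
      linarith
    · rw [Set.indicator_of_notMem h2]
      have h3 : T α < c' / 2 * S.card := by
        rw [hGT] at h2
        exact not_le.1 h2
      linarith
  have hGi : Integrable (fun α => (S.card : ℝ) * G.indicator (1 : (Fin k → ℝ) → ℝ) α) μ :=
    ((integrable_const (1 : ℝ)).indicator hGm).const_mul _
  have h2 : ∫ α, T α ∂μ ≤ c' / 2 * S.card * V + S.card * volume.real (G ∩ J) := by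
    calc ∫ α, T α ∂μ ≤ ∫ α, (c' / 2 * S.card + S.card * G.indicator (1 : (Fin k → ℝ) → ℝ) α) ∂μ :=
          integral_mono hTint ((integrable_const _).add hGi) hpt
      _ = _ := by
          rw [integral_add (integrable_const _) hGi, integral_const, integral_const_mul, hind G hGm]
          have e2 : μ.real Set.univ = V := by
            rw [hμ, measureReal_restrict_apply MeasurableSet.univ, Set.univ_inter]
          rw [e2, smul_eq_mul]
          ring
  have hS0 : (0 : ℝ) < S.card := by exact_mod_cast card_pos.2 hS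
  have h3 : (S.card : ℝ) * (c' / 2 * V) ≤ S.card * volume.real (G ∩ J) := by
    have : c' * V * S.card = c' / 2 * S.card * V + S.card * (c' / 2 * V) := by ring
    linarith
  exact le_of_mul_le_mul_left h3 hS0

end Pool.Agent.K7.H49.ME
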