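import Mathlib
import Pool.Agent.K7.H49.ME.Sub
import Pool.Agent.K7.H49.ME.Diff
import Pool.Agent.K7.H49.ME.PolyG

/-!
The metric theorem for the differences of consecutive terms of `h(n) + ⌊α P(n)⌋`.
-/

set_option autoImplicit false

namespace Pool.Agent.K7.H49.ME

open Finset MeasureTheory Filter Polynomial
open scoped Classical

theorem diff_poly (P : ℝ[X]) (hd : 1 ≤ P.natDegree) (hP : 0 < P.leadingCoeff) : ∃ Q : ℝ[X],
    Q.natDegree = P.natDegree - 1 ∧ Q.leadingCoeff = P.natDegree * P.leadingCoeff ∧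
      ∀ x : ℝ, Q.eval x = P.eval (x + 1) - P.eval x := by
  set Q : ℝ[X] := taylor 1 P - P with hQ
  have hev : ∀ x : ℝ, Q.eval x = P.eval (x + 1) - P.eval x := by
    intro x
    rw [hQ, eval_sub, taylor_eval]
  set e : ℕ := P.natDegree - 1 with he
  have hde : P.natDegree = e + 1 := by omega
  have hc1 : Q.coeff e = P.natDegree * P.leadingCoeff := by
    rw [hQ, coeff_sub, taylor_coeff]
    have h1 : (hasseDeriv e P).natDegree ≤ 1 := by
      refine (natDegree_hasseDeriv_le P e).trans ?_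
      omega
    rw [eval_eq_sum_range' (lt_of_le_of_lt h1 (by norm_num : 1 < 2)), Finset.sum_range_succ, Finset.sum_range_one]
    rw [hasseDeriv_coeff, hasseDeriv_coeff]
    simp only [zero_add, Nat.choose_self, pow_zero, mul_one, one_pow, Nat.cast_one, one_mul]
    rw [add_comm 1 e, Nat.choose_succ_self_right]
    unfold leadingCoeff
    rw [hde]
    push_cast
    ring
  have hc2 : ∀ m, e < m → Q.coeff m = 0 := by
    intro m hm
    rcases Nat.lt_or_ge (P.natDegree) m with h | h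
    · rw [hQ, coeff_sub, coeff_eq_zero_of_natDegree_lt (by rw [natDegree_taylor]; exact h),
        coeff_eq_zero_of_natDegree_lt h, sub_zero]
    · have hm' : m = P.natDegree := by omega
      rw [hm', hQ, coeff_sub, taylor_coeff]
      have h1 : (hasseDeriv P.natDegree P).natDegree ≤ 0 := by
        refine (natDegree_hasseDeriv_le P _).trans ?_
        omega
      rw [eval_eq_sum_range' (lt_of_le_of_lt h1 (by norm_num : 0 < 1)), Finset.sum_range_one, hasseDeriv_coeff]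
      simp
  have hne : Q.coeff e ≠ 0 := by
    rw [hc1]
    have : (0 : ℝ) < P.natDegree := by exact_mod_cast hd
    positivity
  have hdeg : Q.natDegree = e := by
    apply le_antisymm
    · rw [natDegree_le_iff_coeff_eq_zero]
      intro m hm
      exact hc2 m hm
    · exact le_natDegree_of_ne_zero hne
  refine ⟨Q, hdeg, ?_, hev⟩
  unfold leadingCoeff at hc1 ⊢
  rw [hdeg, hc1]

theorem cub_metric (k d : ℕ) (P : Fin k → ℝ[X]) (w : Fin k → ℕ → ℤ) (B : ℕ)
    (hw : ∀ i, ∀ᶠ n : ℕ in atTop, 0 ≤ w i n ∧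
      (w i n : ℝ) ≤ ((P i).eval ((n : ℝ) + 1) - (P i).eval (n : ℝ)) * Real.log n ^ B)
    (hd1 : ∀ i, 3 ≤ (P i).natDegree) (hd2 : ∀ i, (P i).natDegree ≤ d)
    (hlc : ∀ i, 0 < (P i).leadingCoeff) (I : ℕ → Finset ℕ) (hI : ∀ N, I N ⊆ Ioc N (2 * N)) (κ : ℝ) (hκ : 0 < κ)
    (hP : ∃ᶠ N : ℕ in atTop, (N : ℝ) ^ κ ≤ (I N).card) :
    ∀ᵐ α : Fin k → ℝ, (∀ i, 0 < α i) → ∃ᶠ N : ℕ in atTop, (N : ℝ) ^ κ ≤ (I N).card ∧
      (1 / 8 * (1 / (4 * (((d + 1 : ℕ) : ℝ) + 1)))) ^ k / 2 * (I N).card / Real.log N ^ k ≤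
        (((I N).filter (fun n => ∀ i, (w i n + (⌊α i * (P i).eval ((n : ℝ) + 1)⌋ -
          ⌊α i * (P i).eval (n : ℝ)⌋)).toNat.Prime)).card : ℝ) := by
  have hex := fun i => diff_poly (P i) (by have := hd1 i; omega) (hlc i)
  choose Q hQd hQl hQe using hex
  have hQlc : ∀ i, 0 < (Q i).leadingCoeff := by
    intro i
    rw [hQl]
    have : (0 : ℝ) < (P i).natDegree := by exact_mod_cast (by have := hd1 i; omega : 0 < (P i).natDegree)
    have := hlc i
    positivity
  have hQ2 : ∀ i, 2 ≤ (Q i).natDegree := fun i => by rw [hQd]; have := hd1 i; omega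
  have hQd2 : ∀ i, (Q i).natDegree ≤ d := fun i => by rw [hQd]; have := hd2 i; omega
  set c2 : ℝ := 1 / (1 + ∑ i, 2 / (Q i).leadingCoeff) with hc2
  have hsum : 0 ≤ ∑ i, 2 / (Q i).leadingCoeff := sum_nonneg fun i _ => by have := hQlc i; positivity
  have hc20 : 0 < c2 := by positivity
  have hc2i : ∀ i, c2 ≤ (Q i).leadingCoeff / 2 := by
    intro i
    have h1 : 2 / (Q i).leadingCoeff ≤ ∑ i, 2 / (Q i).leadingCoeff :=
      single_le_sum (f := fun i => 2 / (Q i).leadingCoeff) (fun j _ => by have := hQlc j; positivity) (mem_univ i)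
    have h2 := hQlc i
    calc c2 ≤ 1 / (2 / (Q i).leadingCoeff) := one_div_le_one_div_of_le (by positivity) (by linarith)
      _ = _ := by field_simp
  have ht : Tendsto (fun N : ℕ => (N : ℝ)) atTop atTop := tendsto_natCast_atTop_atTop
  have htL : Tendsto (fun N : ℕ => Real.log (N : ℝ)) atTop atTop := Real.tendsto_log_atTop.comp ht
  -- growth
  have hgrow : ∀ i, ∀ᶠ N : ℕ in atTop, c2 * N ≤ (Q i).leadingCoeff / 2 * (N : ℝ) ^ (Q i).natDegree ∧
      (∀ n, N < n → n ≤ 2 * N → (Q i).leadingCoeff / 2 * (N : ℝ) ^ (Q i).natDegree ≤ (Q i).eval (n : ℝ) ∧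
        (Q i).eval (n : ℝ) ≤ 2 ^ (d + 2) * ((Q i).leadingCoeff / 2 * (N : ℝ) ^ (Q i).natDegree)) ∧
      (∀ n m, N < n → n ≤ m → m ≤ 2 * N → 1 * ((Q i).leadingCoeff / 2 * (N : ℝ) ^ (Q i).natDegree) * ((m : ℝ) - n) / N ≤
        (Q i).eval (m : ℝ) - (Q i).eval (n : ℝ)) := by
    intro i
    filter_upwards [poly_growth (Q i) (hQlc i) (by have := hQ2 i; omega), eventually_ge_atTop 1] with N h1 hN
    have hNr : (1 : ℝ) ≤ N := by exact_mod_cast hN
    have hli := hQlc i
    refine ⟨?_, ?_, ?_⟩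
    · have h2 : (N : ℝ) ≤ (N : ℝ) ^ (Q i).natDegree := le_self_pow₀ hNr (by have := hQ2 i; omega)
      calc c2 * N ≤ (Q i).leadingCoeff / 2 * N := mul_le_mul_of_nonneg_right (hc2i i) (by linarith)
        _ ≤ _ := mul_le_mul_of_nonneg_left h2 (by positivity)
    · intro n hn hn2
      obtain ⟨h2, h3⟩ := h1.1 n hn hn2
      refine ⟨h2, h3.trans ?_⟩
      apply mul_le_mul_of_nonneg_right _ (by positivity)
      exact pow_le_pow_right₀ (by norm_num) (by have := hQd2 i; omega)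
    · intro n m hn hnm hm
      rw [one_mul]
      exact h1.2 n m hn hnm hm
  have hPg : ∀ i, ∀ᶠ N : ℕ in atTop, ∀ n : ℕ, N < n → n ≤ 2 * N → 8 * (Q i).eval (n : ℝ) ≤ (P i).eval (n : ℝ) := by
    intro i
    have hli := hlc i
    filter_upwards [poly_growth (P i) (hlc i) (by have := hd1 i; omega), hgrow i,
      ht.eventually_ge_atTop (8 * 2 ^ (d + 2) * (Q i).leadingCoeff / (P i).leadingCoeff), eventually_ge_atTop 1]
      with N h1 h2 h3 hN n hn hn2
    have hNr : (1 : ℝ) ≤ N := by exact_mod_cast hN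
    have e1 := (h1.1 n hn hn2).1
    have e2 := (h2.2.1 n hn hn2).2
    have e3 : (N : ℝ) ^ (P i).natDegree = N * (N : ℝ) ^ (Q i).natDegree := by
      rw [hQd, ← pow_succ']
      congr 1
      have := hd1 i; omega
    rw [div_le_iff₀ hli] at h3
    have e4 : 0 < (N : ℝ) ^ (Q i).natDegree := by positivity
    calc 8 * (Q i).eval (n : ℝ) ≤ 8 * (2 ^ (d + 2) * ((Q i).leadingCoeff / 2 * (N : ℝ) ^ (Q i).natDegree)) := by linarith
      _ = (8 * 2 ^ (d + 2) * (Q i).leadingCoeff) * (N : ℝ) ^ (Q i).natDegree / 2 := by ring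
      _ ≤ (N * (P i).leadingCoeff) * (N : ℝ) ^ (Q i).natDegree / 2 := by
          apply div_le_div_of_nonneg_right _ (by norm_num)
          exact mul_le_mul_of_nonneg_right h3 e4.le
      _ = (P i).leadingCoeff / 2 * (N : ℝ) ^ (P i).natDegree := by rw [e3]; ring
      _ ≤ _ := e1
  have hmain := metric_sub k κ hκ (fun _ => 1) (fun _ => by norm_num) w
    (fun i n _ => isCoprime_one_right) (fun i n => (Q i).eval (n : ℝ))
    (fun i N => (Q i).leadingCoeff / 2 * (N : ℝ) ^ (Q i).natDegree)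
    (2 ^ (d + 2)) 1 c2 (1 / 8 * (1 / (4 * (((d + 1 : ℕ) : ℝ) + 1)))) (by positivity) one_pos hc20 (by positivity)
    (fun _ => Set.Ioi 0) (fun _ => isOpen_Ioi)
    (fun i n => EE2 1 (w i n) ((Q i).eval (n : ℝ)) ((P i).eval (n : ℝ))) (fun i n => EE2_meas _ _ _ _)
    (fun i n => EE2_sub _ _ _ _) I hI hgrow ?_ hP
  · filter_upwards [hmain] with α hα hα0
    refine (hα hα0).mono fun N hN => ⟨hN.1, hN.2.trans (Nat.cast_le.2 (card_le_card ?_))⟩
    intro n hn
    obtain ⟨h1, h2⟩ := Finset.mem_filter.1 hn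
    refine Finset.mem_filter.2 ⟨h1, fun i => ?_⟩
    have h3 := EE2_prime _ _ _ _ _ (h2 i)
    rw [one_mul] at h3
    have h4 : (P i).eval (n : ℝ) + (Q i).eval (n : ℝ) = (P i).eval ((n : ℝ) + 1) := by rw [hQe]; ring
    rw [h4] at h3
    exact h3
  · intro i a b hab hsub
    have ha : 0 < a := hsub (Set.left_mem_Icc.2 hab.le)
    have hb : 0 < b := ha.trans hab
    have hlci := hQlc i
    obtain ⟨n0, hn0⟩ := Filter.eventually_atTop.1 (hw i)
    filter_upwards [firstS 1 (Or.inl rfl) (B + 1) (d + 1) a b c2 hab hc20, hgrow i, hPg i, eventually_ge_atTop 3,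
      ht.eventually_ge_atTop (2 ^ (d + 2) * (Q i).leadingCoeff), eventually_ge_atTop n0,
      ht.eventually_ge_atTop (2 / (a * (Q i).leadingCoeff)),
      htL.eventually_ge_atTop (2 ^ B + b + 1)]
      with N hfirst hgr hPg' hN hNlc hNn0 hNa hNL n hn
    have hNr : (3 : ℝ) ≤ N := by exact_mod_cast hN
    obtain ⟨hnN, hn2N⟩ := mem_Ioc.1 (hI N hn)
    obtain ⟨hF1, hF2⟩ := hgr.2.1 n hnN hn2N
    have hf1 : c2 * N ≤ (Q i).eval (n : ℝ) := hgr.1.trans hF1
    have hf0 : 0 < (Q i).eval (n : ℝ) := lt_of_lt_of_le (by positivity) hf1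
    obtain ⟨hh1, hh2⟩ := hn0 n (by omega)
    rw [← hQe] at hh2
    have hh1' : (0 : ℝ) ≤ w i n := by exact_mod_cast hh1
    obtain ⟨S, hS1, hS2⟩ := hfirst ((Q i).eval (n : ℝ)) (w i n) hf1 (by
      refine hF2.trans ?_
      have h1 : (N : ℝ) ^ (Q i).natDegree ≤ (N : ℝ) ^ d := pow_le_pow_right₀ (by linarith) (hQd2 i)
      calc 2 ^ (d + 2) * ((Q i).leadingCoeff / 2 * (N : ℝ) ^ (Q i).natDegree) ≤
          2 ^ (d + 2) * ((Q i).leadingCoeff / 2 * (N : ℝ) ^ d) := by gcongr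
        _ = (2 ^ (d + 2) * (Q i).leadingCoeff) / 2 * (N : ℝ) ^ d := by ring
        _ ≤ N * (N : ℝ) ^ d := by
            apply mul_le_mul_of_nonneg_right _ (by positivity)
            linarith
        _ = (N : ℝ) ^ (d + 1) := by rw [pow_succ]; ring) isCoprime_one_right (by
      push_cast
      have h1 : (N : ℝ) ^ 2 ≤ (N : ℝ) ^ (Q i).natDegree := pow_le_pow_right₀ (by linarith) (hQ2 i)
      have h2 : (Q i).leadingCoeff / 2 * (N : ℝ) ^ 2 ≤ (Q i).eval (n : ℝ) :=
        (mul_le_mul_of_nonneg_left h1 (by positivity)).trans hF1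
      rw [div_le_iff₀ (by positivity)] at hNa
      have h3 : (N : ℝ) ≤ a * ((Q i).leadingCoeff / 2 * (N : ℝ) ^ 2) := by
        calc (N : ℝ) = N / 2 * 2 := by ring
          _ ≤ N / 2 * (N * (a * (Q i).leadingCoeff)) := mul_le_mul_of_nonneg_left hNa (by positivity)
          _ = _ := by ring
      have h4 := mul_le_mul_of_nonneg_left h2 ha.le
      linarith) (by
      push_cast
      have hL1 : 1 ≤ Real.log N := by
        have h2 : (0 : ℝ) < 2 ^ B := by positivity
        linarith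
      have hlogn : Real.log (n : ℝ) ≤ 2 * Real.log N := by
        have hn2' : (n : ℝ) ≤ 2 * N := by exact_mod_cast hn2N
        have hn0' : (0 : ℝ) < n := by exact_mod_cast (by omega : 0 < n)
        calc Real.log n ≤ Real.log (N * N) := Real.log_le_log hn0' (by nlinarith)
          _ = 2 * Real.log N := by rw [Real.log_mul (by positivity) (by positivity)]; ring
      have hlogn0 : 0 ≤ Real.log (n : ℝ) := Real.log_natCast_nonneg n
      have h2 : (w i n : ℝ) ≤ 2 ^ B * Real.log N ^ B * (Q i).eval (n : ℝ) := by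
        have h3 : Real.log (n : ℝ) ^ B ≤ (2 * Real.log N) ^ B := pow_le_pow_left₀ hlogn0 hlogn B
        calc (w i n : ℝ) ≤ (Q i).eval (n : ℝ) * Real.log n ^ B := hh2
          _ ≤ (Q i).eval (n : ℝ) * (2 * Real.log N) ^ B := mul_le_mul_of_nonneg_left h3 hf0.le
          _ = _ := by rw [mul_pow]; ring
      have hLB1 : 1 ≤ Real.log (N : ℝ) ^ B := one_le_pow₀ hL1
      have h3 : 2 ^ B * Real.log N ^ B + b ≤ Real.log N ^ (B + 1) := by
        have e3 : b ≤ b * Real.log N ^ B := by nlinarith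
        calc 2 ^ B * Real.log N ^ B + b ≤ (2 ^ B + b) * Real.log N ^ B := by linarith
          _ ≤ Real.log N * Real.log N ^ B := mul_le_mul_of_nonneg_right (by linarith) (by positivity)
          _ = _ := by rw [pow_succ]; ring
      have h4 := mul_le_mul_of_nonneg_right h3 hf0.le
      have h6 : (Q i).eval (n : ℝ) * Real.log N ^ (B + 1) = Real.log N ^ (B + 1) * (Q i).eval (n : ℝ) := mul_comm _ _
      rw [h6]
      linarith)
    have hlow := lower2 1 (w i n) ((Q i).eval (n : ℝ)) ((P i).eval (n : ℝ)) hf0 (hPg' n hnN hn2N) a b S hS1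
    refine le_trans ?_ hlow
    calc 1 / 8 * (1 / (4 * (((d + 1 : ℕ) : ℝ) + 1))) * (b - a) / Real.log N =
        1 / 8 * (1 / (4 * (((d + 1 : ℕ) : ℝ) + 1)) * (b - a) / Real.log N) := by ring
      _ ≤ _ := mul_le_mul_of_nonneg_left hS2 (by norm_num)

end Pool.Agent.K7.H49.ME
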