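import Mathlib
import Pool.Agent.K7.H49.ME.BlkF
import Pool.Agent.K7.H49.ME.FracH

/-!
The hypothesis `FracHyp` holds.
-/

set_option autoImplicit false

namespace Pool.Agent.K7.H49.ME

theorem fracHyp : FracHyp := by
  intro ν hν0 hν1 B hB ε hε
  exact Pool.Agent.H373R2.T3.frac_countH (α := 1 / 2) (by norm_num) (by norm_num) (1 / 2) le_rfl (by norm_num) ν hν0
    (by linarith) (by linarith) hν1 B hB ε hε

end Pool.Agent.K7.H49.ME
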