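import Mathlib
import Pool.Agent.K7.H49.ME.BlkG
import Pool.Agent.K7.H49.ME.Avg

/-!
For almost all `α`: primes `(2 n - 1) ^ 2 + 2 ⌊α n ^ θ⌋` followed by prime clusters.
-/

set_option autoImplicit false

namespace Pool.Agent.K7.H49.ME

open Finset MeasureTheory Filter
open scoped Classical

theorem rpow_growth (θ : ℝ) (hθ0 : 0 < θ) (hθ1 : θ ≤ 1) (N n m : ℕ) (hN : 1 ≤ N) (hn : N < n) (hnm : n ≤ m) (hm : m ≤ 2 * N) :
    θ / 2 * (N : ℝ) ^ θ * ((m : ℝ) - n) / N ≤ (m : ℝ) ^ θ - (n : ℝ) ^ θ := by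
  have hNr : (1 : ℝ) ≤ N := by exact_mod_cast hN
  have hN0 : (0 : ℝ) < N := by linarith
  have hnr : (N : ℝ) ≤ n := by exact_mod_cast hn.le
  have hn0 : (0 : ℝ) < n := by linarith
  have hmr : (n : ℝ) ≤ m := by exact_mod_cast hnm
  have hm0 : (0 : ℝ) < m := by linarith
  have hm2 : (m : ℝ) ≤ 2 * N := by exact_mod_cast hm
  have h1 : ((n : ℝ) / m) ^ θ ≤ 1 + θ * ((n : ℝ) / m - 1) := by
    have h2 := rpow_one_add_le_one_add_mul_self (s := (n : ℝ) / m - 1) (p := θ) (by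
      have : 0 ≤ (n : ℝ) / m := by positivity
      linarith) hθ0.le hθ1
    rwa [add_sub_cancel] at h2
  rw [Real.div_rpow hn0.le hm0.le, div_le_iff₀ (Real.rpow_pos_of_pos hm0 _)] at h1
  have h3 : (1 + θ * ((n : ℝ) / m - 1)) * (m : ℝ) ^ θ = (m : ℝ) ^ θ - θ * (m : ℝ) ^ θ * ((m : ℝ) - n) / m := by
    field_simp; ring
  rw [h3] at h1
  have h4 : θ / 2 * (N : ℝ) ^ θ * ((m : ℝ) - n) / N ≤ θ * (m : ℝ) ^ θ * ((m : ℝ) - n) / m := by
    have h5 : (N : ℝ) ^ θ ≤ (m : ℝ) ^ θ := Real.rpow_le_rpow hN0.le (by linarith) hθ0.le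
    have h6 : 0 ≤ (m : ℝ) - n := by linarith
    have h7 : 0 ≤ (m : ℝ) ^ θ := by positivity
    calc θ / 2 * (N : ℝ) ^ θ * ((m : ℝ) - n) / N ≤ θ / 2 * (m : ℝ) ^ θ * ((m : ℝ) - n) / N := by gcongr
      _ = θ * (m : ℝ) ^ θ * ((m : ℝ) - n) / (2 * N) := by field_simp
      _ ≤ _ := div_le_div_of_nonneg_left (by positivity) hm0 hm2
  linarith

theorem places (hfc : FracHyp) (m : ℕ) (θ : ℝ) (hθ : 2 / 3 < θ) (hθ1 : θ < 1) : ∀ᵐ α : ℝ, 0 < α →
    ∃ᶠ N : ℕ in atTop, 1 / 96 * (N : ℝ) / Real.log N ≤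
      (((Ioc N (2 * N)).filter (fun n : ℕ => α ∈ EP (Clus m (384 * (m + 1))) n ((n : ℝ) ^ θ))).card : ℝ) := by
  have hmain := metric_avg 1 θ (by linarith) hθ1.le (fun _ => 2) (fun _ => by norm_num) (fun _ n => (2 * (n : ℤ) - 1) ^ 2)
    (fun _ n _ => by
      apply IsCoprime.pow_left
      exact ⟨-1, n, by ring⟩)
    (fun _ n => (n : ℝ) ^ θ) (fun _ N => (N : ℝ) ^ θ) 2 (θ / 2) 1 (1 / 48) (by norm_num) (by linarith) (by norm_num)
    (by norm_num) (fun _ => Set.Ioi 0) (fun _ => isOpen_Ioi)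
    (fun _ n => EP (Clus m (384 * (m + 1))) n ((n : ℝ) ^ θ)) (fun _ n => EP_meas _ _ _) (fun _ n α hα => hα.1)
    (by
      intro _
      filter_upwards [eventually_ge_atTop 1] with N hN
      have hN0 : (0 : ℝ) < N := by exact_mod_cast hN
      refine ⟨le_of_eq (one_mul _), ?_, ?_⟩
      · intro n hn hn2
        have hnr : (N : ℝ) ≤ n := by exact_mod_cast hn.le
        have hnr2 : (n : ℝ) ≤ 2 * N := by exact_mod_cast hn2
        refine ⟨Real.rpow_le_rpow hN0.le hnr (by linarith), ?_⟩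
        calc (n : ℝ) ^ θ ≤ (2 * N) ^ θ := Real.rpow_le_rpow (by linarith) hnr2 (by linarith)
          _ = 2 ^ θ * (N : ℝ) ^ θ := by rw [Real.mul_rpow (by norm_num) hN0.le]
          _ ≤ 2 ^ (1 : ℝ) * (N : ℝ) ^ θ := by
            apply mul_le_mul_of_nonneg_right _ (by positivity)
            exact Real.rpow_le_rpow_of_exponent_le (by norm_num) hθ1.le
          _ = _ := by rw [Real.rpow_one]
      · intro n m hn hnm hm
        exact rpow_growth θ (by linarith) hθ1.le N n m hN hn hnm hm)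
    (by
      intro a b hab hU
      have ha : 0 < a 0 := hU 0 (Set.left_mem_Icc.2 (hab 0).le)
      filter_upwards [first_places hfc m θ hθ hθ1 (a 0) (b 0) ha (hab 0)] with N hN
      simp only [Fin.prod_univ_one, pow_one]
      simpa using hN)
  have h := (volume_preserving_funUnique (Fin 1) ℝ).symm
  have h2 := h.quasiMeasurePreserving.ae hmain
  filter_upwards [h2] with α hα hα0
  have h3 := hα (fun _ => hα0)
  simp only [pow_one] at h3
  have h4 : (1 : ℝ) / 48 / 2 = 1 / 96 := by norm_num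
  rw [h4] at h3
  refine h3.mono ?_
  intro N hN
  refine hN.trans (Nat.cast_le.2 (card_le_card ?_))
  intro n hn
  rw [mem_filter] at hn ⊢
  exact ⟨hn.1, hn.2 0⟩

end Pool.Agent.K7.H49.ME
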