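import Mathlib
import Pool.Agent.K7.H49.ME.Main
import Pool.Agent.K7.H49.ME.First
import Pool.Agent.K7.H49.ME.PolyG
import Pool.Agent.H646.Cheb

/-!
The metric theorem for `p_n + 2 ⌊α P(n)⌋`.
-/

set_option autoImplicit false

namespace Pool.Agent.K7.H49.ME

open Finset MeasureTheory Filter Polynomial
open scoped Classical

theorem pn_ge (n : ℕ) (hn : 2 ≤ n) : n + 1 ≤ Nat.nth Nat.Prime (n - 1) := by
  have := Nat.add_two_le_nth_prime (n - 1)
  omega

theorem pn_le : ∃ C₀ : ℝ, 1 ≤ C₀ ∧ ∀ N n : ℕ, 2 ≤ N → N < n → n ≤ 2 * N →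
    (Nat.nth Nat.Prime (n - 1) : ℝ) ≤ C₀ * (N * Real.log N) := by
  obtain ⟨C₀, hC₀, h⟩ := Pool.Agent.H646.ChebM.P_le
  refine ⟨4 * C₀, by linarith, ?_⟩
  intro N n hN hn hn2
  have h1 := h n (by omega)
  have h2 : (Nat.nth Nat.Prime (n - 1) : ℝ) ≤ (Nat.nth Nat.Prime n : ℝ) := by
    exact_mod_cast (Nat.nth_monotone Nat.infinite_setOfPred_prime) (by omega : n - 1 ≤ n)
  have hNr : (2 : ℝ) ≤ N := by exact_mod_cast hN
  have hn2' : (n : ℝ) ≤ 2 * N := by exact_mod_cast hn2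
  have hn0 : (0 : ℝ) < n := by exact_mod_cast (by omega : 0 < n)
  have h3 : Real.log n ≤ 2 * Real.log N := by
    calc Real.log n ≤ Real.log (N * N) := Real.log_le_log hn0 (by nlinarith)
      _ = 2 * Real.log N := by rw [Real.log_mul (by positivity) (by positivity)]; ring
  have h4 : 0 ≤ Real.log (N : ℝ) := Real.log_nonneg (by linarith)
  have h5 : (n : ℝ) * Real.log n ≤ (2 * N) * (2 * Real.log N) :=
    mul_le_mul hn2' h3 (Real.log_nonneg (by have : 3 ≤ n := by omega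
                                            have : (3 : ℝ) ≤ n := by exact_mod_cast this
                                            linarith)) (by positivity)
  calc (Nat.nth Nat.Prime (n - 1) : ℝ) ≤ C₀ * (n * Real.log n) := h2.trans h1
    _ ≤ C₀ * ((2 * N) * (2 * Real.log N)) := mul_le_mul_of_nonneg_left h5 (by linarith)
    _ = _ := by ring

theorem poly_metric (k d : ℕ) (P : Fin k → ℝ[X]) (h : Fin k → ℕ → ℤ) (B : ℕ)
    (hh : ∀ i, ∀ᶠ n : ℕ in atTop, 0 ≤ h i n ∧ (h i n : ℝ) ≤ (P i).eval (n : ℝ) * Real.log n ^ B) (hd1 : ∀ i, 1 ≤ (P i).natDegree) (hd2 : ∀ i, (P i).natDegree ≤ d)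
    (hlc : ∀ i, 0 < (P i).leadingCoeff) (I : ℕ → Finset ℕ) (hI : ∀ N, I N ⊆ Ioc N (2 * N)) (κ : ℝ) (hκ : 0 < κ)
    (hP : ∃ᶠ N : ℕ in atTop, (N : ℝ) ^ κ ≤ (I N).card) :
    ∀ᵐ α : Fin k → ℝ, (∀ i, 0 < α i) → ∃ᶠ N : ℕ in atTop, (N : ℝ) ^ κ ≤ (I N).card ∧
      (1 / (4 * (((d + 1 : ℕ) : ℝ) + 1))) ^ k / 2 * (I N).card / Real.log N ^ k ≤
        (((I N).filter (fun n => ∀ i, ((((Nat.nth Nat.Prime (n - 1) : ℕ) : ℤ) + 2 * h i n) + 2 * ⌊α i * (P i).eval (n : ℝ)⌋).toNat.Prime)).card : ℝ) := by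
  set c2 : ℝ := 1 / (1 + ∑ i, 2 / (P i).leadingCoeff) with hc2
  have hsum : 0 ≤ ∑ i, 2 / (P i).leadingCoeff := sum_nonneg fun i _ => by have := hlc i; positivity
  have hc20 : 0 < c2 := by positivity
  have hc2i : ∀ i, c2 ≤ (P i).leadingCoeff / 2 := by
    intro i
    have h1 : 2 / (P i).leadingCoeff ≤ ∑ i, 2 / (P i).leadingCoeff :=
      single_le_sum (f := fun i => 2 / (P i).leadingCoeff) (fun j _ => by have := hlc j; positivity) (mem_univ i)
    have h2 := hlc i
    calc c2 ≤ 1 / (2 / (P i).leadingCoeff) := one_div_le_one_div_of_le (by positivity) (by linarith)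
      _ = _ := by field_simp
  have ht : Tendsto (fun N : ℕ => (N : ℝ)) atTop atTop := tendsto_natCast_atTop_atTop
  have htL : Tendsto (fun N : ℕ => Real.log (N : ℝ)) atTop atTop := Real.tendsto_log_atTop.comp ht
  -- growth
  have hgrow : ∀ i, ∀ᶠ N : ℕ in atTop, c2 * N ≤ (P i).leadingCoeff / 2 * (N : ℝ) ^ (P i).natDegree ∧
      (∀ n, N < n → n ≤ 2 * N → (P i).leadingCoeff / 2 * (N : ℝ) ^ (P i).natDegree ≤ (P i).eval (n : ℝ) ∧
        (P i).eval (n : ℝ) ≤ 2 ^ (d + 2) * ((P i).leadingCoeff / 2 * (N : ℝ) ^ (P i).natDegree)) ∧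
      (∀ n m, N < n → n ≤ m → m ≤ 2 * N → 1 * ((P i).leadingCoeff / 2 * (N : ℝ) ^ (P i).natDegree) * ((m : ℝ) - n) / N ≤
        (P i).eval (m : ℝ) - (P i).eval (n : ℝ)) := by
    intro i
    filter_upwards [poly_growth (P i) (hlc i) (hd1 i), eventually_ge_atTop 1] with N h1 hN
    have hNr : (1 : ℝ) ≤ N := by exact_mod_cast hN
    have hli := hlc i
    refine ⟨?_, ?_, ?_⟩
    · have h2 : (N : ℝ) ≤ (N : ℝ) ^ (P i).natDegree := le_self_pow₀ hNr (by have := hd1 i; omega)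
      calc c2 * N ≤ (P i).leadingCoeff / 2 * N := mul_le_mul_of_nonneg_right (hc2i i) (by linarith)
        _ ≤ _ := mul_le_mul_of_nonneg_left h2 (by positivity)
    · intro n hn hn2
      obtain ⟨h2, h3⟩ := h1.1 n hn hn2
      refine ⟨h2, h3.trans ?_⟩
      apply mul_le_mul_of_nonneg_right _ (by positivity)
      exact pow_le_pow_right₀ (by norm_num) (by have := hd2 i; omega)
    · intro n m hn hnm hm
      rw [one_mul]
      exact h1.2 n m hn hnm hm
  obtain ⟨C₀, hC₀, hpn⟩ := pn_le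
  have hcop : ∀ (i : Fin k) (n : ℕ), 2 ≤ n → IsCoprime (((Nat.nth Nat.Prime (n - 1) : ℕ) : ℤ) + 2 * h i n) 2 := by
    intro i n hn
    have h1 : (Nat.nth Nat.Prime (n - 1)).Prime := Nat.prime_nth_prime _
    have h2 := pn_ge n hn
    have h3 : Nat.Coprime (Nat.nth Nat.Prime (n - 1)) 2 := (Nat.coprime_primes h1 Nat.prime_two).2 (by omega)
    have h4 : IsCoprime ((Nat.nth Nat.Prime (n - 1) : ℕ) : ℤ) 2 := by
      have := Nat.isCoprime_iff_coprime.2 h3
      exact_mod_cast this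
    exact h4.add_mul_left_left (h i n)
  apply metric_main k κ hκ (fun _ => 2) (fun _ => by norm_num) (fun i n => ((Nat.nth Nat.Prime (n - 1) : ℕ) : ℤ) + 2 * h i n)
    (fun i n hn => hcop i n hn) (fun i n => (P i).eval (n : ℝ)) (fun i N => (P i).leadingCoeff / 2 * (N : ℝ) ^ (P i).natDegree)
    (2 ^ (d + 2)) 1 c2 (1 / (4 * (((d + 1 : ℕ) : ℝ) + 1))) (by positivity) one_pos hc20 (by positivity)
    (fun _ => Set.Ioi 0) (fun _ => isOpen_Ioi) I hI hgrow ?_ hP
  · intro i a b hab hsub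
    have ha : 0 < a := hsub (Set.left_mem_Icc.2 hab.le)
    have hb : 0 < b := ha.trans hab
    have hlci := hlc i
    obtain ⟨n0, hn0⟩ := Filter.eventually_atTop.1 (hh i)
    filter_upwards [first 2 (Or.inr rfl) (B + 2) (d + 1) a b c2 hab hc20, hgrow i, eventually_ge_atTop 3,
      ht.eventually_ge_atTop (2 ^ (d + 2) * (P i).leadingCoeff), eventually_ge_atTop n0,
      htL.eventually_ge_atTop (C₀ / c2 + 2 ^ (B + 1) + 2 * b + 1)]
      with N hfirst hgr hN hNlc hNn0 hNL n hn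
    have hNr : (3 : ℝ) ≤ N := by exact_mod_cast hN
    obtain ⟨hnN, hn2N⟩ := mem_Ioc.1 (hI N hn)
    obtain ⟨hF1, hF2⟩ := hgr.2.1 n hnN hn2N
    have hf1 : c2 * N ≤ (P i).eval (n : ℝ) := hgr.1.trans hF1
    have hf0 : 0 < (P i).eval (n : ℝ) := lt_of_lt_of_le (by positivity) hf1
    have hpn1 := pn_ge n (by omega)
    have hpn2 := hpn N n (by omega) hnN hn2N
    obtain ⟨hh1, hh2⟩ := hn0 n (by omega)
    have hh1' : (0 : ℝ) ≤ h i n := by exact_mod_cast hh1
    apply hfirst ((P i).eval (n : ℝ)) (((Nat.nth Nat.Prime (n - 1) : ℕ) : ℤ) + 2 * h i n) hf1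
    · refine hF2.trans ?_
      have h1 : (N : ℝ) ^ (P i).natDegree ≤ (N : ℝ) ^ d := pow_le_pow_right₀ (by linarith) (hd2 i)
      calc 2 ^ (d + 2) * ((P i).leadingCoeff / 2 * (N : ℝ) ^ (P i).natDegree) ≤
          2 ^ (d + 2) * ((P i).leadingCoeff / 2 * (N : ℝ) ^ d) := by gcongr
        _ = (2 ^ (d + 2) * (P i).leadingCoeff) / 2 * (N : ℝ) ^ d := by ring
        _ ≤ N * (N : ℝ) ^ d := by
            apply mul_le_mul_of_nonneg_right _ (by positivity)
            linarith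
        _ = (N : ℝ) ^ (d + 1) := by rw [pow_succ]; ring
    · exact hcop i n (by omega)
    · push_cast
      have h1 : (N : ℝ) ≤ (Nat.nth Nat.Prime (n - 1) : ℕ) := by exact_mod_cast (by omega : N ≤ Nat.nth Nat.Prime (n - 1))
      have h2 : 0 ≤ 2 * (a * (P i).eval (n : ℝ)) := by positivity
      linarith
    · push_cast
      have hL1 : 1 ≤ Real.log N := by
        have h1 : 0 < C₀ / c2 := by positivity
        have h2 : (0 : ℝ) < 2 ^ (B + 1) := by positivity
        linarith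
      have h1 : (Nat.nth Nat.Prime (n - 1) : ℝ) ≤ C₀ / c2 * Real.log N * (P i).eval (n : ℝ) := by
        calc (Nat.nth Nat.Prime (n - 1) : ℝ) ≤ C₀ * (N * Real.log N) := hpn2
          _ = C₀ / c2 * Real.log N * (c2 * N) := by field_simp
          _ ≤ _ := mul_le_mul_of_nonneg_left hf1 (by positivity)
      have hlogn : Real.log (n : ℝ) ≤ 2 * Real.log N := by
        have hn2' : (n : ℝ) ≤ 2 * N := by exact_mod_cast hn2N
        have hn0' : (0 : ℝ) < n := by exact_mod_cast (by omega : 0 < n)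
        calc Real.log n ≤ Real.log (N * N) := Real.log_le_log hn0' (by nlinarith)
          _ = 2 * Real.log N := by rw [Real.log_mul (by positivity) (by positivity)]; ring
      have hlogn0 : 0 ≤ Real.log (n : ℝ) := Real.log_natCast_nonneg n
      have h2 : 2 * (h i n : ℝ) ≤ 2 ^ (B + 1) * Real.log N ^ B * (P i).eval (n : ℝ) := by
        have h3 : Real.log (n : ℝ) ^ B ≤ (2 * Real.log N) ^ B := pow_le_pow_left₀ hlogn0 hlogn B
        calc 2 * (h i n : ℝ) ≤ 2 * ((P i).eval (n : ℝ) * Real.log n ^ B) := by linarith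
          _ ≤ 2 * ((P i).eval (n : ℝ) * (2 * Real.log N) ^ B) := by
              apply mul_le_mul_of_nonneg_left _ (by norm_num)
              exact mul_le_mul_of_nonneg_left h3 hf0.le
          _ = _ := by rw [mul_pow, pow_succ]; ring
      have hLB1 : 1 ≤ Real.log (N : ℝ) ^ B := one_le_pow₀ hL1
      have hLp : 0 < Real.log (N : ℝ) ^ B := by positivity
      have h3 : C₀ / c2 * Real.log N + 2 ^ (B + 1) * Real.log N ^ B + 2 * b ≤ Real.log N ^ (B + 2) := by
        have hC : 0 < C₀ / c2 := by positivity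
        have e1 : C₀ / c2 * Real.log N ≤ C₀ / c2 * (Real.log N ^ B * Real.log N) := by
          apply mul_le_mul_of_nonneg_left _ hC.le
          nlinarith
        have e2 : (2 : ℝ) ^ (B + 1) * Real.log N ^ B ≤ 2 ^ (B + 1) * (Real.log N ^ B * Real.log N) := by
          apply mul_le_mul_of_nonneg_left _ (by positivity)
          nlinarith
        have e3 : 2 * b ≤ 2 * b * (Real.log N ^ B * Real.log N) := by
          have : 1 ≤ Real.log (N : ℝ) ^ B * Real.log N := by nlinarith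
          nlinarith
        have e4 : (C₀ / c2 + 2 ^ (B + 1) + 2 * b) * (Real.log N ^ B * Real.log N) ≤ Real.log N * (Real.log N ^ B * Real.log N) := by
          apply mul_le_mul_of_nonneg_right (by linarith) (by positivity)
        have e5 : Real.log (N : ℝ) ^ (B + 2) = Real.log N * (Real.log N ^ B * Real.log N) := by rw [pow_add]; ring
        rw [e5]
        linarith
      have h4 := mul_le_mul_of_nonneg_right h3 hf0.le
      have h5 : (C₀ / c2 * Real.log N + 2 ^ (B + 1) * Real.log N ^ B + 2 * b) * (P i).eval (n : ℝ) =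
        C₀ / c2 * Real.log N * (P i).eval (n : ℝ) + 2 ^ (B + 1) * Real.log N ^ B * (P i).eval (n : ℝ) +
          2 * (b * (P i).eval (n : ℝ)) := by ring
      have h6 : (P i).eval (n : ℝ) * Real.log N ^ (B + 2) = Real.log N ^ (B + 2) * (P i).eval (n : ℝ) := mul_comm _ _
      rw [h6]
      linarith

end Pool.Agent.K7.H49.ME
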