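import Mathlib
import Pool.Agent.K7.H49.ME.Box
import Pool.Agent.K7.H49.ME.First
import Pool.Agent.K7.H49.ME.PolyA

/-!
The bound for `p_q + h(q) + ⌊α q⌋`.
-/

set_option autoImplicit false

namespace Pool.Agent.K7.H49.ME

open Finset MeasureTheory Filter
open scoped Classical

/-- `p_n / n → ∞` -/
theorem pn_big (K : ℝ) (hK : 0 ≤ K) : ∀ᶠ n : ℕ in atTop, K * n ≤ (Nat.nth Nat.Prime (n - 1) : ℝ) := by
  have h1 : Tendsto (fun n : ℕ => (Nat.nth Nat.Prime (n - 1) : ℝ)) atTop atTop := by
    apply tendsto_natCast_atTop_atTop.comp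
    exact (Nat.nth_strictMono Nat.infinite_setOfPred_prime).tendsto_atTop.comp (tendsto_sub_atTop_nat 1)
  have h2 := Chebyshev.eventually_primeCounting_le (ε := 1) one_pos
  have h3 := Real.tendsto_log_atTop.comp h1
  have hl4 : 0 < Real.log 4 := Real.log_pos (by norm_num)
  filter_upwards [h1.eventually h2, h3.eventually_ge_atTop (K * (Real.log 4 + 1)), h3.eventually_gt_atTop 0,
    eventually_ge_atTop 1] with n e1 e2 e3 hn
  set p := Nat.nth Nat.Prime (n - 1) with hp
  have hpp : p.Prime := Nat.prime_nth_prime _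
  have hcount : p.primeCounting = n := by
    have h := Nat.primeCounting'_nth_eq (n - 1)
    unfold Nat.primeCounting
    unfold Nat.primeCounting' at h ⊢
    rw [Nat.count_succ, if_pos hpp, h]
    omega
  rw [Nat.floor_natCast, hcount] at e1
  simp only [Function.comp] at e2 e3
  rw [← hp] at e2 e3
  have hp0 : (0 : ℝ) < p := by exact_mod_cast hpp.pos
  calc K * n ≤ K * ((Real.log 4 + 1) * p / Real.log p) := mul_le_mul_of_nonneg_left e1 hK
    _ = (K * (Real.log 4 + 1)) * (p / Real.log p) := by ring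
    _ ≤ Real.log p * (p / Real.log p) := mul_le_mul_of_nonneg_right e2 (by positivity)
    _ = p := by rw [← mul_div_assoc, mul_comm, mul_div_assoc, div_self e3.ne', mul_one]

/-- the integer `p_n + h(n)` -/
noncomputable def uq {k : ℕ} (h : Fin k → ℕ → ℤ) (i : Fin k) (n : ℕ) : ℤ := ((Nat.nth Nat.Prime (n - 1) : ℕ) : ℤ) + h i n

/-- the number of the `q ∈ I` with all `p_q + h_i(q) + ⌊α_i q⌋` prime -/
noncomputable def cq {k : ℕ} (h : Fin k → ℕ → ℤ) (I : Finset ℕ) (α : Fin k → ℝ) : ℕ :=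
  (I.filter (fun n => ∀ i, α i ∈ EE 1 (uq h i n) (n : ℝ))).card

theorem q_box (k : ℕ) (h : Fin k → ℕ → ℤ) (H : ℝ) (hH : 0 ≤ H) (hh : ∀ i n, |(h i n : ℝ)| ≤ H * n)
    (a b : Fin k → ℝ) (hab : ∀ i, a i < b i) :
    ∀ᶠ N : ℕ in atTop, ∀ I : Finset ℕ, I ⊆ Ioc N (2 * N) → (N : ℝ) ^ (1 / 2 : ℝ) ≤ I.card →
      cst k (1 / 2) (fun _ => 1) (1 / 12) * ∏ i, (b i - a i) ≤ (volume : Measure (Fin k → ℝ)).real
        ({α | (1 / 12 : ℝ) ^ k / 2 * I.card / Real.log N ^ k ≤ (cq h I α : ℝ)} ∩ Set.Icc a b) := by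
  obtain ⟨C₀, hC₀, hpn⟩ := pn_le
  have ht : Tendsto (fun N : ℕ => (N : ℝ)) atTop atTop := tendsto_natCast_atTop_atTop
  have htL : Tendsto (fun N : ℕ => Real.log (N : ℝ)) atTop atTop := Real.tendsto_log_atTop.comp ht
  apply box_main k (1 / 2) (by norm_num) (fun _ => 1) (fun _ => one_ne_zero) (uq h) (fun _ _ _ => isCoprime_one_right)
    (fun _ n => (n : ℝ)) (fun _ N => (N : ℝ)) 2 1 1 (1 / 12) (by norm_num) one_pos one_pos (by norm_num)
  · intro i
    filter_upwards [eventually_ge_atTop 1] with N hN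
    have hN0 : (0 : ℝ) < N := by exact_mod_cast hN
    refine ⟨by linarith, ?_, ?_⟩
    · intro n hn hn2
      exact ⟨by exact_mod_cast hn.le, by exact_mod_cast hn2⟩
    · intro n m _ _ _
      have : 1 * (N : ℝ) * ((m : ℝ) - n) / N = m - n := by field_simp
      rw [this]
  · exact hab
  · intro i
    obtain ⟨n0, hn0⟩ := Filter.eventually_atTop.1 (pn_big (|a i| + H + 1) (by positivity))
    filter_upwards [first 1 (Or.inl rfl) 2 2 (a i) (b i) 1 (hab i) one_pos, eventually_ge_atTop 2, eventually_ge_atTop n0,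
      htL.eventually_ge_atTop (C₀ + H + |b i|)] with N hfirst hN hNn0 hNL n hn hn2
    have hNr : (2 : ℝ) ≤ N := by exact_mod_cast hN
    have hnr : (N : ℝ) ≤ n := by exact_mod_cast hn.le
    have hn2r : (n : ℝ) ≤ 2 * N := by exact_mod_cast hn2
    have hn0' : (0 : ℝ) < n := by linarith
    have hbig := hn0 n (by omega)
    have hpl := hpn N n hN hn hn2
    obtain ⟨hh1, hh2⟩ := abs_le.1 (hh i n)
    have hL1 : 1 ≤ Real.log N := by
      have := abs_nonneg (b i)
      linarith
    have hres := hfirst (n : ℝ) (uq h i n) (by linarith) (by nlinarith) isCoprime_one_right ?_ ?_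
    · have e : (1 : ℝ) / (4 * ((2 : ℕ) + 1)) = 1 / 12 := by norm_num
      rw [e] at hres
      exact hres
    · unfold uq
      push_cast
      have e1 : -(|a i| * n) ≤ a i * n := by
        have := neg_abs_le (a i)
        nlinarith
      nlinarith
    · unfold uq
      push_cast
      have e1 : b i * n ≤ |b i| * n := mul_le_mul_of_nonneg_right (le_abs_self _) hn0'.le
      have e2 : C₀ * (N * Real.log N) ≤ C₀ * (n * Real.log N) := by
        apply mul_le_mul_of_nonneg_left _ (by linarith)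
        exact mul_le_mul_of_nonneg_right hnr (by linarith)
      have e3 : C₀ * Real.log N + H + |b i| ≤ Real.log N ^ 2 := by
        have := abs_nonneg (b i)
        nlinarith
      have e4 := mul_le_mul_of_nonneg_left e3 hn0'.le
      nlinarith

end Pool.Agent.K7.H49.ME
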