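import Mathlib
import Pool.Agent.K7.H49.ME.QA
import Pool.Agent.Y886.PPD

/-!
A positive upper density of the `n`.
-/

set_option autoImplicit false

namespace Pool.Agent.K7.H49.ME

open Finset MeasureTheory Filter
open scoped Classical
open Pool.Agent.Y886.PP (fib sums pairs sums_card sums_mem q_val)

/-- `q (n, m)` -/
def qv (n m : ℕ) : ℕ := Nat.totient m + Nat.totient (n - m) / 2 + 1

/-- the `m` which are admissible for `n` -/
def adm {k : ℕ} (h : Fin k → ℕ → ℤ) (α : Fin k → ℝ) (n : ℕ) : Set ℕ :=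
  {m : ℕ | 1 ≤ m ∧ m + 2 < n ∧ (qv n m).Prime ∧ ∀ i, (uq h i (qv n m) + ⌊α i * (qv n m : ℝ)⌋).toNat.Prime}

/-- the primes `q` of the fibre -/
noncomputable def Qs (X N n : ℕ) : Finset ℕ := (fib X N n).image (fun z => z.2 + z.1 - 1)

theorem fib_mem {X N n : ℕ} {z : ℕ × ℕ} (hz : z ∈ fib X N n) :
    5 ≤ z.1 ∧ z.1.Prime ∧ z.2.Prime ∧ (z.2 + z.1 - 1).Prime ∧ z.2 + z.1 - 1 ≤ X ∧ z.2 + 3 * z.1 = n := by
  unfold fib at hz
  obtain ⟨hz1, hz2⟩ := Finset.mem_filter.1 hz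
  unfold pairs at hz1
  rw [mem_filter, mem_product, mem_Icc] at hz1
  obtain ⟨⟨⟨h1, h2⟩, h3⟩, h4, h5, h6, h7, h8⟩ := hz1
  exact ⟨h1, h4, h5, h6, h7, hz2⟩

theorem card_Qs (X N n : ℕ) : (Qs X N n).card = (fib X N n).card := by
  unfold Qs
  apply card_image_of_injOn
  intro a ha b hb hab
  obtain ⟨a1, a2, a3, a4, a5, a6⟩ := fib_mem (mem_coe.1 ha)
  obtain ⟨b1, b2, b3, b4, b5, b6⟩ := fib_mem (mem_coe.1 hb)
  have hab' : a.2 + a.1 - 1 = b.2 + b.1 - 1 := hab
  have := a3.one_lt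
  have := b3.one_lt
  exact Prod.ext (by omega) (by omega)

theorem Qs_mem {X N n q : ℕ} (hq : q ∈ Qs X N n) : 2 ≤ q ∧ q ≤ X := by
  unfold Qs at hq
  obtain ⟨z, hz, rfl⟩ := mem_image.1 hq
  obtain ⟨a1, a2, a3, a4, a5, a6⟩ := fib_mem hz
  exact ⟨a4.two_le, a5⟩

theorem cq_le {k : ℕ} (h : Fin k → ℕ → ℤ) (α : Fin k → ℝ) (X N n : ℕ) (I : Finset ℕ) (hI : I ⊆ Qs X N n) :
    cq h I α ≤ (adm h α n).ncard := by
  have hfin : (adm h α n).Finite := (Set.finite_Iic n).subset fun m hm => by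
    have := hm.2.1
    exact Set.mem_Iic.2 (by omega)
  set J : Finset (ℕ × ℕ) := (fib X N n).filter (fun z => z.2 + z.1 - 1 ∈ I ∧ ∀ i, α i ∈ EE 1 (uq h i (z.2 + z.1 - 1)) ((z.2 + z.1 - 1 : ℕ) : ℝ)) with hJ
  have h1 : cq h I α ≤ J.card := by
    unfold cq
    have : I.filter (fun n => ∀ i, α i ∈ EE 1 (uq h i n) (n : ℝ)) ⊆ J.image (fun z => z.2 + z.1 - 1) := by
      intro q hq
      obtain ⟨hq1, hq2⟩ := Finset.mem_filter.1 hq
      have hq3 := hI hq1
      unfold Qs at hq3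
      obtain ⟨z, hz, rfl⟩ := mem_image.1 hq3
      exact mem_image.2 ⟨z, Finset.mem_filter.2 ⟨hz, hq1, hq2⟩, rfl⟩
    exact (card_le_card this).trans card_image_le
  have h2 : ((J.image (fun z => z.2) : Finset ℕ) : Set ℕ) ⊆ adm h α n := by
    intro m hm
    obtain ⟨z, hz, rfl⟩ := mem_image.1 (mem_coe.1 hm)
    obtain ⟨hz1, hz2, hz3⟩ := Finset.mem_filter.1 hz
    obtain ⟨a1, a2, a3, a4, a5, a6⟩ := fib_mem hz1
    have hqv : qv n z.2 = z.2 + z.1 - 1 := by
      unfold qv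
      rw [← a6]
      exact q_val a3 a2 a1
    refine ⟨a3.one_le, by omega, ?_, ?_⟩
    · rw [hqv]; exact a4
    · intro i
      rw [hqv]
      have := hz3 i
      unfold EE at this
      simpa using this
  have h3 := Set.ncard_le_ncard h2 hfin
  rw [Set.ncard_coe_finset, card_image_of_injOn] at h3
  · exact h1.trans h3
  · intro a ha b hb hab
    obtain ⟨ha1, _⟩ := Finset.mem_filter.1 (mem_coe.1 ha)
    obtain ⟨hb1, _⟩ := Finset.mem_filter.1 (mem_coe.1 hb)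
    obtain ⟨a1, a2, a3, a4, a5, a6⟩ := fib_mem ha1
    obtain ⟨b1, b2, b3, b4, b5, b6⟩ := fib_mem hb1
    have hab' : a.2 = b.2 := hab
    exact Prod.ext (by omega) hab'

/-- a dyadic block with many elements -/
theorem dyadic (X : ℕ) (hX : 8 ≤ X) (S : Finset ℕ) (hS : ∀ q ∈ S, 2 ≤ q ∧ q ≤ X) (hne : S.Nonempty) :
    ∃ (M : ℕ) (I : Finset ℕ), I ⊆ S ∧ I ⊆ Ioc M (2 * M) ∧ M ≤ X ∧ (S.card : ℝ) / (2 * Real.log X) ≤ I.card := by
  have hXr : (8 : ℝ) ≤ X := by exact_mod_cast hX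
  have hlog8 : (2 : ℝ) ≤ Real.log X := by
    have h1 : Real.log 8 ≤ Real.log X := Real.log_le_log (by norm_num) hXr
    have h2 : Real.log 8 = 3 * Real.log 2 := by
      rw [show (8 : ℝ) = 2 ^ 3 by norm_num, Real.log_pow]; norm_num
    have := Real.log_two_gt_d9
    linarith
  set t : Finset ℕ := range (Nat.log 2 X + 1) with ht
  have hmaps : ∀ q ∈ S, Nat.log 2 (q - 1) ∈ t := by
    intro q hq
    rw [ht, mem_range]
    have := hS q hq
    exact Nat.lt_succ_of_le (Nat.log_mono_right (by omega))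
  have htc : (t.card : ℝ) ≤ 2 * Real.log X := by
    rw [ht, card_range]
    have h1 : (Nat.log 2 X : ℝ) ≤ Real.logb 2 X := by
      have := Real.natLog_le_logb X 2
      exact_mod_cast this
    have h2 : Real.logb 2 X = Real.log X / Real.log 2 := rfl
    have h3 : Real.log X / Real.log 2 ≤ 3 / 2 * Real.log X := by
      rw [div_le_iff₀ (Real.log_pos (by norm_num))]
      have := Real.log_two_gt_d9
      nlinarith
    push_cast
    linarith
  have hb : t.card • ((S.card : ℝ) / (2 * Real.log X)) ≤ (S.card : ℝ) := by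
    rw [nsmul_eq_mul, mul_div_assoc', div_le_iff₀ (by linarith)]
    have : (0 : ℝ) ≤ S.card := Nat.cast_nonneg _
    nlinarith
  obtain ⟨j, hj, hjc⟩ := Finset.exists_le_card_fiber_of_nsmul_le_card_of_maps_to hmaps ⟨0, by rw [ht]; simp⟩ hb
  refine ⟨2 ^ j, S.filter (fun q => Nat.log 2 (q - 1) = j), filter_subset _ _, ?_, ?_, ?_⟩
  · intro q hq
    obtain ⟨h1, h2⟩ := Finset.mem_filter.1 hq
    have h3 := hS q h1
    have h4 := Nat.pow_log_le_self 2 (show q - 1 ≠ 0 by omega)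
    have h5 := Nat.lt_pow_succ_log_self (b := 2) (by norm_num) (q - 1)
    rw [h2] at h4 h5
    rw [mem_Ioc]
    rw [pow_succ] at h5
    constructor <;> omega
  · have h6 : 0 < ((S.filter (fun q => Nat.log 2 (q - 1) = j)).card : ℝ) := by
      refine lt_of_lt_of_le ?_ hjc
      have : (0 : ℝ) < S.card := by exact_mod_cast card_pos.2 hne
      positivity
    have h7 : 0 < (S.filter (fun q => Nat.log 2 (q - 1) = j)).card := by exact_mod_cast h6
    obtain ⟨q, hq⟩ := card_pos.1 h7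
    obtain ⟨h1, h2⟩ := Finset.mem_filter.1 hq
    have h3 := hS q h1
    have h4 := Nat.pow_log_le_self 2 (show q - 1 ≠ 0 by omega)
    rw [h2] at h4
    omega
  · convert hjc

end Pool.Agent.K7.H49.ME
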