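import Mathlib
import Pool.Agent.K7.H49.ME.QB

/-!
A positive upper density of the `n`: the proof.
-/

set_option autoImplicit false

namespace Pool.Agent.K7.H49.ME

open Finset MeasureTheory Filter
open scoped Classical
open Pool.Agent.Y886.PP (fib sums pairs sums_card sums_mem q_val)

theorem num1 (k : ℕ) (X n L l I m : ℝ) (hL : 1 ≤ L) (hX : 0 ≤ X) (hn : n ≤ 4 * X) (hl : L / 2 ≤ l)
    (hL2 : 2048 * 2 ^ (k + 16) * 12 ^ k ≤ L ^ 2) (hI : X / (256 * L ^ 14) ≤ I) (hm : 0 < m) (hmL : m ≤ L) :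
    n / l ^ (k + 16) ≤ (1 / 12) ^ k / 2 * I / m ^ k := by
  have hL0 : 0 < L := by linarith
  have hI0 : 0 ≤ I := le_trans (by positivity) hI
  calc n / l ^ (k + 16) ≤ 4 * X / (L / 2) ^ (k + 16) := by
        apply div_le_div₀ (by positivity) hn (by positivity)
        exact pow_le_pow_left₀ (by positivity) hl _
    _ = 4 * 2 ^ (k + 16) * X / (L ^ (k + 14) * L ^ 2) := by
        rw [div_pow, ← pow_add, show k + 14 + 2 = k + 16 by ring]; field_simp
    _ ≤ X / (512 * 12 ^ k * L ^ (k + 14)) := by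
        rw [div_le_div_iff₀ (by positivity) (by positivity)]
        have h1 : 0 ≤ X * L ^ (k + 14) := by positivity
        calc 4 * 2 ^ (k + 16) * X * (512 * 12 ^ k * L ^ (k + 14)) =
            (2048 * 2 ^ (k + 16) * 12 ^ k) * (X * L ^ (k + 14)) := by ring
          _ ≤ L ^ 2 * (X * L ^ (k + 14)) := mul_le_mul_of_nonneg_right hL2 h1
          _ = _ := by ring
    _ = (1 / 12) ^ k / 2 * (X / (256 * L ^ 14)) / L ^ k := by
        rw [pow_add, div_pow, one_pow]; field_simp; ring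
    _ ≤ (1 / 12) ^ k / 2 * I / m ^ k := by
        apply div_le_div₀ (by positivity) _ (by positivity) (pow_le_pow_left₀ hm.le hmL k)
        exact mul_le_mul_of_nonneg_left hI (by positivity)

theorem meas_count2 {k : ℕ} (S : Finset ℕ) (A : ℕ → Set (Fin k → ℝ)) (hA : ∀ n, MeasurableSet (A n)) :
    Measurable (fun α : Fin k → ℝ => ((S.filter (fun n => α ∈ A n)).card : ℝ)) := by
  simp_rw [card_filter]
  push_cast
  apply Finset.measurable_sum
  intro n _
  exact Measurable.ite (hA n) measurable_const measurable_const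

theorem S_card (X : ℕ) (S0 : Finset ℕ) (cs : ℝ) (hcs : 0 < cs) (h : cs * X ≤ S0.card) (hX : 4 / cs ≤ X) :
    cs / 4 * X ≤ ((S0.filter (fun n : ℕ => cs / 2 * X ≤ (n : ℝ))).card : ℝ) := by
  have b1 : S0 ⊆ S0.filter (fun n : ℕ => cs / 2 * X ≤ (n : ℝ)) ∪ range (⌊cs / 2 * X⌋₊ + 1) := by
    intro n hn
    rw [mem_union, mem_filter, mem_range]
    by_cases h : cs / 2 * X ≤ (n : ℝ)
    · exact Or.inl ⟨hn, h⟩
    · right
      rw [not_le] at h
      exact Nat.lt_succ_of_le (Nat.le_floor h.le)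
  have b2 := (card_le_card b1).trans (card_union_le _ _)
  rw [card_range] at b2
  have b3 : (S0.card : ℝ) ≤ (S0.filter (fun n : ℕ => cs / 2 * X ≤ (n : ℝ))).card + (⌊cs / 2 * X⌋₊ + 1) := by exact_mod_cast b2
  have b4 : (⌊cs / 2 * (X : ℝ)⌋₊ : ℝ) ≤ cs / 2 * X := Nat.floor_le (by positivity)
  have b5 : 1 ≤ cs / 4 * X := by
    rw [div_le_iff₀ hcs] at hX
    linarith
  linarith

theorem q_dens (k : ℕ) : ∃ c : ℝ, 0 < c ∧ ∀ (h : Fin k → ℕ → ℤ) (H : ℝ), 0 ≤ H → (∀ i n, |(h i n : ℝ)| ≤ H * n) →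
    ∀ᵐ α : Fin k → ℝ, ∃ᶠ x : ℕ in atTop, c * x ≤
      ({n : ℕ | 32 ≤ n ∧ n ≤ x ∧ (n : ℝ) / Real.log n ^ (k + 16) ≤ ((adm h α n).ncard : ℝ)}.ncard : ℝ) := by
  obtain ⟨cs, hcs, hs⟩ := sums_card
  obtain ⟨X0, h0⟩ := eventually_atTop.1 hs
  choose! NN hNN using h0
  set c' : ℝ := cst k (1 / 2) (fun _ => 1) (1 / 12) with hc'
  have hc'0 : 0 < c' := cst_pos k (1 / 2) (by norm_num) _ _ (by norm_num)
  refine ⟨c' * cs / 32, by positivity, ?_⟩
  intro h H hH hh
  have ht : Tendsto (fun N : ℕ => (N : ℝ)) atTop atTop := tendsto_natCast_atTop_atTop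
  have htL : Tendsto (fun N : ℕ => Real.log (N : ℝ)) atTop atTop := Real.tendsto_log_atTop.comp ht
  set S : ℕ → Finset ℕ := fun X => (sums X (NN X)).filter (fun n : ℕ => cs / 2 * X ≤ (n : ℝ)) with hS
  -- the blocks
  have hex : ∀ X n : ℕ, ∃ (M : ℕ) (I : Finset ℕ), (X0 ≤ X → 8 ≤ X → n ∈ S X →
      I ⊆ Qs X (NN X) n ∧ I ⊆ Ioc M (2 * M) ∧ M ≤ X ∧ (X : ℝ) / (256 * Real.log X ^ 14) ≤ I.card) := by
    intro X n
    by_cases hc : X0 ≤ X ∧ 8 ≤ X ∧ n ∈ S X
    · obtain ⟨hX0, hX8, hn⟩ := hc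
      obtain ⟨hN1, hN2, hN3⟩ := hNN X hX0
      have hXr : (8 : ℝ) ≤ X := by exact_mod_cast hX8
      have hL : 0 < Real.log X := Real.log_pos (by linarith)
      have hn' := (Finset.mem_filter.1 hn).1
      have hfib : (NN X : ℝ) / (128 * Real.log X ^ 3) ≤ ((fib X (NN X) n).card : ℝ) := by
        unfold sums at hn'
        exact (Finset.mem_filter.1 hn').2
      have hQ : (X : ℝ) / (128 * Real.log X ^ 13) ≤ ((Qs X (NN X) n).card : ℝ) := by
        rw [card_Qs]
        refine le_trans ?_ hfib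
        rw [div_le_div_iff₀ (by positivity) (by positivity)]
        calc (X : ℝ) * (128 * Real.log X ^ 3) ≤ (NN X * Real.log X ^ 10) * (128 * Real.log X ^ 3) :=
              mul_le_mul_of_nonneg_right hN2 (by positivity)
          _ = _ := by ring
      have hne : (Qs X (NN X) n).Nonempty := by
        rw [← card_pos]
        have : (0 : ℝ) < (Qs X (NN X) n).card := lt_of_lt_of_le (by positivity) hQ
        exact_mod_cast this
      obtain ⟨M, I, i1, i2, i3, i4⟩ := dyadic X hX8 (Qs X (NN X) n) (fun q hq => Qs_mem hq) hne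
      refine ⟨M, I, fun _ _ _ => ⟨i1, i2, i3, le_trans ?_ i4⟩⟩
      calc (X : ℝ) / (256 * Real.log X ^ 14) = (X : ℝ) / (128 * Real.log X ^ 13) / (2 * Real.log X) := by
            field_simp; ring
        _ ≤ _ := div_le_div_of_nonneg_right hQ (by positivity)
    · exact ⟨0, ∅, fun a b c => absurd ⟨a, b, c⟩ hc⟩
  choose MM II hMI using hex
  set A : ℕ → ℕ → Set (Fin k → ℝ) := fun X n => {α | (1 / 12 : ℝ) ^ k / 2 * (II X n).card / Real.log (MM X n) ^ k ≤
    (cq h (II X n) α : ℝ)} with hA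
  have hAm : ∀ X n, MeasurableSet (A X n) := by
    intro X n
    apply measurableSet_le measurable_const
    exact meas_count (II X n) (fun i n => EE 1 (uq h i n) (n : ℝ)) (fun i n => EE_meas _ _ _)
  set G : ℕ → Set (Fin k → ℝ) := fun X => {α | c' / 2 * (S X).card ≤ (((S X).filter (fun n => α ∈ A X n)).card : ℝ)} with hG
  have hGm : ∀ X, MeasurableSet (G X) := fun X => measurableSet_le measurable_const (meas_count2 (S X) (A X) (hAm X))
  have hmono : Tendsto (fun X : ℕ => (X : ℝ) / (256 * Real.log X ^ 14)) atTop atTop := by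
    have h1 : Tendsto (fun x : ℝ => x / (256 * Real.log x ^ 14)) atTop atTop := by
      have h2 := (isLittleO_log_rpow_rpow_atTop ((14 : ℕ) : ℝ) (show (0 : ℝ) < 1 / 2 by norm_num)).def
        (show (0 : ℝ) < 1 / 256 by norm_num)
      have h3 : Tendsto (fun x : ℝ => x ^ (1 / 2 : ℝ)) atTop atTop := tendsto_rpow_atTop (by norm_num)
      apply tendsto_atTop_mono' atTop _ h3
      filter_upwards [h2, eventually_gt_atTop 1] with x hx hx1
      have hl : 0 < Real.log x := Real.log_pos hx1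
      have hx0 : 0 < x := by linarith
      rw [Real.rpow_natCast, Real.norm_of_nonneg (by positivity), Real.norm_of_nonneg (by positivity)] at hx
      rw [le_div_iff₀ (by positivity)]
      calc x ^ (1 / 2 : ℝ) * (256 * Real.log x ^ 14) ≤ x ^ (1 / 2 : ℝ) * (256 * (1 / 256 * x ^ (1 / 2 : ℝ))) := by
            apply mul_le_mul_of_nonneg_left _ (by positivity)
            exact mul_le_mul_of_nonneg_left hx (by norm_num)
        _ = x ^ (1 / 2 : ℝ) * x ^ (1 / 2 : ℝ) := by ring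
        _ = x := by rw [← Real.rpow_add hx0]; norm_num
    exact h1.comp ht
  have hsqrt : ∀ᶠ X : ℕ in atTop, (X : ℝ) ^ (1 / 2 : ℝ) ≤ (X : ℝ) / (256 * Real.log X ^ 14) := by
    have h2 := (isLittleO_log_rpow_rpow_atTop ((14 : ℕ) : ℝ) (show (0 : ℝ) < 1 / 2 by norm_num)).def
      (show (0 : ℝ) < 1 / 256 by norm_num)
    filter_upwards [ht.eventually h2, ht.eventually_gt_atTop 1] with X hx hx1
    have hl : 0 < Real.log (X : ℝ) := Real.log_pos hx1
    have hx0 : (0 : ℝ) < X := by linarith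
    rw [Real.rpow_natCast, Real.norm_of_nonneg (by positivity), Real.norm_of_nonneg (by positivity)] at hx
    rw [le_div_iff₀ (by positivity)]
    calc (X : ℝ) ^ (1 / 2 : ℝ) * (256 * Real.log X ^ 14) ≤ (X : ℝ) ^ (1 / 2 : ℝ) * (256 * (1 / 256 * (X : ℝ) ^ (1 / 2 : ℝ))) := by
          apply mul_le_mul_of_nonneg_left _ (by positivity)
          exact mul_le_mul_of_nonneg_left hx (by norm_num)
      _ = (X : ℝ) ^ (1 / 2 : ℝ) * (X : ℝ) ^ (1 / 2 : ℝ) := by ring
      _ = X := by rw [← Real.rpow_add hx0]; norm_num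
  -- `M ≥ |I|`
  have hMI' : ∀ X n, X0 ≤ X → 8 ≤ X → n ∈ S X → (X : ℝ) / (256 * Real.log X ^ 14) ≤ MM X n := by
    intro X n e1 e2 e3
    obtain ⟨i1, i2, i3, i4⟩ := hMI X n e1 e2 e3
    refine i4.trans ?_
    have := card_le_card i2
    rw [Nat.card_Ioc] at this
    exact_mod_cast (by omega : (II X n).card ≤ MM X n)
  have hae := ae_freq G hGm Set.univ isOpen_univ (c' / 2) (by positivity) (fun _ => True)
    (Eventually.of_forall fun _ => trivial).frequently ?_
  · have e14 : ∀ᶠ X : ℕ in atTop, (32 : ℝ) ≤ cs / 2 * X := (ht.const_mul_atTop (by positivity)).eventually_ge_atTop _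
    have e15 : ∀ᶠ X : ℕ in atTop, (X : ℝ) ^ (1 / 2 : ℝ) ≤ cs / 2 * X := by
      have h1 : Tendsto (fun X : ℕ => (X : ℝ) ^ (1 / 2 : ℝ)) atTop atTop := (tendsto_rpow_atTop (by norm_num)).comp ht
      filter_upwards [h1.eventually_ge_atTop (2 / cs), ht.eventually_gt_atTop 0] with X hX hX0
      rw [div_le_iff₀ hcs] at hX
      have h2 : (X : ℝ) = (X : ℝ) ^ (1 / 2 : ℝ) * (X : ℝ) ^ (1 / 2 : ℝ) := by rw [← Real.rpow_add hX0]; norm_num
      have h3 : 0 ≤ (X : ℝ) ^ (1 / 2 : ℝ) := by positivity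
      calc (X : ℝ) ^ (1 / 2 : ℝ) = 1 / 2 * 2 * (X : ℝ) ^ (1 / 2 : ℝ) := by ring
        _ ≤ 1 / 2 * ((X : ℝ) ^ (1 / 2 : ℝ) * cs) * (X : ℝ) ^ (1 / 2 : ℝ) := by gcongr
        _ = cs / 2 * ((X : ℝ) ^ (1 / 2 : ℝ) * (X : ℝ) ^ (1 / 2 : ℝ)) := by ring
        _ = cs / 2 * X := by rw [← h2]
    filter_upwards [hae] with α hα
    have hα' := (hα trivial).and_eventually ((eventually_ge_atTop (max X0 8)).and ((ht.eventually_ge_atTop (4 / cs)).and
      (e14.and (e15.and ((htL.eventually_ge_atTop 1).and ((hmono.eventually_ge_atTop 2).and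
        (((tendsto_pow_atTop two_ne_zero).comp htL).eventually_ge_atTop (2048 * 2 ^ (k + 16) * 12 ^ k))))))))
    have h4 : Tendsto (fun X : ℕ => 4 * X) atTop atTop := tendsto_id.const_mul_atTop' (by norm_num)
    refine h4.frequently (hα'.mono ?_)
    rintro X ⟨⟨_, hXG⟩, hX1, hX2, hX3, hX4, hX5, hX6, hX7⟩
    have hXX0 : X0 ≤ X := (le_max_left _ _).trans hX1
    have hX8 : 8 ≤ X := (le_max_right _ _).trans hX1
    have hXr : (8 : ℝ) ≤ X := by exact_mod_cast hX8
    obtain ⟨hN1, hN2, hN3⟩ := hNN X hXX0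
    have hScard := S_card X (sums X (NN X)) cs hcs hN3 hX2
    have hfin : {n : ℕ | 32 ≤ n ∧ n ≤ 4 * X ∧ (n : ℝ) / Real.log n ^ (k + 16) ≤ ((adm h α n).ncard : ℝ)}.Finite :=
      (Set.finite_Iic (4 * X)).subset fun n hn => hn.2.1
    have hsub : ((((S X).filter (fun n => α ∈ A X n)) : Finset ℕ) : Set ℕ) ⊆
        {n : ℕ | 32 ≤ n ∧ n ≤ 4 * X ∧ (n : ℝ) / Real.log n ^ (k + 16) ≤ ((adm h α n).ncard : ℝ)} := by
      intro n hn
      obtain ⟨hn1, hn2⟩ := Finset.mem_filter.1 (mem_coe.1 hn)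
      obtain ⟨hn3, hn4⟩ := Finset.mem_filter.1 hn1
      have hn5 := mem_Icc.1 (sums_mem hN1 hn3)
      obtain ⟨i1, i2, i3, i4⟩ := hMI X n hXX0 hX8 hn1
      have hM2 : (2 : ℝ) ≤ MM X n := hX6.trans (hMI' X n hXX0 hX8 hn1)
      refine ⟨by exact_mod_cast hX3.trans hn4, hn5.2, ?_⟩
      have hlogn : Real.log X / 2 ≤ Real.log n := by
        have e1 : Real.log ((X : ℝ) ^ (1 / 2 : ℝ)) ≤ Real.log n :=
          Real.log_le_log (by positivity) (hX4.trans hn4)
        rw [Real.log_rpow (by linarith)] at e1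
        linarith
      have e2 := num1 k X n (Real.log X) (Real.log n) (II X n).card (Real.log (MM X n)) hX5 (by linarith)
        (by exact_mod_cast hn5.2) hlogn hX7 i4 (Real.log_pos (by linarith))
        (Real.log_le_log (by linarith) (by exact_mod_cast i3))
      refine e2.trans (le_trans hn2 ?_)
      exact_mod_cast cq_le h α X (NN X) n (II X n) i1
    have hcard := Set.ncard_le_ncard hsub hfin
    rw [Set.ncard_coe_finset] at hcard
    have hXG' : c' / 2 * ((S X).card : ℝ) ≤ (((S X).filter (fun n => α ∈ A X n)).card : ℝ) := hXG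
    have hcard' : ((((S X).filter (fun n => α ∈ A X n)).card : ℕ) : ℝ) ≤
        ({n : ℕ | 32 ≤ n ∧ n ≤ 4 * X ∧ (n : ℝ) / Real.log n ^ (k + 16) ≤ ((adm h α n).ncard : ℝ)}.ncard : ℝ) := by
      exact_mod_cast hcard
    refine le_trans ?_ hcard'
    refine le_trans ?_ hXG'
    have e3 : c' * cs / 32 * ((4 * X : ℕ) : ℝ) = c' / 2 * (cs / 4 * X) := by push_cast; ring
    rw [e3]
    exact mul_le_mul_of_nonneg_left hScard (by positivity)
  · intro a b hab _
    obtain ⟨M0, hM0⟩ := Filter.eventually_atTop.1 (q_box k h H hH hh a b hab)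
    filter_upwards [hsqrt, hmono.eventually_ge_atTop (M0 : ℝ), eventually_ge_atTop (max X0 8),
      ht.eventually_ge_atTop (4 / cs)] with X g1 g2 g3 g4 _
    have hXX0 : X0 ≤ X := (le_max_left _ _).trans g3
    have hX8 : 8 ≤ X := (le_max_right _ _).trans g3
    obtain ⟨hN1, hN2, hN3⟩ := hNN X hXX0
    have hScard := S_card X (sums X (NN X)) cs hcs hN3 g4
    have hXr : (8 : ℝ) ≤ X := by exact_mod_cast hX8
    have hSne : (S X).Nonempty := by
      rw [← card_pos]
      have : (0 : ℝ) < (S X).card := lt_of_lt_of_le (by positivity) hScard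
      exact_mod_cast this
    have hvol : volume.real (Set.Icc a b) = ∏ i, (b i - a i) := by
      unfold Measure.real
      exact Real.volume_Icc_pi_toReal (fun i => (hab i).le)
    have hfin : volume (Set.Icc a b) ≠ ⊤ := isCompact_Icc.measure_ne_top
    have := avg_box (Set.Icc a b) measurableSet_Icc hfin (S X) hSne (A X) (hAm X) c' hc'0 (by
      intro n hn
      obtain ⟨i1, i2, i3, i4⟩ := hMI X n hXX0 hX8 hn
      have hMM := hMI' X n hXX0 hX8 hn
      rw [hvol]
      refine hM0 (MM X n) (by exact_mod_cast g2.trans hMM) (II X n) i2 ?_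
      refine le_trans ?_ (g1.trans i4)
      exact Real.rpow_le_rpow (Nat.cast_nonneg _) (by exact_mod_cast i3) (by norm_num))
    rw [hvol] at this
    exact this

end Pool.Agent.K7.H49.ME
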